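import Pool.Agent.QUL.Itv

set_option autoImplicit false

/-!
# Project QU, layer A: forms on pairs of spaces of vectors

`U` plays the role of `L ^ σ` (the Frobenius twist of the row space) and `W` the role of the
orthogonal space of `L`. A box `p = (C, G)` is the set of the pairs `(c, d)`, `c ∈ U` zero on `C`,
`d ∈ W` zero outside of `G`. Forms are ambient bilinear forms; only their values on boxes matter.
-/

open Module (finrank)

namespace Pool.Agent.QU

/-- ambient bilinear forms -/
abbrev Fm (K E : Type) [Field K] : Type := (E → K) →ₗ[K] (E → K) →ₗ[K] K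

section

variable {K E : Type} [Field K]

/-- the vectors of `U` that vanish on `C` -/
def van (U : Submodule K (E → K)) (C : Finset E) : Submodule K (E → K) where
  carrier := {c | c ∈ U ∧ ∀ x ∈ C, c x = 0}
  add_mem' := by
    rintro a b ⟨ha, ha'⟩ ⟨hb, hb'⟩
    exact ⟨U.add_mem ha hb, fun x hx => by rw [Pi.add_apply, ha' x hx, hb' x hx, add_zero]⟩
  zero_mem' := ⟨U.zero_mem, fun _ _ => rfl⟩
  smul_mem' := by
    rintro k a ⟨ha, ha'⟩
    exact ⟨U.smul_mem k ha, fun x hx => by rw [Pi.smul_apply, ha' x hx, smul_zero]⟩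

/-- the vectors of `W` that vanish outside of `G` -/
def spt (W : Submodule K (E → K)) (G : Finset E) : Submodule K (E → K) where
  carrier := {d | d ∈ W ∧ ∀ x, x ∉ G → d x = 0}
  add_mem' := by
    rintro a b ⟨ha, ha'⟩ ⟨hb, hb'⟩
    exact ⟨W.add_mem ha hb, fun x hx => by rw [Pi.add_apply, ha' x hx, hb' x hx, add_zero]⟩
  zero_mem' := ⟨W.zero_mem, fun _ _ => rfl⟩
  smul_mem' := by
    rintro k a ⟨ha, ha'⟩
    exact ⟨W.smul_mem k ha, fun x hx => by rw [Pi.smul_apply, ha' x hx, smul_zero]⟩

theorem mem_van {U : Submodule K (E → K)} {C : Finset E} {c : E → K} :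
    c ∈ van U C ↔ c ∈ U ∧ ∀ x ∈ C, c x = 0 := Iff.rfl

theorem mem_spt {W : Submodule K (E → K)} {G : Finset E} {d : E → K} :
    d ∈ spt W G ↔ d ∈ W ∧ ∀ x, x ∉ G → d x = 0 := Iff.rfl

/-- the diagonal form `∑ l x * (c x * d x)` -/
def dg [Fintype E] (l : E → K) : Fm K E :=
  LinearMap.mk₂ K (fun c d => ∑ x, l x * (c x * d x))
    (fun c c' d => by
      rw [← Finset.sum_add_distrib]
      exact Finset.sum_congr rfl fun x _ => by rw [Pi.add_apply]; ring)
    (fun k c d => by
      rw [smul_eq_mul, Finset.mul_sum]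
      exact Finset.sum_congr rfl fun x _ => by rw [Pi.smul_apply, smul_eq_mul]; ring)
    (fun c d d' => by
      rw [← Finset.sum_add_distrib]
      exact Finset.sum_congr rfl fun x _ => by rw [Pi.add_apply]; ring)
    (fun k c d => by
      rw [smul_eq_mul, Finset.mul_sum]
      exact Finset.sum_congr rfl fun x _ => by rw [Pi.smul_apply, smul_eq_mul]; ring)

theorem dg_apply [Fintype E] (l c d : E → K) : dg l c d = ∑ x, l x * (c x * d x) := rfl

/-- `T` and `T'` agree on the box `p` of the pair `(U, W)` -/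
def EqOn (U W : Submodule K (E → K)) (p : Itv E) (T T' : Fm K E) : Prop :=
  ∀ c ∈ van U p.1, ∀ d ∈ spt W p.2, T c d = T' c d

/-- `T` and `T'` agree on the box `p` up to a diagonal form -/
def EqD [Fintype E] (U W : Submodule K (E → K)) (p : Itv E) (T T' : Fm K E) : Prop :=
  ∃ l : E → K, EqOn U W p T (T' + dg l)

/-- `T` vanishes on the pairs of vectors with disjoint supports of the box `p` -/
def InV (U W : Submodule K (E → K)) (p : Itv E) (T : Fm K E) : Prop :=
  ∀ c ∈ van U p.1, ∀ d ∈ spt W p.2, (∀ x, c x * d x = 0) → T c d = 0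

end

section

variable {K E : Type} [Field K] [Fintype E] [DecidableEq E]

/-- A twisted pair: two representations (with row spaces `U` and the orthogonal space of `W`) of one
matroid with rank function `r` which have different cross ratios on every `U_{2,4}`-minor. -/
structure TP (K E : Type) [Field K] [Fintype E] [DecidableEq E] where
  /-- the row space of the first representation -/
  U : Submodule K (E → K)
  /-- the relations of the second representation -/
  W : Submodule K (E → K)
  /-- the rank function -/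
  r : Finset E → ℤ
  hU : ∀ C : Finset E, (finrank K (van U C) : ℤ) = r Finset.univ - r C
  hW : ∀ G : Finset E, (finrank K (spt W G) : ℤ) = G.card - r G
  tw : ∀ Y N : Finset E, Disjoint Y N → N.card = 4 → r (Y ∪ N) = r Y + 2 →
    (∀ i ∈ N, ∀ j ∈ N, i ≠ j → r (Y ∪ {i, j}) = r Y + 2) →
    ∀ l : E → K, EqOn U W (Y, Y ∪ N) (dg l) 0 → ∀ x ∈ N, l x = 0

/-- `q` is a minor of `p` -/
def Sub (q p : Itv E) : Prop := p.1 ⊆ q.1 ∧ q.2 ⊆ p.2

/-- the five-element minors `U_{2,5}` and `U_{3,5}` -/
def Rich (r : Finset E → ℤ) (q : Itv E) : Prop :=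
  q.1 ⊆ q.2 ∧ (gs q).card = 5 ∧
  ((r q.2 = r q.1 + 2 ∧ ∀ i ∈ gs q, ∀ j ∈ gs q, i ≠ j → r (q.1 ∪ {i, j}) = r q.1 + 2) ∨
   (r q.2 = r q.1 + 3 ∧ ∀ i ∈ gs q, ∀ j ∈ gs q, ∀ k ∈ gs q, i ≠ j → i ≠ k → j ≠ k →
      r (q.1 ∪ {i, j, k}) = r q.1 + 3))

/-- the forms in `V(p)` which are diagonal on no rich five-element minor of `p` -/
def InVs (S : TP K E) (p : Itv E) (T : Fm K E) : Prop :=
  InV S.U S.W p T ∧ ∀ q, Sub q p → Rich S.r q → ¬ EqD S.U S.W q T 0

/-- the forms in `V(p)` which are diagonal on every rich five-element minor of `p` -/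
def InV0 (S : TP K E) (p : Itv E) (T : Fm K E) : Prop :=
  InV S.U S.W p T ∧ ∀ q, Sub q p → Rich S.r q → EqD S.U S.W q T 0

/-- nondegeneracy of two removals (`true` = deletion, `false` = contraction) of `u` and `v` in the
box `p` -/
def ND (r : Finset E → ℤ) (p : Itv E) (u v : E) : Bool → Bool → Prop
  | true, true => r (p.2.erase u) + r (p.2.erase v) = r p.2 + r ((p.2.erase u).erase v)
  | false, false => r (insert u p.1) + r (insert v p.1) = r p.1 + r (insert u (insert v p.1))
  | true, false => ∃ X ⊆ p.2, u ∈ X ∧ r (X.erase u) = r X ∧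
      r (insert v (p.1 ∪ X)) = r (p.1 ∪ X) + 1
  | false, true => ∃ X ⊆ p.2, v ∈ X ∧ r (X.erase v) = r X ∧
      r (insert u (p.1 ∪ X)) = r (p.1 ∪ X) + 1

end

end Pool.Agent.QU
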