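import Pool.Agent.QUL.LRank

set_option autoImplicit false

/-!
# Project QU, layer A, module LRk: the rank function of a twisted pair is a rank function of layer B
-/

namespace Pool.Agent.QU

variable {K E : Type} [Field K] [Fintype E] [DecidableEq E]

theorem TP.rk (S : TP K E) : QUB.Rk S.r where
  empty := S.r_empty
  mono := fun _ _ h => S.r_mono h
  unit := fun A x => S.r_insert_le x A
  sub := S.r_submod

/-- four point line minors kill diagonal forms -/
theorem TP.tw_ln (S : TP K E) {p : Itv E} {N : Finset E} (hN : QUB.Ln S.r p N) {l : E → K}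
    (hl : EqOn S.U S.W p (dg l) 0) : ∀ x ∈ N, l x = 0 := by
  obtain ⟨h4, Y, h1, h2, h3, h5, h6⟩ := hN
  have hq : Sub (Y, Y ∪ N) p := ⟨h1, h2⟩
  refine S.tw Y N h3.symm h4 h5 (fun i hi j hj hij => ?_) l (hl.mono hq)
  have h7 := h6 i hi j hj hij
  have h8 : Y ∪ {i, j} = insert i (insert j Y) := by
    ext y
    simp only [Finset.mem_union, Finset.mem_insert, Finset.mem_singleton]
    tauto
  rw [h8]
  exact h7

end Pool.Agent.QU
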