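import Pool.Agent.QUL.LBase

set_option autoImplicit false

/-!
# Project QU, layer A, module LGlue: gluing of forms

PLAN. `glue_box`: put `A₀ = A₁ ⊓ A₂`; choose a complement `A'` of `A₀` inside of `A₂` (as a submodule
of `V`: `A₀ ⊔ A' = A₂`, `A₀ ⊓ A' = ⊥`); `A₁ ⊓ A' = ⊥`, so there is a complement `C` of `A₁` with
`A' ≤ C` (`Disjoint.exists_isCompl`), and the projection `P` onto `A₁` along `C` (as a linear map
`V → V`, e.g. `Submodule.linearProjOfIsCompl`) satisfies `P a ∈ A₁`, `P a = a` for `a ∈ A₁`, and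
`P a ∈ A₁ ⊓ A₂` for `a ∈ A₂`. In the same way `Q` for `B₁`, `B₂`. Then
`T a b = T₁ (P a) (Q b) + T₂ a b - T₂ (P a) (Q b)` works
(`LinearMap.compl₁₂`: `T₁.compl₁₂ P Q + T₂ - T₂.compl₁₂ P Q`).
`glue`: `van_union`, `spt_inter`. `glue_rm`: `glue` for `rm t x p` and `rm s y p`; the intersection
box is `rm t x (rm s y p)` (cases on `t`, `s`).
`inV_of_rm`: `c x * d x = 0`, so `c x = 0` or `d x = 0`.
`eqOn_of_rm`: if `c x = 0` for all `c ∈ van U p.1` or `d x = 0` for all `d ∈ spt W p.2` then `k = 0`;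
otherwise choose `c₀`, `d₀` in these spaces with `c₀ x = d₀ x = 1` and `k = T c₀ d₀ - T' c₀ d₀`, and
write `c = (c - c x • c₀) + c x • c₀`, `d = (d - d x • d₀) + d x • d₀`; use `dg_single`.
-/

namespace Pool.Agent.QU

section

variable {K : Type} [Field K]

private theorem lglue_proj {V : Type} [AddCommGroup V] [Module K V] (A₁ A₂ : Submodule K V) :
    ∃ P : V →ₗ[K] V, (∀ a ∈ A₁, P a = a) ∧ ∀ a ∈ A₂, P a ∈ A₁ ⊓ A₂ := by
  obtain ⟨C₀, hC₀⟩ := exists_isCompl (A₁ ⊓ A₂)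
  have hdis : Disjoint (C₀ ⊓ A₂) A₁ := by
    rw [Submodule.disjoint_def]
    rintro x ⟨hx1, hx2⟩ hx3
    exact Submodule.disjoint_def.1 hC₀.disjoint x ⟨hx3, hx2⟩ hx1
  obtain ⟨C, hC, hCA⟩ := hdis.exists_isCompl
  have hAC : IsCompl A₁ C := hCA.symm
  refine ⟨A₁.subtype ∘ₗ Submodule.projectionOnto A₁ C hAC, ?_, ?_⟩
  · intro a ha
    rw [LinearMap.comp_apply, Submodule.projectionOnto_apply_left hAC ⟨a, ha⟩]
    rfl
  · intro a ha
    have h1 : A₂ ≤ (A₁ ⊓ A₂) ⊔ (C₀ ⊓ A₂) := by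
      rw [← sup_inf_assoc_of_le C₀ (inf_le_right : A₁ ⊓ A₂ ≤ A₂), hC₀.sup_eq_top, top_inf_eq]
    obtain ⟨a₀, ha₀, a', ha', rfl⟩ := Submodule.mem_sup.1 (h1 ha)
    rw [map_add]
    have h2 : (A₁.subtype ∘ₗ Submodule.projectionOnto A₁ C hAC) a' = 0 := by
      rw [LinearMap.comp_apply, Submodule.projectionOnto_apply_right hAC ⟨a', hC ha'⟩, map_zero]
    have h3 : (A₁.subtype ∘ₗ Submodule.projectionOnto A₁ C hAC) a₀ = a₀ := by
      rw [LinearMap.comp_apply, Submodule.projectionOnto_apply_left hAC ⟨a₀, ha₀.1⟩]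
      rfl
    rw [h2, h3, add_zero]
    exact ha₀

theorem glue_box {V V' : Type} [AddCommGroup V] [Module K V] [AddCommGroup V'] [Module K V']
    (A₁ A₂ : Submodule K V) (B₁ B₂ : Submodule K V') (T₁ T₂ : V →ₗ[K] V' →ₗ[K] K)
    (h : ∀ a ∈ A₁ ⊓ A₂, ∀ b ∈ B₁ ⊓ B₂, T₁ a b = T₂ a b) :
    ∃ T : V →ₗ[K] V' →ₗ[K] K, (∀ a ∈ A₁, ∀ b ∈ B₁, T a b = T₁ a b) ∧
      ∀ a ∈ A₂, ∀ b ∈ B₂, T a b = T₂ a b := by
  obtain ⟨P, hP1, hP2⟩ := lglue_proj A₁ A₂
  obtain ⟨Q, hQ1, hQ2⟩ := lglue_proj B₁ B₂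
  refine ⟨T₁.compl₁₂ P Q + T₂ - T₂.compl₁₂ P Q, fun a ha b hb => ?_, fun a ha b hb => ?_⟩
  · rw [LinearMap.sub_apply, LinearMap.sub_apply, LinearMap.add_apply, LinearMap.add_apply,
      LinearMap.compl₁₂_apply, LinearMap.compl₁₂_apply, hP1 a ha, hQ1 b hb, add_sub_cancel_right]
  · rw [LinearMap.sub_apply, LinearMap.sub_apply, LinearMap.add_apply, LinearMap.add_apply,
      LinearMap.compl₁₂_apply, LinearMap.compl₁₂_apply, h _ (hP2 a ha) _ (hQ2 b hb),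
      add_sub_cancel_left]

end

section

variable {K E : Type} [Field K] [DecidableEq E] {U W : Submodule K (E → K)}

theorem glue (p q : Itv E) (T₁ T₂ : Fm K E) (h : EqOn U W (p.1 ∪ q.1, p.2 ∩ q.2) T₁ T₂) :
    ∃ T : Fm K E, EqOn U W p T T₁ ∧ EqOn U W q T T₂ := by
  refine glue_box (van U p.1) (van U q.1) (spt W p.2) (spt W q.2) T₁ T₂ ?_
  intro a ha b hb
  rw [← van_union] at ha
  rw [← spt_inter] at hb
  exact h a ha b hb

theorem glue_rm (t s : Bool) (x y : E) (p : Itv E) (T₁ T₂ : Fm K E)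
    (h : EqOn U W (rm t x (rm s y p)) T₁ T₂) :
    ∃ T : Fm K E, EqOn U W (rm t x p) T T₁ ∧ EqOn U W (rm s y p) T T₂ := by
  refine glue (rm t x p) (rm s y p) T₁ T₂ (h.mono ?_)
  cases t <;> cases s
  · refine ⟨fun z hz => ?_, fun z hz => ?_⟩
    · simp only [rm_false, Finset.mem_union, Finset.mem_insert] at hz ⊢
      tauto
    · simp only [rm_false, Finset.mem_inter] at hz ⊢
      tauto
  · refine ⟨fun z hz => ?_, fun z hz => ?_⟩
    · simp only [rm_false, rm_true, Finset.mem_union, Finset.mem_insert] at hz ⊢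
      tauto
    · simp only [rm_false, rm_true, Finset.mem_inter, Finset.mem_erase] at hz ⊢
      tauto
  · refine ⟨fun z hz => ?_, fun z hz => ?_⟩
    · simp only [rm_false, rm_true, Finset.mem_union, Finset.mem_insert] at hz ⊢
      tauto
    · simp only [rm_false, rm_true, Finset.mem_inter, Finset.mem_erase] at hz ⊢
      tauto
  · refine ⟨fun z hz => ?_, fun z hz => ?_⟩
    · simp only [rm_true, Finset.mem_union] at hz ⊢
      tauto
    · simp only [rm_true, Finset.mem_inter, Finset.mem_erase] at hz ⊢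
      tauto

private theorem lglue_spt {x : E} {p : Itv E} {d : E → K} (hd : d ∈ spt W p.2) (h : d x = 0) :
    d ∈ spt W (rm true x p).2 := by
  refine ⟨hd.1, fun y hy => ?_⟩
  rw [rm_true] at hy
  by_cases hyx : y = x
  · rw [hyx, h]
  · exact hd.2 y fun h1 => hy (Finset.mem_erase.2 ⟨hyx, h1⟩)

private theorem lglue_van {x : E} {p : Itv E} {c : E → K} (hc : c ∈ van U p.1) (h : c x = 0) :
    c ∈ van U (rm false x p).1 := by
  refine ⟨hc.1, fun y hy => ?_⟩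
  rw [rm_false] at hy
  rcases Finset.mem_insert.1 hy with h1 | h1
  · rw [h1, h]
  · exact hc.2 y h1

theorem inV_of_rm {x : E} {p : Itv E} {T : Fm K E} (h : InV U W (rm true x p) T)
    (h' : InV U W (rm false x p) T) : InV U W p T := by
  intro c hc d hd hcd
  rcases mul_eq_zero.1 (hcd x) with h1 | h1
  · exact h' c (lglue_van hc h1) d hd hcd
  · exact h c hc d (lglue_spt hd h1) hcd

theorem eqOn_of_rm [Fintype E] {x : E} {p : Itv E} {T T' : Fm K E}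
    (h : EqOn U W (rm true x p) T T') (h' : EqOn U W (rm false x p) T T') :
    ∃ k : K, EqOn U W p T (T' + dg (Pi.single x k)) := by
  have hval : ∀ (k : K) (c d : E → K), (T' + dg (Pi.single x k)) c d = T' c d + k * (c x * d x) := by
    intro k c d
    rw [LinearMap.add_apply, LinearMap.add_apply, dg_single]
  by_cases h1 : ∀ c ∈ van U p.1, c x = 0
  · refine ⟨0, fun c hc d hd => ?_⟩
    rw [hval, zero_mul, add_zero]
    exact h' c (lglue_van hc (h1 c hc)) d hd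
  by_cases h2 : ∀ d ∈ spt W p.2, d x = 0
  · refine ⟨0, fun c hc d hd => ?_⟩
    rw [hval, zero_mul, add_zero]
    exact h c hc d (lglue_spt hd (h2 d hd))
  push Not at h1 h2
  obtain ⟨c₀, hc₀, hc₀x⟩ := h1
  obtain ⟨d₀, hd₀, hd₀x⟩ := h2
  refine ⟨(c₀ x)⁻¹ * (d₀ x)⁻¹ * (T c₀ d₀ - T' c₀ d₀), fun c hc d hd => ?_⟩
  rw [hval]
  -- first reduction
  have e1 : T (c - (c x * (c₀ x)⁻¹) • c₀) d = T' (c - (c x * (c₀ x)⁻¹) • c₀) d := by
    refine h' _ (lglue_van (Submodule.sub_mem _ hc (Submodule.smul_mem _ _ hc₀)) ?_) d hd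
    rw [Pi.sub_apply, Pi.smul_apply, smul_eq_mul, mul_assoc, inv_mul_cancel₀ hc₀x, mul_one, sub_self]
  have e2 : T c₀ (d - (d x * (d₀ x)⁻¹) • d₀) = T' c₀ (d - (d x * (d₀ x)⁻¹) • d₀) := by
    refine h c₀ hc₀ _ (lglue_spt (Submodule.sub_mem _ hd (Submodule.smul_mem _ _ hd₀)) ?_)
    rw [Pi.sub_apply, Pi.smul_apply, smul_eq_mul, mul_assoc, inv_mul_cancel₀ hd₀x, mul_one, sub_self]
  rw [map_sub, map_sub, map_smul, map_smul, LinearMap.sub_apply, LinearMap.sub_apply,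
    LinearMap.smul_apply, LinearMap.smul_apply, smul_eq_mul, smul_eq_mul] at e1
  rw [map_sub, map_sub, map_smul, map_smul, smul_eq_mul, smul_eq_mul] at e2
  linear_combination e1 + c x * (c₀ x)⁻¹ * e2

end

end Pool.Agent.QU
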