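import Pool.Agent.QUL.LHalfV
import Pool.Agent.QUL.LGlue

set_option autoImplicit false

/-!
# Project QU, layer A, module LSum: construction of a form on a 2-sum

`C = p.1`, `G = p.2`, `B = gs p \ A`, `C ∪ B = G \ A`, `C ∪ A = G \ B`; halves `(X, b)` of `A` with `Y = insert b (C ∪ A ∪ X)` and
`(X', a)` of `B` with `Y' = insert a (C ∪ B ∪ X')`.

PLAN. `lin_split`: let `V₁'` be a complement of `V₁ ⊓ V₂` in `V₁`; `V₁' ⊓ V₂ = ⊥`, so there is a complement `N` of `V₁'` with `V₂ ≤ N`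
(`Disjoint.exists_isCompl`, see the proof of `lglue_proj` in LGlue); `P` is the projection onto `V₁'` along `N`.
`two_sum`: by `half_proj_f` `van U C ≤ van U X ⊔ van U (C ∪ A)`, so `lin_split` gives `P` with `P c ∈ van U X` and
`c - P c ∈ van U (C ∪ A)` for `c ∈ van U C`; in the same way `Q` with `Q d ∈ spt W Y`, `d - Q d ∈ spt W (C ∪ B)` for `d ∈ spt W G`;
`P'` with `P' c ∈ van U X'`, `c - P' c ∈ van U (C ∪ B)`; `Q'` with `Q' d ∈ spt W Y'`, `d - Q' d ∈ spt W (C ∪ A)` (`IsKink.symm`).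
So `P c = c` on `A`, `f (P c) = f c`, `Q d = d` on `A`, `g (Q d) = g d`, `P' c = c` on `B` and so on. Put
`T c d = TA (P c) (Q d) + TB (P' c) (Q' d)` (`LinearMap.compl₁₂`).
`InV`: let `c`, `d` be disjoint. By `kink_disj` `f c = 0` or `g d = 0`. Then `P c`, `Q d` are disjoint: on `A` they are `c`, `d`,
on `X` `P c = 0`, at `b` one of them is zero (`half_val`: `f (P c) = α * P c b`, `g (Q d) = β * Q d b`), outside `Y` `Q d = 0`. So
`TA (P c) (Q d) = 0`, in the same way `TB (P' c) (Q' d) = 0`.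
`EqD` on the half of `A` (`c ∈ van U X`, `d ∈ spt W Y`): (1) `c - P c` vanishes on `C ∪ A ∪ X` and at `b`
(`r (insert b (C ∪ A ∪ X)) = r (C ∪ A ∪ X)`, `S.van_eq_zero`), so on `Y`: `TA (c - P c) d = 0`. `d - Q d` is in
`spt W (insert b X)`, and zero at `b` (`S.spt_eq_zero`, `r (insert b X) = r X + 1`), so disjoint from `P c`:
`TA (P c) (Q d) = TA c d`. (2) `TB (P' c) (Q' d) = 0` if `f c = 0` or `g d = 0`: if `f c = 0` then `c b = 0` (`half_val`), and
`P' c a = 0`; on `B` `P' c = c` and `Q' d = d` vanishes outside `insert b X`, `c` vanishes on `X`; so `P' c` and `Q' d` are disjoint. If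
`g d = 0` then `d b = 0` and `Q' d a = 0`, again they are disjoint. So there is `k` with `TB (P' c) (Q' d) = k * (f c * g d)` on the half
(take `c₀`, `d₀` in the half with `f c₀ = g d₀ = 1`), which is `dg (Pi.single b (k * α * β)) c d`.
`EqD` on the half of `B`: symmetric (prove the first part as a private lemma with the roles of `A`, `B` free).
-/

namespace Pool.Agent.QU

theorem lin_split {K V : Type} [Field K] [AddCommGroup V] [Module K V] (V₁ V₂ : Submodule K V) :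
    ∃ P : V →ₗ[K] V, ∀ v ∈ V₁ ⊔ V₂, P v ∈ V₁ ∧ v - P v ∈ V₂ := by
  obtain ⟨C₀, hC₀⟩ := exists_isCompl (V₁ ⊓ V₂)
  have hdis : Disjoint V₂ (C₀ ⊓ V₁) := by
    rw [Submodule.disjoint_def]
    rintro x hx3 ⟨hx1, hx2⟩
    exact Submodule.disjoint_def.1 hC₀.disjoint x ⟨hx2, hx3⟩ hx1
  obtain ⟨N, hN, hNV⟩ := hdis.exists_isCompl
  have hVN : IsCompl (C₀ ⊓ V₁) N := hNV.symm
  refine ⟨(C₀ ⊓ V₁).subtype ∘ₗ Submodule.projectionOnto (C₀ ⊓ V₁) N hVN, fun v hv => ?_⟩
  have hr : ∀ y ∈ V₂, ((C₀ ⊓ V₁).subtype ∘ₗ Submodule.projectionOnto (C₀ ⊓ V₁) N hVN) y = 0 := by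
    intro y hy
    rw [LinearMap.comp_apply, Submodule.projectionOnto_apply_right hVN ⟨y, hN hy⟩, map_zero]
  have hl : ∀ y ∈ C₀ ⊓ V₁,
      ((C₀ ⊓ V₁).subtype ∘ₗ Submodule.projectionOnto (C₀ ⊓ V₁) N hVN) y = y := by
    intro y hy
    rw [LinearMap.comp_apply, Submodule.projectionOnto_apply_left hVN ⟨y, hy⟩]
    rfl
  obtain ⟨v₁, hv₁, v₂, hv₂, rfl⟩ := Submodule.mem_sup.1 hv
  have h1 : V₁ ≤ (V₁ ⊓ V₂) ⊔ (C₀ ⊓ V₁) := by
    rw [← sup_inf_assoc_of_le C₀ (inf_le_left : V₁ ⊓ V₂ ≤ V₁), hC₀.sup_eq_top, top_inf_eq]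
  obtain ⟨u, hu, w, hw, rfl⟩ := Submodule.mem_sup.1 (h1 hv₁)
  rw [map_add, map_add, hr u hu.2, hl w hw, hr v₂ hv₂, zero_add, add_zero]
  refine ⟨hw.2, ?_⟩
  have e : u + w + v₂ - w = u + v₂ := by abel
  rw [e]
  exact V₂.add_mem hu.2 hv₂

variable {K E : Type} [Field K] [Fintype E] [DecidableEq E]

/-- the two projections on a half -/
private theorem LSum_proj (S : TP K E) {p : Itv E} (hp : p.1 ⊆ p.2) {A : Finset E}
    (hA : A ⊆ gs p) (hl : lam S.r p A = 1) {f g : (E → K) →ₗ[K] K} (hk : IsKink S p A f g)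
    {X : Finset E} {b : E} (hh : Half S.r p A X b) :
    ∃ P Q : (E → K) →ₗ[K] (E → K),
      (∀ c ∈ van S.U p.1, P c ∈ van S.U X ∧ c - P c ∈ van S.U (p.1 ∪ A) ∧ f (P c) = f c) ∧
      (∀ d ∈ spt S.W p.2, Q d ∈ spt S.W (insert b (p.1 ∪ A ∪ X)) ∧
        d - Q d ∈ spt S.W (p.2 \ A) ∧ g (Q d) = g d) := by
  obtain ⟨P, hP⟩ := lin_split (van S.U X) (van S.U (p.1 ∪ A))
  obtain ⟨Q, hQ⟩ := lin_split (spt S.W (insert b (p.1 ∪ A ∪ X))) (spt S.W (p.2 \ A))
  have hs := half_sub hp hA hh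
  refine ⟨P, Q, fun c hc => ?_, fun d hd => ?_⟩
  · have h1 : c ∈ van S.U X ⊔ van S.U (p.1 ∪ A) := by
      obtain ⟨c', hc', h2, -⟩ := half_proj_f S hp hA hl hk hh hc
      refine Submodule.mem_sup.2 ⟨c', hc', c - c', ?_, by abel⟩
      have h3 : c' ∈ van S.U p.1 := van_anti hs.1 hc'
      have h4 : c - c' ∈ van S.U p.1 := (van S.U p.1).sub_mem hc h3
      refine ⟨h4.1, fun x hx => ?_⟩
      rcases Finset.mem_union.1 hx with hx | hx
      · exact h4.2 x hx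
      · rw [Pi.sub_apply, h2 x hx, sub_self]
    obtain ⟨h5, h6⟩ := hP c h1
    refine ⟨h5, h6, ?_⟩
    have h7 : f (c - P c) = 0 :=
      (hk.hf _ (van_anti Finset.subset_union_left h6)).2 (Submodule.mem_sup_left h6)
    rw [map_sub] at h7
    exact (sub_eq_zero.1 h7).symm
  · have h1 : d ∈ spt S.W (insert b (p.1 ∪ A ∪ X)) ⊔ spt S.W (p.2 \ A) := by
      obtain ⟨d', hd', h2, -⟩ := half_proj_g S hp hA hl hk hh hd
      refine Submodule.mem_sup.2 ⟨d', hd', d - d', ?_, by abel⟩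
      have h3 : d' ∈ spt S.W p.2 := spt_mono hs.2.1 hd'
      have h4 : d - d' ∈ spt S.W p.2 := (spt S.W p.2).sub_mem hd h3
      refine ⟨h4.1, fun x hx => ?_⟩
      by_cases hxA : x ∈ A
      · rw [Pi.sub_apply, h2 x hxA, sub_self]
      · exact h4.2 x fun hx' => hx (Finset.mem_sdiff.2 ⟨hx', hxA⟩)
    obtain ⟨h5, h6⟩ := hQ d h1
    refine ⟨h5, h6, ?_⟩
    have h7 : g (d - Q d) = 0 :=
      (hk.hg _ (spt_mono Finset.sdiff_subset h6)).2 (Submodule.mem_sup_right h6)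
    rw [map_sub] at h7
    exact (sub_eq_zero.1 h7).symm

/-- disjoint vectors of the box have disjoint projections -/
private theorem LSum_zero (S : TP K E) {p : Itv E} (hp : p.1 ⊆ p.2) {A : Finset E}
    (hA : A ⊆ gs p) (hl : lam S.r p A = 1) {f g : (E → K) →ₗ[K] K} (hk : IsKink S p A f g)
    {X : Finset E} {b : E} (hh : Half S.r p A X b) {P Q : (E → K) →ₗ[K] (E → K)}
    (hP : ∀ c ∈ van S.U p.1, P c ∈ van S.U X ∧ c - P c ∈ van S.U (p.1 ∪ A) ∧ f (P c) = f c)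
    (hQ : ∀ d ∈ spt S.W p.2, Q d ∈ spt S.W (insert b (p.1 ∪ A ∪ X)) ∧
      d - Q d ∈ spt S.W (p.2 \ A) ∧ g (Q d) = g d) {TA : Fm K E}
    (hTA : InV S.U S.W (hb p A X b) TA) {c d : E → K} (hc : c ∈ van S.U p.1)
    (hd : d ∈ spt S.W p.2) (hAd : ∀ x ∈ A, c x * d x = 0) (hfg : f c = 0 ∨ g d = 0) :
    TA (P c) (Q d) = 0 := by
  obtain ⟨α, β, hα, hβ, hf, hg, -, -⟩ := half_val S hp hA hl hk hh
  obtain ⟨hP1, hP2, hP3⟩ := hP c hc
  obtain ⟨hQ1, hQ2, hQ3⟩ := hQ d hd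
  refine hTA (P c) hP1 (Q d) hQ1 fun x => ?_
  by_cases hxX : x ∈ X
  · rw [hP1.2 x hxX, zero_mul]
  by_cases hxA : x ∈ A
  · have h1 : (c - P c) x = 0 := hP2.2 x (Finset.mem_union_right _ hxA)
    have h2 : (d - Q d) x = 0 := hQ2.2 x fun h => (Finset.mem_sdiff.1 h).2 hxA
    rw [Pi.sub_apply, sub_eq_zero] at h1 h2
    rw [← h1, ← h2]
    exact hAd x hxA
  by_cases hxb : x = b
  · rcases hfg with h1 | h1
    · rw [← hP3, hf _ hP1, mul_eq_zero, or_iff_right hα] at h1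
      rw [hxb, h1, zero_mul]
    · rw [← hQ3, hg _ hQ1, mul_eq_zero, or_iff_right hβ] at h1
      rw [hxb, h1, mul_zero]
  · have h1 : x ∉ insert b (p.1 ∪ A ∪ X) := by
      intro h
      rcases Finset.mem_insert.1 h with h | h
      · exact hxb h
      · rcases Finset.mem_union.1 h with h | h
        · rcases Finset.mem_union.1 h with h | h
          · exact hxX (hh.1 h)
          · exact hxA h
        · exact hxX h
    rw [hQ1.2 x h1, mul_zero]

/-- on the half the first summand is the given form -/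
private theorem LSum_self (S : TP K E) {p : Itv E} (hp : p.1 ⊆ p.2) {A : Finset E}
    (hA : A ⊆ gs p) {f g : (E → K) →ₗ[K] K}
    {X : Finset E} {b : E} (hh : Half S.r p A X b) {P Q : (E → K) →ₗ[K] (E → K)}
    (hP : ∀ c ∈ van S.U p.1, P c ∈ van S.U X ∧ c - P c ∈ van S.U (p.1 ∪ A) ∧ f (P c) = f c)
    (hQ : ∀ d ∈ spt S.W p.2, Q d ∈ spt S.W (insert b (p.1 ∪ A ∪ X)) ∧
      d - Q d ∈ spt S.W (p.2 \ A) ∧ g (Q d) = g d) {TA : Fm K E}
    (hTA : InV S.U S.W (hb p A X b) TA) {c d : E → K} (hc : c ∈ van S.U X)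
    (hd : d ∈ spt S.W (insert b (p.1 ∪ A ∪ X))) : TA (P c) (Q d) = TA c d := by
  have hs := half_sub hp hA hh
  obtain ⟨hP1, hP2, -⟩ := hP c (van_anti hs.1 hc)
  obtain ⟨hQ1, hQ2, -⟩ := hQ d (spt_mono hs.2.1 hd)
  obtain ⟨hCX, hXA, hbA, hbX, hr1, hr2⟩ := hh
  have hu := S.r_insert_le b X
  have hm := S.r_mono (Finset.subset_insert b (p.1 ∪ A ∪ X))
  have hb1 : S.r (insert b (p.1 ∪ A ∪ X)) = S.r (p.1 ∪ A ∪ X) := by linarith
  have hb2 : S.r (insert b X) = S.r X + 1 := by linarith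
  have h1 : c - P c ∈ van S.U X := (van S.U X).sub_mem hc hP1
  have h2 : c - P c ∈ van S.U (p.1 ∪ A ∪ X) := by
    rw [van_union]
    exact ⟨hP2, h1⟩
  have h3 : (c - P c) b = 0 := S.van_eq_zero hb1 _ h2
  have e1 : TA (c - P c) d = 0 := by
    refine hTA _ h1 d hd fun x => ?_
    by_cases hx : x ∈ insert b (p.1 ∪ A ∪ X)
    · rcases Finset.mem_insert.1 hx with h | h
      · rw [h, h3, zero_mul]
      · rw [h2.2 x h, zero_mul]
    · rw [hd.2 x hx, mul_zero]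
  have h4 : d - Q d ∈ spt S.W (insert b (p.1 ∪ A ∪ X)) := (spt S.W _).sub_mem hd hQ1
  have h5 : d - Q d ∈ spt S.W (insert b X) := by
    refine ⟨h4.1, fun x hx => ?_⟩
    by_cases hx2 : x ∈ insert b (p.1 ∪ A ∪ X)
    · refine hQ2.2 x fun h => hx ?_
      rcases Finset.mem_insert.1 hx2 with h' | h'
      · exact Finset.mem_insert.2 (Or.inl h')
      · rcases Finset.mem_union.1 h' with h' | h'
        · rcases Finset.mem_union.1 h' with h' | h'
          · exact Finset.mem_insert_of_mem (hCX h')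
          · exact absurd h' (Finset.mem_sdiff.1 h).2
        · exact Finset.mem_insert_of_mem h'
    · exact h4.2 x hx2
  have h6 : (d - Q d) b = 0 := by
    refine S.spt_eq_zero (Finset.mem_insert_self b X) ?_ _ h5
    rw [Finset.erase_insert hbX, hb2]
    ring
  have e2 : TA (P c) (d - Q d) = 0 := by
    refine hTA _ hP1 _ h4 fun x => ?_
    by_cases hx : x ∈ X
    · rw [hP1.2 x hx, zero_mul]
    · by_cases hxb : x = b
      · rw [hxb, h6, mul_zero]
      · rw [h5.2 x fun h => (Finset.mem_insert.1 h).elim hxb hx, mul_zero]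
  rw [map_sub, LinearMap.sub_apply, sub_eq_zero] at e1
  rw [map_sub, sub_eq_zero] at e2
  rw [e1, e2]

/-- on the half the second summand is diagonal -/
private theorem LSum_cross (S : TP K E) {p : Itv E} (hp : p.1 ⊆ p.2) {A B : Finset E}
    (hA : A ⊆ gs p) (hB : B ⊆ gs p) (hAB : ∀ x ∈ B, x ∉ A) (hl : lam S.r p A = 1)
    (hl' : lam S.r p B = 1) {f g : (E → K) →ₗ[K] K} (hk : IsKink S p A f g)
    (hk' : IsKink S p B f g) {X X' : Finset E} {b a : E} (hh : Half S.r p A X b)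
    (hh' : Half S.r p B X' a) {P Q : (E → K) →ₗ[K] (E → K)}
    (hP : ∀ c ∈ van S.U p.1, P c ∈ van S.U X' ∧ c - P c ∈ van S.U (p.1 ∪ B) ∧ f (P c) = f c)
    (hQ : ∀ d ∈ spt S.W p.2, Q d ∈ spt S.W (insert a (p.1 ∪ B ∪ X')) ∧
      d - Q d ∈ spt S.W (p.2 \ B) ∧ g (Q d) = g d) {TB : Fm K E}
    (hTB : InV S.U S.W (hb p B X' a) TB) :
    ∃ k : K, ∀ c ∈ van S.U X, ∀ d ∈ spt S.W (insert b (p.1 ∪ A ∪ X)),
      TB (P c) (Q d) = k * (c b * d b) := by
  have hs := half_sub hp hA hh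
  obtain ⟨α, β, hα, hβ, hf, hg, ⟨c₀, hc₀, hc₀b⟩, ⟨d₀, hd₀, hd₀b⟩⟩ := half_val S hp hA hl hk hh
  have key : ∀ c ∈ van S.U X, ∀ d ∈ spt S.W (insert b (p.1 ∪ A ∪ X)), c b * d b = 0 →
      TB (P c) (Q d) = 0 := by
    intro c hc d hd hcd
    refine LSum_zero S hp hB hl' hk' hh' hP hQ hTB (van_anti hs.1 hc) (spt_mono hs.2.1 hd)
      (fun x hx => ?_) ?_
    · by_cases hxb : x = b
      · rw [hxb, hcd]
      · by_cases hxX : x ∈ X
        · rw [hc.2 x hxX, zero_mul]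
        · have h1 : x ∉ insert b (p.1 ∪ A ∪ X) := by
            intro h
            rcases Finset.mem_insert.1 h with h | h
            · exact hxb h
            · rcases Finset.mem_union.1 h with h | h
              · rcases Finset.mem_union.1 h with h | h
                · exact (Finset.mem_sdiff.1 (hB hx)).2 h
                · exact hAB x hx h
              · exact hxX h
          rw [hd.2 x h1, mul_zero]
    · rcases mul_eq_zero.1 hcd with h | h
      · left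
        rw [hf c hc, h, mul_zero]
      · right
        rw [hg d hd, h, mul_zero]
  refine ⟨TB (P c₀) (Q d₀), fun c hc d hd => ?_⟩
  have e1 : TB (P (c - c b • c₀)) (Q d) = 0 := by
    refine key _ ((van S.U X).sub_mem hc ((van S.U X).smul_mem _ hc₀)) d hd ?_
    rw [Pi.sub_apply, Pi.smul_apply, smul_eq_mul, hc₀b, mul_one, sub_self, zero_mul]
  have e2 : TB (P c₀) (Q (d - d b • d₀)) = 0 := by
    refine key c₀ hc₀ _ ((spt S.W _).sub_mem hd ((spt S.W _).smul_mem _ hd₀)) ?_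
    rw [Pi.sub_apply, Pi.smul_apply, smul_eq_mul, hd₀b, mul_one, sub_self, mul_zero]
  rw [map_sub, map_smul, map_sub, map_smul, LinearMap.sub_apply, LinearMap.smul_apply,
    smul_eq_mul] at e1
  rw [map_sub, map_smul, map_sub, map_smul, smul_eq_mul] at e2
  linear_combination e1 + c b * e2

theorem two_sum (S : TP K E) {p : Itv E} (hp : p.1 ⊆ p.2) {A : Finset E} (hA : A ⊆ gs p)
    (hl : lam S.r p A = 1) {X X' : Finset E} {b a : E} (hX : Half S.r p A X b)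
    (hX' : Half S.r p (gs p \ A) X' a) {TA TB : Fm K E} (hTA : InV S.U S.W (hb p A X b) TA)
    (hTB : InV S.U S.W (hb p (gs p \ A) X' a) TB) :
    ∃ T : Fm K E, InV S.U S.W p T ∧ EqD S.U S.W (hb p A X b) T TA ∧
      EqD S.U S.W (hb p (gs p \ A) X' a) T TB := by
  obtain ⟨f, g, hk⟩ := kink_exists S hp hA hl
  have hB : gs p \ A ⊆ gs p := Finset.sdiff_subset
  have hl' : lam S.r p (gs p \ A) = 1 := by
    rw [← hl]
    exact QUB.lam_compl S.r hp hA
  have hk' : IsKink S p (gs p \ A) f g := hk.symm hp hA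
  obtain ⟨P, Q, hP, hQ⟩ := LSum_proj S hp hA hl hk hX
  obtain ⟨P', Q', hP', hQ'⟩ := LSum_proj S hp hB hl' hk' hX'
  obtain ⟨k, hkk⟩ := LSum_cross S hp hA hB (fun x hx => (Finset.mem_sdiff.1 hx).2) hl hl' hk hk'
    hX hX' hP' hQ' hTB
  obtain ⟨k', hkk'⟩ := LSum_cross S hp hB hA (fun x hx h => (Finset.mem_sdiff.1 h).2 hx) hl' hl
    hk' hk hX' hX hP hQ hTA
  have hval : ∀ c d : E → K, (TA.compl₁₂ P Q + TB.compl₁₂ P' Q') c d =
      TA (P c) (Q d) + TB (P' c) (Q' d) := by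
    intro c d
    rw [LinearMap.add_apply, LinearMap.add_apply, LinearMap.compl₁₂_apply,
      LinearMap.compl₁₂_apply]
  refine ⟨TA.compl₁₂ P Q + TB.compl₁₂ P' Q', fun c hc d hd hcd => ?_,
    ⟨Pi.single b k, fun c hc d hd => ?_⟩, ⟨Pi.single a k', fun c hc d hd => ?_⟩⟩
  · have hfg := kink_disj S hp hA hl hk hc hd hcd
    rw [hval, LSum_zero S hp hA hl hk hX hP hQ hTA hc hd (fun x _ => hcd x) hfg,
      LSum_zero S hp hB hl' hk' hX' hP' hQ' hTB hc hd (fun x _ => hcd x) hfg, add_zero]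
  · rw [hval, LinearMap.add_apply, LinearMap.add_apply, dg_single,
      LSum_self S hp hA hX hP hQ hTA hc hd, hkk c hc d hd]
  · rw [hval, LinearMap.add_apply, LinearMap.add_apply, dg_single,
      LSum_self S hp hB hX' hP' hQ' hTB hc hd, hkk' c hc d hd, add_comm]

end Pool.Agent.QU
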