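import Pool.Agent.QUL.LTransV
import Pool.Agent.QUL.LSum
import Pool.Agent.QUL.LRk

set_option autoImplicit false

/-!
# Project QU, layer A, module LSumS: `V_*` of a 2-sum and of a direct sum

PLAN. `two_sum_star`: `T` from `two_sum`; let `q ⊆ p` be rich with `EqD q T 0`. By `rich_side` one side has at most one element of
`gs q`. If it is `gs p \ A`: `transport` gives a rich `q'` in the half of `A` with `EqD q' T 0`, and `EqD q' T TA` (`EqD.mono`), so
`EqD q' TA 0`, against `hTA.2`. Otherwise the same for `gs p \ A` in the place of `A` (`lam_compl`, `gs p \ (gs p \ A) = A`,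
`QUB.lam_compl`).
`one_sum`: `C = p.1`, `G = p.2`, `C ∪ B = G \ A`; `lam S.r p A ≤ 0` gives `van U C = van U (C ∪ A) ⊔ van U (C ∪ B)` and
`spt W G = spt W (C ∪ A) ⊔ spt W (C ∪ B)` (dimensions, `hU`, `hW`). `lin_split` gives `P` with `P c ∈ van U (C ∪ B)`,
`c - P c ∈ van U (C ∪ A)`, `P'` with `P' c ∈ van U (C ∪ A)`, `c - P' c ∈ van U (C ∪ B)`, and `Q`, `Q'` with `Q d ∈ spt W (C ∪ A)`,
`Q' d ∈ spt W (C ∪ B)`. Put `T c d = TA (P c) (Q d) + TB (P' c) (Q' d)`. As in `two_sum`, but simpler. For `c ∈ van U C`,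
`d ∈ spt W (C ∪ A)`: `c - P c` vanishes on `C ∪ A`, `d - Q d ∈ spt W C`, so `TA (P c) (Q d) = TA c d`; `P' c`, `Q' d` are disjoint
because `Q' d = d - (..)` vanishes on `B`.
`one_sum_star`: a rich `q ⊆ p` has `gs q ⊆ A` or `gs q ⊆ B` (`lam r q (A ∩ gs q) ≤ 0`; a proper nonempty subset has `lam ≥ 1`). Say
`gs q ⊆ A`, put `q' = (C ∪ (q.1 ∩ A), C ∪ (q.1 ∩ A) ∪ gs q)`, it is rich (`r (S ∪ Z) = r S + r Z - r C` for `C ⊆ S ⊆ C ∪ A`,
`C ⊆ Z ⊆ C ∪ B`) and contained in `(C, C ∪ A)`. If `T = dg l` on `q` then `T = dg l` on `q'`: for `c' ∈ van U q'.1`, `d' ∈ spt W q'.2`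
write `c' = c₂ + c₁` (`c₂ ∈ van U (C ∪ A)`, `c₁ ∈ van U (C ∪ B)`); `c₁ ∈ van U q.1`, `T c₂ d' = 0` (`d' ∈ spt W (C ∪ A)`),
`d' ∈ spt W q.2`, so `T c' d' = T c₁ d' = dg l c₁ d' = dg l c' d'`.
-/

open Module (finrank)

namespace Pool.Agent.QU

section

variable {E : Type} [DecidableEq E] {r : Finset E → ℤ} {p q : Itv E}

private theorem lsums_compl1 (h : p.1 ⊆ p.2) {A : Finset E} (hA : A ⊆ gs p) :
    p.1 ∪ (gs p \ A) = p.2 \ A := by
  ext y
  have h1 : y ∈ p.1 → y ∈ p.2 := fun hy => h hy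
  have h2 : y ∈ A → y ∈ p.2 ∧ y ∉ p.1 := fun hy => Finset.mem_sdiff.1 (hA hy)
  simp only [Finset.mem_union, Finset.mem_sdiff, gs]
  tauto

private theorem lsums_compl2 {A : Finset E} (hA : A ⊆ gs p) : gs p \ (gs p \ A) = A := by
  ext y
  have h1 : y ∈ A → y ∈ gs p := fun h => hA h
  simp only [Finset.mem_sdiff]
  tauto

/-- ranks add up along a separation of order one -/
private theorem lsums_mod (hr : QUB.Rk r) (hp : p.1 ⊆ p.2) {A : Finset E} (hA : A ⊆ gs p)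
    (hl : lam r p A ≤ 0) {S F : Finset E} (hS : p.1 ⊆ S) (hS' : S ⊆ p.1 ∪ A) (hF : p.1 ⊆ F)
    (hF' : F ⊆ p.2 \ A) : r (S ∪ F) + r p.1 = r S + r F := by
  have hA' : ∀ y, y ∈ A → y ∈ p.2 ∧ y ∉ p.1 := fun y hy => Finset.mem_sdiff.1 (hA hy)
  have a1 := hr.sub S F
  have e1 : S ∩ F = p.1 := by
    ext y
    have h1 : y ∈ p.1 → y ∈ S := fun h => hS h
    have h2 : y ∈ p.1 → y ∈ F := fun h => hF h
    have h3 : y ∈ S → y ∈ p.1 ∨ y ∈ A := fun h => Finset.mem_union.1 (hS' h)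
    have h4 : y ∈ F → y ∈ p.2 ∧ y ∉ A := fun h => Finset.mem_sdiff.1 (hF' h)
    simp only [Finset.mem_inter]
    tauto
  rw [e1] at a1
  have a2 := hr.sub (p.1 ∪ A) (S ∪ F)
  have e2 : (p.1 ∪ A) ∪ (S ∪ F) = p.1 ∪ A ∪ F := by
    ext y
    have h3 : y ∈ S → y ∈ p.1 ∨ y ∈ A := fun h => Finset.mem_union.1 (hS' h)
    simp only [Finset.mem_union]
    tauto
  have e3 : (p.1 ∪ A) ∩ (S ∪ F) = S := by
    ext y
    have h1 : y ∈ p.1 → y ∈ S := fun h => hS h
    have h3 : y ∈ S → y ∈ p.1 ∨ y ∈ A := fun h => Finset.mem_union.1 (hS' h)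
    have h4 : y ∈ F → y ∈ p.2 ∧ y ∉ A := fun h => Finset.mem_sdiff.1 (hF' h)
    simp only [Finset.mem_union, Finset.mem_inter]
    tauto
  rw [e2, e3] at a2
  have a3 := hr.sub (p.1 ∪ A ∪ F) (p.2 \ A)
  have e4 : (p.1 ∪ A ∪ F) ∪ (p.2 \ A) = p.2 := by
    ext y
    have h0 : y ∈ p.1 → y ∈ p.2 := fun h => hp h
    have h4 : y ∈ F → y ∈ p.2 ∧ y ∉ A := fun h => Finset.mem_sdiff.1 (hF' h)
    have h5 := hA' y
    simp only [Finset.mem_union, Finset.mem_sdiff]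
    tauto
  have e5 : (p.1 ∪ A ∪ F) ∩ (p.2 \ A) = F := by
    ext y
    have h2 : y ∈ p.1 → y ∈ F := fun h => hF h
    have h4 : y ∈ F → y ∈ p.2 ∧ y ∉ A := fun h => Finset.mem_sdiff.1 (hF' h)
    simp only [Finset.mem_union, Finset.mem_inter, Finset.mem_sdiff]
    tauto
  rw [e4, e5] at a3
  unfold lam at hl
  linarith

omit [DecidableEq E] in
private theorem lsums_two {N : Finset E} (h : 2 ≤ N.card) :
    ∃ i ∈ N, ∃ j ∈ N, i ≠ j := by
  obtain ⟨i, hi, j, hj, hij⟩ := Finset.one_lt_card.1 (show 1 < N.card by omega)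
  exact ⟨i, hi, j, hj, hij⟩

omit [DecidableEq E] in
private theorem lsums_three {N : Finset E} (h : 3 ≤ N.card) :
    ∃ i ∈ N, ∃ j ∈ N, ∃ k ∈ N, i ≠ j ∧ i ≠ k ∧ j ≠ k := by
  obtain ⟨i, hi, j, hj, k, hk, hij, hik, hjk⟩ := Finset.two_lt_card.1 (show 2 < N.card by omega)
  exact ⟨i, hi, j, hj, k, hk, hij, hik, hjk⟩

private theorem lsums_one (hr : QUB.Rk r) (hR : Rich r q) {Z : Finset E} (hZ : Z ⊆ gs q)
    (hne : Z.Nonempty) : r q.1 + 1 ≤ r (q.1 ∪ Z) := by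
  obtain ⟨i, hi⟩ := hne
  have h0 : r (insert i q.1) ≤ r (q.1 ∪ Z) := by
    refine hr.mono _ _ (Finset.insert_subset (Finset.mem_union_right _ hi) ?_)
    exact Finset.subset_union_left
  have hi' := hZ hi
  obtain ⟨-, h5, hR' | hR'⟩ := hR
  · obtain ⟨j, hj⟩ : ((gs q).erase i).Nonempty := by
      rw [← Finset.card_pos, Finset.card_erase_of_mem hi']
      omega
    obtain ⟨hji, hj'⟩ := Finset.mem_erase.1 hj
    have h1 := hR'.2 j hj' i hi' hji
    have e1 : q.1 ∪ {j, i} = insert j (insert i q.1) := by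
      ext y
      simp only [Finset.mem_union, Finset.mem_insert, Finset.mem_singleton]
      tauto
    rw [e1] at h1
    have h2 := hr.unit (insert i q.1) j
    linarith
  · obtain ⟨j, hj, k, hk, hjk⟩ := lsums_two (N := (gs q).erase i) (by
      rw [Finset.card_erase_of_mem hi']
      omega)
    obtain ⟨hji, hj'⟩ := Finset.mem_erase.1 hj
    obtain ⟨hki, hk'⟩ := Finset.mem_erase.1 hk
    have h1 := hR'.2 j hj' k hk' i hi' hjk hji hki
    have e1 : q.1 ∪ {j, k, i} = insert j (insert k (insert i q.1)) := by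
      ext y
      simp only [Finset.mem_union, Finset.mem_insert, Finset.mem_singleton]
      tauto
    rw [e1] at h1
    have h2 := hr.unit (insert i q.1) k
    have h3 := hr.unit (insert k (insert i q.1)) j
    linarith

private theorem lsums_big (hr : QUB.Rk r) (hR : Rich r q) {Z : Finset E} (hZ : Z ⊆ gs q)
    (hc : 3 ≤ Z.card) : r q.2 ≤ r (q.1 ∪ Z) := by
  obtain ⟨i, hi, j, hj, k, hk, hij, hik, hjk⟩ := lsums_three hc
  obtain ⟨-, h5, hR' | hR'⟩ := hR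
  · have h1 := hR'.2 i (hZ hi) j (hZ hj) hij
    have h2 : r (q.1 ∪ {i, j}) ≤ r (q.1 ∪ Z) := by
      refine hr.mono _ _ (Finset.union_subset_union (Finset.Subset.refl _) ?_)
      intro y hy
      simp only [Finset.mem_insert, Finset.mem_singleton] at hy
      rcases hy with rfl | rfl
      · exact hi
      · exact hj
    linarith [hR'.1]
  · have h1 := hR'.2 i (hZ hi) j (hZ hj) k (hZ hk) hij hik hjk
    have h2 : r (q.1 ∪ {i, j, k}) ≤ r (q.1 ∪ Z) := by
      refine hr.mono _ _ (Finset.union_subset_union (Finset.Subset.refl _) ?_)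
      intro y hy
      simp only [Finset.mem_insert, Finset.mem_singleton] at hy
      rcases hy with rfl | rfl | rfl
      · exact hi
      · exact hj
      · exact hk
    linarith [hR'.1]

private theorem lsums_split (hr : QUB.Rk r) (hp : p.1 ⊆ p.2) {A : Finset E} (hA : A ⊆ gs p)
    (hl : lam r p A ≤ 0) (hq : Sub q p) (hR : Rich r q) : gs q ⊆ A ∨ gs q ⊆ gs p \ A := by
  by_contra hcon
  push Not at hcon
  obtain ⟨h1, h2⟩ := hcon
  have hA' : ∀ y, y ∈ A → y ∈ p.2 ∧ y ∉ p.1 := fun y hy => Finset.mem_sdiff.1 (hA hy)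
  have hgq : ∀ y, y ∈ gs q → y ∈ gs p := fun y hy => by
    obtain ⟨h3, h4⟩ := Finset.mem_sdiff.1 hy
    exact Finset.mem_sdiff.2 ⟨hq.2 h3, fun h5 => h4 (hq.1 h5)⟩
  have hn1 : (gs q \ A).Nonempty := by
    obtain ⟨y, hy, hy'⟩ := Finset.not_subset.1 h1
    exact ⟨y, Finset.mem_sdiff.2 ⟨hy, hy'⟩⟩
  have hn2 : (gs q ∩ A).Nonempty := by
    obtain ⟨y, hy, hy'⟩ := Finset.not_subset.1 h2
    refine ⟨y, Finset.mem_inter.2 ⟨hy, ?_⟩⟩
    by_contra h3
    exact hy' (Finset.mem_sdiff.2 ⟨hgq y hy, h3⟩)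
  have hq12 : q.1 ⊆ q.2 := hR.1
  -- the four sets
  have hmod : ∀ Z : Finset E, Z ⊆ gs q → r (q.1 ∪ Z) + r p.1 =
      r (p.1 ∪ ((q.1 ∪ Z) ∩ A)) + r (p.1 ∪ ((q.1 ∪ Z) \ A)) := by
    intro Z hZ
    have hmem : ∀ y, y ∈ q.1 ∪ Z → y ∈ p.2 := by
      intro y hy
      rcases Finset.mem_union.1 hy with h | h
      · exact hq.2 (hq12 h)
      · exact hq.2 (Finset.mem_sdiff.1 (hZ h)).1
    have h3 := lsums_mod hr hp hA hl (S := p.1 ∪ ((q.1 ∪ Z) ∩ A)) (F := p.1 ∪ ((q.1 ∪ Z) \ A))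
      Finset.subset_union_left
      (Finset.union_subset_union (Finset.Subset.refl _) Finset.inter_subset_right)
      Finset.subset_union_left (by
        intro y hy
        rcases Finset.mem_union.1 hy with h | h
        · exact Finset.mem_sdiff.2 ⟨hp h, fun h' => (hA' y h').2 h⟩
        · exact Finset.mem_sdiff.2 ⟨hmem y (Finset.mem_sdiff.1 h).1, (Finset.mem_sdiff.1 h).2⟩)
    have e1 : p.1 ∪ ((q.1 ∪ Z) ∩ A) ∪ (p.1 ∪ ((q.1 ∪ Z) \ A)) = q.1 ∪ Z := by
      ext y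
      have h4 : y ∈ p.1 → y ∈ q.1 := fun h => hq.1 h
      simp only [Finset.mem_union, Finset.mem_inter, Finset.mem_sdiff]
      tauto
    rw [e1] at h3
    exact h3
  have m0 := hmod ∅ (Finset.empty_subset _)
  have m1 := hmod (gs q ∩ A) Finset.inter_subset_left
  have m2 := hmod (gs q \ A) Finset.sdiff_subset
  have m3 := hmod (gs q) (Finset.Subset.refl _)
  have e0 : q.1 ∪ gs q = q.2 := Finset.union_sdiff_of_subset hq12
  rw [e0] at m3
  have e1 : (q.1 ∪ gs q ∩ A) ∩ A = q.2 ∩ A := by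
    rw [← e0]
    ext y
    simp only [Finset.mem_union, Finset.mem_inter]
    tauto
  have e2 : (q.1 ∪ gs q ∩ A) \ A = q.1 \ A := by
    ext y
    simp only [Finset.mem_union, Finset.mem_inter, Finset.mem_sdiff]
    tauto
  have e3 : (q.1 ∪ gs q \ A) ∩ A = q.1 ∩ A := by
    ext y
    simp only [Finset.mem_union, Finset.mem_inter, Finset.mem_sdiff]
    tauto
  have e4 : (q.1 ∪ gs q \ A) \ A = q.2 \ A := by
    rw [← e0]
    ext y
    simp only [Finset.mem_union, Finset.mem_sdiff]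
    tauto
  rw [e1, e2] at m1
  rw [e3, e4] at m2
  rw [Finset.union_empty] at m0
  have hkey : r (q.1 ∪ gs q ∩ A) + r (q.1 ∪ gs q \ A) = r q.2 + r q.1 := by linarith
  have hcard := Finset.card_inter_add_card_sdiff (gs q) A
  rw [hR.2.1] at hcard
  have b1 := lsums_one hr hR (Finset.inter_subset_left (s₁ := gs q) (s₂ := A)) hn2
  have b2 := lsums_one hr hR (Finset.sdiff_subset (s := gs q) (t := A)) hn1
  by_cases h3 : 3 ≤ (gs q ∩ A).card
  · have b3 := lsums_big hr hR (Finset.inter_subset_left (s₁ := gs q) (s₂ := A)) h3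
    linarith
  · have b3 := lsums_big hr hR (Finset.sdiff_subset (s := gs q) (t := A)) (by omega)
    linarith

private theorem lsums_rich {q' : Itv E} (hq' : q'.1 ⊆ q'.2) (hg : gs q' = gs q)
    (h : ∀ Z ⊆ gs q, r (q'.1 ∪ Z) + r q.1 = r (q.1 ∪ Z) + r q'.1) (hR : Rich r q) :
    Rich r q' := by
  have e0 : q.1 ∪ gs q = q.2 := Finset.union_sdiff_of_subset hR.1
  have e1 : q'.1 ∪ gs q = q'.2 := by
    rw [← hg]
    exact Finset.union_sdiff_of_subset hq'
  have h0 := h (gs q) (Finset.Subset.refl _)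
  rw [e0, e1] at h0
  refine ⟨hq', by rw [hg]; exact hR.2.1, ?_⟩
  rw [hg]
  obtain ⟨-, -, hR' | hR'⟩ := hR
  · left
    refine ⟨by linarith [hR'.1], fun i hi j hj hij => ?_⟩
    have h1 := h {i, j} (by
      intro y hy
      simp only [Finset.mem_insert, Finset.mem_singleton] at hy
      rcases hy with rfl | rfl
      · exact hi
      · exact hj)
    have h2 := hR'.2 i hi j hj hij
    linarith
  · right
    refine ⟨by linarith [hR'.1], fun i hi j hj k hk hij hik hjk => ?_⟩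
    have h1 := h {i, j, k} (by
      intro y hy
      simp only [Finset.mem_insert, Finset.mem_singleton] at hy
      rcases hy with rfl | rfl | rfl
      · exact hi
      · exact hj
      · exact hk)
    have h2 := hR'.2 i hi j hj k hk hij hik hjk
    linarith

end

variable {K E : Type} [Field K] [Fintype E] [DecidableEq E]

private theorem lsums_van (S : TP K E) {p : Itv E} (hp : p.1 ⊆ p.2) {A : Finset E}
    (hA : A ⊆ gs p) (hl : lam S.r p A ≤ 0) :
    van S.U (p.2 \ A) ⊔ van S.U (p.1 ∪ A) = van S.U p.1 := by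
  have hA' : ∀ y, y ∈ A → y ∈ p.2 ∧ y ∉ p.1 := fun y hy => Finset.mem_sdiff.1 (hA hy)
  have hle : van S.U (p.2 \ A) ⊔ van S.U (p.1 ∪ A) ≤ van S.U p.1 := by
    refine sup_le (van_anti ?_) (van_anti Finset.subset_union_left)
    intro y hy
    exact Finset.mem_sdiff.2 ⟨hp hy, fun h' => (hA' y h').2 hy⟩
  refine Submodule.eq_of_le_of_finrank_le hle ?_
  have h5 := Submodule.finrank_sup_add_finrank_inf_eq (van S.U (p.2 \ A)) (van S.U (p.1 ∪ A))
  rw [← van_union] at h5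
  have h6 : p.2 \ A ∪ (p.1 ∪ A) = p.2 := by
    ext y
    have h0 : y ∈ p.1 → y ∈ p.2 := fun h => hp h
    have h5 := hA' y
    simp only [Finset.mem_union, Finset.mem_sdiff]
    tauto
  rw [h6] at h5
  have a1 := S.hU p.1
  have a2 := S.hU (p.2 \ A)
  have a3 := S.hU (p.1 ∪ A)
  have a4 := S.hU p.2
  have c5 : (finrank K ↥(van S.U (p.2 \ A) ⊔ van S.U (p.1 ∪ A)) : ℤ) +
      finrank K (van S.U p.2) =
      finrank K (van S.U (p.2 \ A)) + finrank K (van S.U (p.1 ∪ A)) := by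
    exact_mod_cast h5
  unfold lam at hl
  have c6 : (finrank K (van S.U p.1) : ℤ) ≤
      finrank K ↥(van S.U (p.2 \ A) ⊔ van S.U (p.1 ∪ A)) := by linarith
  exact_mod_cast c6

private theorem lsums_spt (S : TP K E) {p : Itv E} (hp : p.1 ⊆ p.2) {A : Finset E}
    (hA : A ⊆ gs p) (hl : lam S.r p A ≤ 0) :
    spt S.W (p.1 ∪ A) ⊔ spt S.W (p.2 \ A) = spt S.W p.2 := by
  have hA' : ∀ y, y ∈ A → y ∈ p.2 ∧ y ∉ p.1 := fun y hy => Finset.mem_sdiff.1 (hA hy)
  have hle : spt S.W (p.1 ∪ A) ⊔ spt S.W (p.2 \ A) ≤ spt S.W p.2 := by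
    refine sup_le (spt_mono ?_) (spt_mono Finset.sdiff_subset)
    intro y hy
    rcases Finset.mem_union.1 hy with h | h
    · exact hp h
    · exact (hA' y h).1
  refine Submodule.eq_of_le_of_finrank_le hle ?_
  have h5 := Submodule.finrank_sup_add_finrank_inf_eq (spt S.W (p.1 ∪ A)) (spt S.W (p.2 \ A))
  rw [← spt_inter] at h5
  have h6 : (p.1 ∪ A) ∩ (p.2 \ A) = p.1 := by
    ext y
    have h0 : y ∈ p.1 → y ∈ p.2 := fun h => hp h
    have h5 := hA' y
    simp only [Finset.mem_union, Finset.mem_sdiff, Finset.mem_inter]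
    tauto
  rw [h6] at h5
  have a1 := S.hW p.1
  have a2 := S.hW (p.2 \ A)
  have a3 := S.hW (p.1 ∪ A)
  have a4 := S.hW p.2
  have b1 : ((p.1 ∪ A).card : ℤ) = p.1.card + A.card := by
    rw [Finset.card_union_of_disjoint]
    · push_cast
      rfl
    · exact Finset.disjoint_right.2 fun y hy => (hA' y hy).2
  have b2 : ((p.2 \ A).card : ℤ) = p.2.card - A.card := by
    have h7 := Finset.card_sdiff_add_card_eq_card (fun y hy => (hA' y hy).1 : A ⊆ p.2)
    have h8 : ((p.2 \ A).card : ℤ) + A.card = p.2.card := by exact_mod_cast h7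
    linarith
  have c5 : (finrank K ↥(spt S.W (p.1 ∪ A) ⊔ spt S.W (p.2 \ A)) : ℤ) +
      finrank K (spt S.W p.1) =
      finrank K (spt S.W (p.1 ∪ A)) + finrank K (spt S.W (p.2 \ A)) := by
    exact_mod_cast h5
  unfold lam at hl
  have c6 : (finrank K (spt S.W p.2) : ℤ) ≤
      finrank K ↥(spt S.W (p.1 ∪ A) ⊔ spt S.W (p.2 \ A)) := by linarith
  exact_mod_cast c6

/-- a diagonal form on a rich minor with the ground set in `A` is moved to the box of `A` -/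
private theorem lsums_move (S : TP K E) {p q : Itv E} (hp : p.1 ⊆ p.2) {A : Finset E}
    (hA : A ⊆ gs p) (hl : lam S.r p A ≤ 0) {T : Fm K E} (hT : InV S.U S.W p T) (hq : Sub q p)
    (hR : Rich S.r q) (hg : gs q ⊆ A) (hD : EqD S.U S.W q T 0) :
    ∃ q' : Itv E, Sub q' (p.1, p.1 ∪ A) ∧ Rich S.r q' ∧ EqD S.U S.W q' T 0 := by
  have hA' : ∀ y, y ∈ A → y ∈ p.2 ∧ y ∉ p.1 := fun y hy => Finset.mem_sdiff.1 (hA hy)
  have hq12 : q.1 ⊆ q.2 := hR.1
  have hg' : ∀ y, y ∈ gs q → y ∈ q.2 ∧ y ∉ q.1 := fun y hy => Finset.mem_sdiff.1 hy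
  have hq'1 : p.1 ∪ (q.1 ∩ A) ⊆ p.1 ∪ (q.1 ∩ A) ∪ gs q := Finset.subset_union_left
  have hq'q : p.1 ∪ (q.1 ∩ A) ⊆ q.1 :=
    Finset.union_subset hq.1 Finset.inter_subset_left
  have hgs : gs (p.1 ∪ (q.1 ∩ A), p.1 ∪ (q.1 ∩ A) ∪ gs q) = gs q := by
    ext y
    have h1 := hg' y
    have h2 : y ∈ p.1 ∪ (q.1 ∩ A) → y ∈ q.1 := fun h => hq'q h
    show y ∈ (p.1 ∪ (q.1 ∩ A) ∪ gs q) \ (p.1 ∪ (q.1 ∩ A)) ↔ y ∈ gs q
    rw [Finset.mem_sdiff, Finset.mem_union]
    tauto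
  have hq'2 : p.1 ∪ (q.1 ∩ A) ∪ gs q ⊆ p.1 ∪ A := by
    refine Finset.union_subset ?_ (hg.trans Finset.subset_union_right)
    exact Finset.union_subset_union (Finset.Subset.refl _) Finset.inter_subset_right
  refine ⟨(p.1 ∪ (q.1 ∩ A), p.1 ∪ (q.1 ∩ A) ∪ gs q), ⟨Finset.subset_union_left, hq'2⟩,
    lsums_rich hq'1 hgs ?_ hR, ?_⟩
  · intro Z hZ
    have hZA : Z ⊆ A := hZ.trans hg
    have hF1 : p.1 ⊆ p.1 ∪ (q.1 \ A) := Finset.subset_union_left
    have hF2 : p.1 ∪ (q.1 \ A) ⊆ p.2 \ A := by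
      intro y hy
      rcases Finset.mem_union.1 hy with h | h
      · exact Finset.mem_sdiff.2 ⟨hp h, fun h' => (hA' y h').2 h⟩
      · obtain ⟨h1, h2⟩ := Finset.mem_sdiff.1 h
        exact Finset.mem_sdiff.2 ⟨hq.2 (hq12 h1), h2⟩
    have m1 := lsums_mod S.rk hp hA hl (S := p.1 ∪ (q.1 ∩ A) ∪ Z) (F := p.1 ∪ (q.1 \ A))
      (Finset.subset_union_left.trans Finset.subset_union_left)
      (Finset.union_subset (Finset.union_subset_union (Finset.Subset.refl _)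
        Finset.inter_subset_right) (hZA.trans Finset.subset_union_right)) hF1 hF2
    have m2 := lsums_mod S.rk hp hA hl (S := p.1 ∪ (q.1 ∩ A)) (F := p.1 ∪ (q.1 \ A))
      Finset.subset_union_left
      (Finset.union_subset_union (Finset.Subset.refl _) Finset.inter_subset_right) hF1 hF2
    have e1 : p.1 ∪ (q.1 ∩ A) ∪ Z ∪ (p.1 ∪ (q.1 \ A)) = q.1 ∪ Z := by
      ext y
      have h4 : y ∈ p.1 → y ∈ q.1 := fun h => hq.1 h
      simp only [Finset.mem_union, Finset.mem_inter, Finset.mem_sdiff]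
      tauto
    have e2 : p.1 ∪ (q.1 ∩ A) ∪ (p.1 ∪ (q.1 \ A)) = q.1 := by
      ext y
      have h4 : y ∈ p.1 → y ∈ q.1 := fun h => hq.1 h
      simp only [Finset.mem_union, Finset.mem_inter, Finset.mem_sdiff]
      tauto
    rw [e1] at m1
    rw [e2] at m2
    show S.r (p.1 ∪ (q.1 ∩ A) ∪ Z) + S.r q.1 = S.r (q.1 ∪ Z) + S.r (p.1 ∪ (q.1 ∩ A))
    linarith
  · obtain ⟨l, hl'⟩ := hD
    refine ⟨l, fun c hc d hd => ?_⟩
    have hd' : d ∈ spt S.W (p.1 ∪ A) := spt_mono hq'2 hd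
    have hdp : d ∈ spt S.W p.2 := by
      refine spt_mono ?_ hd'
      intro y hy
      rcases Finset.mem_union.1 hy with h | h
      · exact hp h
      · exact (hA' y h).1
    have hc' : c ∈ van S.U p.1 := van_anti Finset.subset_union_left hc
    rw [← lsums_van S hp hA hl] at hc'
    obtain ⟨c1, hc1, c2, hc2, rfl⟩ := Submodule.mem_sup.1 hc'
    have hdis : ∀ x, c2 x * d x = 0 := by
      intro x
      by_cases hx : x ∈ p.1 ∪ A
      · rw [hc2.2 x hx, zero_mul]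
      · rw [hd'.2 x hx, mul_zero]
    have h1 : T c2 d = 0 := hT c2 (van_anti Finset.subset_union_left hc2) d hdp hdis
    have h2 : dg l c2 d = 0 := by
      rw [dg_apply]
      exact Finset.sum_eq_zero fun x _ => by rw [hdis x, mul_zero]
    have hc1q : c1 ∈ van S.U q.1 := by
      refine ⟨hc1.1, fun y hy => ?_⟩
      by_cases hyA : y ∈ A
      · have h3 := hc.2 y (Finset.mem_union_right _ (Finset.mem_inter.2 ⟨hy, hyA⟩))
        rw [Pi.add_apply, hc2.2 y (Finset.mem_union_right _ hyA), add_zero] at h3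
        exact h3
      · exact hc1.2 y (Finset.mem_sdiff.2 ⟨hq.2 (hq12 hy), hyA⟩)
    have hdq : d ∈ spt S.W q.2 := by
      refine spt_mono ?_ hd
      exact Finset.union_subset (hq'q.trans hq12) Finset.sdiff_subset
    have h3 := hl' c1 hc1q d hdq
    rw [zero_add] at h3 ⊢
    rw [map_add, map_add, LinearMap.add_apply, LinearMap.add_apply, h1, h2, h3]

theorem two_sum_star (S : TP K E) {p : Itv E} (hp : p.1 ⊆ p.2) {A : Finset E} (hA : A ⊆ gs p)
    (hl : lam S.r p A = 1) {X X' : Finset E} {b a : E} (hX : Half S.r p A X b)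
    (hX' : Half S.r p (gs p \ A) X' a) {TA TB : Fm K E} (hTA : InVs S (hb p A X b) TA)
    (hTB : InVs S (hb p (gs p \ A) X' a) TB) :
    ∃ T : Fm K E, InVs S p T ∧ EqD S.U S.W (hb p A X b) T TA ∧
      EqD S.U S.W (hb p (gs p \ A) X' a) T TB := by
  obtain ⟨T, hT, h1, h2⟩ := two_sum S hp hA hl hX hX' hTA.1 hTB.1
  refine ⟨T, ⟨hT, fun q hq hR hD => ?_⟩, h1, h2⟩
  rcases rich_side S.rk hp hA hl.le hq hR with hc | hc
  · have hl' : lam S.r p (gs p \ A) = 1 := by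
      rw [← hl]
      exact QUB.lam_compl S.r hp hA
    have hc' : ((gs p \ (gs p \ A)) ∩ gs q).card ≤ 1 := by
      rw [lsums_compl2 hA]
      exact hc
    obtain ⟨q', hq', hR', hD'⟩ := transport S hp Finset.sdiff_subset hl' hX' hq hR hc' hT hD
    exact hTB.2 q' hq' hR' ((h2.mono hq').symm.trans hD')
  · obtain ⟨q', hq', hR', hD'⟩ := transport S hp hA hl hX hq hR hc hT hD
    exact hTA.2 q' hq' hR' ((h1.mono hq').symm.trans hD')

theorem one_sum (S : TP K E) {p : Itv E} (hp : p.1 ⊆ p.2) {A : Finset E} (hA : A ⊆ gs p)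
    (hl : lam S.r p A ≤ 0) {TA TB : Fm K E} (hTA : InV S.U S.W (p.1, p.1 ∪ A) TA)
    (hTB : InV S.U S.W (p.1, p.2 \ A) TB) :
    ∃ T : Fm K E, InV S.U S.W p T ∧ EqOn S.U S.W (p.1, p.1 ∪ A) T TA ∧
      EqOn S.U S.W (p.1, p.2 \ A) T TB := by
  have hA' : ∀ y, y ∈ A → y ∈ p.2 ∧ y ∉ p.1 := fun y hy => Finset.mem_sdiff.1 (hA hy)
  have hCB : p.1 ⊆ p.2 \ A := fun y hy =>
    Finset.mem_sdiff.2 ⟨hp hy, fun h' => (hA' y h').2 hy⟩
  have hCA : p.1 ⊆ p.1 ∪ A := Finset.subset_union_left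
  have hAG : p.1 ∪ A ⊆ p.2 := Finset.union_subset hp fun y hy => (hA' y hy).1
  obtain ⟨P, hP⟩ := lin_split (van S.U (p.2 \ A)) (van S.U (p.1 ∪ A))
  obtain ⟨P', hP'⟩ := lin_split (van S.U (p.1 ∪ A)) (van S.U (p.2 \ A))
  obtain ⟨Q, hQ⟩ := lin_split (spt S.W (p.1 ∪ A)) (spt S.W (p.2 \ A))
  obtain ⟨Q', hQ'⟩ := lin_split (spt S.W (p.2 \ A)) (spt S.W (p.1 ∪ A))
  rw [lsums_van S hp hA hl] at hP
  rw [sup_comm, lsums_van S hp hA hl] at hP'
  rw [lsums_spt S hp hA hl] at hQ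
  rw [sup_comm, lsums_spt S hp hA hl] at hQ'
  refine ⟨TA.compl₁₂ P Q + TB.compl₁₂ P' Q', fun c hc d hd hcd => ?_, fun c hc d hd => ?_,
    fun c hc d hd => ?_⟩
  · obtain ⟨p1, p2⟩ := hP c hc
    obtain ⟨p3, p4⟩ := hP' c hc
    obtain ⟨q1, q2⟩ := hQ d hd
    obtain ⟨q3, q4⟩ := hQ' d hd
    have h1 : TA (P c) (Q d) = 0 := by
      refine hTA _ (van_anti hCB p1) _ q1 fun x => ?_
      by_cases hx : x ∈ p.1 ∪ A
      · rcases Finset.mem_union.1 hx with hx' | hx'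
        · rw [p1.2 x (hCB hx'), zero_mul]
        · have e1 := p2.2 x hx
          have e2 := q2.2 x (fun h => (Finset.mem_sdiff.1 h).2 hx')
          rw [Pi.sub_apply, sub_eq_zero] at e1 e2
          rw [← e1, ← e2]
          exact hcd x
      · rw [q1.2 x hx, mul_zero]
    have h2 : TB (P' c) (Q' d) = 0 := by
      refine hTB _ (van_anti hCA p3) _ q3 fun x => ?_
      by_cases hx : x ∈ p.2 \ A
      · by_cases hx' : x ∈ p.1 ∪ A
        · rw [p3.2 x hx', zero_mul]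
        · have e1 := p4.2 x hx
          have e2 := q4.2 x hx'
          rw [Pi.sub_apply, sub_eq_zero] at e1 e2
          rw [← e1, ← e2]
          exact hcd x
      · rw [q3.2 x hx, mul_zero]
    rw [LinearMap.add_apply, LinearMap.add_apply, LinearMap.compl₁₂_apply,
      LinearMap.compl₁₂_apply, h1, h2, add_zero]
  · obtain ⟨p1, p2⟩ := hP c hc
    obtain ⟨p3, p4⟩ := hP' c hc
    have hdG : d ∈ spt S.W p.2 := spt_mono hAG hd
    obtain ⟨q1, q2⟩ := hQ d hdG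
    obtain ⟨q3, q4⟩ := hQ' d hdG
    have h1 : TA (c - P c) d = 0 := by
      refine hTA _ (van_anti hCA p2) _ hd fun x => ?_
      by_cases hx : x ∈ p.1 ∪ A
      · rw [p2.2 x hx, zero_mul]
      · rw [hd.2 x hx, mul_zero]
    have h2 : TA (P c) (d - Q d) = 0 := by
      refine hTA _ (van_anti hCB p1) _ ((spt S.W (p.1 ∪ A)).sub_mem hd q1) fun x => ?_
      by_cases hx : x ∈ p.2 \ A
      · rw [p1.2 x hx, zero_mul]
      · rw [q2.2 x hx, mul_zero]
    have h3 : TB (P' c) (Q' d) = 0 := by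
      refine hTB _ (van_anti hCA p3) _ q3 fun x => ?_
      by_cases hx : x ∈ p.1 ∪ A
      · rw [p3.2 x hx, zero_mul]
      · have e1 := q4.2 x hx
        rw [Pi.sub_apply, hd.2 x hx, zero_sub, neg_eq_zero] at e1
        rw [e1, mul_zero]
    rw [LinearMap.add_apply, LinearMap.add_apply, LinearMap.compl₁₂_apply,
      LinearMap.compl₁₂_apply, h3, add_zero]
    rw [map_sub, LinearMap.sub_apply] at h1
    rw [map_sub] at h2
    linear_combination -h1 - h2
  · obtain ⟨p1, p2⟩ := hP c hc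
    obtain ⟨p3, p4⟩ := hP' c hc
    have hdG : d ∈ spt S.W p.2 := spt_mono Finset.sdiff_subset hd
    obtain ⟨q1, q2⟩ := hQ d hdG
    obtain ⟨q3, q4⟩ := hQ' d hdG
    have h1 : TB (c - P' c) d = 0 := by
      refine hTB _ (van_anti hCB p4) _ hd fun x => ?_
      by_cases hx : x ∈ p.2 \ A
      · rw [p4.2 x hx, zero_mul]
      · rw [hd.2 x hx, mul_zero]
    have h2 : TB (P' c) (d - Q' d) = 0 := by
      refine hTB _ (van_anti hCA p3) _ ((spt S.W (p.2 \ A)).sub_mem hd q3) fun x => ?_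
      by_cases hx : x ∈ p.1 ∪ A
      · rw [p3.2 x hx, zero_mul]
      · rw [q4.2 x hx, mul_zero]
    have h3 : TA (P c) (Q d) = 0 := by
      refine hTA _ (van_anti hCB p1) _ q1 fun x => ?_
      by_cases hx : x ∈ p.2 \ A
      · rw [p1.2 x hx, zero_mul]
      · have e1 := q2.2 x hx
        rw [Pi.sub_apply, hd.2 x hx, zero_sub, neg_eq_zero] at e1
        rw [e1, mul_zero]
    rw [LinearMap.add_apply, LinearMap.add_apply, LinearMap.compl₁₂_apply,
      LinearMap.compl₁₂_apply, h3, zero_add]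
    rw [map_sub, LinearMap.sub_apply] at h1
    rw [map_sub] at h2
    linear_combination -h1 - h2

theorem one_sum_star (S : TP K E) {p : Itv E} (hp : p.1 ⊆ p.2) {A : Finset E} (hA : A ⊆ gs p)
    (hl : lam S.r p A ≤ 0) {TA TB : Fm K E} (hTA : InVs S (p.1, p.1 ∪ A) TA)
    (hTB : InVs S (p.1, p.2 \ A) TB) :
    ∃ T : Fm K E, InVs S p T ∧ EqOn S.U S.W (p.1, p.1 ∪ A) T TA ∧
      EqOn S.U S.W (p.1, p.2 \ A) T TB := by
  obtain ⟨T, hT, h1, h2⟩ := one_sum S hp hA hl hTA.1 hTB.1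
  refine ⟨T, ⟨hT, fun q hq hR hD => ?_⟩, h1, h2⟩
  rcases lsums_split S.rk hp hA hl hq hR with hg | hg
  · obtain ⟨q', hq', hR', hD'⟩ := lsums_move S hp hA hl hT hq hR hg hD
    exact hTA.2 q' hq' hR' ((h1.mono hq').symm.eqD.trans hD')
  · have hl' : lam S.r p (gs p \ A) ≤ 0 := by
      rw [show lam S.r p (gs p \ A) = lam S.r p A from QUB.lam_compl S.r hp hA]
      exact hl
    obtain ⟨q', hq', hR', hD'⟩ :=
      lsums_move S hp Finset.sdiff_subset hl' hT hq hR hg hD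
    rw [lsums_compl1 hp hA] at hq'
    exact hTB.2 q' hq' hR' ((h2.mono hq').symm.eqD.trans hD')

end Pool.Agent.QU
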