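import Pool.Agent.QUL.LDefs

set_option autoImplicit false

/-!
# Project QU, layer A: definitions for the uniqueness theorem
-/

namespace Pool.Agent.QU

variable {E : Type} [DecidableEq E]

/-- no separation of order two with at least two elements on both sides -/
def Th3 (r : Finset E → ℤ) (p : Itv E) : Prop :=
  ∀ A ⊆ gs p, 2 ≤ A.card → 2 ≤ (gs p \ A).card → 2 ≤ lam r p A

/-- `q` contains a rich five-element minor -/
def HasRich (r : Finset E → ℤ) (q : Itv E) : Prop := ∃ q', Sub q' q ∧ Rich r q'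

/-- existence of a pair of removals for the uniqueness theorem -/
def Exp (r : Finset E → ℤ) (p : Itv E) : Prop :=
  ∃ u ∈ gs p, ∃ v ∈ gs p, u ≠ v ∧ ∃ t s : Bool,
    QUB.Cn r (rm t u p) ∧ QUB.Ok r (rm t u p) ∧ QUB.Cn r (rm s v p) ∧ QUB.Ok r (rm s v p) ∧
    QUB.Cn r (rm t u (rm s v p)) ∧ (∃ N, QUB.Ln r (rm t u (rm s v p)) N) ∧ ND r p u v t s ∧
    (¬ HasRich r (rm t u p) ∨ ¬ HasRich r (rm s v p) ∨ HasRich r (rm t u (rm s v p)))

/-- the hypothesis of the uniqueness theorem: `Exp` for all 3-connected nonbinary minors with at least six elements -/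
def ExpAll (r : Finset E → ℤ) : Prop :=
  ∀ p : Itv E, p.1 ⊆ p.2 → QUB.Cn r p → Th3 r p → (∃ N, QUB.Ln r p N) → 6 ≤ (gs p).card → Exp r p

end Pool.Agent.QU
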