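import Pool.Agent.QUL.LDefs

set_option autoImplicit false

/-!
# Project QU, layer A: basic lemmas
-/

open Module (finrank)

namespace Pool.Agent.QU

section

variable {K E : Type} [Field K] {U W : Submodule K (E → K)}

theorem van_anti {C C' : Finset E} (h : C ⊆ C') : van U C' ≤ van U C :=
  fun _ hc => ⟨hc.1, fun x hx => hc.2 x (h hx)⟩

theorem spt_mono {G G' : Finset E} (h : G ⊆ G') : spt W G ≤ spt W G' :=
  fun _ hd => ⟨hd.1, fun x hx => hd.2 x fun hx' => hx (h hx')⟩

theorem van_union [DecidableEq E] (C C' : Finset E) : van U (C ∪ C') = van U C ⊓ van U C' := by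
  ext c
  simp only [Submodule.mem_inf, mem_van, Finset.mem_union]
  constructor
  · rintro ⟨h, h'⟩
    exact ⟨⟨h, fun x hx => h' x (Or.inl hx)⟩, h, fun x hx => h' x (Or.inr hx)⟩
  · rintro ⟨⟨h, h'⟩, -, h''⟩
    exact ⟨h, fun x hx => hx.elim (h' x) (h'' x)⟩

theorem spt_inter [DecidableEq E] (G G' : Finset E) : spt W (G ∩ G') = spt W G ⊓ spt W G' := by
  ext d
  simp only [Submodule.mem_inf, mem_spt, Finset.mem_inter, not_and_or]
  constructor
  · rintro ⟨h, h'⟩
    exact ⟨⟨h, fun x hx => h' x (Or.inl hx)⟩, h, fun x hx => h' x (Or.inr hx)⟩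
  · rintro ⟨⟨h, h'⟩, -, h''⟩
    exact ⟨h, fun x hx => hx.elim (h' x) (h'' x)⟩

theorem EqOn.rfl {p : Itv E} {T : Fm K E} : EqOn U W p T T := fun _ _ _ _ => Eq.refl _

theorem EqOn.symm {p : Itv E} {T T' : Fm K E} (h : EqOn U W p T T') : EqOn U W p T' T :=
  fun c hc d hd => (h c hc d hd).symm

theorem EqOn.trans {p : Itv E} {T T' T'' : Fm K E} (h : EqOn U W p T T')
    (h' : EqOn U W p T' T'') : EqOn U W p T T'' :=
  fun c hc d hd => (h c hc d hd).trans (h' c hc d hd)

theorem EqOn.mono [DecidableEq E] {p q : Itv E} {T T' : Fm K E} (h : EqOn U W p T T')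
    (hq : Sub q p) : EqOn U W q T T' :=
  fun c hc d hd => h c (van_anti hq.1 hc) d (spt_mono hq.2 hd)

theorem EqOn.add {p : Itv E} {T T' R R' : Fm K E} (h : EqOn U W p T T')
    (h' : EqOn U W p R R') : EqOn U W p (T + R) (T' + R') :=
  fun c hc d hd => by
    rw [LinearMap.add_apply, LinearMap.add_apply, LinearMap.add_apply, LinearMap.add_apply,
      h c hc d hd, h' c hc d hd]

theorem EqOn.smul {p : Itv E} {T T' : Fm K E} (k : K) (h : EqOn U W p T T') :
    EqOn U W p (k • T) (k • T') :=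
  fun c hc d hd => by
    rw [LinearMap.smul_apply, LinearMap.smul_apply, LinearMap.smul_apply, LinearMap.smul_apply,
      h c hc d hd]

theorem EqOn.sub {p : Itv E} {T T' R R' : Fm K E} (h : EqOn U W p T T')
    (h' : EqOn U W p R R') : EqOn U W p (T - R) (T' - R') :=
  fun c hc d hd => by
    rw [LinearMap.sub_apply, LinearMap.sub_apply, LinearMap.sub_apply, LinearMap.sub_apply,
      h c hc d hd, h' c hc d hd]

theorem EqOn.of_sub {p : Itv E} {T T' : Fm K E} (h : EqOn U W p (T - T') 0) :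
    EqOn U W p T T' :=
  fun c hc d hd => by
    have h1 := h c hc d hd
    rw [LinearMap.sub_apply, LinearMap.sub_apply, LinearMap.zero_apply,
      LinearMap.zero_apply] at h1
    exact sub_eq_zero.1 h1

theorem InV.mono [DecidableEq E] {p q : Itv E} {T : Fm K E} (h : InV U W p T)
    (hq : Sub q p) : InV U W q T :=
  fun c hc d hd => h c (van_anti hq.1 hc) d (spt_mono hq.2 hd)

theorem InV.congr {p : Itv E} {T T' : Fm K E} (h : InV U W p T') (h' : EqOn U W p T T') :
    InV U W p T :=
  fun c hc d hd hcd => (h' c hc d hd).trans (h c hc d hd hcd)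

theorem InV.add {p : Itv E} {T T' : Fm K E} (h : InV U W p T) (h' : InV U W p T') :
    InV U W p (T + T') :=
  fun c hc d hd hcd => by
    rw [LinearMap.add_apply, LinearMap.add_apply, h c hc d hd hcd, h' c hc d hd hcd, add_zero]

theorem InV.sub {p : Itv E} {T T' : Fm K E} (h : InV U W p T) (h' : InV U W p T') :
    InV U W p (T - T') :=
  fun c hc d hd hcd => by
    rw [LinearMap.sub_apply, LinearMap.sub_apply, h c hc d hd hcd, h' c hc d hd hcd, sub_zero]

theorem InV.smul {p : Itv E} {T : Fm K E} (k : K) (h : InV U W p T) : InV U W p (k • T) :=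
  fun c hc d hd hcd => by
    rw [LinearMap.smul_apply, LinearMap.smul_apply, h c hc d hd hcd, smul_zero]

theorem InV.zero {p : Itv E} : InV U W p (0 : Fm K E) := fun _ _ _ _ _ => Eq.refl _

end

section

variable {K E : Type} [Field K] [Fintype E] {U W : Submodule K (E → K)}

theorem dg_add (l l' : E → K) : (dg (l + l') : Fm K E) = dg l + dg l' := by
  refine LinearMap.ext fun c => LinearMap.ext fun d => ?_
  rw [LinearMap.add_apply, LinearMap.add_apply, dg_apply, dg_apply, dg_apply,
    ← Finset.sum_add_distrib]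
  exact Finset.sum_congr rfl fun x _ => by rw [Pi.add_apply, add_mul]

theorem dg_smul (k : K) (l : E → K) : (dg (k • l) : Fm K E) = k • dg l := by
  refine LinearMap.ext fun c => LinearMap.ext fun d => ?_
  rw [LinearMap.smul_apply, LinearMap.smul_apply, dg_apply, dg_apply, smul_eq_mul, Finset.mul_sum]
  exact Finset.sum_congr rfl fun x _ => by rw [Pi.smul_apply, smul_eq_mul, mul_assoc]

theorem dg_zero : (dg (0 : E → K) : Fm K E) = 0 := by
  refine LinearMap.ext fun c => LinearMap.ext fun d => ?_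
  rw [LinearMap.zero_apply, LinearMap.zero_apply, dg_apply]
  exact Finset.sum_eq_zero fun x _ => by rw [Pi.zero_apply, zero_mul]

theorem dg_neg (l : E → K) : (dg (-l) : Fm K E) = -dg l := by
  refine LinearMap.ext fun c => LinearMap.ext fun d => ?_
  rw [LinearMap.neg_apply, LinearMap.neg_apply, dg_apply, dg_apply, ← Finset.sum_neg_distrib]
  exact Finset.sum_congr rfl fun x _ => by rw [Pi.neg_apply, neg_mul]

theorem dg_sub (l l' : E → K) : (dg (l - l') : Fm K E) = dg l - dg l' := by
  refine LinearMap.ext fun c => LinearMap.ext fun d => ?_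
  rw [LinearMap.sub_apply, LinearMap.sub_apply, dg_apply, dg_apply, dg_apply,
    ← Finset.sum_sub_distrib]
  exact Finset.sum_congr rfl fun x _ => by rw [Pi.sub_apply, sub_mul]

theorem dg_single [DecidableEq E] (x : E) (k : K) (c d : E → K) :
    dg (Pi.single x k) c d = k * (c x * d x) := by
  rw [dg_apply, Finset.sum_eq_single x]
  · rw [Pi.single_eq_same]
  · intro y _ hy
    rw [Pi.single_eq_of_ne hy, zero_mul]
  · intro h
    exact absurd (Finset.mem_univ x) h

theorem dg_inV (p : Itv E) (l : E → K) : InV U W p (dg l) :=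
  fun c _ d _ h => by
    rw [dg_apply]
    exact Finset.sum_eq_zero fun x _ => by rw [h x, mul_zero]

/-- only the values on the ground set of the box matter -/
theorem dg_congr [DecidableEq E] {p : Itv E} {l l' : E → K} (h : ∀ x ∈ gs p, l x = l' x) :
    EqOn U W p (dg l) (dg l') :=
  fun c hc d hd => by
    rw [dg_apply, dg_apply]
    refine Finset.sum_congr rfl fun x _ => ?_
    by_cases h1 : x ∈ p.1
    · rw [hc.2 x h1, zero_mul, mul_zero, mul_zero]
    · by_cases h2 : x ∈ p.2
      · rw [h x (Finset.mem_sdiff.2 ⟨h2, h1⟩)]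
      · rw [hd.2 x h2, mul_zero, mul_zero, mul_zero]

theorem EqD.rfl {p : Itv E} {T : Fm K E} : EqD U W p T T :=
  ⟨0, by rw [dg_zero, add_zero]; exact EqOn.rfl⟩

theorem EqOn.eqD {p : Itv E} {T T' : Fm K E} (h : EqOn U W p T T') : EqD U W p T T' :=
  ⟨0, by rw [dg_zero, add_zero]; exact h⟩

theorem EqD.symm {p : Itv E} {T T' : Fm K E} (h : EqD U W p T T') : EqD U W p T' T := by
  obtain ⟨l, hl⟩ := h
  refine ⟨-l, fun c hc d hd => ?_⟩
  have h1 := hl c hc d hd
  rw [LinearMap.add_apply, LinearMap.add_apply] at h1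
  rw [dg_neg, LinearMap.add_apply, LinearMap.add_apply, LinearMap.neg_apply, LinearMap.neg_apply,
    h1]
  ring

theorem EqD.trans {p : Itv E} {T T' T'' : Fm K E} (h : EqD U W p T T')
    (h' : EqD U W p T' T'') : EqD U W p T T'' := by
  obtain ⟨l, hl⟩ := h
  obtain ⟨l', hl'⟩ := h'
  refine ⟨l' + l, fun c hc d hd => ?_⟩
  have h1 := hl c hc d hd
  have h2 := hl' c hc d hd
  rw [LinearMap.add_apply, LinearMap.add_apply] at h1 h2
  rw [dg_add, LinearMap.add_apply, LinearMap.add_apply, LinearMap.add_apply, LinearMap.add_apply,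
    h1, h2, add_assoc]

theorem EqD.mono [DecidableEq E] {p q : Itv E} {T T' : Fm K E} (h : EqD U W p T T')
    (hq : Sub q p) : EqD U W q T T' := by
  obtain ⟨l, hl⟩ := h
  exact ⟨l, hl.mono hq⟩

theorem EqD.smul {p : Itv E} {T T' : Fm K E} (k : K) (h : EqD U W p T T') :
    EqD U W p (k • T) (k • T') := by
  obtain ⟨l, hl⟩ := h
  refine ⟨k • l, ?_⟩
  rw [dg_smul, ← smul_add]
  exact hl.smul k

theorem EqD.add {p : Itv E} {T T' R R' : Fm K E} (h : EqD U W p T T') (h' : EqD U W p R R') :
    EqD U W p (T + R) (T' + R') := by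
  obtain ⟨l, hl⟩ := h
  obtain ⟨l', hl'⟩ := h'
  refine ⟨l + l', ?_⟩
  rw [dg_add, add_add_add_comm]
  exact hl.add hl'

theorem EqD.sub {p : Itv E} {T T' R R' : Fm K E} (h : EqD U W p T T') (h' : EqD U W p R R') :
    EqD U W p (T - R) (T' - R') := by
  obtain ⟨l, hl⟩ := h
  obtain ⟨l', hl'⟩ := h'
  refine ⟨l - l', ?_⟩
  rw [dg_sub]
  have h1 := hl.sub hl'
  have h2 : T' + dg l - (R' + dg l') = T' - R' + (dg l - dg l') := by abel
  rwa [h2] at h1

theorem EqD.dg_left {p : Itv E} {T T' : Fm K E} (l : E → K) (h : EqD U W p T T') :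
    EqD U W p (T + dg l) T' := by
  refine EqD.trans ⟨l, EqOn.rfl⟩ h

theorem InV.congrD {p : Itv E} {T T' : Fm K E} (h : InV U W p T') (h' : EqD U W p T T') :
    InV U W p T := by
  obtain ⟨l, hl⟩ := h'
  exact (h.add (dg_inV p l)).congr hl

end

section

variable {E : Type}

theorem Sub.rfl {p : Itv E} : Sub p p := ⟨Finset.Subset.refl _, Finset.Subset.refl _⟩

theorem Sub.trans {p q s : Itv E} (h : Sub q p) (h' : Sub s q) : Sub s p :=
  ⟨h.1.trans h'.1, h'.2.trans h.2⟩

end

section

variable {E : Type} [DecidableEq E]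

theorem rm_true (x : E) (p : Itv E) : rm true x p = (p.1, p.2.erase x) := rfl

theorem rm_false (x : E) (p : Itv E) : rm false x p = (insert x p.1, p.2) := rfl

theorem rm_sub (t : Bool) (x : E) (p : Itv E) : Sub (rm t x p) p := by
  cases t
  · exact ⟨Finset.subset_insert _ _, Finset.Subset.refl _⟩
  · exact ⟨Finset.Subset.refl _, Finset.erase_subset _ _⟩

theorem rm_comm (t s : Bool) (x y : E) (p : Itv E) : rm t x (rm s y p) = rm s y (rm t x p) := by
  cases t <;> cases s
  · rw [rm_false, rm_false, rm_false, rm_false, Finset.insert_comm]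
  · rfl
  · rfl
  · rw [rm_true, rm_true, rm_true, rm_true, Finset.erase_right_comm]

theorem Sub.rm {p q : Itv E} (h : Sub q p) (t : Bool) (x : E) : Sub (rm t x q) (rm t x p) := by
  cases t
  · exact ⟨Finset.insert_subset_insert _ h.1, h.2⟩
  · exact ⟨h.1, Finset.erase_subset_erase _ h.2⟩

theorem gs_rm (t : Bool) (x : E) (p : Itv E) : gs (rm t x p) = (gs p).erase x := by
  cases t
  · ext y
    simp only [gs, rm_false, Finset.mem_sdiff, Finset.mem_insert, Finset.mem_erase]
    tauto
  · ext y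
    simp only [gs, rm_true, Finset.mem_sdiff, Finset.mem_erase]
    tauto

end

end Pool.Agent.QU
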