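import Pool.Agent.QUL.LLine

set_option autoImplicit false

/-!
# Project QU, layer A, module LRich: rich five-element minors

The ranks of the subsets of a rich minor are those of a uniform matroid (`LRich_rank`); so a rich minor is 3-connected, every
element is in a four point line minor, and the forms modulo diagonal forms have dimension at most one.
-/

namespace Pool.Agent.QU

section

variable {E : Type} [DecidableEq E] {r : Finset E → ℤ} {q : Itv E}

private theorem LRich_up (hr : QUB.Rk r) (X A : Finset E) : r (X ∪ A) ≤ r X + A.card := by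
  induction A using Finset.induction_on with
  | empty => simp
  | insert a A ha ih =>
    rw [Finset.union_insert, Finset.card_insert_of_notMem ha]
    have h1 := hr.unit (X ∪ A) a
    push_cast
    linarith

private theorem LRich_unif (hr : QUB.Rk r) {C M : Finset E} {ρ : ℕ} (hM : ρ ≤ M.card)
    (hall : r (C ∪ M) = r C + ρ) (h : ∀ A ⊆ M, A.card = ρ → r (C ∪ A) = r C + ρ) (A : Finset E)
    (hA : A ⊆ M) : r (C ∪ A) = r C + (min A.card ρ : ℕ) := by
  by_cases hc : ρ ≤ A.card
  · obtain ⟨B, hB1, hB2⟩ := Finset.exists_subset_card_eq hc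
    have h1 := hr.mono (C ∪ B) (C ∪ A) (Finset.union_subset_union_right hB1)
    have h2 := hr.mono (C ∪ A) (C ∪ M) (Finset.union_subset_union_right hA)
    have h3 := h B (hB1.trans hA) hB2
    rw [min_eq_right hc]
    linarith
  · push Not at hc
    obtain ⟨B, hB1, hB2, hB3⟩ := Finset.exists_subsuperset_card_eq hA hc.le hM
    have h1 := LRich_up hr C A
    have h2 := LRich_up hr (C ∪ A) (B \ A)
    have h3 : C ∪ A ∪ B \ A = C ∪ B := by
      rw [Finset.union_assoc, Finset.union_sdiff_of_subset hB1]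
    have h4 := Finset.card_sdiff_add_card_eq_card hB1
    rw [h3, h B hB2 hB3] at h2
    rw [min_eq_left hc.le]
    have h5 : ((B \ A).card : ℤ) + A.card = ρ := by
      rw [← hB3]
      exact_mod_cast h4
    linarith

private theorem LRich_rank (hr : QUB.Rk r) (hR : Rich r q) : ∃ ρ : ℕ, (ρ = 2 ∨ ρ = 3) ∧
    ∀ A ⊆ gs q, r (q.1 ∪ A) = r q.1 + (min A.card ρ : ℕ) := by
  obtain ⟨h1, h2, h3⟩ := hR
  have hG : q.1 ∪ gs q = q.2 := by
    unfold gs
    exact Finset.union_sdiff_of_subset h1
  rcases h3 with ⟨h3, h4⟩ | ⟨h3, h4⟩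
  · refine ⟨2, Or.inl rfl, LRich_unif hr (by omega) (by rw [hG, h3]; norm_num) ?_⟩
    intro A hA hA2
    obtain ⟨i, j, hij, rfl⟩ := Finset.card_eq_two.1 hA2
    have h5 := h4 i (hA (by simp)) j (hA (by simp)) hij
    rw [h5]
    norm_num
  · refine ⟨3, Or.inr rfl, LRich_unif hr (by omega) (by rw [hG, h3]; norm_num) ?_⟩
    intro A hA hA2
    obtain ⟨i, j, k, hij, hik, hjk, rfl⟩ := Finset.card_eq_three.1 hA2
    have h5 := h4 i (hA (by simp)) j (hA (by simp)) k (hA (by simp)) hij hik hjk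
    rw [h5]
    norm_num

theorem rich_ln (hr : QUB.Rk r) (hR : Rich r q) {x : E} (hx : x ∈ gs q) :
    ∃ N, QUB.Ln r q N ∧ x ∈ N := by
  obtain ⟨ρ, hρ, hrk⟩ := LRich_rank hr hR
  obtain ⟨h1, h2, -⟩ := hR
  have hG : q.1 ∪ gs q = q.2 := by
    unfold gs
    exact Finset.union_sdiff_of_subset h1
  have hdis : Disjoint (gs q) q.1 := by
    unfold gs
    exact Finset.sdiff_disjoint
  obtain ⟨y, hy, hyx⟩ : ∃ y ∈ gs q, y ≠ x :=
    Finset.exists_mem_ne (by omega) x
  have hN4 : ((gs q).erase y).card = 4 := by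
    rw [Finset.card_erase_of_mem hy, h2]
  have hNs : (gs q).erase y ⊆ gs q := Finset.erase_subset _ _
  refine ⟨(gs q).erase y, ⟨hN4, ?_⟩, Finset.mem_erase.2 ⟨hyx.symm, hx⟩⟩
  rcases hρ with rfl | rfl
  · refine ⟨q.1, subset_rfl, ?_, Finset.disjoint_of_subset_left hNs hdis, ?_, ?_⟩
    · rw [← hG]
      exact Finset.union_subset_union_right hNs
    · rw [hrk _ hNs, hN4]
      norm_num
    · intro i hi j hj hij
      have h3 : insert i (insert j q.1) = q.1 ∪ {i, j} := by
        ext z
        simp only [Finset.mem_insert, Finset.mem_union, Finset.mem_singleton]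
        tauto
      have h4 : ({i, j} : Finset E) ⊆ gs q := by
        intro z hz
        rcases Finset.mem_insert.1 hz with rfl | hz
        · exact hNs hi
        · rw [Finset.mem_singleton.1 hz]
          exact hNs hj
      rw [h3, hrk _ h4, Finset.card_pair hij]
      norm_num
  · have hY : r (insert y q.1) = r q.1 + 1 := by
      have h3 : insert y q.1 = q.1 ∪ {y} := by
        ext z
        simp only [Finset.mem_insert, Finset.mem_union, Finset.mem_singleton]
        tauto
      rw [h3, hrk {y} (Finset.singleton_subset_iff.2 hy), Finset.card_singleton]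
      norm_num
    have hYN : insert y q.1 ∪ (gs q).erase y = q.1 ∪ gs q := by
      rw [Finset.insert_union, ← Finset.union_insert, Finset.insert_erase hy]
    refine ⟨insert y q.1, Finset.subset_insert _ _, ?_, ?_, ?_, ?_⟩
    · rw [hYN, hG]
    · rw [Finset.disjoint_insert_right]
      exact ⟨Finset.notMem_erase _ _, Finset.disjoint_of_subset_left hNs hdis⟩
    · rw [hYN, hrk _ subset_rfl, hY, h2]
      norm_num
      ring
    · intro i hi j hj hij
      obtain ⟨hiy, hi'⟩ := Finset.mem_erase.1 hi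
      obtain ⟨hjy, hj'⟩ := Finset.mem_erase.1 hj
      have h3 : insert i (insert j (insert y q.1)) = q.1 ∪ {i, j, y} := by
        ext z
        simp only [Finset.mem_insert, Finset.mem_union, Finset.mem_singleton]
        tauto
      have h4 : ({i, j, y} : Finset E) ⊆ gs q := by
        intro z hz
        simp only [Finset.mem_insert, Finset.mem_singleton] at hz
        rcases hz with rfl | rfl | rfl
        · exact hi'
        · exact hj'
        · exact hy
      have h5 : ({i, j, y} : Finset E).card = 3 := Finset.card_eq_three.2 ⟨i, j, y, hij, hiy, hjy, rfl⟩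
      rw [h3, hrk _ h4, h5, hY]
      norm_num
      ring

private theorem LRich_lam (hr : QUB.Rk r) (hR : Rich r q) : ∃ ρ : ℕ, (ρ = 2 ∨ ρ = 3) ∧
    ∀ A ⊆ gs q, lam r q A = (min A.card ρ : ℕ) + (min (gs q \ A).card ρ : ℕ) - ρ ∧
      A.card + (gs q \ A).card = 5 := by
  obtain ⟨ρ, hρ, hrk⟩ := LRich_rank hr hR
  obtain ⟨h1, h2, -⟩ := hR
  refine ⟨ρ, hρ, fun A hA => ⟨?_, ?_⟩⟩
  · have hG : q.1 ∪ gs q = q.2 := by
      unfold gs
      exact Finset.union_sdiff_of_subset h1
    have h3 : q.2 \ A = q.1 ∪ (gs q \ A) := by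
      ext z
      have hz : z ∈ A → z ∈ gs q := fun h => hA h
      have hz1 : z ∈ q.1 → z ∈ q.2 := fun h => h1 h
      unfold gs at hz ⊢
      simp only [Finset.mem_sdiff, Finset.mem_union] at hz ⊢
      tauto
    have h4 : r q.2 = r q.1 + ρ := by
      have h5 := hrk _ (subset_refl (gs q))
      rw [hG, h2] at h5
      rw [h5]
      rcases hρ with rfl | rfl <;> norm_num
    unfold lam
    rw [h3, hrk A hA, hrk _ Finset.sdiff_subset, h4]
    ring
  · rw [add_comm, Finset.card_sdiff_add_card_eq_card hA, h2]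

theorem rich_cn (hr : QUB.Rk r) (hR : Rich r q) : QUB.Cn r q := by
  obtain ⟨ρ, hρ, hl⟩ := LRich_lam hr hR
  intro A hA hA1 hA2
  obtain ⟨h1, h2⟩ := hl A hA
  have h3 := hA1.card_pos
  have h4 := hA2.card_pos
  have h5 : lam r q A = QUB.lam r q A := rfl
  rw [← h5, h1]
  change 0 < (gs q \ A).card at h4
  rcases hρ with rfl | rfl <;> omega

theorem rich_th (hr : QUB.Rk r) (hR : Rich r q) : Th3 r q := by
  obtain ⟨ρ, hρ, hl⟩ := LRich_lam hr hR
  intro A hA hA1 hA2
  obtain ⟨h1, h2⟩ := hl A hA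
  rw [h1]
  rcases hρ with rfl | rfl <;> omega

end

variable {K E : Type} [Field K] [Fintype E] [DecidableEq E]

theorem rich_hom (S : TP K E) {q : Itv E} (hR : Rich S.r q) {l : E → K}
    (hl : EqOn S.U S.W q (dg l) 0) : ∀ x ∈ gs q, l x = 0 := by
  intro x hx
  obtain ⟨N, hN, hxN⟩ := rich_ln S.rk hR hx
  exact S.tw_ln hN hl x hxN

theorem rich_one (S : TP K E) {q : Itv E} (hR : Rich S.r q) {T Ts : Fm K E}
    (hT : InV S.U S.W q T) (hTs : InV S.U S.W q Ts) (h0 : ¬ EqD S.U S.W q Ts 0) :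
    ∃ k : K, EqD S.U S.W q T (k • Ts) := by
  refine dim_one S hR.1 (fun l hl => rich_hom S hR hl) ?_ hT hTs h0
  obtain ⟨-, h2, h3⟩ := hR
  rw [h2]
  rcases h3 with ⟨h3, -⟩ | ⟨h3, -⟩
  · rw [h3]
    have h4 : S.r q.1 + 2 - S.r q.1 = 2 := by ring
    rw [h4]
    norm_num
  · rw [h3]
    have h4 : S.r q.1 + 3 - S.r q.1 = 3 := by ring
    rw [h4]
    norm_num

theorem rich_zero (S : TP K E) {q : Itv E} {T Ts : Fm K E} {k : K}
    (h : EqD S.U S.W q T (k • Ts)) (hT : EqD S.U S.W q T 0) (h0 : ¬ EqD S.U S.W q Ts 0) :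
    k = 0 := by
  by_contra hk
  apply h0
  have h1 : EqD S.U S.W q (k • Ts) 0 := h.symm.trans hT
  have h2 := h1.smul k⁻¹
  rw [smul_zero, smul_smul, inv_mul_cancel₀ hk, one_smul] at h2
  exact h2

end Pool.Agent.QU
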