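import Pool.Agent.QUL.LBin
import Pool.Agent.QUL.LRich

set_option autoImplicit false

/-!
# Project QU, layer A, module LStrong: the uniqueness theorem

PLAN. Induction on `(gs p).card`, for all `p` (and all forms). `B = gs p \ A`.
(1) no four point line in `p`: `bin_diag`, `k = 0`.
(2) otherwise, if there is `A ⊆ gs p` with `2 ≤ A.card`, `2 ≤ B.card`, `lam S.r p A ≤ 1` (`= 1` by `hc`): by `ho` one of `A`, `B` is not
heavy, by symmetry (`lam_compl`, `gs p \ (gs p \ A) = A`) let it be `B`. Halves `(X, b)` of `A`, `(X', a)` of `B`. The half of `A` has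
fewer elements, is connected (`half_cn`) and `QUB.Ok` (`half_ok`), `Ts` is in `InVs` on it (every rich minor of it is one of `p`), so
`T = k • Ts` up to diagonal on it. The half of `B` has no four point line (`half_light`), so `T` and `k • Ts` are diagonal on it
(`bin_diag`). By `dec_uniq` `T = k • Ts + k' • kf f g` up to diagonal on `p`; `kf f g` is diagonal on `p` by `kink_diag` with `w` from
`bin_hom` (`w a ≠ 0` since `a` is in the ground set of the half of `B`).
(3) otherwise `Th3 S.r p`. There is a four point line, so `(gs p).card ≥ 4`. `(gs p).card = 4`: `th3_four`, `hom_cn`, `dim_all`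
(`2 * 2 ≤ 4`), `k = 0`. `(gs p).card = 5`: `th3_five`, `rich_one` (`Ts` is not diagonal on `p` by `hTs.2`).
`(gs p).card ≥ 6`: `hexp p` gives `u`, `v`, `t`, `s`; `R = rm t u (rm s v p)`. By induction `T = k • Ts` on `rm t u p`, `T = k' • Ts` on
`rm s v p` (up to diagonal; `Ts` is in `InVs` on both). If `rm t u p` has no rich minor then `0` is in `InVs` on it, so `T` and `Ts` are
diagonal on it, and `T = k' • Ts` there, too; in the same way for `rm s v p`; if `R` has a rich minor then `Ts` is not diagonal on `R`.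
Now `uniq_step` with `hom_cn` for `R`.
`uniq_zero_main`: the same induction, simpler: (1) `bin_diag`. (2) `T` is in `InV0` on the half of `A`, so diagonal on both halves, and
`dec_uniq` (with `T' = 0`) and `kink_diag` finish. (3) four elements: `dim_all`; five elements: `p` is rich, use `hT.2 p`; at least six
elements: the pair of `hexp p`, `T` is diagonal on `rm t u p` and on `rm s v p`, `uniq_step` with `Ts = 0` and `k = k' = 0`.
-/

namespace Pool.Agent.QU

variable {K E : Type} [Field K] [Fintype E] [DecidableEq E]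

/-- a separation whose second side is light -/
private theorem lstrong_sep (S : TP K E) {p : Itv E} (hp : p.1 ⊆ p.2) (hc : QUB.Cn S.r p)
    (ho : QUB.Ok S.r p) (h3 : ¬ Th3 S.r p) :
    ∃ A ⊆ gs p, 2 ≤ A.card ∧ 2 ≤ (gs p \ A).card ∧ lam S.r p A = 1 ∧ ¬ QUB.Hv S.r p (gs p \ A) := by
  unfold Th3 at h3
  push Not at h3
  obtain ⟨A, hA, h1, h2, h4⟩ := h3
  have h5 : 1 ≤ lam S.r p A := hc A hA (Finset.card_pos.1 (by omega)) (Finset.card_pos.1 (by omega))
  have h6 : lam S.r p A = 1 := by omega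
  by_cases h7 : QUB.Hv S.r p A
  · exact ⟨A, hA, h1, h2, h6, fun h8 => ho A hA h6.le ⟨h7, h8⟩⟩
  · have e : gs p \ (gs p \ A) = A := Finset.sdiff_sdiff_eq_self hA
    refine ⟨gs p \ A, Finset.sdiff_subset, h2, ?_, ?_, ?_⟩
    · rw [e]
      exact h1
    · have h8 : lam S.r p (gs p \ A) = lam S.r p A := QUB.lam_compl S.r hp hA
      rw [h8]
      exact h6
    · rw [e]
      exact h7

private theorem lstrong_dg {U W : Submodule K (E → K)} {p : Itv E} (l : E → K) :
    EqD U W p (dg l) 0 := ⟨l, by rw [zero_add]; exact EqOn.rfl⟩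

/-- the light half takes care of itself -/
private theorem lstrong_two (S : TP K E) {p : Itv E} (hp : p.1 ⊆ p.2) {A : Finset E}
    (hA : A ⊆ gs p) (hl : lam S.r p A = 1) (hlight : ¬ QUB.Hv S.r p (gs p \ A)) {T T' : Fm K E}
    (hT : InV S.U S.W p T) (hT' : InV S.U S.W p T') {X : Finset E} {b : E}
    (hX : Half S.r p A X b) (h1 : EqD S.U S.W (hb p A X b) T T') : EqD S.U S.W p T T' := by
  have hB : gs p \ A ⊆ gs p := Finset.sdiff_subset
  have hlB : lam S.r p (gs p \ A) = 1 := by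
    have h8 : lam S.r p (gs p \ A) = lam S.r p A := QUB.lam_compl S.r hp hA
    rw [h8]
    exact hl
  obtain ⟨X', a, hX'⟩ := half_exists S.rk hp hB hlB
  obtain ⟨f, g, hk⟩ := kink_exists S hp hA hl
  obtain ⟨s1, s2, s3, s4⟩ := half_sub hp hB hX'
  have hno := half_light hp hB hX' hlight
  have hs : Sub (hb p (gs p \ A) X' a) p := ⟨s1, s2⟩
  have d1 := bin_diag S s3 hno (hT.mono hs)
  have d2 := bin_diag S s3 hno (hT'.mono hs)
  obtain ⟨k, hk2⟩ := dec_uniq S hp hA hl hk hX hX' hT hT' h1 (d1.trans d2.symm)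
  obtain ⟨w, hw1, hw2⟩ := bin_hom S s3 hno
  obtain ⟨k2, -, hk3⟩ := kink_diag S hp hA hl hk hX' hw2 (hw1 a (by
    rw [s4]
    exact Finset.mem_insert_self _ _))
  have h2 : EqD S.U S.W p (kf f g) 0 := hk3.eqD.trans (lstrong_dg _)
  have h3 : EqD S.U S.W p (T' + k • kf f g) (T' + k • (0 : Fm K E)) := EqD.rfl.add (h2.smul k)
  rw [smul_zero, add_zero] at h3
  exact hk2.trans h3

private theorem lstrong_half_card {p : Itv E} {A : Finset E} (hA : A ⊆ gs p) {b : E}
    (h2 : 2 ≤ (gs p \ A).card) : (insert b A).card < (gs p).card := by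
  have h1 := Finset.card_insert_le b A
  have h3 := Finset.card_sdiff_add_card_eq_card hA
  omega

private theorem lstrong_rm_card {p : Itv E} {u : E} (hu : u ∈ gs p) (t : Bool) :
    (gs (rm t u p)).card < (gs p).card := by
  rw [gs_rm]
  exact Finset.card_erase_lt_of_mem hu

private theorem lstrong_InVs {S : TP K E} {p q : Itv E} {T : Fm K E} (h : InVs S p T)
    (hq : Sub q p) : InVs S q T :=
  ⟨h.1.mono hq, fun q' hq' hR => h.2 q' (hq.trans hq') hR⟩

private theorem lstrong_InV0 {S : TP K E} {p q : Itv E} {T : Fm K E} (h : InV0 S p T)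
    (hq : Sub q p) : InV0 S q T :=
  ⟨h.1.mono hq, fun q' hq' hR => h.2 q' (hq.trans hq') hR⟩

/-- four elements -/
private theorem lstrong_four (S : TP K E) {p : Itv E} (hp : p.1 ⊆ p.2) (hc : QUB.Cn S.r p)
    (h3 : Th3 S.r p) (hN : ∃ N, QUB.Ln S.r p N) (hn : (gs p).card = 4) {T : Fm K E}
    (hT : InV S.U S.W p T) : EqD S.U S.W p T 0 := by
  have h4 := (th3_four S.rk hp hc h3 hn).1
  refine dim_all S hp (fun l hl => hom_cn S hp hc hN hl) ?_ hT
  have h5 : S.r p.2 - S.r p.1 = 2 := by omega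
  rw [h5, hn]
  norm_num

private theorem lstrong_big {p : Itv E} {r : Finset E → ℤ} (hN : ∃ N, QUB.Ln r p N) :
    4 ≤ (gs p).card := by
  obtain ⟨N, hN⟩ := hN
  have h1 : N ⊆ gs p := QUB.Ln.sub hN
  have h2 := Finset.card_le_card h1
  have h3 := hN.1
  omega

private theorem lstrong_main (S : TP K E) (hexp : ExpAll S.r) (p : Itv E)
    (ih : ∀ q : Itv E, (gs q).card < (gs p).card → q.1 ⊆ q.2 → QUB.Cn S.r q → QUB.Ok S.r q →
      ∀ T Ts : Fm K E, InV S.U S.W q T → InVs S q Ts → ∃ k : K, EqD S.U S.W q T (k • Ts))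
    (hp : p.1 ⊆ p.2) (hc : QUB.Cn S.r p) (ho : QUB.Ok S.r p) (T Ts : Fm K E)
    (hT : InV S.U S.W p T) (hTs : InVs S p Ts) : ∃ k : K, EqD S.U S.W p T (k • Ts) := by
  by_cases hN : ∃ N, QUB.Ln S.r p N
  swap
  · refine ⟨0, ?_⟩
    rw [zero_smul]
    exact bin_diag S hp (not_exists.1 hN) hT
  by_cases h3 : Th3 S.r p
  swap
  · obtain ⟨A, hA, hA2, hB2, hl, hlight⟩ := lstrong_sep S hp hc ho h3
    obtain ⟨X, b, hX⟩ := half_exists S.rk hp hA hl
    obtain ⟨s1, s2, s3, s4⟩ := half_sub hp hA hX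
    have hs : Sub (hb p A X b) p := ⟨s1, s2⟩
    obtain ⟨k, hk⟩ := ih (hb p A X b) (by rw [s4]; exact lstrong_half_card hA hB2) s3
      (half_cn S.rk hp hA hl hX hc) (half_ok S.rk hp hA hl hX ho) T Ts (hT.mono hs)
      (lstrong_InVs hTs hs)
    exact ⟨k, lstrong_two S hp hA hl hlight hT (hTs.1.smul k) hX hk⟩
  have hbig := lstrong_big hN
  by_cases h4 : (gs p).card = 4
  · refine ⟨0, ?_⟩
    rw [zero_smul]
    exact lstrong_four S hp hc h3 hN h4 hT
  by_cases h5 : (gs p).card = 5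
  · have hR := th3_five S.rk hp hc h3 h5
    exact rich_one S hR hT hTs.1 (hTs.2 p Sub.rfl hR)
  obtain ⟨u, hu, v, hv, huv, t, s, cu, ou, cv, ov, cR, lR, nd, hrich⟩ :=
    hexp p hp hc h3 hN (by omega)
  have wu : (rm t u p).1 ⊆ (rm t u p).2 := QUB.wf_rm hp hu
  have wv : (rm s v p).1 ⊆ (rm s v p).2 := QUB.wf_rm hp hv
  have wR : (rm t u (rm s v p)).1 ⊆ (rm t u (rm s v p)).2 := QUB.wf_rm wv (by
    have h6 : u ∈ gs (rm s v p) := by
      rw [gs_rm]
      exact Finset.mem_erase.2 ⟨huv, hu⟩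
    exact h6)
  have hom : ∀ l : E → K, EqOn S.U S.W (rm t u (rm s v p)) (dg l) 0 →
      ∀ x ∈ gs (rm t u (rm s v p)), l x = 0 := fun l hl => hom_cn S wR cR lR hl
  obtain ⟨k, hk⟩ := ih (rm t u p) (lstrong_rm_card hu t) wu cu ou T Ts (hT.mono (rm_sub t u p))
    (lstrong_InVs hTs (rm_sub t u p))
  obtain ⟨k', hk'⟩ := ih (rm s v p) (lstrong_rm_card hv s) wv cv ov T Ts (hT.mono (rm_sub s v p))
    (lstrong_InVs hTs (rm_sub s v p))
  rcases hrich with hrich | hrich | hrich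
  · have hz : InVs S (rm t u p) 0 := ⟨InV.zero, fun q hq hR => absurd ⟨q, hq, hR⟩ hrich⟩
    obtain ⟨k1, hk1⟩ := ih (rm t u p) (lstrong_rm_card hu t) wu cu ou T 0
      (hT.mono (rm_sub t u p)) hz
    obtain ⟨k2, hk2⟩ := ih (rm t u p) (lstrong_rm_card hu t) wu cu ou (k' • Ts) 0
      ((hTs.1.smul k').mono (rm_sub t u p)) hz
    rw [smul_zero] at hk1 hk2
    exact ⟨k', uniq_step S huv hu hv hT hTs.1 (hk1.trans hk2.symm) hk' (Or.inl rfl) hom nd⟩
  · have hz : InVs S (rm s v p) 0 := ⟨InV.zero, fun q hq hR => absurd ⟨q, hq, hR⟩ hrich⟩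
    obtain ⟨k1, hk1⟩ := ih (rm s v p) (lstrong_rm_card hv s) wv cv ov T 0
      (hT.mono (rm_sub s v p)) hz
    obtain ⟨k2, hk2⟩ := ih (rm s v p) (lstrong_rm_card hv s) wv cv ov (k • Ts) 0
      ((hTs.1.smul k).mono (rm_sub s v p)) hz
    rw [smul_zero] at hk1 hk2
    exact ⟨k, uniq_step S huv hu hv hT hTs.1 hk (hk1.trans hk2.symm) (Or.inl rfl) hom nd⟩
  · obtain ⟨q, hq, hR⟩ := hrich
    have hRp : Sub (rm t u (rm s v p)) p := (rm_sub s v p).trans (rm_sub t u (rm s v p))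
    exact ⟨k, uniq_step S huv hu hv hT hTs.1 hk hk'
      (Or.inr fun h7 => hTs.2 q (hRp.trans hq) hR (h7.mono hq)) hom nd⟩

private theorem lstrong_zero (S : TP K E) (hexp : ExpAll S.r) (p : Itv E)
    (ih : ∀ q : Itv E, (gs q).card < (gs p).card → q.1 ⊆ q.2 → QUB.Cn S.r q → QUB.Ok S.r q →
      ∀ T : Fm K E, InV0 S q T → EqD S.U S.W q T 0)
    (hp : p.1 ⊆ p.2) (hc : QUB.Cn S.r p) (ho : QUB.Ok S.r p) (T : Fm K E)
    (hT : InV0 S p T) : EqD S.U S.W p T 0 := by
  by_cases hN : ∃ N, QUB.Ln S.r p N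
  swap
  · exact bin_diag S hp (not_exists.1 hN) hT.1
  by_cases h3 : Th3 S.r p
  swap
  · obtain ⟨A, hA, hA2, hB2, hl, hlight⟩ := lstrong_sep S hp hc ho h3
    obtain ⟨X, b, hX⟩ := half_exists S.rk hp hA hl
    obtain ⟨s1, s2, s3, s4⟩ := half_sub hp hA hX
    have hs : Sub (hb p A X b) p := ⟨s1, s2⟩
    have hk := ih (hb p A X b) (by rw [s4]; exact lstrong_half_card hA hB2) s3
      (half_cn S.rk hp hA hl hX hc) (half_ok S.rk hp hA hl hX ho) T (lstrong_InV0 hT hs)
    exact lstrong_two S hp hA hl hlight hT.1 InV.zero hX hk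
  have hbig := lstrong_big hN
  by_cases h4 : (gs p).card = 4
  · exact lstrong_four S hp hc h3 hN h4 hT.1
  by_cases h5 : (gs p).card = 5
  · exact hT.2 p Sub.rfl (th3_five S.rk hp hc h3 h5)
  obtain ⟨u, hu, v, hv, huv, t, s, cu, ou, cv, ov, cR, lR, nd, -⟩ :=
    hexp p hp hc h3 hN (by omega)
  have wu : (rm t u p).1 ⊆ (rm t u p).2 := QUB.wf_rm hp hu
  have wv : (rm s v p).1 ⊆ (rm s v p).2 := QUB.wf_rm hp hv
  have wR : (rm t u (rm s v p)).1 ⊆ (rm t u (rm s v p)).2 := QUB.wf_rm wv (by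
    have h6 : u ∈ gs (rm s v p) := by
      rw [gs_rm]
      exact Finset.mem_erase.2 ⟨huv, hu⟩
    exact h6)
  have hom : ∀ l : E → K, EqOn S.U S.W (rm t u (rm s v p)) (dg l) 0 →
      ∀ x ∈ gs (rm t u (rm s v p)), l x = 0 := fun l hl => hom_cn S wR cR lR hl
  have hk := ih (rm t u p) (lstrong_rm_card hu t) wu cu ou T (lstrong_InV0 hT (rm_sub t u p))
  have hk' := ih (rm s v p) (lstrong_rm_card hv s) wv cv ov T (lstrong_InV0 hT (rm_sub s v p))
  have e : (0 : K) • (0 : Fm K E) = 0 := smul_zero 0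
  have h6 := uniq_step S huv hu hv hT.1 (Ts := 0) InV.zero (k := 0) (k' := 0)
    (by rw [e]; exact hk) (by rw [e]; exact hk') (Or.inl rfl) hom nd
  rw [e] at h6
  exact h6

theorem uniq_main (S : TP K E) (hexp : ExpAll S.r) (n : ℕ) : ∀ p : Itv E, (gs p).card ≤ n →
    p.1 ⊆ p.2 → QUB.Cn S.r p → QUB.Ok S.r p → ∀ T Ts : Fm K E, InV S.U S.W p T → InVs S p Ts →
      ∃ k : K, EqD S.U S.W p T (k • Ts) := by
  induction n with
  | zero =>
    intro p hn hp hc ho T Ts hT hTs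
    exact lstrong_main S hexp p (fun q hq => absurd hq (by omega)) hp hc ho T Ts hT hTs
  | succ n ih =>
    intro p hn hp hc ho T Ts hT hTs
    exact lstrong_main S hexp p (fun q hq => ih q (by omega)) hp hc ho T Ts hT hTs

/-- THE UNIQUENESS THEOREM -/
theorem uniq (S : TP K E) (hexp : ExpAll S.r) {p : Itv E} (hp : p.1 ⊆ p.2) (hc : QUB.Cn S.r p)
    (ho : QUB.Ok S.r p) {T Ts : Fm K E} (hT : InV S.U S.W p T) (hTs : InVs S p Ts) :
    ∃ k : K, EqD S.U S.W p T (k • Ts) :=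
  uniq_main S hexp _ p le_rfl hp hc ho T Ts hT hTs

theorem uniq_zero_main (S : TP K E) (hexp : ExpAll S.r) (n : ℕ) : ∀ p : Itv E,
    (gs p).card ≤ n → p.1 ⊆ p.2 → QUB.Cn S.r p → QUB.Ok S.r p → ∀ T : Fm K E, InV0 S p T →
      EqD S.U S.W p T 0 := by
  induction n with
  | zero =>
    intro p hn hp hc ho T hT
    exact lstrong_zero S hexp p (fun q hq => absurd hq (by omega)) hp hc ho T hT
  | succ n ih =>
    intro p hn hp hc ho T hT
    exact lstrong_zero S hexp p (fun q hq => ih q (by omega)) hp hc ho T hT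

/-- forms which are diagonal on all rich minors are diagonal -/
theorem uniq_zero (S : TP K E) (hexp : ExpAll S.r) {p : Itv E} (hp : p.1 ⊆ p.2)
    (hc : QUB.Cn S.r p) (ho : QUB.Ok S.r p) {T : Fm K E} (hT : InV0 S p T) :
    EqD S.U S.W p T 0 :=
  uniq_zero_main S hexp _ p le_rfl hp hc ho T hT

end Pool.Agent.QU
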