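import Pool.Agent.QUL.Itv
import Pool.Agent.QUB.Move

set_option autoImplicit false

/-!
# Project QU, layer A, module LHalf: the two halves of a separation of order two (pure rank functions)

`p = (C, G)`, `C ⊆ G`, `A ⊆ gs p`, `B = gs p \ A` (so `p.1 ∪ A = C ∪ A`, `p.2 \ A = C ∪ B`), `lam r p A = 1`.
`Half r p A X b`: `C ⊆ X ⊆ C ∪ B`, `b ∈ B \ X`, `X` is skew to `A` over `C`, `insert b X` is not. Then the box
`hb p A X b = (X, insert b (C ∪ A ∪ X))` with the ground set `insert b A` is the part of the 2-sum with base point `b`.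

PLAN. For `C ⊆ S ⊆ C ∪ A`, `C ⊆ T ⊆ C ∪ B` let `δ(S,T) = r S + r T - r (S ∪ T) - r C`. (D1) `δ` is nonnegative, monotone in
`S` and in `T` (submodularity), at most `lam r p A = 1` and increases by at most one when one element is added.
(D2) if `δ(S, C ∪ B) = 1` and `δ(C ∪ A, T) = 1` then `δ(S,T) = 1`: submodularity for `S ∪ B` and `C ∪ A ∪ T`.
`half_exists`: let `X` be maximal (cardinality) with `C ⊆ X ⊆ C ∪ B` and `δ(C ∪ A, X) = 0`; it is not `C ∪ B`; take
`b ∈ (C ∪ B) \ X`.
`half_lam`: `r (X ∪ A₁) = r (C ∪ A₁) + r X - r C` (D1); with `S = (C ∪ A) \ A₁`: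
`r (insert b (S ∪ X)) = r S + r (insert b X) - r C - δ(S, C ∪ B)` (if `δ(S, C ∪ B) = 1` by (D2), if it is zero by (D1));
`r (insert b (C ∪ A ∪ X)) = r (C ∪ A) + r (insert b X) - r C - 1`; in the same way `r (G \ A₁) = r S + r (C ∪ B) - r C - δ(S, C ∪ B)`
and `r G = r (C ∪ A) + r (C ∪ B) - r C - 1`. Now both sides are equal.
`half_cn`: `half_lam` and `QUB.lam_compl` (the side without `b` is contained in `A`). `half_ok`: the side without `b` is `A₁ ⊆ A`,
`A₁` heavy in the half is heavy in `p`, the other side `insert b (A \ A₁)` heavy in the half implies that `gs p \ A₁` is heavy in `p`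
(the same four point line; `Ln r (hb p A X b) N → Ln r p N` because the half is a minor of `p`).
`half_light`: a four point line of the half has three elements in `A`.
`half_rm_out`: `z ∈ B`: unfold for `s = true`; for `s = false` `lam r (rm false z p) A = 1 = lam r p A` says
`r (insert z (C ∪ A)) - r (insert z C) = r (C ∪ A) - r C`.
`half_rm_in`: `z ∈ A`: `δ(C ∪ (A \ z), insert b X) = 1` by (D2) and `lam r (rm s z p) (A \ z) = 1`.
-/

namespace Pool.Agent.QU

variable {E : Type} [DecidableEq E]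

/-- `X`, `b` describe the half `A` of the separation `A` of `p` -/
def Half (r : Finset E → ℤ) (p : Itv E) (A X : Finset E) (b : E) : Prop :=
  p.1 ⊆ X ∧ X ⊆ p.2 \ A ∧ b ∈ p.2 \ A ∧ b ∉ X ∧
    r (p.1 ∪ A) + r X = r (p.1 ∪ A ∪ X) + r p.1 ∧
    r (p.1 ∪ A) + r (insert b X) = r (insert b (p.1 ∪ A ∪ X)) + r p.1 + 1

/-- the half with base point `b` -/
def hb (p : Itv E) (A X : Finset E) (b : E) : Itv E := (X, insert b (p.1 ∪ A ∪ X))

variable {r : Finset E → ℤ} {p : Itv E}

private theorem lhalf_mono (hr : QUB.Rk r) {S S' T : Finset E} (h1 : S ⊆ S') (h2 : S' ∩ T ⊆ S) :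
    r S + r (S' ∪ T) ≤ r S' + r (S ∪ T) := by
  have h := hr.sub S' (S ∪ T)
  have e1 : S' ∪ (S ∪ T) = S' ∪ T := by
    ext y
    have := fun hy : y ∈ S => h1 hy
    simp only [Finset.mem_union]
    tauto
  have e2 : S' ∩ (S ∪ T) = S := by
    ext y
    have a1 := fun hy : y ∈ S => h1 hy
    have a2 := fun hy : y ∈ S' ∩ T => h2 hy
    simp only [Finset.mem_union, Finset.mem_inter] at a2 ⊢
    tauto
  rw [e1, e2] at h
  linarith

private theorem lhalf_zero (hr : QUB.Rk r) {C S S' T T' : Finset E} (hC : C ⊆ S) (hC' : C ⊆ T)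
    (hS : S ⊆ S') (hT : T ⊆ T') (hI : S' ∩ T' ⊆ C)
    (h0 : r S' + r T' = r (S' ∪ T') + r C) : r S + r T = r (S ∪ T) + r C := by
  have a1 := lhalf_mono hr (T := T') hS (hI.trans hC)
  have a2 := lhalf_mono hr (S := T) (S' := T') (T := S) hT (by
    rw [Finset.inter_comm]
    exact ((Finset.inter_subset_inter_right hS).trans hI).trans hC')
  have a3 := hr.sub S T
  have e : S ∩ T = C := by
    apply Finset.Subset.antisymm
    · exact (Finset.inter_subset_inter hS hT).trans hI
    · exact Finset.subset_inter hC hC'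
  rw [e] at a3
  rw [Finset.union_comm T' S, Finset.union_comm T S] at a2
  linarith

private theorem lhalf_one (hr : QUB.Rk r) {C S P T Q : Finset E} (hC : C ⊆ S)
    (hS : S ⊆ P) (hT : T ⊆ Q) (hI : P ∩ Q ⊆ C)
    (h0 : r P + r Q = r (P ∪ Q) + r C + 1) (h1 : r S + r Q = r (S ∪ Q) + r C + 1)
    (h2 : r P + r T = r (P ∪ T) + r C + 1) : r S + r T = r (S ∪ T) + r C + 1 := by
  have a1 := lhalf_mono hr (T := T) hS
    (((Finset.inter_subset_inter_left hT).trans hI).trans hC)
  have a2 := hr.sub (S ∪ Q) (P ∪ T)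
  have e1 : (S ∪ Q) ∪ (P ∪ T) = P ∪ Q := by
    ext y
    have b1 := fun hy : y ∈ S => hS hy
    have b2 := fun hy : y ∈ T => hT hy
    simp only [Finset.mem_union]
    tauto
  have e2 : (S ∪ Q) ∩ (P ∪ T) = S ∪ T := by
    ext y
    have b1 := fun hy : y ∈ S => hS hy
    have b2 := fun hy : y ∈ T => hT hy
    have b3 := fun hy : y ∈ P ∩ Q => hI hy
    have b4 := fun hy : y ∈ C => hC hy
    simp only [Finset.mem_union, Finset.mem_inter] at b3 ⊢
    tauto
  rw [e1, e2] at a2
  linarith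

private theorem lhalf_PQ (hp : p.1 ⊆ p.2) {A : Finset E} (hA : A ⊆ gs p) :
    (p.1 ∪ A) ∪ (p.2 \ A) = p.2 := by
  ext y
  have b1 := fun hy : y ∈ p.1 => hp hy
  have b2 := fun hy : y ∈ A => (Finset.mem_sdiff.1 (hA hy)).1
  simp only [Finset.mem_union, Finset.mem_sdiff]
  tauto

private theorem lhalf_I {A : Finset E} : (p.1 ∪ A) ∩ (p.2 \ A) ⊆ p.1 := by
  intro y hy
  simp only [Finset.mem_union, Finset.mem_sdiff, Finset.mem_inter] at hy
  tauto

private theorem lhalf_CQ (hp : p.1 ⊆ p.2) {A : Finset E} (hA : A ⊆ gs p) : p.1 ⊆ p.2 \ A := by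
  intro y hy
  exact Finset.mem_sdiff.2 ⟨hp hy, fun h => (Finset.mem_sdiff.1 (hA h)).2 hy⟩

private theorem lhalf_lam (hp : p.1 ⊆ p.2) {A : Finset E} (hA : A ⊆ gs p) (hl : lam r p A = 1) :
    r (p.1 ∪ A) + r (p.2 \ A) = r ((p.1 ∪ A) ∪ (p.2 \ A)) + r p.1 + 1 := by
  rw [lhalf_PQ hp hA]
  unfold lam at hl
  linarith

private theorem lhalf_d0 {A X : Finset E} {b : E} (h : Half r p A X b) :
    r (p.1 ∪ A) + r X = r ((p.1 ∪ A) ∪ X) + r p.1 := h.2.2.2.2.1

private theorem lhalf_d1 {A X : Finset E} {b : E} (h : Half r p A X b) :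
    r (p.1 ∪ A) + r (insert b X) = r ((p.1 ∪ A) ∪ insert b X) + r p.1 + 1 := by
  have h1 := h.2.2.2.2.2
  rwa [← Finset.union_insert] at h1

private theorem lhalf_insX {A X : Finset E} {b : E} (h : Half r p A X b) :
    insert b X ⊆ p.2 \ A := Finset.insert_subset h.2.2.1 h.2.1

private theorem lhalf_CX {A X : Finset E} {b : E} (h : Half r p A X b) :
    p.1 ⊆ insert b X := h.1.trans (Finset.subset_insert b X)

theorem half_exists (hr : QUB.Rk r) (hp : p.1 ⊆ p.2) {A : Finset E} (hA : A ⊆ gs p)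
    (hl : lam r p A = 1) : ∃ X b, Half r p A X b := by
  classical
  let F : Finset (Finset E) := (p.2 \ A).powerset.filter
    fun X => p.1 ⊆ X ∧ r (p.1 ∪ A) + r X = r ((p.1 ∪ A) ∪ X) + r p.1
  have hF : F.Nonempty := by
    refine ⟨p.1, Finset.mem_filter.2 ⟨Finset.mem_powerset.2 (lhalf_CQ hp hA),
      Finset.Subset.refl _, ?_⟩⟩
    have e : (p.1 ∪ A) ∪ p.1 = p.1 ∪ A := by
      ext y
      simp only [Finset.mem_union]
      tauto
    rw [e]
  obtain ⟨X, hX, hmax⟩ := Finset.exists_max_image F Finset.card hF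
  obtain ⟨hX1, hX2, hX3⟩ := Finset.mem_filter.1 hX
  have hX1' := Finset.mem_powerset.1 hX1
  have hl' := lhalf_lam hp hA hl
  have hne : X ≠ p.2 \ A := by
    intro e
    rw [e] at hX3
    linarith
  obtain ⟨b, hb1, hb2⟩ := Finset.exists_of_ssubset (Finset.ssubset_iff_subset_ne.2 ⟨hX1', hne⟩)
  refine ⟨X, b, hX2, hX1', hb1, hb2, hX3, ?_⟩
  have hsub : insert b X ⊆ p.2 \ A := Finset.insert_subset hb1 hX1'
  have h1 : r (p.1 ∪ A) + r (insert b X) ≠ r ((p.1 ∪ A) ∪ insert b X) + r p.1 := by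
    intro h
    have h2 := hmax (insert b X) (Finset.mem_filter.2 ⟨Finset.mem_powerset.2 hsub,
      hX2.trans (Finset.subset_insert b X), h⟩)
    rw [Finset.card_insert_of_notMem hb2] at h2
    omega
  have h2 := lhalf_mono hr (S := insert b X) (S' := p.2 \ A) (T := p.1 ∪ A) hsub (by
    rw [Finset.inter_comm]
    exact lhalf_I.trans (hX2.trans (Finset.subset_insert b X)))
  have h3 := hr.sub (p.1 ∪ A) (insert b X)
  have e3 : (p.1 ∪ A) ∩ insert b X = p.1 := by
    apply Finset.Subset.antisymm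
    · exact (Finset.inter_subset_inter_left hsub).trans lhalf_I
    · exact Finset.subset_inter Finset.subset_union_left
        (hX2.trans (Finset.subset_insert b X))
  rw [e3] at h3
  rw [Finset.union_comm (p.2 \ A), Finset.union_comm (insert b X)] at h2
  rw [← Finset.union_insert]
  have h4 : r (p.1 ∪ A ∪ insert b X) + r p.1 < r (p.1 ∪ A) + r (insert b X) :=
    lt_of_le_of_ne h3 (fun h => h1 h.symm)
  linarith

theorem half_sub (hp : p.1 ⊆ p.2) {A X : Finset E} {b : E} (hA : A ⊆ gs p)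
    (h : Half r p A X b) : p.1 ⊆ (hb p A X b).1 ∧ (hb p A X b).2 ⊆ p.2 ∧
      (hb p A X b).1 ⊆ (hb p A X b).2 ∧ gs (hb p A X b) = insert b A := by
  obtain ⟨h1, h2, h3, h4, -, -⟩ := h
  refine ⟨h1, ?_, ?_, ?_⟩
  · intro y hy
    simp only [hb, Finset.mem_insert, Finset.mem_union] at hy
    rcases hy with rfl | (hy | hy) | hy
    · exact (Finset.mem_sdiff.1 h3).1
    · exact hp hy
    · exact (Finset.mem_sdiff.1 (hA hy)).1
    · exact (Finset.mem_sdiff.1 (h2 hy)).1
  · intro y hy
    simp only [hb, Finset.mem_insert, Finset.mem_union] at hy ⊢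
    exact Or.inr (Or.inr hy)
  · ext y
    have b1 := fun hy : y ∈ p.1 => h1 hy
    have b2 := fun hy : y ∈ X => (Finset.mem_sdiff.1 (h2 hy)).2
    simp only [gs, QUB.gs, hb, Finset.mem_insert, Finset.mem_union, Finset.mem_sdiff]
    constructor
    · rintro ⟨rfl | (h5 | h5) | h5, h6⟩
      · exact Or.inl rfl
      · exact absurd (b1 h5) h6
      · exact Or.inr h5
      · exact absurd h5 h6
    · rintro (rfl | h5)
      · exact ⟨Or.inl rfl, h4⟩
      · exact ⟨Or.inr (Or.inl (Or.inr h5)), fun h6 => b2 h6 h5⟩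

theorem half_lam (hr : QUB.Rk r) (hp : p.1 ⊆ p.2) {A X : Finset E} {b : E} (hA : A ⊆ gs p)
    (hl : lam r p A = 1) (h : Half r p A X b) {Z : Finset E} (hZ : Z ⊆ A) :
    lam r (hb p A X b) Z = lam r p Z := by
  have hl' := lhalf_lam hp hA hl
  have hX := h.2.1
  have hbb := h.2.2.1
  have k0 := lhalf_d0 h
  have k1 := lhalf_d1 h
  have hI : (p.1 ∪ A) ∩ (p.2 \ A) ⊆ p.1 := lhalf_I
  -- the part with `X`
  have e0 : r (p.1 ∪ Z) + r X = r ((p.1 ∪ Z) ∪ X) + r p.1 :=
    lhalf_zero hr (S' := p.1 ∪ A) (T' := X) Finset.subset_union_left h.1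
      (Finset.union_subset_union_right hZ) (Finset.Subset.refl X)
      ((Finset.inter_subset_inter_left hX).trans hI) k0
  have f0 : (p.1 ∪ Z) ∪ X = X ∪ Z := by
    ext y
    have b1 := fun hy : y ∈ p.1 => h.1 hy
    simp only [Finset.mem_union]
    tauto
  rw [f0] at e0
  -- the complementary part
  have hS0 : p.1 ⊆ (p.1 ∪ A) \ Z := by
    intro y hy
    exact Finset.mem_sdiff.2 ⟨Finset.mem_union_left _ hy,
      fun h5 => (Finset.mem_sdiff.1 (hA (hZ h5))).2 hy⟩
  have hS1 : (p.1 ∪ A) \ Z ⊆ p.1 ∪ A := Finset.sdiff_subset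
  have f1 : ((p.1 ∪ A) \ Z) ∪ insert b X = insert b (p.1 ∪ A ∪ X) \ Z := by
    ext y
    have b1 := fun hy : y ∈ Z => hZ hy
    have b2 := fun hy : y ∈ X => (Finset.mem_sdiff.1 (hX hy)).2
    have b3 : y = b → y ∉ A := by
      rintro rfl
      exact (Finset.mem_sdiff.1 hbb).2
    simp only [Finset.mem_union, Finset.mem_sdiff, Finset.mem_insert]
    tauto
  have f2 : ((p.1 ∪ A) \ Z) ∪ (p.2 \ A) = p.2 \ Z := by
    ext y
    have b1 := fun hy : y ∈ Z => hZ hy
    have b2 := fun hy : y ∈ p.1 => hp hy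
    have b3 := fun hy : y ∈ A => (Finset.mem_sdiff.1 (hA hy)).1
    simp only [Finset.mem_union, Finset.mem_sdiff]
    tauto
  have g1 := lhalf_mono hr (S := (p.1 ∪ A) \ Z) (S' := p.1 ∪ A) (T := p.2 \ A) hS1
    (hI.trans hS0)
  have g2 := hr.sub ((p.1 ∪ A) \ Z) (p.2 \ A)
  have g3 : ((p.1 ∪ A) \ Z) ∩ (p.2 \ A) = p.1 := by
    apply Finset.Subset.antisymm
    · exact (Finset.inter_subset_inter_right hS1).trans hI
    · exact Finset.subset_inter hS0 (lhalf_CQ hp hA)
  rw [g3] at g2
  have key : r (insert b (p.1 ∪ A ∪ X) \ Z) + r (p.2 \ A) = r (insert b X) + r (p.2 \ Z) := by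
    have hcase : r ((p.1 ∪ A) \ Z) + r (p.2 \ A) = r (((p.1 ∪ A) \ Z) ∪ (p.2 \ A)) + r p.1 ∨
        r ((p.1 ∪ A) \ Z) + r (p.2 \ A) = r (((p.1 ∪ A) \ Z) ∪ (p.2 \ A)) + r p.1 + 1 := by
      omega
    rcases hcase with hc | hc
    · have h5 := lhalf_zero hr (T := insert b X) hS0 (lhalf_CX h) (Finset.Subset.refl _)
        (lhalf_insX h) (le_of_eq_of_le rfl ((Finset.inter_subset_inter_right hS1).trans hI)) hc
      rw [f1] at h5
      rw [f2] at hc
      linarith
    · have h5 := lhalf_one hr (T := insert b X) hS0 hS1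
        (lhalf_insX h) hI hl' hc k1
      rw [f1] at h5
      rw [f2] at hc
      linarith
  have hPQ := lhalf_PQ hp hA
  rw [hPQ] at hl'
  have k2 := h.2.2.2.2.2
  unfold lam
  simp only [hb]
  linarith

private theorem lhalf_Ln (hp : p.1 ⊆ p.2) {A X : Finset E} {b : E} (hA : A ⊆ gs p)
    (h : Half r p A X b) {N : Finset E} (hN : QUB.Ln r (hb p A X b) N) : QUB.Ln r p N := by
  obtain ⟨h1, h2, -, -⟩ := half_sub hp hA h
  obtain ⟨h0, Y, k1, k2, k3, k4, k5⟩ := hN
  exact ⟨h0, Y, h1.trans k1, k2.trans h2, k3, k4, k5⟩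

private theorem lhalf_Hv (hp : p.1 ⊆ p.2) {A X D : Finset E} {b : E} (hA : A ⊆ gs p)
    (h : Half r p A X b) (hD : QUB.Hv r (hb p A X b) D) : QUB.Hv r p D := by
  obtain ⟨N, hN, hc⟩ := hD
  exact ⟨N, lhalf_Ln hp hA h hN, hc⟩

private theorem lhalf_b {A X : Finset E} {b : E} (h : Half r p A X b) : b ∈ gs p \ A := by
  have h3 := Finset.mem_sdiff.1 h.2.2.1
  exact Finset.mem_sdiff.2 ⟨Finset.mem_sdiff.2 ⟨h3.1, fun h5 => h.2.2.2.1 (h.1 h5)⟩, h3.2⟩

theorem half_cn (hr : QUB.Rk r) (hp : p.1 ⊆ p.2) {A X : Finset E} {b : E} (hA : A ⊆ gs p)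
    (hl : lam r p A = 1) (h : Half r p A X b) (hc : QUB.Cn r p) : QUB.Cn r (hb p A X b) := by
  obtain ⟨-, -, h3, h4⟩ := half_sub hp hA h
  have hbg := Finset.mem_sdiff.1 (lhalf_b h)
  have main : ∀ D : Finset E, D ⊆ A → D.Nonempty → 1 ≤ lam r (hb p A X b) D := by
    intro D hD hne
    rw [half_lam hr hp hA hl h hD]
    exact hc D (hD.trans hA) hne ⟨b, Finset.mem_sdiff.2 ⟨hbg.1, fun h5 => hbg.2 (hD h5)⟩⟩
  intro D hD hne hne'
  by_cases hbD : b ∈ D
  · have h5 := QUB.lam_compl r h3 hD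
    have h6 : gs (hb p A X b) \ D ⊆ A := by
      intro y hy
      have h7 := Finset.mem_sdiff.1 hy
      rw [h4] at h7
      rcases Finset.mem_insert.1 h7.1 with rfl | h8
      · exact absurd hbD h7.2
      · exact h8
    have h7 := main _ h6 hne'
    have h8 : lam r (hb p A X b) (gs (hb p A X b) \ D) = lam r (hb p A X b) D := h5
    rw [h8] at h7
    exact h7
  · refine main D ?_ hne
    intro y hy
    have h7 : y ∈ gs (hb p A X b) := hD hy
    rw [h4] at h7
    rcases Finset.mem_insert.1 h7 with rfl | h8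
    · exact absurd hy hbD
    · exact h8

theorem half_ok (hr : QUB.Rk r) (hp : p.1 ⊆ p.2) {A X : Finset E} {b : E} (hA : A ⊆ gs p)
    (hl : lam r p A = 1) (h : Half r p A X b) (ho : QUB.Ok r p) : QUB.Ok r (hb p A X b) := by
  obtain ⟨-, -, h3, h4⟩ := half_sub hp hA h
  have hbg := Finset.mem_sdiff.1 (lhalf_b h)
  have main : ∀ D : Finset E, D ⊆ A → lam r (hb p A X b) D ≤ 1 →
      QUB.Hv r (hb p A X b) D → QUB.Hv r (hb p A X b) (gs (hb p A X b) \ D) → False := by
    intro D hD h5 h6 h7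
    rw [half_lam hr hp hA hl h hD] at h5
    refine ho D (hD.trans hA) h5 ⟨lhalf_Hv hp hA h h6, ?_⟩
    refine QUB.Hv.mono (lhalf_Hv hp hA h h7) ?_
    rw [h4]
    apply Finset.sdiff_subset_sdiff _ (Finset.Subset.refl D)
    exact Finset.insert_subset hbg.1 hA
  intro D hD h5 h6
  by_cases hbD : b ∈ D
  · have h8 := QUB.lam_compl r h3 hD
    have h9 : gs (hb p A X b) \ D ⊆ A := by
      intro y hy
      have h7 := Finset.mem_sdiff.1 hy
      rw [h4] at h7
      rcases Finset.mem_insert.1 h7.1 with rfl | h8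
      · exact absurd hbD h7.2
      · exact h8
    refine main (gs (hb p A X b) \ D) h9 ?_ h6.2 ?_
    · have h10 : lam r (hb p A X b) (gs (hb p A X b) \ D) = lam r (hb p A X b) D := h8
      rw [h10]
      exact h5
    · have h11 : gs (hb p A X b) \ (gs (hb p A X b) \ D) = D :=
        Finset.sdiff_sdiff_eq_self hD
      rw [h11]
      exact h6.1
  · refine main D ?_ h5 h6.1 h6.2
    intro y hy
    have h7 : y ∈ gs (hb p A X b) := hD hy
    rw [h4] at h7
    rcases Finset.mem_insert.1 h7 with rfl | h8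
    · exact absurd hy hbD
    · exact h8

theorem half_light (hp : p.1 ⊆ p.2) {A X : Finset E} {b : E} (hA : A ⊆ gs p)
    (h : Half r p A X b) (hh : ¬ QUB.Hv r p A) (N : Finset E) : ¬ QUB.Ln r (hb p A X b) N := by
  intro hN
  obtain ⟨-, -, h3, h4⟩ := half_sub hp hA h
  have h5 : N ⊆ gs (hb p A X b) := QUB.Ln.sub hN
  rw [h4] at h5
  refine hh ⟨N, lhalf_Ln hp hA h hN, ?_⟩
  have h6 : N ⊆ insert b (N ∩ A) := by
    intro y hy
    rcases Finset.mem_insert.1 (h5 hy) with rfl | h8
    · exact Finset.mem_insert_self _ _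
    · exact Finset.mem_insert_of_mem (Finset.mem_inter.2 ⟨hy, h8⟩)
  have h7 := Finset.card_le_card h6
  have h8 := Finset.card_insert_le b (N ∩ A)
  have h9 := hN.1
  omega

theorem half_rm_out (hr : QUB.Rk r) (hp : p.1 ⊆ p.2) {A X : Finset E} {b z : E} {s : Bool}
    (hA : A ⊆ gs p) (hz : z ∈ gs p \ A) (hl : lam r p A = 1) (hl' : lam r (rm s z p) A = 1)
    (h : Half r (rm s z p) A X b) :
    Half r p A X b ∧ hb (rm s z p) A X b = hb p A X b ∧ (rm s z p).1 ⊆ (hb p A X b).1 ∧
      (hb p A X b).2 ⊆ (rm s z p).2 := by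
  have hz1 := Finset.mem_sdiff.1 hz
  have hz2 := Finset.mem_sdiff.1 hz1.1
  obtain ⟨C, G⟩ := p
  simp only at hp hz1 hz2
  cases s
  · -- contraction
    obtain ⟨h1, h2, h3, h4, h5, h6⟩ := h
    simp only [rm, QUB.rm] at h1 h2 h3 h4 h5 h6
    unfold lam at hl hl'
    simp only [rm, QUB.rm] at hl'
    simp only at hl
    have hzX : z ∈ X := h1 (Finset.mem_insert_self z C)
    have hCX : C ⊆ X := (Finset.subset_insert z C).trans h1
    have e1 : insert z C ∪ A ∪ X = C ∪ A ∪ X := by
      ext y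
      have b1 : y = z → y ∈ X := by
        rintro rfl
        exact hzX
      simp only [Finset.mem_union, Finset.mem_insert]
      tauto
    rw [e1] at h5 h6
    refine ⟨⟨hCX, h2, h3, h4, ?_, ?_⟩, ?_, h1, ?_⟩
    · show r (C ∪ A) + r X = r (C ∪ A ∪ X) + r C
      linarith
    · show r (C ∪ A) + r (insert b X) = r (insert b (C ∪ A ∪ X)) + r C + 1
      linarith
    · show (X, insert b (insert z C ∪ A ∪ X)) = (X, insert b (C ∪ A ∪ X))
      rw [e1]
    · intro y hy
      simp only [hb, Finset.mem_insert, Finset.mem_union] at hy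
      show y ∈ G
      rcases hy with rfl | (hy | hy) | hy
      · exact (Finset.mem_sdiff.1 h3).1
      · exact hp hy
      · exact (Finset.mem_sdiff.1 (hA hy)).1
      · exact (Finset.mem_sdiff.1 (h2 hy)).1
  · -- deletion
    obtain ⟨h1, h2, h3, h4, h5, h6⟩ := h
    simp only [rm, QUB.rm] at h1 h2 h3 h4 h5 h6
    have hle : G.erase z \ A ⊆ G \ A :=
      Finset.sdiff_subset_sdiff (Finset.erase_subset z G) (Finset.Subset.refl A)
    refine ⟨⟨h1, h2.trans hle, hle h3, h4, h5, h6⟩, rfl, h1, ?_⟩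
    intro y hy
    simp only [hb, Finset.mem_insert, Finset.mem_union] at hy
    show y ∈ G.erase z
    rcases hy with rfl | (hy | hy) | hy
    · exact (Finset.mem_sdiff.1 h3).1
    · refine Finset.mem_erase.2 ⟨?_, hp hy⟩
      rintro rfl
      exact hz2.2 hy
    · refine Finset.mem_erase.2 ⟨?_, (Finset.mem_sdiff.1 (hA hy)).1⟩
      rintro rfl
      exact hz1.2 hy
    · exact (Finset.mem_sdiff.1 (h2 hy)).1

theorem half_rm_in (hr : QUB.Rk r) (hp : p.1 ⊆ p.2) {A X : Finset E} {b z : E} {s : Bool}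
    (hA : A ⊆ gs p) (hz : z ∈ A) (hl : lam r p A = 1) (hl' : lam r (rm s z p) (A.erase z) = 1)
    (h : Half r p A X b) :
    ∃ X' : Finset E, Half r (rm s z p) (A.erase z) X' b ∧
      hb (rm s z p) (A.erase z) X' b = rm s z (hb p A X b) := by
  have hz2 := Finset.mem_sdiff.1 (hA hz)
  have hbA : b ∉ A := (Finset.mem_sdiff.1 h.2.2.1).2
  have hzb : z ≠ b := by
    rintro rfl
    exact hbA hz
  have hzX : z ∉ X := fun h5 => (Finset.mem_sdiff.1 (h.2.1 h5)).2 hz
  have hlp := lhalf_lam hp hA hl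
  have hI : (p.1 ∪ A) ∩ (p.2 \ A) ⊆ p.1 := lhalf_I
  have k0 := lhalf_d0 h
  have k1 := lhalf_d1 h
  have k2 := lhalf_insX h
  have k3 := lhalf_CX h
  have k4 := lhalf_CQ hp hA
  have k5 := lhalf_PQ hp hA
  obtain ⟨C, G⟩ := p
  simp only at hp hz2 hlp hI k0 k1 k2 k3 k4 k5
  obtain ⟨h1, h2, h3, h4, h5, h6⟩ := h
  simp only at h1 h2 h3 h5 h6
  cases s
  · -- contraction
    unfold lam at hl hl'
    simp only [rm, QUB.rm] at hl'
    simp only at hl
    have hzG : z ∉ G \ A := fun h7 => (Finset.mem_sdiff.1 h7).2 hz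
    have e1 : insert z C ∪ A.erase z = C ∪ A := by
      ext y
      by_cases hy : y = z
      · subst hy
        simp [hz]
      · simp only [Finset.mem_union, Finset.mem_insert, Finset.mem_erase]
        tauto
    have e2 : G \ A.erase z = insert z C ∪ (G \ A) := by
      ext y
      have b1 := fun hy : y ∈ C => k4 hy
      by_cases hy : y = z
      · subst hy
        simp [hz2.1]
      · simp only [Finset.mem_union, Finset.mem_insert, Finset.mem_erase, Finset.mem_sdiff]
          at b1 ⊢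
        tauto
    rw [e1, e2] at hl'
    have hzC : insert z C ⊆ C ∪ A :=
      Finset.insert_subset (Finset.mem_union_right _ hz) Finset.subset_union_left
    have m0 : r (insert z C) + r (G \ A) = r (insert z C ∪ (G \ A)) + r C := by linarith
    have m1 : r (insert z C) + r (insert b X) = r (insert z C ∪ insert b X) + r C :=
      lhalf_zero hr (Finset.subset_insert z C) k3 (Finset.Subset.refl _) k2
        ((Finset.inter_subset_inter_right hzC).trans hI) m0
    have m2 : r (insert z C) + r X = r (insert z C ∪ X) + r C :=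
      lhalf_zero hr (Finset.subset_insert z C) h1 (Finset.Subset.refl _) h2
        ((Finset.inter_subset_inter_right hzC).trans hI) m0
    have f1 : insert z C ∪ insert b X = insert b (insert z X) := by
      ext y
      have b1 := fun hy : y ∈ C => h1 hy
      simp only [Finset.mem_union, Finset.mem_insert]
      tauto
    have f2 : insert z C ∪ X = insert z X := by
      ext y
      have b1 := fun hy : y ∈ C => h1 hy
      simp only [Finset.mem_union, Finset.mem_insert]
      tauto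
    have f3 : (C ∪ A) ∪ insert z X = C ∪ A ∪ X := by
      ext y
      have b1 : y = z → y ∈ A := by
        rintro rfl
        exact hz
      simp only [Finset.mem_union, Finset.mem_insert]
      tauto
    rw [f1] at m1
    rw [f2] at m2
    refine ⟨insert z X, ⟨?_, ?_, ?_, ?_, ?_, ?_⟩, ?_⟩
    · exact Finset.insert_subset_insert z h1
    · show insert z X ⊆ G \ A.erase z
      rw [e2]
      exact Finset.insert_subset (Finset.mem_union_left _ (Finset.mem_insert_self z C))
        (h2.trans Finset.subset_union_right)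
    · show b ∈ G \ A.erase z
      rw [e2]
      exact Finset.mem_union_right _ h3
    · intro h7
      rcases Finset.mem_insert.1 h7 with h8 | h8
      · exact hzb h8.symm
      · exact h4 h8
    · show r (insert z C ∪ A.erase z) + r (insert z X) =
        r (insert z C ∪ A.erase z ∪ insert z X) + r (insert z C)
      rw [e1, f3]
      linarith
    · show r (insert z C ∪ A.erase z) + r (insert b (insert z X)) =
        r (insert b (insert z C ∪ A.erase z ∪ insert z X)) + r (insert z C) + 1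
      rw [e1, f3]
      linarith
    · show (insert z X, insert b (insert z C ∪ A.erase z ∪ insert z X)) =
        (insert z X, insert b (C ∪ A ∪ X))
      rw [e1, f3]
  · -- deletion
    unfold lam at hl'
    simp only [rm, QUB.rm] at hl'
    have e2 : G.erase z \ A.erase z = G \ A := by
      ext y
      by_cases hy : y = z
      · subst hy
        simp [hz]
      · simp only [Finset.mem_erase, Finset.mem_sdiff]
        tauto
    have e3 : G.erase z = (C ∪ A.erase z) ∪ (G \ A) := by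
      ext y
      have b1 := fun hy : y ∈ C => hp hy
      have b2 := fun hy : y ∈ A => (Finset.mem_sdiff.1 (hA hy)).1
      by_cases hy : y = z
      · subst hy
        simp [hz, hz2.2]
      · simp only [Finset.mem_union, Finset.mem_erase, Finset.mem_sdiff]
        tauto
    have m0 : r (C ∪ A.erase z) + r (G \ A) = r ((C ∪ A.erase z) ∪ (G \ A)) + r C + 1 := by
      rw [← e3]
      rw [e2] at hl'
      linarith
    have hSP : C ∪ A.erase z ⊆ C ∪ A :=
      Finset.union_subset_union_right (Finset.erase_subset z A)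
    have m1 : r (C ∪ A.erase z) + r (insert b X) =
        r ((C ∪ A.erase z) ∪ insert b X) + r C + 1 :=
      lhalf_one hr Finset.subset_union_left hSP k2 hI hlp m0 k1
    have m2 : r (C ∪ A.erase z) + r X = r ((C ∪ A.erase z) ∪ X) + r C :=
      lhalf_zero hr Finset.subset_union_left h1 hSP (Finset.Subset.refl X)
        ((Finset.inter_subset_inter_left h2).trans hI) k0
    refine ⟨X, ⟨?_, ?_, ?_, ?_, ?_, ?_⟩, ?_⟩
    · exact h1
    · show X ⊆ G.erase z \ A.erase z
      rw [e2]
      exact h2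
    · show b ∈ G.erase z \ A.erase z
      rw [e2]
      exact h3
    · exact h4
    · exact m2
    · show r (C ∪ A.erase z) + r (insert b X) = r (insert b ((C ∪ A.erase z) ∪ X)) + r C + 1
      rw [← Finset.union_insert]
      exact m1
    · show (X, insert b (C ∪ A.erase z ∪ X)) = (X, (insert b (C ∪ A ∪ X)).erase z)
      congr 1
      ext y
      by_cases hy : y = z
      · subst hy
        simp [hzb, hzX, hz2.2]
      · simp only [Finset.mem_union, Finset.mem_insert, Finset.mem_erase]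
        tauto

end Pool.Agent.QU
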