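import Pool.Agent.QUL.LDefs
import Pool.Agent.QUL.LHalf
import Pool.Agent.QUB.Lam

set_option autoImplicit false

/-!
# Project QU, layer A, module LTransR: five-element minors and separations (pure rank functions)

`C = p.1`, `G = p.2`, `B = gs p \ A`, `C ∪ B = G \ A`. The rank of `S ∪ X` (`C ⊆ S ⊆ C ∪ A`) does not depend on the half `(X, b)`
up to a constant (`lt_skew`, `lt_full`), so rich minors are carried from one side of a separation to the half (`lt_rich`).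
-/

open Finset

namespace Pool.Agent.QU

variable {E : Type} [DecidableEq E] {r : Finset E → ℤ} {p q : Itv E}

private theorem lt_mono (hr : QUB.Rk r) {S S' : Finset E} (T : Finset E) (h : S ⊆ S') :
    r (S' ∪ T) + r S ≤ r S' + r (S ∪ T) := by
  have h1 := hr.sub S' (S ∪ T)
  have h2 : S' ∪ (S ∪ T) = S' ∪ T := by
    rw [← union_assoc, union_eq_left.2 h]
  have h3 := hr.mono S (S' ∩ (S ∪ T)) (subset_inter h subset_union_left)
  rw [h2] at h1
  linarith

private theorem lt_nonneg (hr : QUB.Rk r) {C S T : Finset E} (hS : C ⊆ S) (hT : C ⊆ T) :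
    r (S ∪ T) + r C ≤ r S + r T := by
  have h1 := hr.sub S T
  have h2 := hr.mono C (S ∩ T) (subset_inter hS hT)
  linarith

private theorem lt_two (hr : QUB.Rk r) {a b G S T : Finset E} (hS : S ⊆ a) (hT : T ⊆ b)
    (hG : G ⊆ a ∪ b) : r G + r (S ∪ T) ≤ r (S ∪ b) + r (a ∪ T) := by
  have h1 := hr.sub (S ∪ b) (a ∪ T)
  have h2 := hr.mono G ((S ∪ b) ∪ (a ∪ T)) (fun x hx => by
    rcases mem_union.1 (hG hx) with h | h
    · exact mem_union_right _ (mem_union_left _ h)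
    · exact mem_union_left _ (mem_union_right _ h))
  have h3 := hr.mono (S ∪ T) ((S ∪ b) ∩ (a ∪ T)) (fun x hx => by
    rcases mem_union.1 hx with h | h
    · exact mem_inter.2 ⟨mem_union_left _ h, mem_union_left _ (hS h)⟩
    · exact mem_inter.2 ⟨mem_union_right _ (hT h), mem_union_right _ h⟩)
  linarith

private theorem lt_ab (p : Itv E) (A : Finset E) : p.2 ⊆ (p.1 ∪ A) ∪ (p.2 \ A) := by
  intro x hx
  by_cases h : x ∈ A
  · exact mem_union_left _ (mem_union_right _ h)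
  · exact mem_union_right _ (mem_sdiff.2 ⟨hx, h⟩)

private theorem lt_Cb (hp : p.1 ⊆ p.2) {A : Finset E} (hA : A ⊆ gs p) : p.1 ⊆ p.2 \ A := fun _ hx =>
  mem_sdiff.2 ⟨hp hx, fun h => (mem_sdiff.1 (hA h)).2 hx⟩

private theorem lt_lam (A : Finset E) (hl : lam r p A = 1) :
    r (p.1 ∪ A) + r (p.2 \ A) = r p.2 + r p.1 + 1 := by
  have h : r (p.1 ∪ A) + r (p.2 \ A) - r p.2 - r p.1 = 1 := hl
  linarith

/-- a set `X` which is skew to `A` -/
private theorem lt_skew (hr : QUB.Rk r) {A X S : Finset E} (hX : p.1 ⊆ X)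
    (h : r (p.1 ∪ A) + r X = r (p.1 ∪ A ∪ X) + r p.1) (hS : p.1 ⊆ S) (hS' : S ⊆ p.1 ∪ A) :
    r (S ∪ X) = r S - r p.1 + r X := by
  have h1 := lt_nonneg hr hS hX
  have h2 := lt_mono hr X hS'
  linarith

/-- a set `T` which is not skew to `A` -/
private theorem lt_full (hr : QUB.Rk r) (hp : p.1 ⊆ p.2) {A T S : Finset E}
    (hl : lam r p A = 1) (hT : T ⊆ p.2 \ A)
    (h : r (p.1 ∪ A) + r T = r (p.1 ∪ A ∪ T) + r p.1 + 1) (hS' : S ⊆ p.1 ∪ A) :
    r (S ∪ T) = r (S ∪ (p.2 \ A)) - r (p.2 \ A) + r T := by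
  have h1 := lt_mono hr S hT
  rw [union_comm (p.2 \ A) S, union_comm T S] at h1
  have h2 := lt_two hr hS' hT (lt_ab p A)
  have h3 := lt_lam A hl
  linarith

private theorem lt_insb (hr : QUB.Rk r) {A X : Finset E} {b : E} (hX : Half r p A X b) :
    r (insert b X) = r X + 1 := by
  have h1 := hX.2.2.2.2.1
  have h2 := hX.2.2.2.2.2
  have h3 := hr.unit X b
  have h4 := hr.mono (p.1 ∪ A ∪ X) (insert b (p.1 ∪ A ∪ X)) (subset_insert _ _)
  linarith

private theorem lt_half0 (hr : QUB.Rk r) {A X S : Finset E} {b : E} (hX : Half r p A X b)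
    (hS : p.1 ⊆ S) (hS' : S ⊆ p.1 ∪ A) : r (S ∪ X) = r S - r p.1 + r X :=
  lt_skew hr hX.1 hX.2.2.2.2.1 hS hS'

private theorem lt_half1 (hr : QUB.Rk r) (hp : p.1 ⊆ p.2) {A X S : Finset E} {b : E}
    (hl : lam r p A = 1) (hX : Half r p A X b) (hS' : S ⊆ p.1 ∪ A) :
    r (insert b (S ∪ X)) = r (S ∪ (p.2 \ A)) - r (p.2 \ A) + (r X + 1) := by
  have h1 : r (p.1 ∪ A) + r (insert b X) = r (p.1 ∪ A ∪ insert b X) + r p.1 + 1 := by
    rw [union_insert]
    exact hX.2.2.2.2.2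
  have h2 := lt_full hr hp hl (insert_subset hX.2.2.1 hX.2.1) h1 hS'
  rw [union_insert, lt_insb hr hX] at h2
  exact h2

/-- transport of rich five-element minors -/
private theorem lt_rich {q q' : Itv E} (hq' : q'.1 ⊆ q'.2) (φ : E → E)
    (hφ : Set.InjOn φ (gs q : Set E)) (him : (gs q).image φ = gs q') (c : ℤ)
    (h : ∀ W ⊆ gs q, r (q'.1 ∪ W.image φ) = r (q.1 ∪ W) + c) (hR : Rich r q) : Rich r q' := by
  have h0 : r q'.1 = r q.1 + c := by
    have := h ∅ (empty_subset _)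
    rwa [image_empty, union_empty, union_empty] at this
  have h1 : r q'.2 = r q.2 + c := by
    have := h (gs q) (Subset.refl _)
    rw [him] at this
    have e1 : q'.1 ∪ gs q' = q'.2 := union_sdiff_of_subset hq'
    have e2 : q.1 ∪ gs q = q.2 := union_sdiff_of_subset hR.1
    rwa [e1, e2] at this
  refine ⟨hq', by rw [← him, card_image_of_injOn hφ]; exact hR.2.1, ?_⟩
  rcases hR.2.2 with ⟨h2, h3⟩ | ⟨h2, h3⟩
  · refine Or.inl ⟨by linarith, fun i' hi' j' hj' hij => ?_⟩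
    rw [← him] at hi' hj'
    obtain ⟨i, hi, rfl⟩ := mem_image.1 hi'
    obtain ⟨j, hj, rfl⟩ := mem_image.1 hj'
    have hne : i ≠ j := fun e => hij (by rw [e])
    have h4 := h {i, j} (insert_subset hi (singleton_subset_iff.2 hj))
    rw [image_insert, image_singleton, h3 i hi j hj hne] at h4
    linarith
  · refine Or.inr ⟨by linarith, fun i' hi' j' hj' k' hk' hij hik hjk => ?_⟩
    rw [← him] at hi' hj' hk'
    obtain ⟨i, hi, rfl⟩ := mem_image.1 hi'
    obtain ⟨j, hj, rfl⟩ := mem_image.1 hj'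
    obtain ⟨k, hk, rfl⟩ := mem_image.1 hk'
    have h4 := h {i, j, k} (insert_subset hi (insert_subset hj (singleton_subset_iff.2 hk)))
    rw [image_insert, image_insert, image_singleton, h3 i hi j hj k hk (fun e => hij (by rw [e]))
      (fun e => hik (by rw [e])) (fun e => hjk (by rw [e]))] at h4
    linarith

private theorem lt_two_of (hr : QUB.Rk r) (hR : Rich r q) {T : Finset E} (hT : T ⊆ gs q)
    (hc : 2 ≤ T.card) : r q.1 + 2 ≤ r (q.1 ∪ T) := by
  obtain ⟨i, hi, j, hj, hij⟩ := one_lt_card.1 (by omega : 1 < T.card)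
  rcases hR.2.2 with ⟨-, h3⟩ | ⟨-, h3⟩
  · have h4 := hr.mono (q.1 ∪ {i, j}) (q.1 ∪ T)
      (union_subset_union_right (insert_subset hi (singleton_subset_iff.2 hj)))
    rw [h3 i (hT hi) j (hT hj) hij] at h4
    exact h4
  · have hex : ∃ k ∈ gs q, k ∉ ({i, j} : Finset E) := by
      by_contra hcon
      push Not at hcon
      have h5 := card_le_card (fun k hk => hcon k hk : gs q ⊆ {i, j})
      have h6 := card_le_two (a := i) (b := j)
      have h7 := hR.2.1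
      omega
    obtain ⟨k, hk, hk2⟩ := hex
    rw [mem_insert, mem_singleton] at hk2
    push Not at hk2
    have h4 := h3 i (hT hi) j (hT hj) k hk hij hk2.1.symm hk2.2.symm
    have h5 := hr.unit (q.1 ∪ {i, j}) k
    have h6 : insert k (q.1 ∪ {i, j}) = q.1 ∪ {i, j, k} := by
      ext x
      simp only [mem_insert, mem_union, mem_singleton]
      tauto
    rw [h6, h4] at h5
    have h7 := hr.mono (q.1 ∪ {i, j}) (q.1 ∪ T)
      (union_subset_union_right (insert_subset hi (singleton_subset_iff.2 hj)))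
    linarith

private theorem lt_three_of (hr : QUB.Rk r) (hR : Rich r q) {T : Finset E} (hT : T ⊆ gs q)
    (hc : 3 ≤ T.card) : r q.2 ≤ r (q.1 ∪ T) := by
  rcases hR.2.2 with ⟨h2, -⟩ | ⟨h2, h3⟩
  · have := lt_two_of hr hR hT (by omega)
    linarith
  · obtain ⟨i, hi, j, hj, k, hk, hij, hik, hjk⟩ := two_lt_card.1 (by omega : 2 < T.card)
    have h4 := hr.mono (q.1 ∪ {i, j, k}) (q.1 ∪ T) (union_subset_union_right
      (insert_subset hi (insert_subset hj (singleton_subset_iff.2 hk))))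
    rw [h3 i (hT hi) j (hT hj) k (hT hk) hij hik hjk] at h4
    linarith

private theorem lt_gs (hq : Sub q p) : gs q ⊆ gs p := fun x hx => by
  have h := mem_sdiff.1 hx
  exact mem_sdiff.2 ⟨hq.2 h.1, fun h' => h.2 (hq.1 h')⟩

private theorem lt_split (hq : Sub q p) (A : Finset E) :
    A ∩ gs q ∪ (gs p \ A) ∩ gs q = gs q := by
  ext x
  have h := @lt_gs _ _ _ _ hq x
  simp only [mem_union, mem_inter, mem_sdiff] at h ⊢
  tauto

private theorem lt_card (hq : Sub q p) (A : Finset E) :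
    (A ∩ gs q).card + ((gs p \ A) ∩ gs q).card = (gs q).card := by
  rw [← card_union_of_disjoint, lt_split hq]
  rw [disjoint_left]
  intro x hx hx'
  exact (mem_sdiff.1 (mem_inter.1 hx').1).2 (mem_inter.1 hx).1

theorem rich_side (hr : QUB.Rk r) (hp : p.1 ⊆ p.2) {A : Finset E} (hA : A ⊆ gs p)
    (hl : lam r p A ≤ 1) (hq : Sub q p) (hR : Rich r q) :
    (A ∩ gs q).card ≤ 1 ∨ ((gs p \ A) ∩ gs q).card ≤ 1 := by
  by_contra hcon
  push Not at hcon
  obtain ⟨hc1, hc2⟩ := hcon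
  have hc := lt_card hq A
  rw [hR.2.1] at hc
  have hCb := lt_Cb hp hA
  have hG := lt_ab p A
  -- contraction
  have hQa : p.1 ⊆ q.1 ∩ (p.1 ∪ A) := subset_inter hq.1 subset_union_left
  have h1 := lt_mono hr (q.1 ∩ (p.2 \ A)) (inter_subset_right (s₁ := q.1) (s₂ := p.1 ∪ A))
  have hq12 : q.1 ⊆ p.2 := hR.1.trans hq.2
  have e1 : q.1 ∩ (p.1 ∪ A) ∪ q.1 ∩ (p.2 \ A) = q.1 := by
    ext x
    have h3 : x ∈ q.1 → x ∈ p.2 := fun h => hq12 h
    simp only [mem_union, mem_inter, mem_sdiff]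
    tauto
  rw [e1] at h1
  have h2 := lt_nonneg hr hCb hQa
  -- deletion
  have ea : p.1 ∪ A ∪ q.1 ∩ (p.2 \ A) = p.1 ∪ A ∪ q.1 := by
    ext x
    have h3 : x ∈ q.1 → x ∈ p.2 := fun h => hq12 h
    simp only [mem_union, mem_inter, mem_sdiff]
    tauto
  have eb : p.2 \ A ∪ q.1 ∩ (p.1 ∪ A) = p.2 \ A ∪ q.1 := by
    ext x
    have h3 : x ∈ q.1 → x ∈ p.2 := fun h => hq12 h
    simp only [mem_union, mem_inter, mem_sdiff]
    tauto
  rw [ea] at h1
  rw [eb] at h2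
  have hS : q.1 ∪ (A ∩ gs q) ⊆ p.1 ∪ A ∪ q.1 := by
    intro x hx
    simp only [mem_union, mem_inter] at hx ⊢
    tauto
  have hT : q.1 ∪ ((gs p \ A) ∩ gs q) ⊆ p.2 \ A ∪ q.1 := by
    intro x hx
    simp only [mem_union, mem_inter, mem_sdiff, gs] at hx ⊢
    tauto
  have h3 := lt_mono hr (p.2 \ A ∪ q.1) hS
  have h4 := lt_mono hr (q.1 ∪ (A ∩ gs q)) hT
  have e3 : q.1 ∪ ((gs p \ A) ∩ gs q) ∪ (q.1 ∪ (A ∩ gs q)) = q.2 := by
    have e4 : q.1 ∪ gs q = q.2 := union_sdiff_of_subset hR.1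
    rw [← e4]
    ext x
    have e6 : x ∈ gs q ↔ x ∈ A ∩ gs q ∨ x ∈ (gs p \ A) ∩ gs q := by
      rw [← mem_union, lt_split hq A]
    simp only [mem_union]
    rw [e6]
    tauto
  rw [e3, union_comm (p.2 \ A ∪ q.1) (q.1 ∪ (A ∩ gs q))] at h4
  have h5 := hr.mono p.2 (p.1 ∪ A ∪ q.1 ∪ (p.2 \ A ∪ q.1)) (fun x hx => by
    have := hG hx
    simp only [mem_union] at this ⊢
    tauto)
  have h6 : r (p.1 ∪ A) + r (p.2 \ A) - r p.2 - r p.1 ≤ 1 := hl
  have hle : r (q.1 ∪ (A ∩ gs q)) + r (q.1 ∪ ((gs p \ A) ∩ gs q)) ≤ r q.2 + r q.1 + 1 := by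
    linarith
  rcases (by omega : 3 ≤ (A ∩ gs q).card ∨ 3 ≤ ((gs p \ A) ∩ gs q).card) with h | h
  · have a1 := lt_three_of hr hR inter_subset_right h
    have a2 := lt_two_of hr hR (T := (gs p \ A) ∩ gs q) inter_subset_right (by omega)
    linarith
  · have a1 := lt_three_of hr hR inter_subset_right h
    have a2 := lt_two_of hr hR (T := A ∩ gs q) inter_subset_right (by omega)
    linarith

theorem tr_point (hr : QUB.Rk r) (hp : p.1 ⊆ p.2) {A : Finset E} (hA : A ⊆ gs p)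
    (hl : lam r p A = 1) (hq : Sub q p) (hR : Rich r q) {y : E}
    (hy : (gs p \ A) ∩ gs q = {y}) : Half r p A (q.1 ∩ (p.2 \ A)) y := by
  have hc := lt_card hq A
  rw [hR.2.1, hy, card_singleton] at hc
  have hy' : y ∈ (gs p \ A) ∩ gs q := by rw [hy]; exact mem_singleton_self y
  have hyq : y ∈ gs q := (mem_inter.1 hy').2
  have hyA : y ∉ A := (mem_sdiff.1 (mem_inter.1 hy').1).2
  have hyp : y ∈ p.2 := (mem_sdiff.1 (mem_sdiff.1 (mem_inter.1 hy').1).1).1
  have hyq1 : y ∉ q.1 := (mem_sdiff.1 hyq).2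
  have hCb := lt_Cb hp hA
  have hq12 : q.1 ⊆ p.2 := hR.1.trans hq.2
  set X := q.1 ∩ (p.2 \ A) with hX
  have hCX : p.1 ⊆ X := subset_inter hq.1 hCb
  have hXb : X ⊆ p.2 \ A := inter_subset_right
  have hyb : y ∈ p.2 \ A := mem_sdiff.2 ⟨hyp, hyA⟩
  have hyX : y ∉ X := fun h => hyq1 (mem_inter.1 h).1
  -- `y` is not a loop
  have hloop : r q.1 + 1 ≤ r (insert y q.1) := by
    obtain ⟨j, hj⟩ : (A ∩ gs q).Nonempty := card_pos.1 (by omega)
    have hjy : y ≠ j := fun e => hyA (e ▸ (mem_inter.1 hj).1)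
    have h1 := lt_two_of hr hR (T := {y, j})
      (insert_subset hyq (singleton_subset_iff.2 (mem_inter.1 hj).2)) (by rw [card_pair hjy])
    have h2 := hr.unit (insert y q.1) j
    have h3 : insert j (insert y q.1) = q.1 ∪ {y, j} := by
      ext x
      simp only [mem_insert, mem_union, mem_singleton]
      tauto
    rw [h3] at h2
    linarith
  have h1 := QUB.marg hr (inter_subset_left (s₁ := q.1) (s₂ := p.2 \ A)) y
  have h1' := hr.unit X y
  rw [← hX] at h1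
  -- `y` is in the closure of the rest
  have hcl : r (insert y (q.1 ∪ (A ∩ gs q))) ≤ r (q.1 ∪ (A ∩ gs q)) := by
    have h2 := lt_three_of hr hR (T := A ∩ gs q) inter_subset_right (by omega)
    have h3 := hr.mono (insert y (q.1 ∪ (A ∩ gs q))) q.2 (by
      refine insert_subset (mem_sdiff.1 hyq).1 (union_subset hR.1 fun x hx => ?_)
      exact (mem_sdiff.1 (mem_inter.1 hx).2).1)
    linarith
  have hsub : q.1 ∪ (A ∩ gs q) ⊆ p.1 ∪ A ∪ X := by
    intro x hx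
    have h3 : x ∈ q.1 → x ∈ p.2 := fun h => hq12 h
    rw [hX]
    simp only [mem_union, mem_inter, mem_sdiff] at hx ⊢
    tauto
  have h2 := QUB.marg hr hsub y
  have h2' := hr.mono (p.1 ∪ A ∪ X) (insert y (p.1 ∪ A ∪ X)) (subset_insert _ _)
  -- the defect
  have h3 := lt_nonneg hr (subset_union_left (s₁ := p.1) (s₂ := A)) hCX
  have h4 := lt_mono hr (p.1 ∪ A) (insert_subset hyb hXb)
  have e4 : insert y X ∪ (p.1 ∪ A) = insert y (p.1 ∪ A ∪ X) := by
    rw [insert_union, union_comm X]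
  have e5 : p.2 \ A ∪ (p.1 ∪ A) = p.2 := by
    ext x
    have h5 : x ∈ p.1 → x ∈ p.2 := fun h => hp h
    have h6 : x ∈ A → x ∈ p.2 := fun h => (mem_sdiff.1 (hA h)).1
    simp only [mem_union, mem_sdiff]
    tauto
  rw [e4, e5] at h4
  have h5 := lt_lam A hl
  refine ⟨hCX, hXb, hyb, hyX, ?_, ?_⟩
  · linarith
  · linarith

private theorem lt_phi (W : Finset E) (y b : E) : W.image (fun x => if x = y then b else x) =
    if y ∈ W then insert b (W.erase y) else W := by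
  ext x
  rw [mem_image]
  split_ifs with hyW
  · rw [mem_insert, mem_erase]
    constructor
    · rintro ⟨z, hz, rfl⟩
      by_cases hzy : z = y
      · rw [if_pos hzy]
        exact Or.inl rfl
      · rw [if_neg hzy]
        exact Or.inr ⟨hzy, hz⟩
    · rintro (rfl | ⟨h1, h2⟩)
      · exact ⟨y, hyW, if_pos rfl⟩
      · exact ⟨x, h2, if_neg h1⟩
  · constructor
    · rintro ⟨z, hz, rfl⟩
      have hzy : z ≠ y := fun e => hyW (by rw [← e]; exact hz)
      rw [if_neg hzy]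
      exact hz
    · intro hx
      have hxy : x ≠ y := fun e => hyW (by rw [← e]; exact hx)
      exact ⟨x, hx, if_neg hxy⟩

/-- the ranks in the first case, with `y` -/
private theorem lt_case1 (hr : QUB.Rk r) (hp : p.1 ⊆ p.2) {A X W : Finset E} {b y : E}
    (hl : lam r p A = 1) (hX : Half r p A X b) (hY : Half r p A (q.1 ∩ (p.2 \ A)) y)
    (hq1 : p.1 ⊆ q.1) (hq12 : q.1 ⊆ p.2) (hW : W ⊆ A) :
    r (X ∪ q.1 ∩ A ∪ insert b W) = r (q.1 ∪ insert y W) + (r X - r (q.1 ∩ (p.2 \ A))) := by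
  have hS : p.1 ∪ (q.1 ∩ A) ∪ W ⊆ p.1 ∪ A := by
    intro x hx
    simp only [mem_union, mem_inter] at hx ⊢
    rcases hx with (hx | hx) | hx
    · exact Or.inl hx
    · exact Or.inr hx.2
    · exact Or.inr (hW hx)
  have a1 := lt_half1 hr hp hl hX hS
  have a2 := lt_half1 hr hp hl hY hS
  have e2 : X ∪ q.1 ∩ A ∪ insert b W = insert b (p.1 ∪ (q.1 ∩ A) ∪ W ∪ X) := by
    ext x
    have h4 : x ∈ p.1 → x ∈ X := fun h => hX.1 h
    simp only [mem_union, mem_insert, mem_inter]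
    tauto
  have e3 : q.1 ∪ insert y W = insert y (p.1 ∪ (q.1 ∩ A) ∪ W ∪ q.1 ∩ (p.2 \ A)) := by
    ext x
    have h3 : x ∈ q.1 → x ∈ p.2 := fun h => hq12 h
    have h4 : x ∈ p.1 → x ∈ q.1 := fun h => hq1 h
    simp only [mem_union, mem_insert, mem_inter, mem_sdiff]
    tauto
  rw [e2, e3, a1, a2]
  ring

/-- the ranks without `y`, `b` -/
private theorem lt_case2 (hr : QUB.Rk r) {A X Y W : Finset E} (hX1 : p.1 ⊆ X)
    (hX : r (p.1 ∪ A) + r X = r (p.1 ∪ A ∪ X) + r p.1) (hY1 : p.1 ⊆ Y)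
    (hY : r (p.1 ∪ A) + r Y = r (p.1 ∪ A ∪ Y) + r p.1) (hYq : Y = q.1 ∩ (p.2 \ A))
    (hq1 : p.1 ⊆ q.1) (hq12 : q.1 ⊆ p.2) (hW : W ⊆ A) :
    r (X ∪ q.1 ∩ A ∪ W) = r (q.1 ∪ W) + (r X - r Y) := by
  have hS0 : p.1 ⊆ p.1 ∪ (q.1 ∩ A) ∪ W := subset_union_left.trans subset_union_left
  have hS : p.1 ∪ (q.1 ∩ A) ∪ W ⊆ p.1 ∪ A := by
    intro x hx
    simp only [mem_union, mem_inter] at hx ⊢
    rcases hx with (hx | hx) | hx
    · exact Or.inl hx
    · exact Or.inr hx.2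
    · exact Or.inr (hW hx)
  have a1 := lt_skew hr hX1 hX hS0 hS
  have a2 := lt_skew hr hY1 hY hS0 hS
  have e2 : X ∪ q.1 ∩ A ∪ W = p.1 ∪ (q.1 ∩ A) ∪ W ∪ X := by
    ext x
    have h4 : x ∈ p.1 → x ∈ X := fun h => hX1 h
    simp only [mem_union, mem_inter]
    tauto
  have e3 : q.1 ∪ W = p.1 ∪ (q.1 ∩ A) ∪ W ∪ Y := by
    rw [hYq]
    ext x
    have h3 : x ∈ q.1 → x ∈ p.2 := fun h => hq12 h
    have h4 : x ∈ p.1 → x ∈ q.1 := fun h => hq1 h
    simp only [mem_union, mem_inter, mem_sdiff]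
    tauto
  rw [e2, e3, a1, a2]
  ring

/-- the new ground set, in the first case -/
private theorem lt_img {A X D Q : Finset E} {b y : E} (hyA : y ∉ A) (hbA : b ∉ A)
    (hgs : ∀ x ∈ D, x ≠ y → x ∈ A) (hXA : ∀ x ∈ X, x ∉ A) (hbX : b ∉ X) (hDQ : ∀ x ∈ D, x ∉ Q) :
    insert b (D.erase y) = insert b (X ∪ Q ∩ A ∪ A ∩ D) \ (X ∪ Q ∩ A) := by
  ext x
  rw [mem_insert, mem_erase, mem_sdiff, mem_insert, mem_union, mem_union, mem_inter, mem_inter]
  by_cases hb : x = b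
  · subst hb
    constructor
    · intro _
      exact ⟨Or.inl rfl, fun h => h.elim hbX (fun h => hbA h.2)⟩
    · intro _
      exact Or.inl rfl
  · constructor
    · rintro (h | ⟨h1, h2⟩)
      · exact absurd h hb
      · have h3 := hgs x h2 h1
        exact ⟨Or.inr (Or.inr ⟨h3, h2⟩), fun h => h.elim (fun h => hXA x h h3)
          (fun h => hDQ x h2 h.1)⟩
    · rintro ⟨h | h | h, h4⟩
      · exact absurd h hb
      · exact absurd h h4
      · exact Or.inr ⟨fun e => hyA (by rw [← e]; exact h.1), h.2⟩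

/-- the first case: `y` is replaced by `b` -/
theorem tr_rich1 (hr : QUB.Rk r) (hp : p.1 ⊆ p.2) {A X : Finset E} {b : E} (hA : A ⊆ gs p)
    (hl : lam r p A = 1) (hX : Half r p A X b) (hq : Sub q p) (hR : Rich r q) {y : E}
    (hy : (gs p \ A) ∩ gs q = {y}) :
    Rich r (X ∪ (q.1 ∩ A), insert b (X ∪ (q.1 ∩ A) ∪ (A ∩ gs q))) := by
  have hY := tr_point hr hp hA hl hq hR hy
  have hy' : y ∈ (gs p \ A) ∩ gs q := by rw [hy]; exact mem_singleton_self y
  have hyq : y ∈ gs q := (mem_inter.1 hy').2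
  have hyA : y ∉ A := (mem_sdiff.1 (mem_inter.1 hy').1).2
  have hbA : b ∉ A := (mem_sdiff.1 hX.2.2.1).2
  have hq12 : q.1 ⊆ p.2 := hR.1.trans hq.2
  have hgs : ∀ x ∈ gs q, x ≠ y → x ∈ A := fun x hx hxy => by
    have h1 : x ∈ A ∩ gs q ∪ (gs p \ A) ∩ gs q := by rw [lt_split hq]; exact hx
    rw [hy, mem_union, mem_singleton] at h1
    exact (mem_inter.1 (h1.resolve_right hxy)).1
  have hXA : ∀ x ∈ X, x ∉ A := fun x hx => (mem_sdiff.1 (hX.2.1 hx)).2
  have hCA : ∀ x ∈ p.1, x ∉ A := fun x hx h => (mem_sdiff.1 (hA h)).2 hx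
  refine lt_rich (q := q) ?_ (fun x => if x = y then b else x) ?_ ?_
    (r X - r (q.1 ∩ (p.2 \ A))) ?_ hR
  · exact subset_union_left.trans (subset_insert _ _)
  · intro x hx z hz hxz
    simp only at hxz
    by_cases h1 : x = y
    · by_cases h2 : z = y
      · rw [h1, h2]
      · rw [if_pos h1, if_neg h2] at hxz
        exact absurd (hgs z hz h2) (hxz ▸ hbA)
    · by_cases h2 : z = y
      · rw [if_neg h1, if_pos h2] at hxz
        exact absurd (hgs x hx h1) (by rw [hxz]; exact hbA)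
      · rw [if_neg h1, if_neg h2] at hxz
        exact hxz
  · rw [lt_phi, if_pos hyq]
    exact lt_img hyA hbA hgs hXA hX.2.2.2.1 (fun x hx => (mem_sdiff.1 hx).2)
  · intro W hW
    rw [lt_phi]
    split_ifs with hyW
    · have h1 := lt_case1 (q := q) (W := W.erase y) hr hp hl hX hY hq.1 hq12 (fun x hx =>
        hgs x (hW (mem_erase.1 hx).2) (mem_erase.1 hx).1)
      rw [insert_erase hyW] at h1
      exact h1
    · exact lt_case2 (q := q) hr hX.1 hX.2.2.2.2.1 hY.1 hY.2.2.2.2.1 rfl hq.1 hq12 (fun x hx =>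
        hgs x (hW hx) (fun e => hyW (e ▸ hx)))

private theorem lt_inA (hq : Sub q p) {A : Finset E} (hy : (gs p \ A) ∩ gs q = ∅) :
    ∀ x ∈ gs q, x ∈ A := fun x hx => by
  have h1 : x ∈ A ∩ gs q ∪ (gs p \ A) ∩ gs q := by rw [lt_split hq]; exact hx
  rw [hy, union_empty] at h1
  exact (mem_inter.1 h1).1

theorem tr_rich2 (hr : QUB.Rk r) (hp : p.1 ⊆ p.2) {A X : Finset E} {b : E} (hA : A ⊆ gs p)
    (hl : lam r p A = 1) (hX : Half r p A X b) (hq : Sub q p) (hR : Rich r q)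
    (hy : (gs p \ A) ∩ gs q = ∅)
    (hd : r (p.1 ∪ A) + r (q.1 ∩ (p.2 \ A)) = r (p.1 ∪ A ∪ (q.1 ∩ (p.2 \ A))) + r p.1) :
    Rich r (X ∪ (q.1 ∩ A), X ∪ (q.1 ∩ A) ∪ gs q) := by
  have hgs := lt_inA hq hy
  have hq12 : q.1 ⊆ p.2 := hR.1.trans hq.2
  have hCb := lt_Cb hp hA
  refine lt_rich (q := q) ?_ id (Function.injective_id.injOn) ?_
    (r X - r (q.1 ∩ (p.2 \ A))) ?_ hR
  · exact subset_union_left
  · rw [image_id]
    ext x
    have h1 : x ∈ gs q → x ∈ A := hgs x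
    have h2 : x ∈ X → x ∉ A := fun h => (mem_sdiff.1 (hX.2.1 h)).2
    have h3 : x ∈ gs q → x ∉ q.1 := fun h => (mem_sdiff.1 h).2
    change x ∈ gs q ↔ x ∈ (X ∪ (q.1 ∩ A) ∪ gs q) \ (X ∪ (q.1 ∩ A))
    simp only [mem_sdiff, mem_union, mem_inter]
    tauto
  · intro W hW
    rw [image_id]
    exact lt_case2 (q := q) hr hX.1 hX.2.2.2.2.1 (subset_inter hq.1 hCb) hd rfl hq.1 hq12
      (fun x hx => hgs x (hW hx))

theorem tr_rich3 (hr : QUB.Rk r) (hp : p.1 ⊆ p.2) {A X : Finset E} {b : E} (hA : A ⊆ gs p)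
    (hl : lam r p A = 1) (hX : Half r p A X b) (hq : Sub q p) (hR : Rich r q)
    (hy : (gs p \ A) ∩ gs q = ∅)
    (hd : r (p.1 ∪ A) + r (q.1 ∩ (p.2 \ A)) = r (p.1 ∪ A ∪ (q.1 ∩ (p.2 \ A))) + r p.1 + 1) :
    Rich r (insert b (X ∪ (q.1 ∩ A)), insert b (X ∪ (q.1 ∩ A) ∪ gs q)) := by
  have hgs := lt_inA hq hy
  have hq12 : q.1 ⊆ p.2 := hR.1.trans hq.2
  have hbA : b ∉ A := (mem_sdiff.1 hX.2.2.1).2
  refine lt_rich (q := q) ?_ id (Function.injective_id.injOn) ?_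
    (r X + 1 - r (q.1 ∩ (p.2 \ A))) ?_ hR
  · exact insert_subset_insert _ subset_union_left
  · rw [image_id]
    ext x
    have h1 : x ∈ gs q → x ∈ A := hgs x
    have h2 : x ∈ X → x ∉ A := fun h => (mem_sdiff.1 (hX.2.1 h)).2
    have h3 : x ∈ gs q → x ∉ q.1 := fun h => (mem_sdiff.1 h).2
    have h5 : x = b → x ∉ A := fun e => e ▸ hbA
    change x ∈ gs q ↔ x ∈ insert b (X ∪ (q.1 ∩ A) ∪ gs q) \ insert b (X ∪ (q.1 ∩ A))
    simp only [mem_insert, mem_sdiff, mem_union, mem_inter]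
    tauto
  · intro W hW
    rw [image_id]
    have hS : p.1 ∪ (q.1 ∩ A) ∪ W ⊆ p.1 ∪ A := by
      intro x hx
      simp only [mem_union, mem_inter] at hx ⊢
      rcases hx with (hx | hx) | hx
      · exact Or.inl hx
      · exact Or.inr hx.2
      · exact Or.inr (hgs x (hW hx))
    have a1 := lt_half1 hr hp hl hX hS
    have a2 := lt_full hr hp hl (inter_subset_right (s₁ := q.1) (s₂ := p.2 \ A)) hd hS
    have e2 : insert b (X ∪ q.1 ∩ A) ∪ W = insert b (p.1 ∪ (q.1 ∩ A) ∪ W ∪ X) := by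
      ext x
      have h4 : x ∈ p.1 → x ∈ X := fun h => hX.1 h
      simp only [mem_union, mem_inter, mem_insert]
      tauto
    have e3 : q.1 ∪ W = p.1 ∪ (q.1 ∩ A) ∪ W ∪ q.1 ∩ (p.2 \ A) := by
      ext x
      have h3 : x ∈ q.1 → x ∈ p.2 := fun h => hq12 h
      have h4 : x ∈ p.1 → x ∈ q.1 := fun h => hq.1 h
      simp only [mem_union, mem_inter, mem_sdiff]
      tauto
    change r (insert b (X ∪ q.1 ∩ A) ∪ W) = _
    rw [e2, e3, a1, a2]
    ring

end Pool.Agent.QU
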