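import Pool.Agent.QUL.LHalfV
import Pool.Agent.QUL.LTransR
import Pool.Agent.QUL.LRk

set_option autoImplicit false

/-!
# Project QU, layer A, module LTransV: diagonal forms on five-element minors are transported to a half

`C = p.1`, `G = p.2`, `B = gs p \ A`, `C ∪ B = G \ A`, `X_q = q.1 ∩ (C ∪ B)`, `A₁ = q.1 ∩ A`, so `q.1 = A₁ ∪ X_q` and
`q.2 = q.1 ∪ gs q`; `δ(C ∪ A, X_q)` is `0` or `1` (see LTransR).

PLAN. Take `f`, `g` from `kink_exists`. `q'` is the box of `tr_rich1` (`B ∩ gs q = {y}`, then `(X_q, y)` is a half by `tr_point`),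
`tr_rich2` or `tr_rich3`. It is contained in `hb p A X b`.
(L) LIFTS. `c' ∈ van U q'.1` has a lift `c ∈ van U q.1` with `c = c'` on `A` and `f c = f c'`: if `f c' = 0` then `c' = c₂ + c₁` with
`c₂ ∈ van U (C ∪ A)`, `c₁ ∈ van U (C ∪ B)`; `c = c₁`. If `f c' ≠ 0` then we are not in case 3 (there `c' b = 0`, `half_val`), so
`δ(C ∪ A, X_q) = 0` and `f` is not zero on `van U X_q` (`kink_res_f`); take `c₀ ∈ van U X_q` with `f c₀ = f c'`,
`c' - c₀ = c₂ + c₁`, `c = c₀ + c₁`. In the same way `d' ∈ spt W q'.2` has a lift `d ∈ spt W q.2` with `d = d'` on `A`, `g d = g d'`: if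
`g d' = 0`, `d' = d₁ + d₂` with `d₁ ∈ spt W (C ∪ A)`, `d₂ ∈ spt W (C ∪ B)`; `d = d₁`. If `g d' ≠ 0` we are not in case 2 (there `d' b = 0`)
and `g` is not zero on `spt W (C ∪ A ∪ X_q ∪ {y})` resp. `spt W (C ∪ A ∪ X_q)` (`kink_res_g`); take `d₀` there with `g d₀ = g d'`,
`d' - d₀ = d₁ + d₂`, `d = d₀ + d₁`.
(M) If `f c' = 0` or `g d' = 0` then `T c' d' = T c d`: if `f c' = 0`: `c' = c₂ + c₁` as above, `c₂` vanishes on
`C ∪ A ∪ X` and at `b` (`c' b = 0`), so on `q'.2`: `T c' d' = T c₁ d'`; `c = c₂' + c₁'` with `c₂'` zero on `C ∪ A ∪ X_q` and at `y`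
(`c y = 0` by `half_val` for `(X_q, y)`), so `T c d = T c₁' d`; `c₁ - c₁'` vanishes on `C ∪ B` and on `A`, so
`T (c₁ - c₁') d = 0`; `d - d' ∈ spt W (C ∪ B)`, `T c₁ (d - d') = 0`. If `g d' = 0`: dually (`d' = d₁ + d₂`, `d₂` is supported on `X`,
`T c' d₂ = 0`; `d = d₁' + d₂'`, `d₂'` is supported on `X_q`, `T c d₂' = 0`; `d₁ - d₁' ∈ spt W C`; `T (c - c') d₁ = 0`).
(N) If `T = dg l` on `q`, let `l' x = l x` for `x ∈ A` and `0` otherwise. For `f c' = 0` or `g d' = 0`:
`T c' d' = dg l c d = dg l' c' d'` (`c y * d y = 0` in case 1). So `T - dg l'` vanishes on `q'` for `f c' = 0` and for `g d' = 0`, so it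
is `k * f c' * g d' = k * α * β * (c' b * d' b)` on `q'`.
-/

namespace Pool.Agent.QU

variable {K E : Type} [Field K] [Fintype E] [DecidableEq E]

/-- the core: everything follows from the lifts -/
private theorem ltv_core (S : TP K E) {p q q' : Itv E} (hp : p.1 ⊆ p.2) {A : Finset E}
    (hA : A ⊆ gs p) (hl : lam S.r p A = 1) {X : Finset E} {b : E} (hX : Half S.r p A X b)
    (hq : Sub q p) (hqq : q.1 ⊆ q.2) {T : Fm K E} (hT : InV S.U S.W p T) {l : E → K}
    (hD : EqOn S.U S.W q T (0 + dg l)) {f g : (E → K) →ₗ[K] K} (hk : IsKink S p A f g)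
    (h1 : X ⊆ q'.1) (h2 : q'.2 ⊆ insert b (p.1 ∪ A ∪ X)) (h3 : q.1 ∩ A ⊆ q'.1)
    (h4 : ∀ x ∈ A, x ∈ q'.2 → x ∈ q.2)
    (hF : (∀ c ∈ van S.U q'.1, f c = 0) ∨ ∃ c ∈ van S.U (q.1 ∩ (p.2 \ A)), f c ≠ 0)
    (hG : (∀ d ∈ spt S.W q'.2, g d = 0) ∨
      ∃ d ∈ spt S.W (p.1 ∪ A ∪ (q.2 ∩ (p.2 \ A))), g d ≠ 0)
    (hS : ∀ c ∈ van S.U q.1, ∀ d ∈ spt S.W q.2, (f c = 0 ∨ g d = 0) →
      ∀ x, x ∉ A → c x * d x = 0) : EqD S.U S.W q' T 0 := by
  classical
  obtain ⟨α, β, hα, hβ, hfα, hgβ, -, -⟩ := half_val S hp hA hl hk hX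
  obtain ⟨hCX, hXB, hbB, hbX, -, -⟩ := hX
  have hCq : p.1 ⊆ q'.1 := hCX.trans h1
  have hAG : ∀ x ∈ A, x ∈ p.2 ∧ x ∉ p.1 := fun x hx => Finset.mem_sdiff.1 (hA hx)
  have hCB : p.1 ⊆ p.2 \ A := fun x hx =>
    Finset.mem_sdiff.2 ⟨hp hx, fun h => (hAG x h).2 hx⟩
  have hCA : p.1 ∪ A ⊆ p.2 := Finset.union_subset hp fun x hx => (hAG x hx).1
  have hXG : X ⊆ p.2 := hXB.trans Finset.sdiff_subset
  have hq2 : q'.2 ⊆ p.2 := by
    refine h2.trans (Finset.insert_subset (Finset.mem_sdiff.1 hbB).1 ?_)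
    exact Finset.union_subset hCA hXG
  have hbig : insert b (p.1 ∪ A ∪ X) ⊆ p.2 :=
    Finset.insert_subset (Finset.mem_sdiff.1 hbB).1 (Finset.union_subset hCA hXG)
  have hf0 : ∀ c ∈ van S.U (p.2 \ A), f c = 0 := fun c hc =>
    (hk.hf c (van_anti hCB hc)).2 (Submodule.mem_sup_right hc)
  have hg0 : ∀ d ∈ spt S.W (p.1 ∪ A), g d = 0 := fun d hd =>
    (hk.hg d (spt_mono hCA hd)).2 (Submodule.mem_sup_left hd)
  have hfb : ∀ c ∈ van S.U q'.1, f c = α * c b := fun c hc => hfα c (van_anti h1 hc)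
  have hgb : ∀ d ∈ spt S.W q'.2, g d = β * d b := fun d hd => hgβ d (spt_mono h2 hd)
  have hqA : ∀ x ∈ q.1, x ∈ q'.1 ∧ x ∈ A ∨ x ∈ q.1 ∩ (p.2 \ A) := by
    intro x hx
    by_cases h : x ∈ A
    · exact Or.inl ⟨h3 (Finset.mem_inter.2 ⟨hx, h⟩), h⟩
    · exact Or.inr (Finset.mem_inter.2 ⟨hx, Finset.mem_sdiff.2 ⟨hq.2 (hqq hx), h⟩⟩)
  -- lifts of the vectors with `f c' = 0`
  have liftF0 : ∀ c' ∈ van S.U q'.1, f c' = 0 → ∃ c ∈ van S.U q.1, c ∈ van S.U (p.2 \ A) ∧
      (∀ x ∈ A, c x = c' x) ∧ ∀ d' ∈ spt S.W q'.2, T c' d' = T c d' := by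
    intro c' hc' h0
    obtain ⟨c₂, hc₂, c₁, hc₁, hs⟩ := Submodule.mem_sup.1 ((hk.hf c' (van_anti hCq hc')).1 h0)
    have hsx : ∀ x, c₂ x + c₁ x = c' x := fun x => by rw [← hs]; rfl
    have hA1 : ∀ x ∈ A, c₁ x = c' x := fun x hx => by
      rw [← hsx x, hc₂.2 x (Finset.mem_union_right _ hx), zero_add]
    refine ⟨c₁, ⟨hc₁.1, fun x hx => ?_⟩, hc₁, hA1, fun d' hd' => ?_⟩
    · rcases hqA x hx with h | h
      · rw [hA1 x h.2]
        exact hc'.2 x h.1
      · exact hc₁.2 x (Finset.mem_inter.1 h).2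
    · have hcb : c' b = 0 := by
        have h5 := hfb c' hc'
        rw [h0] at h5
        exact (mul_eq_zero.1 h5.symm).resolve_left hα
      have hz : ∀ x, c₂ x * d' x = 0 := by
        intro x
        by_cases hx : x ∈ q'.2
        · have hx2 := h2 hx
          rw [Finset.mem_insert, Finset.mem_union] at hx2
          have : c₂ x = 0 := by
            rcases hx2 with rfl | hx2 | hx2
            · have h6 := hsx x
              rw [hc₁.2 x hbB, hcb, add_zero] at h6
              exact h6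
            · exact hc₂.2 x hx2
            · have h6 := hsx x
              rw [hc₁.2 x (hXB hx2), hc'.2 x (h1 hx2), add_zero] at h6
              exact h6
          rw [this, zero_mul]
        · rw [hd'.2 x hx, mul_zero]
      have h6 := hT c₂ (van_anti Finset.subset_union_left hc₂) d' (spt_mono hq2 hd') hz
      rw [← hs, map_add, LinearMap.add_apply, h6, zero_add]
  have liftG0 : ∀ d' ∈ spt S.W q'.2, g d' = 0 → ∃ d ∈ spt S.W q.2, d ∈ spt S.W (p.1 ∪ A) ∧
      (∀ x ∈ A, d x = d' x) ∧ ∀ c' ∈ van S.U q'.1, T c' d' = T c' d := by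
    intro d' hd' h0
    obtain ⟨d₁, hd₁, d₂, hd₂, hs⟩ := Submodule.mem_sup.1 ((hk.hg d' (spt_mono hq2 hd')).1 h0)
    have hsx : ∀ x, d₁ x + d₂ x = d' x := fun x => by rw [← hs]; rfl
    have hA1 : ∀ x ∈ A, d₁ x = d' x := fun x hx => by
      rw [← hsx x, hd₂.2 x fun h => (Finset.mem_sdiff.1 h).2 hx, add_zero]
    refine ⟨d₁, ⟨hd₁.1, fun x hx => ?_⟩, hd₁, hA1, fun c' hc' => ?_⟩
    · by_cases hxA : x ∈ A
      · rw [hA1 x hxA]
        exact hd'.2 x fun h => hx (h4 x hxA h)
      · refine hd₁.2 x fun h => ?_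
        rcases Finset.mem_union.1 h with h | h
        · exact hx (hqq (hq.1 h))
        · exact hxA h
    · have hdb : d' b = 0 := by
        have h5 := hgb d' hd'
        rw [h0] at h5
        exact (mul_eq_zero.1 h5.symm).resolve_left hβ
      have hz : ∀ x, c' x * d₂ x = 0 := by
        intro x
        by_cases hx : x ∈ X
        · rw [hc'.2 x (h1 hx), zero_mul]
        · have : d₂ x = 0 := by
            by_cases hx2 : x ∈ p.2 \ A
            · have h6 := hsx x
              have h7 : d₁ x = 0 := by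
                refine hd₁.2 x fun h => ?_
                rcases Finset.mem_union.1 h with h | h
                · exact hx (hCX h)
                · exact (Finset.mem_sdiff.1 hx2).2 h
              have h8 : d' x = 0 := by
                by_cases hxb : x = b
                · rw [hxb]; exact hdb
                · refine hd'.2 x fun h => ?_
                  have h9 := h2 h
                  rw [Finset.mem_insert, Finset.mem_union, Finset.mem_union] at h9
                  rcases h9 with h9 | (h9 | h9) | h9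
                  · exact hxb h9
                  · exact hx (hCX h9)
                  · exact (Finset.mem_sdiff.1 hx2).2 h9
                  · exact hx h9
              rw [h7, h8, zero_add] at h6
              exact h6
            · exact hd₂.2 x hx2
          rw [this, mul_zero]
      have h6 := hT c' (van_anti hCq hc') d₂ (spt_mono Finset.sdiff_subset hd₂) hz
      rw [← hs, map_add, h6, add_zero]
  have liftF : ∀ c' ∈ van S.U q'.1, ∃ c ∈ van S.U q.1, (∀ x ∈ A, c x = c' x) ∧ f c = f c' := by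
    intro c' hc'
    by_cases h0 : f c' = 0
    · obtain ⟨c, hc, hc2, hc3, -⟩ := liftF0 c' hc' h0
      exact ⟨c, hc, hc3, by rw [hf0 c hc2, h0]⟩
    · obtain ⟨e, he, hfe⟩ := hF.resolve_left fun h => h0 (h c' hc')
      have hCX' : p.1 ⊆ q.1 ∩ (p.2 \ A) := Finset.subset_inter hq.1 hCB
      have he1 : (f c' / f e) • e ∈ van S.U (q.1 ∩ (p.2 \ A)) := Submodule.smul_mem _ _ he
      have he2 : f ((f c' / f e) • e) = f c' := by
        rw [map_smul, smul_eq_mul, div_mul_cancel₀ _ hfe]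
      obtain ⟨c₀, hc₀, hfc⟩ : ∃ c₀ ∈ van S.U (q.1 ∩ (p.2 \ A)), f c₀ = f c' := ⟨_, he1, he2⟩
      have h5 : c' - c₀ ∈ van S.U p.1 :=
        Submodule.sub_mem _ (van_anti hCq hc') (van_anti hCX' hc₀)
      obtain ⟨c₂, hc₂, c₁, hc₁, hs⟩ := Submodule.mem_sup.1 ((hk.hf _ h5).1 (by
        rw [map_sub, hfc, sub_self]))
      have hsx : ∀ x, c₂ x + c₁ x = c' x - c₀ x := fun x => by
        rw [← Pi.sub_apply, ← hs]; rfl
      have hA1 : ∀ x ∈ A, (c₀ + c₁) x = c' x := fun x hx => by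
        have h6 := hsx x
        rw [hc₂.2 x (Finset.mem_union_right _ hx), zero_add] at h6
        rw [Pi.add_apply, h6, add_sub_cancel]
      refine ⟨c₀ + c₁, ⟨S.U.add_mem hc₀.1 hc₁.1, fun x hx => ?_⟩, hA1, ?_⟩
      · rcases hqA x hx with h | h
        · rw [hA1 x h.2]
          exact hc'.2 x h.1
        · rw [Pi.add_apply, hc₀.2 x h, hc₁.2 x (Finset.mem_inter.1 h).2, add_zero]
      · rw [map_add, hf0 c₁ hc₁, add_zero, hfc]
  have liftG : ∀ d' ∈ spt S.W q'.2, ∃ d ∈ spt S.W q.2, (∀ x ∈ A, d x = d' x) ∧ g d = g d' := by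
    intro d' hd'
    by_cases h0 : g d' = 0
    · obtain ⟨d, hd, hd2, hd3, -⟩ := liftG0 d' hd' h0
      exact ⟨d, hd, hd3, by rw [hg0 d hd2, h0]⟩
    · obtain ⟨e, he, hge⟩ := hG.resolve_left fun h => h0 (h d' hd')
      have he1 : (g d' / g e) • e ∈ spt S.W (p.1 ∪ A ∪ (q.2 ∩ (p.2 \ A))) :=
        Submodule.smul_mem _ _ he
      have he2 : g ((g d' / g e) • e) = g d' := by
        rw [map_smul, smul_eq_mul, div_mul_cancel₀ _ hge]
      obtain ⟨d₀, hd₀, hgd⟩ : ∃ d₀ ∈ spt S.W (p.1 ∪ A ∪ (q.2 ∩ (p.2 \ A))), g d₀ = g d' :=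
        ⟨_, he1, he2⟩
      have hZ : p.1 ∪ A ∪ (q.2 ∩ (p.2 \ A)) ⊆ p.2 :=
        Finset.union_subset hCA (Finset.inter_subset_right.trans Finset.sdiff_subset)
      have h5 : d' - d₀ ∈ spt S.W p.2 :=
        Submodule.sub_mem _ (spt_mono hq2 hd') (spt_mono hZ hd₀)
      obtain ⟨d₁, hd₁, d₂, hd₂, hs⟩ := Submodule.mem_sup.1 ((hk.hg _ h5).1 (by
        rw [map_sub, hgd, sub_self]))
      have hsx : ∀ x, d₁ x + d₂ x = d' x - d₀ x := fun x => by
        rw [← Pi.sub_apply, ← hs]; rfl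
      have hA1 : ∀ x ∈ A, (d₀ + d₁) x = d' x := fun x hx => by
        have h6 := hsx x
        rw [hd₂.2 x fun h => (Finset.mem_sdiff.1 h).2 hx, add_zero] at h6
        rw [Pi.add_apply, h6, add_sub_cancel]
      refine ⟨d₀ + d₁, ⟨S.W.add_mem hd₀.1 hd₁.1, fun x hx => ?_⟩, hA1, ?_⟩
      · by_cases hxA : x ∈ A
        · rw [hA1 x hxA]
          exact hd'.2 x fun h => hx (h4 x hxA h)
        · have h6 : x ∉ p.1 ∪ A := fun h => by
            rcases Finset.mem_union.1 h with h | h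
            · exact hx (hqq (hq.1 h))
            · exact hxA h
          have h7 : x ∉ p.1 ∪ A ∪ (q.2 ∩ (p.2 \ A)) := fun h => by
            rcases Finset.mem_union.1 h with h | h
            · exact h6 h
            · exact hx (Finset.mem_inter.1 h).1
          rw [Pi.add_apply, hd₀.2 x h7, hd₁.2 x h6, add_zero]
      · rw [map_add, hg0 d₁ hd₁, add_zero, hgd]
  -- the values
  let l' : E → K := fun x => if x ∈ A then l x else 0
  have hdg : ∀ c ∈ van S.U q.1, ∀ d ∈ spt S.W q.2, (f c = 0 ∨ g d = 0) → ∀ c' d' : E → K,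
      (∀ x ∈ A, c x = c' x) → (∀ x ∈ A, d x = d' x) → T c d = dg l' c' d' := by
    intro c hc d hd hfg c' d' hcc hdd
    have h5 := hD c hc d hd
    rw [LinearMap.add_apply, LinearMap.add_apply, LinearMap.zero_apply, LinearMap.zero_apply,
      zero_add] at h5
    rw [h5, dg_apply, dg_apply]
    refine Finset.sum_congr rfl fun x _ => ?_
    by_cases hx : x ∈ A
    · have : l' x = l x := if_pos hx
      rw [this, hcc x hx, hdd x hx]
    · have : l' x = 0 := if_neg hx
      rw [this, hS c hc d hd hfg x hx, mul_zero, zero_mul]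
  have hM : ∀ c' ∈ van S.U q'.1, ∀ d' ∈ spt S.W q'.2, (f c' = 0 ∨ g d' = 0) →
      T c' d' = dg l' c' d' := by
    intro c' hc' d' hd' h0
    rcases h0 with h0 | h0
    · obtain ⟨c, hc, hc2, hc3, hc4⟩ := liftF0 c' hc' h0
      obtain ⟨d, hd, hd3, -⟩ := liftG d' hd'
      have hz : ∀ x, c x * (d' - d) x = 0 := by
        intro x
        by_cases hx : x ∈ A
        · rw [Pi.sub_apply, hd3 x hx, sub_self, mul_zero]
        · by_cases hx2 : x ∈ p.2
          · rw [hc2.2 x (Finset.mem_sdiff.2 ⟨hx2, hx⟩), zero_mul]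
          · rw [Pi.sub_apply, hd'.2 x fun h => hx2 (hq2 h), hd.2 x fun h => hx2 (hq.2 h),
              sub_self, mul_zero]
      have h5 := hT c (van_anti hq.1 hc) (d' - d)
        (Submodule.sub_mem _ (spt_mono hq2 hd') (spt_mono hq.2 hd)) hz
      rw [map_sub, sub_eq_zero] at h5
      rw [hc4 d' hd', h5]
      exact hdg c hc d hd (Or.inl (hf0 c hc2)) c' d' hc3 hd3
    · obtain ⟨d, hd, hd2, hd3, hd4⟩ := liftG0 d' hd' h0
      obtain ⟨c, hc, hc3, -⟩ := liftF c' hc'
      have hz : ∀ x, (c' - c) x * d x = 0 := by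
        intro x
        by_cases hx : x ∈ A
        · rw [Pi.sub_apply, hc3 x hx, sub_self, zero_mul]
        · by_cases hx2 : x ∈ p.1
          · rw [Pi.sub_apply, hc'.2 x (hCq hx2), hc.2 x (hq.1 hx2), sub_self, zero_mul]
          · rw [hd2.2 x fun h => (Finset.mem_union.1 h).elim hx2 hx, mul_zero]
      have h5 := hT (c' - c) (Submodule.sub_mem _ (van_anti hCq hc') (van_anti hq.1 hc)) d
        (spt_mono hq.2 hd) hz
      rw [map_sub, LinearMap.sub_apply, sub_eq_zero] at h5
      rw [hd4 c' hc', h5]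
      exact hdg c hc d hd (Or.inr (hg0 d hd2)) c' d' hc3 hd3
  by_cases hc0 : ∃ c ∈ van S.U q'.1, f c ≠ 0
  · by_cases hd0 : ∃ d ∈ spt S.W q'.2, g d ≠ 0
    · obtain ⟨c₀, hc₀, hfc⟩ := hc0
      obtain ⟨d₀, hd₀, hgd⟩ := hd0
      let R : Fm K E := T - dg l'
      have hR : ∀ c d, R c d = T c d - dg l' c d := fun c d => by
        rw [LinearMap.sub_apply, LinearMap.sub_apply]
      have hR0 : ∀ c' ∈ van S.U q'.1, ∀ d' ∈ spt S.W q'.2, (f c' = 0 ∨ g d' = 0) →
          R c' d' = 0 := fun c' hc' d' hd' h => by rw [hR, hM c' hc' d' hd' h, sub_self]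
      have key : ∀ c' ∈ van S.U q'.1, ∀ d' ∈ spt S.W q'.2,
          R c' d' = f c' / f c₀ * (g d' / g d₀) * R c₀ d₀ := by
        intro c' hc' d' hd'
        have h5 := hR0 (c' - (f c' / f c₀) • c₀)
          (Submodule.sub_mem _ hc' (Submodule.smul_mem _ _ hc₀)) d' hd'
          (Or.inl (by rw [map_sub, map_smul, smul_eq_mul, div_mul_cancel₀ _ hfc, sub_self]))
        have h6 := hR0 c₀ hc₀ (d' - (g d' / g d₀) • d₀)
          (Submodule.sub_mem _ hd' (Submodule.smul_mem _ _ hd₀))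
          (Or.inr (by rw [map_sub, map_smul, smul_eq_mul, div_mul_cancel₀ _ hgd, sub_self]))
        rw [map_sub, map_smul, LinearMap.sub_apply, LinearMap.smul_apply, smul_eq_mul,
          sub_eq_zero] at h5
        rw [map_sub, map_smul, smul_eq_mul, sub_eq_zero] at h6
        rw [h5, h6]
        ring
      refine ⟨l' + Pi.single b (α * β * R c₀ d₀ / (f c₀ * g d₀)), fun c' hc' d' hd' => ?_⟩
      have h5 := key c' hc' d' hd'
      rw [hR, hfb c' hc', hgb d' hd'] at h5
      rw [LinearMap.add_apply, LinearMap.add_apply, LinearMap.zero_apply, LinearMap.zero_apply,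
        zero_add, dg_add, LinearMap.add_apply, LinearMap.add_apply, dg_single]
      have h6 : T c' d' = dg l' c' d' + α * c' b / f c₀ * (β * d' b / g d₀) * R c₀ d₀ := by
        rw [← h5]; ring
      rw [h6]
      field_simp
    · push Not at hd0
      refine ⟨l', fun c' hc' d' hd' => ?_⟩
      rw [zero_add]
      exact hM c' hc' d' hd' (Or.inr (hd0 d' hd'))
  · push Not at hc0
    refine ⟨l', fun c' hc' d' hd' => ?_⟩
    rw [zero_add]
    exact hM c' hc' d' hd' (Or.inl (hc0 c' hc'))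

/-- `f` is not zero on `van U X_q` if `X_q` is skew to `A` -/
private theorem ltv_f (S : TP K E) {p : Itv E} (hp : p.1 ⊆ p.2) {A : Finset E}
    (hA : A ⊆ gs p) (hl : lam S.r p A = 1) {f g : (E → K) →ₗ[K] K} (hk : IsKink S p A f g)
    {Y : Finset E} (h1 : p.1 ⊆ Y) (h2 : Y ⊆ p.2 \ A)
    (h : S.r (p.1 ∪ A) + S.r Y = S.r (p.1 ∪ A ∪ Y) + S.r p.1) : ∃ c ∈ van S.U Y, f c ≠ 0 := by
  by_contra hcon
  push Not at hcon
  have h3 := (kink_res_f S hp hA hk h1 (h2.trans Finset.sdiff_subset)).1 hcon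
  have e1 : p.2 \ A ∪ Y = p.2 \ A := Finset.union_eq_left.2 h2
  rw [e1] at h3
  have h4 : S.r (p.1 ∪ A) + S.r (p.2 \ A) - S.r p.2 - S.r p.1 = 1 := hl
  linarith

/-- `g` is not zero on the vectors supported on `C ∪ A ∪ Y` if `Y` is not skew to `A` -/
private theorem ltv_g (S : TP K E) {p : Itv E} (hp : p.1 ⊆ p.2) {A : Finset E}
    (hA : A ⊆ gs p) {f g : (E → K) →ₗ[K] K} (hk : IsKink S p A f g)
    {Y : Finset E} (h1 : p.1 ⊆ Y) (h2 : Y ⊆ p.2 \ A)
    (h : S.r (p.1 ∪ A) + S.r Y = S.r (p.1 ∪ A ∪ Y) + S.r p.1 + 1) :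
    ∃ d ∈ spt S.W (p.1 ∪ A ∪ Y), g d ≠ 0 := by
  by_contra hcon
  push Not at hcon
  have hCA : p.1 ∪ A ⊆ p.2 := Finset.union_subset hp fun x hx => (Finset.mem_sdiff.1 (hA hx)).1
  have h3 := (kink_res_g S hp hA hk (Finset.subset_union_left.trans Finset.subset_union_left)
    (Finset.union_subset hCA (h2.trans Finset.sdiff_subset))).1 hcon
  have e1 : (p.1 ∪ A) ∩ (p.1 ∪ A ∪ Y) = p.1 ∪ A :=
    Finset.inter_eq_left.2 Finset.subset_union_left
  have e2 : (p.2 \ A) ∩ (p.1 ∪ A ∪ Y) = Y := by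
    ext x
    constructor
    · intro hx
      have h4 := Finset.mem_inter.1 hx
      have h5 := Finset.mem_sdiff.1 h4.1
      rcases Finset.mem_union.1 h4.2 with h6 | h6
      · rcases Finset.mem_union.1 h6 with h6 | h6
        · exact h1 h6
        · exact absurd h6 h5.2
      · exact h6
    · intro hx
      exact Finset.mem_inter.2 ⟨h2 hx, Finset.mem_union_right _ hx⟩
  rw [e1, e2] at h3
  linarith

theorem transport (S : TP K E) {p q : Itv E} (hp : p.1 ⊆ p.2) {A : Finset E} (hA : A ⊆ gs p)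
    (hl : lam S.r p A = 1) {X : Finset E} {b : E} (hX : Half S.r p A X b) (hq : Sub q p)
    (hR : Rich S.r q) (h1 : ((gs p \ A) ∩ gs q).card ≤ 1) {T : Fm K E} (hT : InV S.U S.W p T)
    (hD : EqD S.U S.W q T 0) :
    ∃ q' : Itv E, Sub q' (hb p A X b) ∧ Rich S.r q' ∧ EqD S.U S.W q' T 0 := by
  classical
  obtain ⟨f, g, hk⟩ := kink_exists S hp hA hl
  obtain ⟨l, hD⟩ := hD
  have hqq := hR.1
  have hX' := hX
  obtain ⟨hCX, hXB, hbB, hbX, -, -⟩ := hX'
  obtain ⟨α, β, hα, hβ, hfα, hgβ, -, -⟩ := half_val S hp hA hl hk hX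
  have hAG : ∀ x ∈ A, x ∈ p.2 ∧ x ∉ p.1 := fun x hx => Finset.mem_sdiff.1 (hA hx)
  have hCB : p.1 ⊆ p.2 \ A := fun x hx =>
    Finset.mem_sdiff.2 ⟨hp hx, fun h => (hAG x h).2 hx⟩
  have hCq : p.1 ⊆ q.1 ∩ (p.2 \ A) := Finset.subset_inter hq.1 hCB
  have hbA : b ∉ A := (Finset.mem_sdiff.1 hbB).2
  have hgsq : ∀ x ∈ gs q, x ∈ p.2 ∧ x ∉ p.1 ∧ x ∉ q.1 ∧ x ∈ q.2 := fun x hx => by
    have h := Finset.mem_sdiff.1 hx
    exact ⟨hq.2 h.1, fun h' => h.2 (hq.1 h'), h.2, h.1⟩
  have hlt := hl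
  have hr := S.rk
  rcases Finset.eq_empty_or_nonempty ((gs p \ A) ∩ gs q) with he | hne
  · have hsA : gs q ⊆ A := by
      intro x hx
      by_contra hxA
      have h2 := hgsq x hx
      have : x ∈ (gs p \ A) ∩ gs q :=
        Finset.mem_inter.2 ⟨Finset.mem_sdiff.2 ⟨Finset.mem_sdiff.2 ⟨h2.1, h2.2.1⟩, hxA⟩, hx⟩
      rw [he] at this
      exact absurd this (Finset.notMem_empty _)
    have hq2 : q.2 ∩ (p.2 \ A) = q.1 ∩ (p.2 \ A) := by
      ext x
      constructor
      · intro hx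
        have h2 := Finset.mem_inter.1 hx
        refine Finset.mem_inter.2 ⟨?_, h2.2⟩
        by_contra h3
        exact (Finset.mem_sdiff.1 h2.2).2 (hsA (Finset.mem_sdiff.2 ⟨h2.1, h3⟩))
      · intro hx
        have h2 := Finset.mem_inter.1 hx
        exact Finset.mem_inter.2 ⟨hqq h2.1, h2.2⟩
    have hS : ∀ c ∈ van S.U q.1, ∀ d ∈ spt S.W q.2, (f c = 0 ∨ g d = 0) →
        ∀ x, x ∉ A → c x * d x = 0 := by
      intro c hc d hd _ x hx
      by_cases h2 : x ∈ q.2
      · have h3 : x ∈ q.2 ∩ (p.2 \ A) :=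
          Finset.mem_inter.2 ⟨h2, Finset.mem_sdiff.2 ⟨hq.2 h2, hx⟩⟩
        rw [hq2] at h3
        rw [hc.2 x (Finset.mem_inter.1 h3).1, zero_mul]
      · rw [hd.2 x h2, mul_zero]
    -- `δ` is zero or one
    have hd1 := hr.sub (p.1 ∪ A) (q.1 ∩ (p.2 \ A))
    have hd2 := hr.sub (p.1 ∪ A ∪ (q.1 ∩ (p.2 \ A))) (p.2 \ A)
    have e1 : (p.1 ∪ A) ∩ (q.1 ∩ (p.2 \ A)) = p.1 := by
      ext x
      constructor
      · intro hx
        have h2 := Finset.mem_inter.1 hx
        rcases Finset.mem_union.1 h2.1 with h3 | h3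
        · exact h3
        · exact absurd h3 (Finset.mem_sdiff.1 (Finset.mem_inter.1 h2.2).2).2
      · intro hx
        exact Finset.mem_inter.2 ⟨Finset.mem_union_left _ hx, hCq hx⟩
    have e2 : p.1 ∪ A ∪ (q.1 ∩ (p.2 \ A)) ∪ (p.2 \ A) = p.2 := by
      ext x
      constructor
      · intro hx
        rcases Finset.mem_union.1 hx with h2 | h2
        · rcases Finset.mem_union.1 h2 with h2 | h2
          · rcases Finset.mem_union.1 h2 with h2 | h2
            · exact hp h2
            · exact (hAG x h2).1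
          · exact (Finset.mem_sdiff.1 (Finset.mem_inter.1 h2).2).1
        · exact (Finset.mem_sdiff.1 h2).1
      · intro hx
        by_cases h2 : x ∈ A
        · exact Finset.mem_union_left _ (Finset.mem_union_left _ (Finset.mem_union_right _ h2))
        · exact Finset.mem_union_right _ (Finset.mem_sdiff.2 ⟨hx, h2⟩)
    have e3 : (p.1 ∪ A ∪ (q.1 ∩ (p.2 \ A))) ∩ (p.2 \ A) = q.1 ∩ (p.2 \ A) := by
      ext x
      constructor
      · intro hx
        have h2 := Finset.mem_inter.1 hx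
        rcases Finset.mem_union.1 h2.1 with h3 | h3
        · rcases Finset.mem_union.1 h3 with h3 | h3
          · exact hCq h3
          · exact absurd h3 (Finset.mem_sdiff.1 h2.2).2
        · exact h3
      · intro hx
        exact Finset.mem_inter.2 ⟨Finset.mem_union_right _ hx, (Finset.mem_inter.1 hx).2⟩
    rw [e1] at hd1
    rw [e2, e3] at hd2
    have hl2 : S.r (p.1 ∪ A) + S.r (p.2 \ A) - S.r p.2 - S.r p.1 = 1 := hlt
    rcases (by omega : S.r (p.1 ∪ A) + S.r (q.1 ∩ (p.2 \ A)) =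
        S.r (p.1 ∪ A ∪ (q.1 ∩ (p.2 \ A))) + S.r p.1 ∨
        S.r (p.1 ∪ A) + S.r (q.1 ∩ (p.2 \ A)) =
        S.r (p.1 ∪ A ∪ (q.1 ∩ (p.2 \ A))) + S.r p.1 + 1) with hd | hd
    · -- case 2
      have hsub : X ∪ (q.1 ∩ A) ∪ gs q ⊆ insert b (p.1 ∪ A ∪ X) := by
        refine Finset.union_subset (Finset.union_subset ?_ ?_) ?_
        · exact Finset.subset_union_right.trans (Finset.subset_insert _ _)
        · exact (Finset.inter_subset_right.trans (Finset.subset_union_right.trans
            Finset.subset_union_left)).trans (Finset.subset_insert _ _)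
        · exact (hsA.trans (Finset.subset_union_right.trans
            Finset.subset_union_left)).trans (Finset.subset_insert _ _)
      refine ⟨(X ∪ (q.1 ∩ A), X ∪ (q.1 ∩ A) ∪ gs q), ⟨Finset.subset_union_left, hsub⟩,
        tr_rich2 hr hp hA hl hX hq hR he hd, ?_⟩
      refine ltv_core S hp hA hl hX hq hqq hT hD hk Finset.subset_union_left hsub
        Finset.subset_union_right ?_ (Or.inr (ltv_f S hp hA hl hk hCq
          Finset.inter_subset_right hd)) (Or.inl ?_) hS
      · intro x hxA hx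
        rcases Finset.mem_union.1 hx with h2 | h2
        · rcases Finset.mem_union.1 h2 with h2 | h2
          · exact absurd hxA (Finset.mem_sdiff.1 (hXB h2)).2
          · exact hqq (Finset.mem_inter.1 h2).1
        · exact (hgsq x h2).2.2.2
      · intro d hdd
        rw [hgβ d (spt_mono hsub hdd), hdd.2 b, mul_zero]
        intro h2
        rcases Finset.mem_union.1 h2 with h2 | h2
        · rcases Finset.mem_union.1 h2 with h2 | h2
          · exact hbX h2
          · exact hbA (Finset.mem_inter.1 h2).2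
        · exact hbA (hsA h2)
    · -- case 3
      have hsub : insert b (X ∪ (q.1 ∩ A) ∪ gs q) ⊆ insert b (p.1 ∪ A ∪ X) := by
        refine Finset.insert_subset_insert _ ?_
        refine Finset.union_subset (Finset.union_subset ?_ ?_) ?_
        · exact Finset.subset_union_right
        · exact (Finset.inter_subset_right.trans (Finset.subset_union_right.trans
            Finset.subset_union_left))
        · exact (hsA.trans (Finset.subset_union_right.trans
            Finset.subset_union_left))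
      have hsX : X ⊆ insert b (X ∪ (q.1 ∩ A)) :=
        Finset.subset_union_left.trans (Finset.subset_insert _ _)
      refine ⟨(insert b (X ∪ (q.1 ∩ A)), insert b (X ∪ (q.1 ∩ A) ∪ gs q)), ⟨hsX, hsub⟩,
        tr_rich3 hr hp hA hl hX hq hR he hd, ?_⟩
      refine ltv_core S hp hA hl hX hq hqq hT hD hk hsX hsub
        (Finset.subset_union_right.trans (Finset.subset_insert _ _)) ?_ (Or.inl ?_)
        (Or.inr ?_) hS
      · intro x hxA hx
        rcases Finset.mem_insert.1 hx with rfl | hx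
        · exact absurd hxA hbA
        rcases Finset.mem_union.1 hx with h2 | h2
        · rcases Finset.mem_union.1 h2 with h2 | h2
          · exact absurd hxA (Finset.mem_sdiff.1 (hXB h2)).2
          · exact hqq (Finset.mem_inter.1 h2).1
        · exact (hgsq x h2).2.2.2
      · intro c hc
        rw [hfα c (van_anti hsX hc), hc.2 b (Finset.mem_insert_self _ _), mul_zero]
      · rw [hq2]
        exact ltv_g S hp hA hk hCq Finset.inter_subset_right hd
  · -- case 1
    obtain ⟨y, hy⟩ := Finset.card_eq_one.1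
      (le_antisymm h1 (Finset.card_pos.2 hne))
    have hH := tr_point hr hp hA hl hq hR hy
    have hH' := hH
    obtain ⟨-, -, hyB, hyX, hd, hd'⟩ := hH'
    have hyq : y ∈ gs q := by
      have : y ∈ (gs p \ A) ∩ gs q := by rw [hy]; exact Finset.mem_singleton_self y
      exact (Finset.mem_inter.1 this).2
    have hyi := hgsq y hyq
    have hq2 : q.2 ∩ (p.2 \ A) = insert y (q.1 ∩ (p.2 \ A)) := by
      ext x
      constructor
      · intro hx
        have h2 := Finset.mem_inter.1 hx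
        by_cases h3 : x ∈ q.1
        · exact Finset.mem_insert_of_mem (Finset.mem_inter.2 ⟨h3, h2.2⟩)
        · have h4 : x ∈ gs q := Finset.mem_sdiff.2 ⟨h2.1, h3⟩
          have h5 := hgsq x h4
          have h6 : x ∈ (gs p \ A) ∩ gs q := Finset.mem_inter.2
            ⟨Finset.mem_sdiff.2 ⟨Finset.mem_sdiff.2 ⟨h5.1, h5.2.1⟩,
              (Finset.mem_sdiff.1 h2.2).2⟩, h4⟩
          rw [hy, Finset.mem_singleton] at h6
          rw [h6]
          exact Finset.mem_insert_self _ _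
      · intro hx
        rcases Finset.mem_insert.1 hx with rfl | hx
        · exact Finset.mem_inter.2 ⟨hyi.2.2.2, hyB⟩
        · have h2 := Finset.mem_inter.1 hx
          exact Finset.mem_inter.2 ⟨hqq h2.1, h2.2⟩
    obtain ⟨α', β', hα', hβ', hfα', hgβ', -, -⟩ := half_val S hp hA hl hk hH
    have hS : ∀ c ∈ van S.U q.1, ∀ d ∈ spt S.W q.2, (f c = 0 ∨ g d = 0) →
        ∀ x, x ∉ A → c x * d x = 0 := by
      intro c hc d hdd hfg x hx
      by_cases h2 : x ∈ q.2
      · have h3 : x ∈ q.2 ∩ (p.2 \ A) :=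
          Finset.mem_inter.2 ⟨h2, Finset.mem_sdiff.2 ⟨hq.2 h2, hx⟩⟩
        rw [hq2] at h3
        rcases Finset.mem_insert.1 h3 with rfl | h3
        · rcases hfg with h0 | h0
          · have h4 := hfα' c (van_anti Finset.inter_subset_left hc)
            rw [h0] at h4
            rw [(mul_eq_zero.1 h4.symm).resolve_left hα', zero_mul]
          · have hsub : q.2 ⊆ insert x (p.1 ∪ A ∪ (q.1 ∩ (p.2 \ A))) := by
              intro z hz
              by_cases hzA : z ∈ A
              · exact Finset.mem_insert_of_mem (Finset.mem_union_left _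
                  (Finset.mem_union_right _ hzA))
              · have h5 : z ∈ q.2 ∩ (p.2 \ A) :=
                  Finset.mem_inter.2 ⟨hz, Finset.mem_sdiff.2 ⟨hq.2 hz, hzA⟩⟩
                rw [hq2] at h5
                rcases Finset.mem_insert.1 h5 with rfl | h5
                · exact Finset.mem_insert_self _ _
                · exact Finset.mem_insert_of_mem (Finset.mem_union_right _ h5)
            have h4 := hgβ' d (spt_mono hsub hdd)
            rw [h0] at h4
            rw [(mul_eq_zero.1 h4.symm).resolve_left hβ', mul_zero]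
        · rw [hc.2 x (Finset.mem_inter.1 h3).1, zero_mul]
      · rw [hdd.2 x h2, mul_zero]
    have hsub : insert b (X ∪ (q.1 ∩ A) ∪ (A ∩ gs q)) ⊆ insert b (p.1 ∪ A ∪ X) := by
      refine Finset.insert_subset_insert _ ?_
      refine Finset.union_subset (Finset.union_subset ?_ ?_) ?_
      · exact Finset.subset_union_right
      · exact (Finset.inter_subset_right.trans (Finset.subset_union_right.trans
          Finset.subset_union_left))
      · exact (Finset.inter_subset_left.trans (Finset.subset_union_right.trans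
          Finset.subset_union_left))
    refine ⟨(X ∪ (q.1 ∩ A), insert b (X ∪ (q.1 ∩ A) ∪ (A ∩ gs q))),
      ⟨Finset.subset_union_left, hsub⟩, tr_rich1 hr hp hA hl hX hq hR hy, ?_⟩
    refine ltv_core S hp hA hl hX hq hqq hT hD hk Finset.subset_union_left hsub
      Finset.subset_union_right ?_ (Or.inr (ltv_f S hp hA hl hk hCq
        Finset.inter_subset_right hd)) (Or.inr ?_) hS
    · intro x hxA hx
      rcases Finset.mem_insert.1 hx with rfl | hx
      · exact absurd hxA hbA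
      rcases Finset.mem_union.1 hx with h2 | h2
      · rcases Finset.mem_union.1 h2 with h2 | h2
        · exact absurd hxA (Finset.mem_sdiff.1 (hXB h2)).2
        · exact hqq (Finset.mem_inter.1 h2).1
      · exact (hgsq x (Finset.mem_inter.1 h2).2).2.2.2
    · rw [hq2]
      refine ltv_g S hp hA hk (hCq.trans (Finset.subset_insert _ _))
        (Finset.insert_subset hyB Finset.inter_subset_right) ?_
      rw [Finset.union_insert]
      exact hd'

end Pool.Agent.QU
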