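import Pool.Agent.QUL.LTh
import Pool.Agent.QUL.LBase
import Pool.Agent.QUB.Bix

set_option autoImplicit false

/-!
# Project QU, layer A, module LBinR: pairs of removals in a box without four point line (pure rank functions)

PLAN. `ρ = r p.2 - r p.1`. `th3_cn`: if `p` is connected, has no separation of order two and at least four elements then every
removal is connected: `A ⊆ (gs p).erase x` with `lam r (rm t x p) A ≤ 0` gives `lam r p A ≤ 1` and `lam r p (insert x A) ≤ 1`
(unfold, `unit`), and `A` or its complement in `(gs p).erase x` has at least two elements.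
`bin_pair`, at least four elements: `lam r p {x, y} ≥ 2` for `x ≠ y`, so `r (insert x (insert y p.1)) = r p.1 + 2` and
`r ((p.2.erase x).erase y) = r p.2`: `ND r p x y true true` and `ND r p x y false false` hold. If for some `u ≠ v` and some `t`
`rm t u (rm t v p)` is connected we are done. Otherwise by `QUB.tutte` for `rm true u p` (connected by `th3_cn`) and `v`
`rm false v (rm true u p)` is connected for all `u ≠ v`. If `ND r p u v true false` holds for some `u ≠ v` we are done.
Otherwise: (*) for `X ⊆ p.2`, `u ∈ X ∩ gs p`, `r (X.erase u) = r X` and `v ∈ gs p`, `v ≠ u`: `r (insert v (p.1 ∪ X)) = r (p.1 ∪ X)`. So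
a set `D ⊆ gs p` with `r (p.1 ∪ D) < r p.1 + D.card` has `r (p.1 ∪ D) = r p.2`: some `u ∈ D` has `r (p.1 ∪ D) = r ((p.1 ∪ D).erase u)`
(otherwise the rank drops by one at every element, `QUB.marg`), and by (*) all `v ∈ gs p` are in the closure of `p.1 ∪ D`. So all sets
`D ⊆ gs p` with `D.card ≤ ρ` have `r (p.1 ∪ D) = r p.1 + D.card` (otherwise the rank is `r p.2 = r p.1 + ρ`). `2 ≤ ρ` and
`ρ + 2 ≤ (gs p).card` by the two equations above. Choose `D ⊆ gs p` with `D.card = ρ - 2` and `N ⊆ gs p \ D` with `N.card = 4`: `N` is a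
four point line with the witness `p.1 ∪ D`, against `h4`.
Three elements `x, y, z`: `lam r p {x} ≥ 1` for all of them, `ρ ∈ {1, 2}`. If `ρ = 1`: `r (insert x p.1) = r p.1 + 1` for all three, take
`t = s = true`: `rm true u p` has two elements of rank one (connected), `rm true u (rm true v p)` has one element (`QUB.Cn` holds
because a one-element set has no proper nonempty subset); `ND true true`: all four ranks are `r p.2`. If `ρ = 2`: dually
(`r (p.2.erase x) = r p.2`), `t = s = false`.
-/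

namespace Pool.Agent.QU

variable {E : Type} [DecidableEq E] {r : Finset E → ℤ} {p : Itv E}

private theorem lbinr_gs (t : Bool) (x : E) (p : Itv E) : gs (rm t x p) = (gs p).erase x :=
  QUB.gs_rm t x p

/-- adding elements one by one -/
private theorem lbinr_le (hr : QUB.Rk r) (S D : Finset E) : r (S ∪ D) ≤ r S + D.card := by
  induction D using Finset.induction_on with
  | empty => simp
  | insert a D ha ih =>
    have h1 := hr.unit (S ∪ D) a
    rw [Finset.union_insert, Finset.card_insert_of_notMem ha]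
    push_cast
    linarith

/-- the closure of a set -/
private theorem lbinr_cl (hr : QUB.Rk r) (X Z : Finset E) (h : ∀ v ∈ Z, r (insert v X) = r X) :
    r (X ∪ Z) = r X := by
  induction Z using Finset.induction_on with
  | empty => simp
  | insert a Z ha ih =>
    have h1 := ih fun v hv => h v (Finset.mem_insert_of_mem hv)
    have h2 := h a (Finset.mem_insert_self a Z)
    have h3 := QUB.marg hr (Finset.subset_union_left (s₁ := X) (s₂ := Z)) a
    have h4 := hr.mono (X ∪ Z) (insert a (X ∪ Z)) (Finset.subset_insert _ _)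
    rw [Finset.union_insert]
    linarith

/-- a set whose elements are all coloops is independent -/
private theorem lbinr_ind (hr : QUB.Rk r) (C D : Finset E) (hd : Disjoint C D)
    (h : ∀ u ∈ D, r ((C ∪ D).erase u) < r (C ∪ D)) : r C + D.card ≤ r (C ∪ D) := by
  have key : ∀ D' : Finset E, D' ⊆ D → r C + D'.card ≤ r (C ∪ D') := by
    intro D'
    induction D' using Finset.induction_on with
    | empty => intro _; simp
    | insert a D' ha ih =>
      intro hs
      have h1 := ih ((Finset.subset_insert _ _).trans hs)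
      have haD : a ∈ D := hs (Finset.mem_insert_self _ _)
      have haC : a ∉ C := fun h' => Finset.disjoint_left.1 hd h' haD
      have h2 : C ∪ D' ⊆ (C ∪ D).erase a := by
        intro y hy
        refine Finset.mem_erase.2 ⟨?_, ?_⟩
        · rintro rfl
          rcases Finset.mem_union.1 hy with h' | h'
          · exact haC h'
          · exact ha h'
        · rcases Finset.mem_union.1 hy with h' | h'
          · exact Finset.mem_union_left _ h'
          · exact Finset.mem_union_right _ (hs (Finset.mem_insert_of_mem h'))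
      have h3 := QUB.marg hr h2 a
      rw [Finset.insert_erase (Finset.mem_union_right _ haD)] at h3
      have h4 := h a haD
      rw [Finset.union_insert, Finset.card_insert_of_notMem ha]
      push_cast
      linarith
  exact key D (Finset.Subset.refl _)

theorem th3_cn (hr : QUB.Rk r) (hp : p.1 ⊆ p.2) (hc : QUB.Cn r p) (h3 : Th3 r p)
    (hn : 4 ≤ (gs p).card) {x : E} (hx : x ∈ gs p) (t : Bool) : QUB.Cn r (rm t x p) := by
  intro A hA hA1 hA2
  rw [show QUB.gs (rm t x p) = (gs p).erase x from lbinr_gs t x p] at hA hA2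
  by_contra hcon
  have hl : lam r (rm t x p) A ≤ 0 := by
    have : ¬ (1 ≤ lam r (rm t x p) A) := hcon
    omega
  have hxA : x ∉ A := fun h => (Finset.mem_erase.1 (hA h)).1 rfl
  have hAp : A ⊆ gs p := hA.trans (Finset.erase_subset _ _)
  have h1 : lam r p A ≤ 1 := by
    have : lam r p A ≤ lam r (rm t x p) A + 1 := QUB.lam_le_rm hr hx hA
    omega
  have h2 : lam r p (insert x A) ≤ 1 := by
    have : lam r p (insert x A) ≤ lam r (rm t x p) A + 1 := QUB.lam_le_rm' hr hx hA
    omega
  have hcard := Finset.card_sdiff_add_card_eq_card hA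
  rw [Finset.card_erase_of_mem hx] at hcard
  have hA1' : 1 ≤ A.card := Finset.card_pos.2 hA1
  have hA2' : 1 ≤ ((gs p).erase x \ A).card := Finset.card_pos.2 hA2
  have hcard2 := Finset.card_sdiff_add_card_eq_card hAp
  by_cases h4 : 2 ≤ A.card
  · have := h3 A hAp h4 (by omega)
    omega
  · have hi : insert x A ⊆ gs p := Finset.insert_subset hx hAp
    have hci : (insert x A).card = A.card + 1 := Finset.card_insert_of_notMem hxA
    have hcard3 := Finset.card_sdiff_add_card_eq_card hi
    have := h3 (insert x A) hi (by omega) (by omega)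
    omega

private theorem lbinr_pairset (C : Finset E) (x y : E) :
    C ∪ {x, y} = insert x (insert y C) := by
  ext z
  simp only [Finset.mem_union, Finset.mem_insert, Finset.mem_singleton]
  tauto

private theorem lbinr_pairdel (G : Finset E) (x y : E) :
    G \ {x, y} = (G.erase x).erase y := by
  ext z
  simp only [Finset.mem_sdiff, Finset.mem_insert, Finset.mem_singleton, Finset.mem_erase]
  tauto

private theorem lbinr_two (hr : QUB.Rk r) (h3 : Th3 r p)
    (hn : 4 ≤ (gs p).card) {x y : E} (hx : x ∈ gs p) (hy : y ∈ gs p) (hxy : x ≠ y) :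
    r (p.1 ∪ {x, y}) = r p.1 + 2 ∧ r (p.2 \ {x, y}) = r p.2 := by
  have hs : ({x, y} : Finset E) ⊆ gs p := by
    intro z hz
    simp only [Finset.mem_insert, Finset.mem_singleton] at hz
    rcases hz with rfl | rfl
    · exact hx
    · exact hy
  have hc2 : ({x, y} : Finset E).card = 2 := Finset.card_pair hxy
  have hcard := Finset.card_sdiff_add_card_eq_card hs
  have h1 := h3 {x, y} hs (by omega) (by omega)
  have h2 := lbinr_le hr p.1 {x, y}
  rw [hc2] at h2
  have h4 := hr.mono (p.2 \ {x, y}) p.2 Finset.sdiff_subset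
  unfold lam at h1
  push_cast at h2
  constructor <;> linarith

private theorem lbinr_cn_one (h : (gs p).card ≤ 1) : QUB.Cn r p := by
  intro A hA hA1 hA2
  exfalso
  have hcard := Finset.card_sdiff_add_card_eq_card hA
  have h1 : 1 ≤ A.card := Finset.card_pos.2 hA1
  have h2 : 1 ≤ (QUB.gs p \ A).card := Finset.card_pos.2 hA2
  have h3 : (QUB.gs p).card ≤ 1 := h
  omega

private theorem lbinr_cn1 (hr : QUB.Rk r) (hp : p.1 ⊆ p.2)
    (h : ∀ x ∈ gs p, r p.1 + 1 ≤ r (insert x p.1)) (h2 : r p.2 ≤ r p.1 + 1) : QUB.Cn r p := by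
  intro A hA hA1 hA2
  obtain ⟨a, ha⟩ := hA1
  obtain ⟨b, hb⟩ := hA2
  obtain ⟨hb1, hb2⟩ := Finset.mem_sdiff.1 hb
  obtain ⟨hb3, hb4⟩ := Finset.mem_sdiff.1 hb1
  have e1 : r (insert a p.1) ≤ r (p.1 ∪ A) := by
    refine hr.mono _ _ (Finset.insert_subset (Finset.mem_union_right _ ha) ?_)
    exact Finset.subset_union_left
  have e2 : r (insert b p.1) ≤ r (p.2 \ A) := by
    refine hr.mono _ _ (Finset.insert_subset (Finset.mem_sdiff.2 ⟨hb3, hb2⟩) ?_)
    intro y hy
    exact Finset.mem_sdiff.2 ⟨hp hy, fun h' => (Finset.mem_sdiff.1 (hA h')).2 hy⟩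
  have e3 := h a (hA ha)
  have e4 := h b hb1
  show 1 ≤ r (p.1 ∪ A) + r (p.2 \ A) - r p.2 - r p.1
  linarith

private theorem lbinr_split {q : Itv E} (hq : q.1 ⊆ q.2) {A : Finset E} (hA : A ⊆ gs q) :
    q.2 \ A = q.1 ∪ (gs q \ A) := by
  ext y
  have h1 : y ∈ q.1 → y ∈ q.2 := fun hy => hq hy
  have h2 : y ∈ A → y ∈ q.2 ∧ y ∉ q.1 := fun hy => Finset.mem_sdiff.1 (hA hy)
  simp only [Finset.mem_union, Finset.mem_sdiff, gs]
  tauto

private theorem lbinr_cn2 (hr : QUB.Rk r) (hp : p.1 ⊆ p.2)
    (h : ∀ x ∈ gs p, r p.2 ≤ r (p.2.erase x)) (h2 : r p.2 + 1 = r p.1 + (gs p).card) :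
    QUB.Cn r p := by
  have key : ∀ A : Finset E, A ⊆ gs p → (gs p \ A).Nonempty → r p.1 + A.card ≤ r (p.1 ∪ A) := by
    intro A hA hne
    obtain ⟨b, hb⟩ := hne
    obtain ⟨hb1, hb2⟩ := Finset.mem_sdiff.1 hb
    have hb3 := Finset.mem_sdiff.1 hb1
    have e1 := h b hb1
    have e2 : p.2.erase b = (p.1 ∪ A) ∪ ((gs p).erase b \ A) := by
      ext y
      have h1 : y ∈ p.1 → y ∈ p.2 := fun hy => hp hy
      have h2 : y ∈ A → y ∈ p.2 ∧ y ∉ p.1 := fun hy => Finset.mem_sdiff.1 (hA hy)
      simp only [Finset.mem_union, Finset.mem_sdiff, Finset.mem_erase, gs]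
      constructor
      · tauto
      · rintro ((h' | h') | h')
        · refine ⟨?_, h1 h'⟩
          rintro rfl
          exact hb3.2 h'
        · refine ⟨?_, (h2 h').1⟩
          rintro rfl
          exact hb2 h'
        · exact ⟨h'.1.1, h'.1.2.1⟩
    have e3 := lbinr_le hr (p.1 ∪ A) ((gs p).erase b \ A)
    rw [← e2] at e3
    have hAb : A ⊆ (gs p).erase b := by
      intro y hy
      refine Finset.mem_erase.2 ⟨?_, hA hy⟩
      rintro rfl
      exact hb2 hy
    have e4 := Finset.card_sdiff_add_card_eq_card hAb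
    have e5 := Finset.card_erase_add_one hb1
    have e6 : (((gs p).erase b \ A).card : ℤ) + A.card + 1 = (gs p).card := by
      rw [← e5]
      push_cast
      have : (((gs p).erase b \ A).card : ℤ) + A.card = ((gs p).erase b).card := by
        exact_mod_cast e4
      linarith
    linarith
  intro A hA hA1 hA2
  have hA' : A ⊆ gs p := hA
  have hA2' : (gs p \ A).Nonempty := hA2
  have k1 := key A hA' hA2'
  have k2 := key (gs p \ A) Finset.sdiff_subset (by
    obtain ⟨a, ha⟩ := hA1
    exact ⟨a, Finset.mem_sdiff.2 ⟨hA' ha, fun h' => (Finset.mem_sdiff.1 h').2 ha⟩⟩)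
  rw [← lbinr_split hp hA'] at k2
  have e4 := Finset.card_sdiff_add_card_eq_card hA'
  have e5 : ((gs p \ A).card : ℤ) + A.card = (gs p).card := by exact_mod_cast e4
  show 1 ≤ r (p.1 ∪ A) + r (p.2 \ A) - r p.2 - r p.1
  linarith

/-- the case of at least four elements -/
private theorem lbinr_four (hr : QUB.Rk r) (hp : p.1 ⊆ p.2) (hc : QUB.Cn r p) (h3 : Th3 r p)
    (hn : 4 ≤ (gs p).card) (h4 : ∀ N, ¬ QUB.Ln r p N) :
    ∃ u ∈ gs p, ∃ v ∈ gs p, u ≠ v ∧ ∃ t s : Bool, QUB.Cn r (rm t u p) ∧ QUB.Cn r (rm s v p) ∧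
      QUB.Cn r (rm t u (rm s v p)) ∧ ND r p u v t s := by
  have hcn : ∀ t : Bool, ∀ x ∈ gs p, QUB.Cn r (rm t x p) := fun t x hx =>
    th3_cn hr hp hc h3 hn hx t
  by_contra hcon
  push Not at hcon
  -- equal types
  have hno : ∀ t : Bool, ∀ u ∈ gs p, ∀ v ∈ gs p, u ≠ v → ¬ QUB.Cn r (rm t u (rm t v p)) := by
    intro t u hu v hv huv h5
    refine hcon u hu v hv huv t t (hcn t u hu) (hcn t v hv) h5 ?_
    obtain ⟨a1, a2⟩ := lbinr_two hr h3 hn hu hv huv
    rw [lbinr_pairset] at a1
    rw [lbinr_pairdel] at a2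
    cases t
    · show r (insert u p.1) + r (insert v p.1) = r p.1 + r (insert u (insert v p.1))
      have b1 := hr.unit (insert v p.1) u
      have b2 := hr.unit p.1 v
      have b3 := hr.unit p.1 u
      have b4 := hr.unit (insert u p.1) v
      rw [Finset.insert_comm] at b4
      linarith
    · show r (p.2.erase u) + r (p.2.erase v) = r p.2 + r ((p.2.erase u).erase v)
      have b1 := hr.mono ((p.2.erase u).erase v) (p.2.erase u) (Finset.erase_subset _ _)
      have b2 := hr.mono ((p.2.erase u).erase v) (p.2.erase v)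
        (Finset.erase_subset_erase _ (Finset.erase_subset _ _))
      have b3 := hr.mono (p.2.erase u) p.2 (Finset.erase_subset _ _)
      have b4 := hr.mono (p.2.erase v) p.2 (Finset.erase_subset _ _)
      linarith
  -- mixed types
  have hmix : ∀ u ∈ gs p, ∀ v ∈ gs p, u ≠ v → ¬ ND r p u v true false := by
    intro u hu v hv huv h5
    have hw : (rm true u p).1 ⊆ (rm true u p).2 := QUB.wf_rm hp hu
    have hv' : v ∈ gs (rm true u p) := by
      rw [lbinr_gs]
      exact Finset.mem_erase.2 ⟨huv.symm, hv⟩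
    rcases QUB.tutte hr hw hv' (hcn true u hu) with h6 | h6
    · exact hno true v hv u hu huv.symm h6
    · refine hcon u hu v hv huv true false (hcn true u hu) (hcn false v hv) ?_ h5
      rw [rm_comm]
      exact h6
  -- a dependent set spans
  have hdep : ∀ D ⊆ gs p, r (p.1 ∪ D) < r p.1 + D.card → r (p.1 ∪ D) = r p.2 := by
    intro D hD hlt
    have hD' : ∀ y, y ∈ D → y ∈ p.2 ∧ y ∉ p.1 := fun y hy => Finset.mem_sdiff.1 (hD hy)
    have hdj : Disjoint p.1 D := Finset.disjoint_right.2 fun y hy => (hD' y hy).2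
    obtain ⟨u, huD, hu⟩ : ∃ u ∈ D, r (p.1 ∪ D) ≤ r ((p.1 ∪ D).erase u) := by
      by_contra hcon2
      push Not at hcon2
      have := lbinr_ind hr p.1 D hdj hcon2
      linarith
    have hX : p.1 ∪ D ⊆ p.2 := Finset.union_subset hp fun y hy => (hD' y hy).1
    have huX : u ∈ p.1 ∪ D := Finset.mem_union_right _ huD
    have heq : r ((p.1 ∪ D).erase u) = r (p.1 ∪ D) :=
      le_antisymm (hr.mono _ _ (Finset.erase_subset _ _)) hu
    have hcl := lbinr_cl hr (p.1 ∪ D) (gs p) (by
      intro v hv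
      by_cases huv : u = v
      · rw [← huv, Finset.insert_eq_of_mem huX]
      · have h5 := hmix u (hD huD) v hv huv
        have h6 : ¬ ∃ X ⊆ p.2, u ∈ X ∧ r (X.erase u) = r X ∧
            r (insert v (p.1 ∪ X)) = r (p.1 ∪ X) + 1 := h5
        push Not at h6
        have h7 := h6 (p.1 ∪ D) hX huX heq
        have h8 : p.1 ∪ (p.1 ∪ D) = p.1 ∪ D := by
          rw [← Finset.union_assoc, Finset.union_self]
        rw [h8] at h7
        have h9 := hr.unit (p.1 ∪ D) v
        have h10 := hr.mono (p.1 ∪ D) (insert v (p.1 ∪ D)) (Finset.subset_insert _ _)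
        omega)
    rw [← hcl]
    congr 1
    ext y
    have h1 : y ∈ p.1 → y ∈ p.2 := fun hy => hp hy
    have h2 := hD' y
    simp only [Finset.mem_union, Finset.mem_sdiff, gs]
    tauto
  -- the rank
  obtain ⟨x, hx, y, hy, hxy⟩ : ∃ x ∈ gs p, ∃ y ∈ gs p, x ≠ y := by
    obtain ⟨x, hx, y, hy, h⟩ := Finset.one_lt_card.1 (show 1 < (gs p).card by omega)
    exact ⟨x, hx, y, hy, h⟩
  obtain ⟨a1, a2⟩ := lbinr_two hr h3 hn hx hy hxy
  have hs : ({x, y} : Finset E) ⊆ gs p := by
    intro z hz
    simp only [Finset.mem_insert, Finset.mem_singleton] at hz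
    rcases hz with rfl | rfl
    · exact hx
    · exact hy
  have hc2 : ({x, y} : Finset E).card = 2 := Finset.card_pair hxy
  have b1 : r (p.1 ∪ {x, y}) ≤ r p.2 := by
    refine hr.mono _ _ (Finset.union_subset hp ?_)
    intro z hz
    exact (Finset.mem_sdiff.1 (hs hz)).1
  have b2 : r p.2 + 2 ≤ r p.1 + (gs p).card := by
    have e1 := lbinr_le hr p.1 (gs p \ {x, y})
    rw [← lbinr_split hp hs, a2] at e1
    have e2 := Finset.card_sdiff_add_card_eq_card hs
    have e3 : ((gs p \ {x, y}).card : ℤ) + 2 = (gs p).card := by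
      rw [← e2, hc2]
      push_cast
      ring
    linarith
  obtain ⟨m, hm⟩ : ∃ m : ℕ, r p.2 = r p.1 + 2 + m := by
    refine ⟨(r p.2 - r p.1 - 2).toNat, ?_⟩
    rw [Int.toNat_of_nonneg (by linarith)]
    ring
  have hm' : m + 4 ≤ (gs p).card := by
    have : (m : ℤ) + 4 ≤ (gs p).card := by linarith
    exact_mod_cast this
  have hind : ∀ D ⊆ gs p, D.card ≤ m + 2 → r (p.1 ∪ D) = r p.1 + D.card := by
    intro D hD hDc
    have e1 := lbinr_le hr p.1 D
    by_contra hne
    have e2 : r (p.1 ∪ D) < r p.1 + D.card := lt_of_le_of_ne e1 hne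
    have e3 := hdep D hD e2
    have e4 : (D.card : ℤ) ≤ m + 2 := by exact_mod_cast hDc
    linarith
  obtain ⟨D, hD, hDc⟩ := Finset.exists_subset_card_eq (show m ≤ (gs p).card by omega)
  have hcs := Finset.card_sdiff_add_card_eq_card hD
  obtain ⟨N, hN, hNc⟩ := Finset.exists_subset_card_eq (show 4 ≤ (gs p \ D).card by omega)
  have hN' : ∀ z, z ∈ N → z ∈ p.2 ∧ z ∉ p.1 ∧ z ∉ D := fun z hz => by
    obtain ⟨h5, h6⟩ := Finset.mem_sdiff.1 (hN hz)
    obtain ⟨h7, h8⟩ := Finset.mem_sdiff.1 h5
    exact ⟨h7, h8, h6⟩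
  have hD' : ∀ z, z ∈ D → z ∈ p.2 ∧ z ∉ p.1 := fun z hz => Finset.mem_sdiff.1 (hD hz)
  have hrD := hind D hD (by omega)
  have hDN : Disjoint D N := Finset.disjoint_right.2 fun z hz => (hN' z hz).2.2
  refine h4 N ⟨hNc, p.1 ∪ D, Finset.subset_union_left, ?_, ?_, ?_, ?_⟩
  · refine Finset.union_subset (Finset.union_subset hp fun z hz => (hD' z hz).1) ?_
    exact fun z hz => (hN' z hz).1
  · rw [Finset.disjoint_union_right]
    exact ⟨Finset.disjoint_left.2 fun z hz => (hN' z hz).2.1, hDN.symm⟩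
  · have e1 : p.1 ∪ D ∪ N = p.1 ∪ (D ∪ N) := Finset.union_assoc _ _ _
    have hDNs : D ∪ N ⊆ gs p := Finset.union_subset hD (hN.trans Finset.sdiff_subset)
    have hDNc : (D ∪ N).card = m + 4 := by
      rw [Finset.card_union_of_disjoint hDN, hDc, hNc]
    have e2 : r (p.1 ∪ (D ∪ N)) ≤ r p.2 := by
      refine hr.mono _ _ (Finset.union_subset hp ?_)
      intro z hz
      exact (Finset.mem_sdiff.1 (hDNs hz)).1
    have e3 := hdep (D ∪ N) hDNs (by
      rw [hDNc]
      push_cast
      linarith)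
    rw [e1, e3, hrD, hDc]
    linarith
  · intro i hi j hj hij
    have e1 : insert i (insert j (p.1 ∪ D)) = p.1 ∪ (insert i (insert j D)) := by
      rw [Finset.union_insert, Finset.union_insert]
    have hDs : insert i (insert j D) ⊆ gs p := by
      refine Finset.insert_subset ?_ (Finset.insert_subset ?_ hD)
      · exact (Finset.mem_sdiff.1 (hN hi)).1
      · exact (Finset.mem_sdiff.1 (hN hj)).1
    have hDsc : (insert i (insert j D)).card = m + 2 := by
      rw [Finset.card_insert_of_notMem, Finset.card_insert_of_notMem (hN' j hj).2.2, hDc]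
      intro h5
      rcases Finset.mem_insert.1 h5 with h6 | h6
      · exact hij h6
      · exact (hN' i hi).2.2 h6
    have e2 := hind _ hDs (le_of_eq hDsc)
    rw [e1, e2, hDsc, hrD, hDc]
    push_cast
    ring

private theorem lbinr_three (hr : QUB.Rk r) (hp : p.1 ⊆ p.2) (hc : QUB.Cn r p)
    (hn : (gs p).card = 3) :
    ∃ u ∈ gs p, ∃ v ∈ gs p, u ≠ v ∧ ∃ t s : Bool, QUB.Cn r (rm t u p) ∧ QUB.Cn r (rm s v p) ∧
      QUB.Cn r (rm t u (rm s v p)) ∧ ND r p u v t s := by
  obtain ⟨u, v, w, huv, huw, hvw, hg⟩ := Finset.card_eq_three.1 hn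
  have hu : u ∈ gs p := by rw [hg]; simp
  have hv : v ∈ gs p := by rw [hg]; simp
  have hw : w ∈ gs p := by rw [hg]; simp
  have hone : ∀ x ∈ gs p, r (insert x p.1) = r p.1 + 1 ∧ r (p.2.erase x) = r p.2 := by
    intro x hx
    have h1 : 1 ≤ lam r p {x} := by
      refine hc {x} (Finset.singleton_subset_iff.2 hx) (Finset.singleton_nonempty x) ?_
      rw [Finset.sdiff_singleton_eq_erase, ← Finset.card_pos]
      have h2 : ((QUB.gs p).erase x).card = (QUB.gs p).card - 1 := Finset.card_erase_of_mem hx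
      have h3 : (QUB.gs p).card = 3 := hn
      rw [h2, h3]
      norm_num
    have h2 := hr.unit p.1 x
    have h3 := hr.mono (p.2.erase x) p.2 (Finset.erase_subset _ _)
    have e1 : p.1 ∪ {x} = insert x p.1 := by
      ext y
      simp only [Finset.mem_union, Finset.mem_singleton, Finset.mem_insert]
      tauto
    unfold lam at h1
    rw [e1, Finset.sdiff_singleton_eq_erase] at h1
    constructor <;> linarith
  have hmem : ∀ y, y ∈ p.2 ↔ y ∈ p.1 ∨ y = u ∨ y = v ∨ y = w := by
    intro y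
    constructor
    · intro hy
      by_cases h1 : y ∈ p.1
      · exact Or.inl h1
      · have h2 : y ∈ gs p := Finset.mem_sdiff.2 ⟨hy, h1⟩
        rw [hg] at h2
        simp only [Finset.mem_insert, Finset.mem_singleton] at h2
        exact Or.inr h2
    · rintro (h1 | rfl | rfl | rfl)
      · exact hp h1
      · exact (Finset.mem_sdiff.1 hu).1
      · exact (Finset.mem_sdiff.1 hv).1
      · exact (Finset.mem_sdiff.1 hw).1
  have huC := (Finset.mem_sdiff.1 hu).2
  have hvC := (Finset.mem_sdiff.1 hv).2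
  have hwC := (Finset.mem_sdiff.1 hw).2
  have e1 : p.2.erase w = insert u (insert v p.1) := by
    ext y
    rw [Finset.mem_erase, hmem y]
    simp only [Finset.mem_insert]
    constructor
    · tauto
    · rintro (rfl | rfl | h1)
      · exact ⟨huw, by tauto⟩
      · exact ⟨hvw, by tauto⟩
      · refine ⟨?_, Or.inl h1⟩
        rintro rfl
        exact hwC h1
  have e2 : (p.2.erase u).erase v = insert w p.1 := by
    ext y
    rw [Finset.mem_erase, Finset.mem_erase, hmem y]
    simp only [Finset.mem_insert]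
    constructor
    · tauto
    · rintro (rfl | h1)
      · exact ⟨hvw.symm, huw.symm, by tauto⟩
      · refine ⟨?_, ?_, Or.inl h1⟩
        · rintro rfl
          exact hvC h1
        · rintro rfl
          exact huC h1
  have k1 := hone u hu
  have k2 := hone v hv
  have k3 := hone w hw
  have k4 := hr.unit (insert v p.1) u
  have k5 := hr.mono (insert v p.1) (insert u (insert v p.1)) (Finset.subset_insert _ _)
  have hwf : ∀ (t : Bool) (x : E), x ∈ gs p → (rm t x p).1 ⊆ (rm t x p).2 := fun t x hx =>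
    QUB.wf_rm hp hx
  have hg2 : (gs (rm true u (rm true v p))).card ≤ 1 := by
    rw [lbinr_gs, lbinr_gs, Finset.card_erase_of_mem (Finset.mem_erase.2 ⟨huv, hu⟩),
      Finset.card_erase_of_mem hv, hn]
  have hg3 : (gs (rm false u (rm false v p))).card ≤ 1 := by
    rw [lbinr_gs, lbinr_gs, Finset.card_erase_of_mem (Finset.mem_erase.2 ⟨huv, hu⟩),
      Finset.card_erase_of_mem hv, hn]
  by_cases hrho : r p.2 ≤ r p.1 + 1
  · have hcn : ∀ x ∈ gs p, QUB.Cn r (rm true x p) := by
      intro x hx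
      refine lbinr_cn1 hr (hwf true x hx) ?_ ?_
      · intro y hy
        rw [lbinr_gs] at hy
        show r p.1 + 1 ≤ r (insert y p.1)
        exact le_of_eq (hone y (Finset.mem_erase.1 hy).2).1.symm
      · show r (p.2.erase x) ≤ r p.1 + 1
        linarith [(hone x hx).2]
    refine ⟨u, hu, v, hv, huv, true, true, hcn u hu, hcn v hv, lbinr_cn_one hg2, ?_⟩
    show r (p.2.erase u) + r (p.2.erase v) = r p.2 + r ((p.2.erase u).erase v)
    rw [e2]
    have k6 := hr.mono (insert w p.1) p.2 (Finset.insert_subset (Finset.mem_sdiff.1 hw).1 hp)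
    linarith [k1.2, k2.2, k3.1]
  · have hrho2 : r p.2 = r p.1 + 2 := by
      have k6 := k3.2
      rw [e1] at k6
      linarith [k2.1, not_le.1 hrho]
    have hcn : ∀ x ∈ gs p, QUB.Cn r (rm false x p) := by
      intro x hx
      refine lbinr_cn2 hr (hwf false x hx) ?_ ?_
      · intro y hy
        rw [lbinr_gs] at hy
        show r p.2 ≤ r (p.2.erase y)
        exact le_of_eq (hone y (Finset.mem_erase.1 hy).2).2.symm
      · rw [lbinr_gs, Finset.card_erase_of_mem hx, hn]
        show r p.2 + 1 = r (insert x p.1) + ((3 - 1 : ℕ) : ℤ)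
        rw [(hone x hx).1, hrho2]
        norm_num
        ring
    refine ⟨u, hu, v, hv, huv, false, false, hcn u hu, hcn v hv, lbinr_cn_one hg3, ?_⟩
    show r (insert u p.1) + r (insert v p.1) = r p.1 + r (insert u (insert v p.1))
    rw [← e1, k3.2, hrho2, k1.1, k2.1]
    ring

theorem bin_pair (hr : QUB.Rk r) (hp : p.1 ⊆ p.2) (hc : QUB.Cn r p) (h3 : Th3 r p)
    (hn : 3 ≤ (gs p).card) (h4 : ∀ N, ¬ QUB.Ln r p N) :
    ∃ u ∈ gs p, ∃ v ∈ gs p, u ≠ v ∧ ∃ t s : Bool, QUB.Cn r (rm t u p) ∧ QUB.Cn r (rm s v p) ∧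
      QUB.Cn r (rm t u (rm s v p)) ∧ ND r p u v t s := by
  by_cases h : 4 ≤ (gs p).card
  · exact lbinr_four hr hp hc h3 h h4
  · exact lbinr_three hr hp hc (by omega)

/-- no proper separation of order one or two, small cases -/
theorem th3_four (hr : QUB.Rk r) (hp : p.1 ⊆ p.2) (hc : QUB.Cn r p) (h3 : Th3 r p)
    (hn : (gs p).card = 4) : r p.2 = r p.1 + 2 ∧
      ∀ i ∈ gs p, ∀ j ∈ gs p, i ≠ j → r (p.1 ∪ {i, j}) = r p.1 + 2 := by
  have h2 : ∀ i ∈ gs p, ∀ j ∈ gs p, i ≠ j → r (p.1 ∪ {i, j}) = r p.1 + 2 := fun i hi j hj hij =>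
    (lbinr_two hr h3 (by omega) hi hj hij).1
  refine ⟨?_, h2⟩
  obtain ⟨x, hx, y, hy, hxy⟩ := Finset.one_lt_card.1 (show 1 < (gs p).card by omega)
  have hs : ({x, y} : Finset E) ⊆ gs p := by
    intro z hz
    simp only [Finset.mem_insert, Finset.mem_singleton] at hz
    rcases hz with rfl | rfl
    · exact hx
    · exact hy
  have hc2 : ({x, y} : Finset E).card = 2 := Finset.card_pair hxy
  have h5 := (lbinr_two hr h3 (by omega) hx hy hxy).2
  have h6 := Finset.card_sdiff_add_card_eq_card hs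
  obtain ⟨z, w, hzw, hg⟩ := Finset.card_eq_two.1 (show (gs p \ {x, y}).card = 2 by omega)
  have hz : z ∈ gs p \ {x, y} := by rw [hg]; simp
  have hw : w ∈ gs p \ {x, y} := by rw [hg]; simp
  have h7 := h2 z (Finset.mem_sdiff.1 hz).1 w (Finset.mem_sdiff.1 hw).1 hzw
  rw [← h5, lbinr_split hp hs, hg]
  exact h7

theorem th3_five (hr : QUB.Rk r) (hp : p.1 ⊆ p.2) (hc : QUB.Cn r p) (h3 : Th3 r p)
    (hn : (gs p).card = 5) : Rich r p := by
  have h2 : ∀ i ∈ gs p, ∀ j ∈ gs p, i ≠ j → r (p.1 ∪ {i, j}) = r p.1 + 2 := fun i hi j hj hij =>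
    (lbinr_two hr h3 (by omega) hi hj hij).1
  have h5 : ∀ i ∈ gs p, ∀ j ∈ gs p, ∀ k ∈ gs p, i ≠ j → i ≠ k → j ≠ k →
      r (p.1 ∪ {i, j, k}) = r p.2 := by
    intro i hi j hj k hk hij hik hjk
    have hs : ({i, j, k} : Finset E) ⊆ gs p := by
      intro z hz
      simp only [Finset.mem_insert, Finset.mem_singleton] at hz
      rcases hz with rfl | rfl | rfl
      · exact hi
      · exact hj
      · exact hk
    have hc3 : ({i, j, k} : Finset E).card = 3 := Finset.card_eq_three.2
      ⟨i, j, k, hij, hik, hjk, rfl⟩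
    have h6 := Finset.card_sdiff_add_card_eq_card hs
    obtain ⟨x, y, hxy, hg⟩ := Finset.card_eq_two.1 (show (gs p \ {i, j, k}).card = 2 by omega)
    have hx : x ∈ gs p \ {i, j, k} := by rw [hg]; simp
    have hy : y ∈ gs p \ {i, j, k} := by rw [hg]; simp
    have h7 := (lbinr_two hr h3 (by omega) (Finset.mem_sdiff.1 hx).1 (Finset.mem_sdiff.1 hy).1
      hxy).2
    rw [← h7, lbinr_split hp (by
      rw [← hg]
      exact Finset.sdiff_subset), ← hg, Finset.sdiff_sdiff_eq_self hs]
  obtain ⟨i, hi, j, hj, k, hk, hij, hik, hjk⟩ := Finset.two_lt_card.1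
    (show 2 < (gs p).card by omega)
  have h6 := h5 i hi j hj k hk hij hik hjk
  have h7 := h2 j hj k hk hjk
  have e1 : p.1 ∪ {i, j, k} = insert i (p.1 ∪ {j, k}) := by
    ext y
    simp only [Finset.mem_union, Finset.mem_insert, Finset.mem_singleton]
    tauto
  have h8 := hr.unit (p.1 ∪ {j, k}) i
  have h9 := hr.mono (p.1 ∪ {j, k}) (insert i (p.1 ∪ {j, k})) (Finset.subset_insert _ _)
  rw [← e1, h6, h7] at h8 h9
  refine ⟨hp, hn, ?_⟩
  by_cases h10 : r p.2 = r p.1 + 2
  · exact Or.inl ⟨h10, h2⟩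
  · have h11 : r p.2 = r p.1 + 3 := by omega
    refine Or.inr ⟨h11, fun i hi j hj k hk hij hik hjk => ?_⟩
    rw [h5 i hi j hj k hk hij hik hjk, h11]

end Pool.Agent.QU
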