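import Pool.Agent.QUL.LRk
import Pool.Agent.QUL.LHom
import Pool.Agent.QUL.LTh

set_option autoImplicit false

/-!
# Project QU, layer A, module LLine: small boxes

PLAN. `hom_cn`: `hom_sep`: the set `Z` of the `x ∈ gs p` with `l x ≠ 0` has `lam S.r p Z ≤ 0`, so `Z = ∅` or `Z = gs p` by
`QUB.Cn`; in the second case `S.tw_ln` gives `l x = 0` for `x ∈ N`, `N ⊆ gs p` nonempty.
`hom_line`: if `gs p = ∅` nothing is to be shown; otherwise `x₀ ∈ gs p`, `k = l x₀ / w x₀`; `l - k • w` vanishes at `x₀`, so by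
`hom_sep` (for `dg (l - k • w)`) and `QUB.Cn` it vanishes on `gs p`.
`dim_all`, `dim_one`: let `n = (gs p).card`, `ρ = r p.2 - r p.1`. `finrank (van U p.1) - finrank (van U p.2) = ρ`,
`finrank (spt W p.2) - finrank (spt W p.1) = n - ρ` (`hU`, `hW`). Choose complements `A` of `van U p.2` in `van U p.1` and `B` of
`spt W p.1` in `spt W p.2`. Forms in `InV` vanish on `van U p.2 × spt W p.2` and on `van U p.1 × spt W p.1` (disjoint pairs), so two
forms in `InV` agree on `p` iff they agree on `A × B`. The space `A →ₗ B →ₗ K` has dimension `ρ * (n - ρ)`. The map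
`(gs p → K) → (A →ₗ B →ₗ K)`, `l ↦ dg l` is injective by `hom`; if `ρ * (n - ρ) ≤ n` it is surjective (`dim_all`). If
`ρ * (n - ρ) ≤ n + 1` and `Ts` is not in the image then `(l, k) ↦ dg l + k • Ts` is injective, so surjective (`dim_one`).
(Functions on `gs p` are extended by zero.)
-/

open Module (finrank)

namespace Pool.Agent.QU

variable {K E : Type} [Field K] [Fintype E] [DecidableEq E]

private theorem LLine_cn (S : TP K E) {p : Itv E} (hc : QUB.Cn S.r p) :
    ∀ A ⊆ gs p, lam S.r p A ≤ 0 → A = ∅ ∨ A = gs p := by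
  intro A hA hl
  by_contra hcon
  rw [not_or] at hcon
  have h1 : A.Nonempty := Finset.nonempty_iff_ne_empty.2 hcon.1
  have h2 : (gs p \ A).Nonempty := by
    rw [Finset.nonempty_iff_ne_empty]
    intro h
    exact hcon.2 (Finset.Subset.antisymm hA (Finset.sdiff_eq_empty_iff_subset.1 h))
  have h3 := hc A hA h1 h2
  linarith

private theorem LLine_compl {M N : Submodule K (E → K)} (h : N ≤ M) :
    ∃ A : Submodule K (E → K), A ≤ M ∧ finrank K M = finrank K N + finrank K A ∧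
      ∀ c ∈ M, ∃ u ∈ N, ∃ a ∈ A, c = u + a := by
  obtain ⟨A', hA'⟩ := Submodule.exists_isCompl N
  have h1 : N ⊔ (A' ⊓ M) = M := by
    rw [← sup_inf_assoc_of_le A' h, hA'.sup_eq_top, top_inf_eq]
  have h2 : N ⊓ (A' ⊓ M) = ⊥ := by
    rw [← inf_assoc, hA'.inf_eq_bot, bot_inf_eq]
  refine ⟨A' ⊓ M, inf_le_right, ?_, ?_⟩
  · have h3 := Submodule.finrank_sup_add_finrank_inf_eq N (A' ⊓ M)
    rw [h1, h2, finrank_bot, add_zero] at h3
    exact h3
  · intro c hc
    rw [← h1, Submodule.mem_sup] at hc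
    obtain ⟨u, hu, a, ha, e⟩ := hc
    exact ⟨u, hu, a, ha, e.symm⟩

private theorem LLine_core (S : TP K E) {p : Itv E} (hp : p.1 ⊆ p.2) :
    ∃ A B : Submodule K (E → K), A ≤ van S.U p.1 ∧ B ≤ spt S.W p.2 ∧
      (finrank K A : ℤ) = S.r p.2 - S.r p.1 ∧
      (finrank K B : ℤ) = (gs p).card - (S.r p.2 - S.r p.1) ∧
      ∀ T T' : Fm K E, InV S.U S.W p T → InV S.U S.W p T' → (∀ a ∈ A, ∀ b ∈ B, T a b = T' a b) →
        EqOn S.U S.W p T T' := by
  obtain ⟨A, hA, hA2, hA3⟩ := LLine_compl (van_anti (U := S.U) hp)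
  obtain ⟨B, hB, hB2, hB3⟩ := LLine_compl (spt_mono (W := S.W) hp)
  have e1 := S.hU p.1
  have e2 := S.hU p.2
  have e3 := S.hW p.1
  have e4 := S.hW p.2
  have hA2' : (finrank K (van S.U p.1) : ℤ) = finrank K (van S.U p.2) + finrank K A := by
    exact_mod_cast hA2
  have hB2' : (finrank K (spt S.W p.2) : ℤ) = finrank K (spt S.W p.1) + finrank K B := by
    exact_mod_cast hB2
  have e5 : ((gs p).card : ℤ) + p.1.card = p.2.card := by
    have h := Finset.card_sdiff_add_card_eq_card hp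
    exact_mod_cast h
  refine ⟨A, B, hA, hB, by linarith, by linarith, ?_⟩
  intro T T' hT hT' hab c hc d hd
  obtain ⟨u, hu, a, ha, rfl⟩ := hA3 c hc
  obtain ⟨w, hw, b, hb, rfl⟩ := hB3 d hd
  have key : ∀ R : Fm K E, InV S.U S.W p R → R (u + a) (w + b) = R a b := by
    intro R hR
    have h1 : R u (w + b) = 0 := by
      refine hR u (van_anti hp hu) _ hd fun x => ?_
      by_cases hx : x ∈ p.2
      · rw [hu.2 x hx, zero_mul]
      · rw [hd.2 x hx, mul_zero]
    have h2 : R a w = 0 := by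
      refine hR a (hA ha) w (spt_mono hp hw) fun x => ?_
      by_cases hx : x ∈ p.1
      · rw [(hA ha).2 x hx, zero_mul]
      · rw [hw.2 x hx, mul_zero]
    rw [R.map_add, LinearMap.add_apply, h1, zero_add, (R a).map_add, h2, zero_add]
  rw [key T hT, key T' hT', hab a ha b hb]

private def LLine_res (A B : Submodule K (E → K)) : Fm K E →ₗ[K] (A →ₗ[K] B →ₗ[K] K) where
  toFun T := T.domRestrict₁₂ A B
  map_add' _ _ := rfl
  map_smul' _ _ := rfl

private def LLine_dg : (E → K) →ₗ[K] Fm K E where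
  toFun l := dg l
  map_add' := dg_add
  map_smul' := dg_smul

private def LLine_ext (G : Finset E) : (G → K) →ₗ[K] (E → K) where
  toFun l x := if h : x ∈ G then l ⟨x, h⟩ else 0
  map_add' l l' := by
    funext x
    rw [Pi.add_apply]
    split_ifs
    · rfl
    · rw [add_zero]
  map_smul' k l := by
    funext x
    rw [Pi.smul_apply, RingHom.id_apply]
    split_ifs
    · rfl
    · rw [smul_zero]

private theorem LLine_ext_zero {G : Finset E} {l : G → K} (h : ∀ x ∈ G, LLine_ext G l x = 0) : l = 0 := by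
  funext x
  have h1 := h x.1 x.2
  have h2 : LLine_ext G l x.1 = l x := by
    show (if h : x.1 ∈ G then l ⟨x.1, h⟩ else 0) = l x
    rw [dif_pos x.2]
  rw [← h2, h1]
  rfl

private theorem LLine_fin (A B : Submodule K (E → K)) :
    finrank K (A →ₗ[K] B →ₗ[K] K) = finrank K A * finrank K B := by
  rw [Module.finrank_linearMap, Module.finrank_linearMap, Module.finrank_self, mul_one]

private theorem LLine_surj {V F : Type} [AddCommGroup V] [Module K V] [AddCommGroup F] [Module K F]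
    [Module.Finite K V] [Module.Finite K F] (f : V →ₗ[K] F) (hf : ∀ v, f v = 0 → v = 0)
    (h : finrank K F ≤ finrank K V) (y : F) : ∃ v, f v = y := by
  have h1 : Function.Injective f := (injective_iff_map_eq_zero f).2 hf
  have h2 := LinearMap.finrank_le_finrank_of_injective h1
  exact (LinearMap.injective_iff_surjective_of_finrank_eq_finrank (le_antisymm h2 h)).1 h1 y

theorem hom_cn (S : TP K E) {p : Itv E} (hp : p.1 ⊆ p.2) (hc : QUB.Cn S.r p)
    (hN : ∃ N, QUB.Ln S.r p N) {l : E → K} (hl : EqOn S.U S.W p (dg l) 0) :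
    ∀ x ∈ gs p, l x = 0 := by
  obtain ⟨N, h4, Y, h1, h2, h3, h5, h6⟩ := hN
  refine hom_zero S hp (LLine_cn S hc) ⟨Y, N, h1, h2, h3.symm, h4, h5, fun i hi j hj hij => ?_⟩ hl
  have h7 := h6 i hi j hj hij
  have h8 : Y ∪ {i, j} = insert i (insert j Y) := by
    ext y
    simp only [Finset.mem_union, Finset.mem_insert, Finset.mem_singleton]
    tauto
  rw [h8]
  exact h7

theorem hom_line (S : TP K E) {p : Itv E} (hp : p.1 ⊆ p.2) (hc : QUB.Cn S.r p) {l w : E → K}
    (hl : EqOn S.U S.W p (dg l) 0) (hw : EqOn S.U S.W p (dg w) 0) (h0 : ∀ x ∈ gs p, w x ≠ 0) :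
    ∃ k : K, ∀ x ∈ gs p, l x = k * w x := by
  classical
  rcases (gs p).eq_empty_or_nonempty with h1 | ⟨x₀, hx₀⟩
  · refine ⟨0, fun x hx => ?_⟩
    rw [h1] at hx
    exact absurd hx (Finset.notMem_empty x)
  · refine ⟨l x₀ / w x₀, ?_⟩
    have h2 : EqOn S.U S.W p (dg (l - (l x₀ / w x₀) • w)) 0 := by
      intro c hc d hd
      have e1 := hl c hc d hd
      have e2 := hw c hc d hd
      rw [dg_sub, dg_smul, LinearMap.sub_apply, LinearMap.sub_apply, LinearMap.smul_apply,
        LinearMap.smul_apply, e1, e2]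
      simp
    have h3 := hom_sep S hp h2
    have h3' : lam S.r p ((gs p).filter fun x => (l - (l x₀ / w x₀) • w) x ≠ 0) ≤ 0 := by
      convert h3 using 2
    have hval : ∀ x, (l - (l x₀ / w x₀) • w) x = l x - l x₀ / w x₀ * w x := fun x => rfl
    rcases LLine_cn S hc _ (Finset.filter_subset _ _) h3' with h4 | h4
    · intro x hx
      by_contra hne
      have h5 : x ∈ (gs p).filter fun x => (l - (l x₀ / w x₀) • w) x ≠ 0 := by
        refine Finset.mem_filter.2 ⟨hx, ?_⟩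
        rw [hval]
        exact fun h => hne (sub_eq_zero.1 h)
      rw [h4] at h5
      exact absurd h5 (Finset.notMem_empty x)
    · exfalso
      have h5 := hx₀
      rw [← h4] at h5
      refine (Finset.mem_filter.1 h5).2 ?_
      rw [hval, div_mul_cancel₀ _ (h0 x₀ hx₀), sub_self]

theorem dim_all (S : TP K E) {p : Itv E} (hp : p.1 ⊆ p.2)
    (hom : ∀ l : E → K, EqOn S.U S.W p (dg l) 0 → ∀ x ∈ gs p, l x = 0)
    (hd : (S.r p.2 - S.r p.1) * ((gs p).card - (S.r p.2 - S.r p.1)) ≤ (gs p).card)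
    {T : Fm K E} (hT : InV S.U S.W p T) : EqD S.U S.W p T 0 := by
  obtain ⟨A, B, hA, hB, h1, h2, h3⟩ := LLine_core S hp
  let Ψ : (gs p → K) →ₗ[K] (A →ₗ[K] B →ₗ[K] K) :=
    (LLine_res A B).comp (LLine_dg.comp (LLine_ext (gs p)))
  have hΨ : ∀ l, Ψ l = LLine_res A B (dg (LLine_ext (gs p) l)) := fun _ => rfl
  have hres : ∀ R R' : Fm K E, LLine_res A B R = LLine_res A B R' →
      ∀ a ∈ A, ∀ b ∈ B, R a b = R' a b := by
    intro R R' h a ha b hb
    exact LinearMap.congr_fun (LinearMap.congr_fun h ⟨a, ha⟩) ⟨b, hb⟩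
  have hinj : ∀ l, Ψ l = 0 → l = 0 := by
    intro l hl
    refine LLine_ext_zero (hom _ (h3 _ _ (dg_inV p _) InV.zero (hres _ _ ?_)))
    rw [← hΨ, hl, map_zero]
  have hdim : finrank K (A →ₗ[K] B →ₗ[K] K) ≤ finrank K (gs p → K) := by
    rw [LLine_fin, Module.finrank_fintype_fun_eq_card, Fintype.card_coe]
    have h4 : ((finrank K A * finrank K B : ℕ) : ℤ) ≤ (gs p).card := by
      rw [Nat.cast_mul, h1, h2]
      exact hd
    exact_mod_cast h4
  obtain ⟨l, hl⟩ := LLine_surj Ψ hinj hdim (LLine_res A B T)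
  refine ⟨LLine_ext (gs p) l, ?_⟩
  rw [zero_add]
  exact h3 _ _ hT (dg_inV p _) (hres _ _ (by rw [← hΨ, hl]))

theorem dim_one (S : TP K E) {p : Itv E} (hp : p.1 ⊆ p.2)
    (hom : ∀ l : E → K, EqOn S.U S.W p (dg l) 0 → ∀ x ∈ gs p, l x = 0)
    (hd : (S.r p.2 - S.r p.1) * ((gs p).card - (S.r p.2 - S.r p.1)) ≤ (gs p).card + 1)
    {T Ts : Fm K E} (hT : InV S.U S.W p T) (hTs : InV S.U S.W p Ts)
    (h0 : ¬ EqD S.U S.W p Ts 0) : ∃ k : K, EqD S.U S.W p T (k • Ts) := by
  obtain ⟨A, B, hA, hB, h1, h2, h3⟩ := LLine_core S hp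
  let Ψ : (gs p → K) →ₗ[K] (A →ₗ[K] B →ₗ[K] K) :=
    (LLine_res A B).comp (LLine_dg.comp (LLine_ext (gs p)))
  have hΨ : ∀ l, Ψ l = LLine_res A B (dg (LLine_ext (gs p) l)) := fun _ => rfl
  have hres : ∀ R R' : Fm K E, LLine_res A B R = LLine_res A B R' →
      ∀ a ∈ A, ∀ b ∈ B, R a b = R' a b := by
    intro R R' h a ha b hb
    exact LinearMap.congr_fun (LinearMap.congr_fun h ⟨a, ha⟩) ⟨b, hb⟩
  have hinj : ∀ l, Ψ l = 0 → l = 0 := by
    intro l hl
    refine LLine_ext_zero (hom _ (h3 _ _ (dg_inV p _) InV.zero (hres _ _ ?_)))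
    rw [← hΨ, hl, map_zero]
  let Φ : ((gs p → K) × K) →ₗ[K] (A →ₗ[K] B →ₗ[K] K) :=
    Ψ.coprod ((LinearMap.id : K →ₗ[K] K).smulRight (LLine_res A B Ts))
  have hΦ : ∀ l k, Φ (l, k) = LLine_res A B (dg (LLine_ext (gs p) l) + k • Ts) := by
    intro l k
    show Ψ l + k • LLine_res A B Ts = _
    rw [map_add, map_smul, hΨ]
  have hinj2 : ∀ v, Φ v = 0 → v = 0 := by
    rintro ⟨l, k⟩ hv
    rw [hΦ] at hv
    have hk : k = 0 := by
      by_contra hk
      refine h0 ⟨LLine_ext (gs p) (-(k⁻¹) • l), ?_⟩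
      rw [zero_add]
      refine h3 _ _ hTs (dg_inV p _) fun a ha b hb => ?_
      have h4 := LinearMap.congr_fun (LinearMap.congr_fun hv ⟨a, ha⟩) ⟨b, hb⟩
      have h5 : dg (LLine_ext (gs p) l) a b + k * Ts a b = 0 := h4
      have h6 : dg (LLine_ext (gs p) (-(k⁻¹) • l)) a b = -(k⁻¹) * dg (LLine_ext (gs p) l) a b := by
        rw [map_smul, dg_smul]
        rfl
      rw [h6]
      field_simp
      linear_combination h5
    subst hk
    have hl : l = 0 := by
      refine hinj l ?_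
      rw [hΨ]
      rw [zero_smul, add_zero] at hv
      exact hv
    rw [hl]
    rfl
  have hdim : finrank K (A →ₗ[K] B →ₗ[K] K) ≤ finrank K ((gs p → K) × K) := by
    rw [LLine_fin, Module.finrank_prod, Module.finrank_fintype_fun_eq_card, Fintype.card_coe,
      Module.finrank_self]
    have h4 : ((finrank K A * finrank K B : ℕ) : ℤ) ≤ (gs p).card + 1 := by
      rw [Nat.cast_mul, h1, h2]
      exact hd
    exact_mod_cast h4
  obtain ⟨⟨l, k⟩, hl⟩ := LLine_surj Φ hinj2 hdim (LLine_res A B T)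
  refine ⟨k, LLine_ext (gs p) l, ?_⟩
  rw [add_comm]
  refine h3 _ _ hT ((dg_inV p _).add (hTs.smul k)) (hres _ _ ?_)
  rw [← hΦ, hl]

end Pool.Agent.QU
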