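import Pool.Agent.QUL.LRank

set_option autoImplicit false

/-!
# Project QU, layer A, module LTwo: forms that vanish on two removals

PLAN. `true true`: `spt W G = spt W (G.erase u) ⊔ spt W (G.erase v)` for `G = p.2`: `≥` is clear; the
intersection is `spt W ((G.erase u).erase v)` (`spt_inter`), the dimensions agree by `S.hW` and `ND`
(`Submodule.eq_of_le_of_finrank_le`). Then `T c d = T c d₁ + T c d₂ = 0`.
`false false`: in the same way with `van` and `S.hU`.
`true false`: `X` from `ND`: `c₀ ∈ van U (p.1 ∪ X)`, `c₀ v = 1` (`S.van_one`), `d₀ ∈ spt W X`,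
`d₀ u = 1` (`S.spt_one`), `d₀ ∈ spt W p.2`; `c₀ x * d₀ x = 0` for all `x`, so `T c₀ d₀ = 0` by `hT`.
For `c`, `d` in the box write `c = (c - c v • c₀) + c v • c₀`, the first summand is in
`van U (insert v p.1)`, and `d = (d - d u • d₀) + d u • d₀`, the first summand is in
`spt W (p.2.erase u)`. `false true`: in the same way.
-/

open Module (finrank)

namespace Pool.Agent.QU

variable {K E : Type} [Field K] [Fintype E] [DecidableEq E]

private theorem ltwo_mixed (S : TP K E) {p : Itv E} {u v : E} {T : Fm K E}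
    (hnd : ∃ X ⊆ p.2, u ∈ X ∧ S.r (X.erase u) = S.r X ∧
      S.r (insert v (p.1 ∪ X)) = S.r (p.1 ∪ X) + 1)
    (hT : InV S.U S.W p T) (h1 : EqOn S.U S.W (p.1, p.2.erase u) T 0)
    (h2 : EqOn S.U S.W (insert v p.1, p.2) T 0) : EqOn S.U S.W p T 0 := by
  obtain ⟨X, hX, huX, hr1, hr2⟩ := hnd
  obtain ⟨c0, hc0, hc0v⟩ := S.van_one hr2
  obtain ⟨d0, hd0, hd0u⟩ := S.spt_one huX hr1
  have hc0' : c0 ∈ van S.U p.1 := van_anti Finset.subset_union_left hc0
  have hd0' : d0 ∈ spt S.W p.2 := spt_mono hX hd0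
  have h0 : T c0 d0 = 0 := by
    refine hT c0 hc0' d0 hd0' fun x => ?_
    by_cases hx : x ∈ X
    · rw [hc0.2 x (Finset.mem_union_right _ hx), zero_mul]
    · rw [hd0.2 x hx, mul_zero]
  intro c hc d hd
  have hc1 : c - c v • c0 ∈ van S.U (insert v p.1) := by
    have h5 : c - c v • c0 ∈ van S.U p.1 :=
      (van S.U p.1).sub_mem hc ((van S.U p.1).smul_mem _ hc0')
    refine ⟨h5.1, fun y hy => ?_⟩
    rcases Finset.mem_insert.1 hy with rfl | hy
    · rw [Pi.sub_apply, Pi.smul_apply, smul_eq_mul, hc0v, mul_one, sub_self]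
    · exact h5.2 y hy
  have hd1 : d - d u • d0 ∈ spt S.W (p.2.erase u) := by
    have h5 : d - d u • d0 ∈ spt S.W p.2 :=
      (spt S.W p.2).sub_mem hd ((spt S.W p.2).smul_mem _ hd0')
    refine ⟨h5.1, fun y hy => ?_⟩
    by_cases hyu : y = u
    · rw [hyu, Pi.sub_apply, Pi.smul_apply, smul_eq_mul, hd0u, mul_one, sub_self]
    · exact h5.2 y fun hy' => hy (Finset.mem_erase.2 ⟨hyu, hy'⟩)
  have e1 : T (c - c v • c0) d = 0 := h2 _ hc1 d hd
  have e2 : T c0 (d - d u • d0) = 0 := h1 c0 hc0' _ hd1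
  rw [map_sub, map_smul, LinearMap.sub_apply, LinearMap.smul_apply, smul_eq_mul] at e1
  rw [map_sub, map_smul, h0, smul_zero, sub_zero] at e2
  rw [e2, mul_zero, sub_zero] at e1
  exact e1

private theorem ltwo_del (S : TP K E) {p : Itv E} {u v : E} (huv : u ≠ v) (hu : u ∈ p.2)
    (hv : v ∈ p.2)
    (hnd : S.r (p.2.erase u) + S.r (p.2.erase v) = S.r p.2 + S.r ((p.2.erase u).erase v)) :
    spt S.W (p.2.erase u) ⊔ spt S.W (p.2.erase v) = spt S.W p.2 := by
  refine Submodule.eq_of_le_of_finrank_eq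
    (sup_le (spt_mono (Finset.erase_subset _ _)) (spt_mono (Finset.erase_subset _ _))) ?_
  have h5 := Submodule.finrank_sup_add_finrank_inf_eq (spt S.W (p.2.erase u))
    (spt S.W (p.2.erase v))
  rw [← spt_inter] at h5
  have h6 : p.2.erase u ∩ p.2.erase v = (p.2.erase u).erase v := by
    ext x
    simp only [Finset.mem_inter, Finset.mem_erase]
    tauto
  rw [h6] at h5
  have a1 := S.hW p.2
  have a2 := S.hW (p.2.erase u)
  have a3 := S.hW (p.2.erase v)
  have a4 := S.hW ((p.2.erase u).erase v)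
  have b2 := Finset.card_erase_add_one hu
  have b3 := Finset.card_erase_add_one hv
  have b4 := Finset.card_erase_add_one (Finset.mem_erase.2 ⟨huv.symm, hv⟩)
  have c2 : ((p.2.erase u).card : ℤ) + 1 = p.2.card := by exact_mod_cast b2
  have c3 : ((p.2.erase v).card : ℤ) + 1 = p.2.card := by exact_mod_cast b3
  have c4 : (((p.2.erase u).erase v).card : ℤ) + 1 = (p.2.erase u).card := by exact_mod_cast b4
  have c5 : (finrank K ↥(spt S.W (p.2.erase u) ⊔ spt S.W (p.2.erase v)) : ℤ) +
      finrank K (spt S.W ((p.2.erase u).erase v)) =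
      finrank K (spt S.W (p.2.erase u)) + finrank K (spt S.W (p.2.erase v)) := by
    exact_mod_cast h5
  have c6 : (finrank K ↥(spt S.W (p.2.erase u) ⊔ spt S.W (p.2.erase v)) : ℤ) =
      finrank K (spt S.W p.2) := by linarith
  exact_mod_cast c6

private theorem ltwo_con (S : TP K E) {p : Itv E} {u v : E}
    (hnd : S.r (insert u p.1) + S.r (insert v p.1) =
      S.r p.1 + S.r (insert u (insert v p.1))) :
    van S.U (insert u p.1) ⊔ van S.U (insert v p.1) = van S.U p.1 := by
  refine Submodule.eq_of_le_of_finrank_eq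
    (sup_le (van_anti (Finset.subset_insert _ _)) (van_anti (Finset.subset_insert _ _))) ?_
  have h5 := Submodule.finrank_sup_add_finrank_inf_eq (van S.U (insert u p.1))
    (van S.U (insert v p.1))
  rw [← van_union] at h5
  have h6 : insert u p.1 ∪ insert v p.1 = insert u (insert v p.1) := by
    ext x
    simp only [Finset.mem_union, Finset.mem_insert]
    tauto
  rw [h6] at h5
  have a1 := S.hU p.1
  have a2 := S.hU (insert u p.1)
  have a3 := S.hU (insert v p.1)
  have a4 := S.hU (insert u (insert v p.1))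
  have c5 : (finrank K ↥(van S.U (insert u p.1) ⊔ van S.U (insert v p.1)) : ℤ) +
      finrank K (van S.U (insert u (insert v p.1))) =
      finrank K (van S.U (insert u p.1)) + finrank K (van S.U (insert v p.1)) := by
    exact_mod_cast h5
  have c6 : (finrank K ↥(van S.U (insert u p.1) ⊔ van S.U (insert v p.1)) : ℤ) =
      finrank K (van S.U p.1) := by linarith
  exact_mod_cast c6

theorem nd_zero (S : TP K E) {p : Itv E} {u v : E} {t s : Bool} (huv : u ≠ v) (hu : u ∈ gs p)
    (hv : v ∈ gs p) (hnd : ND S.r p u v t s) {T : Fm K E} (hT : t ≠ s → InV S.U S.W p T)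
    (h1 : EqOn S.U S.W (rm t u p) T 0) (h2 : EqOn S.U S.W (rm s v p) T 0) :
    EqOn S.U S.W p T 0 := by
  have hu2 : u ∈ p.2 := (Finset.mem_sdiff.1 hu).1
  have hv2 : v ∈ p.2 := (Finset.mem_sdiff.1 hv).1
  cases t <;> cases s
  · intro c hc d hd
    rw [← ltwo_con S hnd] at hc
    obtain ⟨c1, hc1, c2, hc2, rfl⟩ := Submodule.mem_sup.1 hc
    have e1 : T c1 d = 0 := h1 c1 hc1 d hd
    have e2 : T c2 d = 0 := h2 c2 hc2 d hd
    rw [map_add, LinearMap.add_apply, e1, e2, add_zero, LinearMap.zero_apply,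
      LinearMap.zero_apply]
  · exact ltwo_mixed S hnd (hT (by decide)) h2 h1
  · exact ltwo_mixed S hnd (hT (by decide)) h1 h2
  · intro c hc d hd
    rw [← ltwo_del S huv hu2 hv2 hnd] at hd
    obtain ⟨d1, hd1, d2, hd2, rfl⟩ := Submodule.mem_sup.1 hd
    have e1 : T c d1 = 0 := h1 c hc d1 hd1
    have e2 : T c d2 = 0 := h2 c hc d2 hd2
    rw [map_add, e1, e2, add_zero, LinearMap.zero_apply, LinearMap.zero_apply]

end Pool.Agent.QU
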