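import Pool.Agent.QUB.Defs

set_option autoImplicit false

/-!
# Project QU, layer A/B: intervals

An interval `p = (C, G)` of finite sets stands for the minor obtained by contracting `C` and
deleting the complement of `G`. The definitions `gs`, `rm`, `lam` are those of layer B.
-/

namespace Pool.Agent.QU

/-- an interval `(C, G)`: contract `C`, keep `G` -/
abbrev Itv (E : Type) : Type := QUB.Mn E

export QUB (gs rm lam)

end Pool.Agent.QU
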