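import Pool.Agent.QUL.LGlue
import Pool.Agent.QUL.LTwo

set_option autoImplicit false

/-!
# Project QU, layer A, module LAxis: the axis lemma

`rm true e (rm false e p)` is the box `P_e` (`c e = 0`, `d e = 0`). A form on the deletion of `e` and a form
on the contraction of `e` which differ on `P_e` by diagonal forms on two removals are glued to a form on `p`.
-/

namespace Pool.Agent.QU

variable {K E : Type} [Field K] [Fintype E] [DecidableEq E]

/-- the construction: the diagonal form `dg m` and the glued form `T` -/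
private theorem LAxis_aux (S : TP K E) {p : Itv E} {e u v : E} {t s : Bool} (heu : e ≠ u)
    (hev : e ≠ v) (huv : u ≠ v) (hu : u ∈ gs p) (hv : v ∈ gs p) {Td Tc : Fm K E}
    (hTd : InV S.U S.W (rm true e p) Td) (hTc : InV S.U S.W (rm false e p) Tc) {a b : E → K}
    (hua : EqOn S.U S.W (rm t u (rm true e (rm false e p))) (Td - Tc) (dg a))
    (hvb : EqOn S.U S.W (rm s v (rm true e (rm false e p))) (Td - Tc) (dg b))
    (hab : ∀ x ∈ gs p, x ≠ e → x ≠ u → x ≠ v → a x = b x)
    (hnd : ND S.r (rm true e (rm false e p)) u v t s) :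
    ∃ (T : Fm K E) (m : E → K), (∀ x, x ≠ u → m x = a x) ∧
      (∀ x ∈ gs p, x ≠ e → x ≠ v → m x = b x) ∧
      EqOn S.U S.W (rm true e p) T (Td - dg m) ∧ EqOn S.U S.W (rm false e p) T Tc := by
  let m : E → K := Function.update (Function.update a u (b u)) v (a v)
  have hm1 : ∀ x, x ≠ u → m x = a x := by
    intro x hx
    by_cases hxv : x = v
    · rw [hxv]
      exact Function.update_self _ _ _
    · change Function.update (Function.update a u (b u)) v (a v) x = a x
      rw [Function.update_of_ne hxv, Function.update_of_ne hx]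
  have hm2 : ∀ x ∈ gs p, x ≠ e → x ≠ v → m x = b x := by
    intro x hx hxe hxv
    by_cases hxu : x = u
    · rw [hxu]
      change Function.update (Function.update a u (b u)) v (a v) u = b u
      rw [Function.update_of_ne huv, Function.update_self]
    · rw [hm1 x hxu]
      exact hab x hx hxe hxu hxv
  have gsP : ∀ x, x ∈ gs (rm true e (rm false e p)) ↔ x ≠ e ∧ x ∈ gs p := by
    intro x
    rw [gs_rm, gs_rm, Finset.mem_erase, Finset.mem_erase]
    tauto
  have huP : u ∈ gs (rm true e (rm false e p)) := (gsP u).2 ⟨heu.symm, hu⟩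
  have hvP : v ∈ gs (rm true e (rm false e p)) := (gsP v).2 ⟨hev.symm, hv⟩
  have h1 : EqOn S.U S.W (rm t u (rm true e (rm false e p))) (Td - Tc - dg m) 0 := by
    intro c hc d hd
    have e1 := hua c hc d hd
    have e2 : dg m c d = dg a c d := dg_congr (U := S.U) (W := S.W)
      (p := rm t u (rm true e (rm false e p))) (fun x hx => by
        rw [gs_rm, Finset.mem_erase] at hx
        exact hm1 x hx.1) c hc d hd
    rw [LinearMap.sub_apply, LinearMap.sub_apply, e1, e2, sub_self]
    rfl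
  have h2 : EqOn S.U S.W (rm s v (rm true e (rm false e p))) (Td - Tc - dg m) 0 := by
    intro c hc d hd
    have e1 := hvb c hc d hd
    have e2 : dg m c d = dg b c d := dg_congr (U := S.U) (W := S.W)
      (p := rm s v (rm true e (rm false e p))) (fun x hx => by
        rw [gs_rm, Finset.mem_erase] at hx
        have h := (gsP x).1 hx.2
        exact hm2 x h.2 h.1 hx.1) c hc d hd
    rw [LinearMap.sub_apply, LinearMap.sub_apply, e1, e2, sub_self]
    rfl
  have hin : InV S.U S.W (rm true e (rm false e p)) (Td - Tc - dg m) :=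
    ((hTd.mono ((rm_sub false e p).rm true e)).sub (hTc.mono (rm_sub true e _))).sub (dg_inV _ m)
  have h3 := nd_zero S huv huP hvP hnd (fun _ => hin) h1 h2
  have h4 : EqOn S.U S.W (rm true e (rm false e p)) (Td - dg m) Tc := by
    intro c hc d hd
    have e1 := h3 c hc d hd
    rw [LinearMap.sub_apply, LinearMap.sub_apply, LinearMap.sub_apply, LinearMap.sub_apply,
      LinearMap.zero_apply, LinearMap.zero_apply] at e1
    rw [LinearMap.sub_apply, LinearMap.sub_apply]
    linear_combination e1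
  obtain ⟨T, hT1, hT2⟩ := glue_rm true false e e p (Td - dg m) Tc h4
  exact ⟨T, m, hm1, hm2, hT1, hT2⟩

private theorem LAxis_fin (S : TP K E) {p : Itv E} {e : E} {Td Tc T : Fm K E} {m : E → K}
    (hTd : InV S.U S.W (rm true e p) Td) (hTc : InV S.U S.W (rm false e p) Tc)
    (h1 : EqOn S.U S.W (rm true e p) T (Td - dg m)) (h2 : EqOn S.U S.W (rm false e p) T Tc) :
    InV S.U S.W p T ∧ EqD S.U S.W (rm true e p) T Td ∧ EqD S.U S.W (rm false e p) T Tc := by
  refine ⟨inV_of_rm ((hTd.sub (dg_inV _ m)).congr h1) (hTc.congr h2), ⟨-m, ?_⟩, h2.eqD⟩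
  intro c hc d hd
  have h3 := h1 c hc d hd
  rw [LinearMap.sub_apply, LinearMap.sub_apply] at h3
  rw [dg_neg, LinearMap.add_apply, LinearMap.add_apply, LinearMap.neg_apply, LinearMap.neg_apply,
    h3, sub_eq_add_neg]

theorem axis_core (S : TP K E) {p : Itv E} {e u v : E} {t s : Bool} (heu : e ≠ u) (hev : e ≠ v)
    (huv : u ≠ v) (hu : u ∈ gs p) (hv : v ∈ gs p) {Td Tc : Fm K E}
    (hTd : InV S.U S.W (rm true e p) Td) (hTc : InV S.U S.W (rm false e p) Tc) {a b : E → K}
    (hua : EqOn S.U S.W (rm t u (rm true e (rm false e p))) (Td - Tc) (dg a))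
    (hvb : EqOn S.U S.W (rm s v (rm true e (rm false e p))) (Td - Tc) (dg b))
    (hab : ∀ x ∈ gs p, x ≠ e → x ≠ u → x ≠ v → a x = b x)
    (hnd : ND S.r (rm true e (rm false e p)) u v t s) :
    ∃ T : Fm K E, InV S.U S.W p T ∧ EqD S.U S.W (rm true e p) T Td ∧
      EqD S.U S.W (rm false e p) T Tc := by
  obtain ⟨T, m, -, -, h1, h2⟩ := LAxis_aux S heu hev huv hu hv hTd hTc hua hvb hab hnd
  exact ⟨T, LAxis_fin S hTd hTc h1 h2⟩

theorem axis (S : TP K E) {p : Itv E} {e u v : E} {t s : Bool} (heu : e ≠ u) (hev : e ≠ v)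
    (huv : u ≠ v) (hu : u ∈ gs p) (hv : v ∈ gs p) {Td Tc Tu Tv : Fm K E}
    (hTd : InV S.U S.W (rm true e p) Td) (hTc : InV S.U S.W (rm false e p) Tc)
    (h1 : EqD S.U S.W (rm true e (rm t u p)) Td Tu)
    (h2 : EqD S.U S.W (rm false e (rm t u p)) Tc Tu)
    (h3 : EqD S.U S.W (rm true e (rm s v p)) Td Tv)
    (h4 : EqD S.U S.W (rm false e (rm s v p)) Tc Tv)
    (h5 : EqD S.U S.W (rm t u (rm s v p)) Tu Tv)
    (hd : ∀ l : E → K, EqOn S.U S.W (rm true e (rm t u (rm s v p))) (dg l) 0 →
      ∀ x ∈ gs (rm true e (rm t u (rm s v p))), l x = 0)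
    (hc : ∀ l : E → K, EqOn S.U S.W (rm false e (rm t u (rm s v p))) (dg l) 0 →
      ∀ x ∈ gs (rm false e (rm t u (rm s v p))), l x = 0)
    (hnd : ND S.r (rm true e (rm false e p)) u v t s) :
    ∃ T : Fm K E, InV S.U S.W p T ∧ EqD S.U S.W (rm true e p) T Td ∧
      EqD S.U S.W (rm false e p) T Tc ∧ EqD S.U S.W (rm t u p) T Tu ∧
      EqD S.U S.W (rm s v p) T Tv := by
  obtain ⟨a₁, ha₁⟩ := h1
  obtain ⟨a₂, ha₂⟩ := h2
  obtain ⟨b₁, hb₁⟩ := h3
  obtain ⟨b₂, hb₂⟩ := h4
  obtain ⟨w, hw⟩ := h5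
  have gsq : ∀ (z : Bool) (x : E), x ∈ gs (rm z e (rm t u (rm s v p))) ↔
      x ≠ e ∧ x ≠ u ∧ x ≠ v ∧ x ∈ gs p := by
    intro z x
    rw [gs_rm, gs_rm, gs_rm, Finset.mem_erase, Finset.mem_erase, Finset.mem_erase]
  have hd' : ∀ x ∈ gs p, x ≠ e → x ≠ u → x ≠ v → (a₁ + w - b₁) x = 0 := by
    intro x hx hxe hxu hxv
    refine hd (a₁ + w - b₁) ?_ x ((gsq true x).2 ⟨hxe, hxu, hxv, hx⟩)
    intro c hc d hd
    have f1 := ha₁.mono (((rm_sub s v p).rm t u).rm true e) c hc d hd
    have f2 := hb₁.mono ((rm_sub t u (rm s v p)).rm true e) c hc d hd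
    have f3 := hw.mono (rm_sub true e _) c hc d hd
    rw [LinearMap.add_apply, LinearMap.add_apply] at f1 f2 f3
    rw [dg_sub, dg_add, LinearMap.sub_apply, LinearMap.sub_apply, LinearMap.add_apply,
      LinearMap.add_apply, LinearMap.zero_apply, LinearMap.zero_apply]
    linear_combination f2 - f1 - f3
  have hc' : ∀ x ∈ gs p, x ≠ e → x ≠ u → x ≠ v → (a₂ + w - b₂) x = 0 := by
    intro x hx hxe hxu hxv
    refine hc (a₂ + w - b₂) ?_ x ((gsq false x).2 ⟨hxe, hxu, hxv, hx⟩)
    intro c hc d hd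
    have f1 := ha₂.mono (((rm_sub s v p).rm t u).rm false e) c hc d hd
    have f2 := hb₂.mono ((rm_sub t u (rm s v p)).rm false e) c hc d hd
    have f3 := hw.mono (rm_sub false e _) c hc d hd
    rw [LinearMap.add_apply, LinearMap.add_apply] at f1 f2 f3
    rw [dg_sub, dg_add, LinearMap.sub_apply, LinearMap.sub_apply, LinearMap.add_apply,
      LinearMap.add_apply, LinearMap.zero_apply, LinearMap.zero_apply]
    linear_combination f2 - f1 - f3
  have hab : ∀ x ∈ gs p, x ≠ e → x ≠ u → x ≠ v → (a₁ - a₂) x = (b₁ - b₂) x := by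
    intro x hx hxe hxu hxv
    have f1 := hd' x hx hxe hxu hxv
    have f2 := hc' x hx hxe hxu hxv
    rw [Pi.sub_apply, Pi.add_apply] at f1 f2
    rw [Pi.sub_apply, Pi.sub_apply]
    linear_combination f1 - f2
  have hua : EqOn S.U S.W (rm t u (rm true e (rm false e p))) (Td - Tc) (dg (a₁ - a₂)) := by
    have e1 : rm t u (rm true e (rm false e p)) = rm true e (rm false e (rm t u p)) := by
      rw [rm_comm t true u e, rm_comm t false u e]
    rw [e1]
    intro c hc d hd
    have f1 := ha₁.mono ((rm_sub false e (rm t u p)).rm true e) c hc d hd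
    have f2 := ha₂.mono (rm_sub true e _) c hc d hd
    rw [LinearMap.add_apply, LinearMap.add_apply] at f1 f2
    rw [dg_sub, LinearMap.sub_apply, LinearMap.sub_apply, LinearMap.sub_apply,
      LinearMap.sub_apply]
    linear_combination f1 - f2
  have hvb : EqOn S.U S.W (rm s v (rm true e (rm false e p))) (Td - Tc) (dg (b₁ - b₂)) := by
    have e1 : rm s v (rm true e (rm false e p)) = rm true e (rm false e (rm s v p)) := by
      rw [rm_comm s true v e, rm_comm s false v e]
    rw [e1]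
    intro c hc d hd
    have f1 := hb₁.mono ((rm_sub false e (rm s v p)).rm true e) c hc d hd
    have f2 := hb₂.mono (rm_sub true e _) c hc d hd
    rw [LinearMap.add_apply, LinearMap.add_apply] at f1 f2
    rw [dg_sub, LinearMap.sub_apply, LinearMap.sub_apply, LinearMap.sub_apply,
      LinearMap.sub_apply]
    linear_combination f1 - f2
  obtain ⟨T, m, hm1, hm2, hT1, hT2⟩ := LAxis_aux S heu hev huv hu hv hTd hTc hua hvb hab hnd
  obtain ⟨g1, g2, g3⟩ := LAxis_fin S hTd hTc hT1 hT2
  refine ⟨T, g1, g2, g3, ?_, ?_⟩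
  · have k1 : EqOn S.U S.W (rm true e (rm t u p)) T (Tu + dg a₂) := by
      intro c hc d hd
      have f1 := ha₁ c hc d hd
      have f2 := hT1.mono ((rm_sub t u p).rm true e) c hc d hd
      have f3 : dg (a₁ - m) c d = dg a₂ c d := dg_congr (U := S.U) (W := S.W)
        (p := rm true e (rm t u p)) (fun x hx => by
          rw [gs_rm, gs_rm, Finset.mem_erase, Finset.mem_erase] at hx
          rw [Pi.sub_apply, hm1 x hx.2.1, Pi.sub_apply, sub_sub_cancel]) c hc d hd
      rw [dg_sub, LinearMap.sub_apply, LinearMap.sub_apply] at f3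
      rw [LinearMap.add_apply, LinearMap.add_apply] at f1
      rw [LinearMap.sub_apply, LinearMap.sub_apply] at f2
      rw [LinearMap.add_apply, LinearMap.add_apply]
      linear_combination f2 + f1 + f3
    have k2 : EqOn S.U S.W (rm false e (rm t u p)) T (Tu + dg a₂) :=
      (hT2.mono ((rm_sub t u p).rm false e)).trans ha₂
    obtain ⟨k, hk⟩ := eqOn_of_rm k1 k2
    refine ⟨a₂ + Pi.single e k, ?_⟩
    rw [dg_add, ← add_assoc]
    exact hk
  · have k1 : EqOn S.U S.W (rm true e (rm s v p)) T (Tv + dg b₂) := by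
      intro c hc d hd
      have f1 := hb₁ c hc d hd
      have f2 := hT1.mono ((rm_sub s v p).rm true e) c hc d hd
      have f3 : dg (b₁ - m) c d = dg b₂ c d := dg_congr (U := S.U) (W := S.W)
        (p := rm true e (rm s v p)) (fun x hx => by
          rw [gs_rm, gs_rm, Finset.mem_erase, Finset.mem_erase] at hx
          rw [Pi.sub_apply, hm2 x hx.2.2 hx.1 hx.2.1, Pi.sub_apply, sub_sub_cancel]) c hc d hd
      rw [dg_sub, LinearMap.sub_apply, LinearMap.sub_apply] at f3
      rw [LinearMap.add_apply, LinearMap.add_apply] at f1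
      rw [LinearMap.sub_apply, LinearMap.sub_apply] at f2
      rw [LinearMap.add_apply, LinearMap.add_apply]
      linear_combination f2 + f1 + f3
    have k2 : EqOn S.U S.W (rm false e (rm s v p)) T (Tv + dg b₂) :=
      (hT2.mono ((rm_sub s v p).rm false e)).trans hb₂
    obtain ⟨k, hk⟩ := eqOn_of_rm k1 k2
    refine ⟨b₂ + Pi.single e k, ?_⟩
    rw [dg_add, ← add_assoc]
    exact hk

end Pool.Agent.QU
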