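import Pool.Agent.QUL.LDec
import Pool.Agent.QUL.LUniq
import Pool.Agent.QUL.LBinR
import Pool.Agent.QUL.LLine

set_option autoImplicit false

/-!
# Project QU, layer A, module LBin: boxes without four point lines

PLAN. `bin_main` by induction on `(gs p).card`, for all `p` (a minor of a box without four point line has none: `QUB.Ln` of a
smaller box is `QUB.Ln` of the bigger one, unfold).
(0) `gs p = ∅`: all pairs are disjoint (`p.2 ⊆ p.1`), `w = 1`.
(1) `p` not connected: `A ⊆ gs p`, `A` and `B = gs p \ A` nonempty, `lam S.r p A ≤ 0`. Then `van U p.1 = van U (p.1 ∪ A) ⊔ van U (p.2 \ A)`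
and `spt W p.2 = spt W (p.1 ∪ A) ⊔ spt W (p.2 \ A)` (dimensions), and a form in `InV` with `T = dg l` on `(p.1, p.1 ∪ A)` and
`T = dg l'` on `(p.1, p.2 \ A)` is `dg m` on `p`, `m = l` on `A`, `m = l'` on `B` (`sum_decomp`). Apply this to `T`, and to `0` with the
two functions `w` of the two smaller boxes.
(2) `p` connected and `A ⊆ gs p` with `2 ≤ A.card`, `2 ≤ B.card`, `lam S.r p A ≤ 1` (so `= 1`). Halves `(X, b)`, `(X', a)`
(`half_exists`), they have fewer elements (`half_sub`: ground sets `insert b A`, `insert a B`). By induction `wA`, `wB`, and `T` is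
diagonal on both. By `kink_diag` `kf f g = dg` of a function supported on `B` with nonzero values there, and (for `gs p \ A`, `IsKink.symm`,
`lam_compl`) `kf f g = dg` of a function supported on `A` with nonzero values there; the difference of these functions is `w`. By
`sep_decomp` `T = k • kf f g + dg m`, so it is diagonal.
(3) `p` connected, `Th3 S.r p`, `(gs p).card ≥ 3`: `bin_pair` gives `u`, `v`, `t`, `s`. Let `R = rm t u (rm s v p)`. By induction `wu` for
`rm t u p`, `wv` for `rm s v p`; on `R` both give zero, by `hom_line` `wv = k * wu` on `gs R` (`k ≠ 0` because `gs R` is nonempty and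
`wv` is nonzero there); `hom_glue` with `a = wu`, `b = k⁻¹ • wv` gives `w`: `w = wu` off `u` (in particular at `v`), `w u = k⁻¹ * wv u`. `T`:
`uniq_bin` with `w = wu` and `hom_line`.
(4) `(gs p).card = 2`, connected, elements `u`, `v`: on `rm true u p` all `d` vanish at `v`, and on `rm false u p` all `c` vanish at
`v` (`S.spt_eq_zero`, `S.van_eq_zero`, `lam S.r p {u} ≥ 1`), so all forms in `InV` vanish on both boxes (the pairs are disjoint), and by
`eqOn_of_rm` every form in `InV` is `dg (Pi.single u k)` on `p`. For `dg (Pi.single v 1)` this gives `k` with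
`dg (Pi.single v 1 - Pi.single u k) = 0`; `k ≠ 0` because there are `c`, `d` with `c v * d v ≠ 0` (`S.van_one`, `S.spt_one`).
(5) `(gs p).card = 1`, element `u`: `S.r p.2 = S.r p.1` or `S.r p.1 + 1`: all pairs are disjoint, `w = 1`.
-/

open Module (finrank)

namespace Pool.Agent.QU

variable {K E : Type} [Field K] [Fintype E] [DecidableEq E]

omit [Fintype E] in
private theorem lbin_set {p : Itv E} (hp : p.1 ⊆ p.2) {A : Finset E} (hA : A ⊆ gs p) :
    (p.1 ∪ A) ∪ (p.2 \ A) = p.2 ∧ (p.1 ∪ A) ∩ (p.2 \ A) = p.1 := by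
  have h2 : ∀ y ∈ A, y ∈ p.2 ∧ y ∉ p.1 := fun y h => Finset.mem_sdiff.1 (hA h)
  constructor
  · ext y
    have h1 : y ∈ p.1 → y ∈ p.2 := fun h => hp h
    have h3 := h2 y
    simp only [Finset.mem_union, Finset.mem_sdiff]
    tauto
  · ext y
    have h1 : y ∈ p.1 → y ∈ p.2 := fun h => hp h
    have h3 := h2 y
    simp only [Finset.mem_union, Finset.mem_sdiff, Finset.mem_inter]
    tauto

private theorem lbin_van (S : TP K E) (P Q : Finset E) :
    (finrank K ↥(van S.U P ⊔ van S.U Q) : ℤ) = S.r Finset.univ - (S.r P + S.r Q - S.r (P ∪ Q)) := by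
  have h1 := Submodule.finrank_sup_add_finrank_inf_eq (van S.U P) (van S.U Q)
  rw [← van_union] at h1
  have h2 := S.hU P
  have h3 := S.hU Q
  have h4 := S.hU (P ∪ Q)
  omega

private theorem lbin_spt (S : TP K E) (P Q : Finset E) :
    (finrank K ↥(spt S.W P ⊔ spt S.W Q) : ℤ) =
      (P ∪ Q).card - (S.r P + S.r Q - S.r (P ∩ Q)) := by
  have h1 := Submodule.finrank_sup_add_finrank_inf_eq (spt S.W P) (spt S.W Q)
  rw [← spt_inter] at h1
  have h2 := S.hW P
  have h3 := S.hW Q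
  have h4 := S.hW (P ∩ Q)
  have h5 := Finset.card_union_add_card_inter P Q
  omega

private theorem lbin_sup (S : TP K E) {p : Itv E} (hp : p.1 ⊆ p.2) {A : Finset E} (hA : A ⊆ gs p)
    (hl : lam S.r p A ≤ 0) :
    van S.U (p.1 ∪ A) ⊔ van S.U (p.2 \ A) = van S.U p.1 ∧
      spt S.W (p.1 ∪ A) ⊔ spt S.W (p.2 \ A) = spt S.W p.2 := by
  obtain ⟨e1, e2⟩ := lbin_set hp hA
  have hl' : S.r (p.1 ∪ A) + S.r (p.2 \ A) - S.r p.2 - S.r p.1 ≤ 0 := hl
  have hs := S.r_submod (p.1 ∪ A) (p.2 \ A)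
  rw [e1, e2] at hs
  constructor
  · refine Submodule.eq_of_le_of_finrank_eq (sup_le (van_anti Finset.subset_union_left)
      (van_anti ?_)) ?_
    · intro y hy
      rw [← e2] at hy
      exact (Finset.mem_inter.1 hy).2
    · have h1 := lbin_van S (p.1 ∪ A) (p.2 \ A)
      rw [e1] at h1
      have h2 := S.hU p.1
      omega
  · refine Submodule.eq_of_le_of_finrank_eq (sup_le (spt_mono ?_)
      (spt_mono Finset.sdiff_subset)) ?_
    · intro y hy
      rw [← e1]
      exact Finset.mem_union_left _ hy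
    · have h1 := lbin_spt S (p.1 ∪ A) (p.2 \ A)
      rw [e1, e2] at h1
      have h2 := S.hW p.2
      omega

theorem sum_decomp (S : TP K E) {p : Itv E} (hp : p.1 ⊆ p.2) {A : Finset E} (hA : A ⊆ gs p)
    (hl : lam S.r p A ≤ 0) {T : Fm K E} (hT : InV S.U S.W p T) {l l' m : E → K}
    (h1 : EqOn S.U S.W (p.1, p.1 ∪ A) T (dg l)) (h2 : EqOn S.U S.W (p.1, p.2 \ A) T (dg l'))
    (hm : ∀ x ∈ A, m x = l x) (hm' : ∀ x ∈ gs p \ A, m x = l' x) :
    EqOn S.U S.W p T (dg m) := by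
  obtain ⟨e1, e2⟩ := lbin_sup S hp hA hl
  have hA2 : ∀ y ∈ A, y ∈ p.2 ∧ y ∉ p.1 := fun y hy => Finset.mem_sdiff.1 (hA hy)
  have hCA : p.1 ⊆ p.2 \ A := fun y hy => Finset.mem_sdiff.2 ⟨hp hy, fun h => (hA2 y h).2 hy⟩
  have hAG : p.1 ∪ A ⊆ p.2 := Finset.union_subset hp fun y hy => (hA2 y hy).1
  intro c hc d hd
  rw [← e1] at hc
  rw [← e2] at hd
  obtain ⟨c1, hc1, c2, hc2, rfl⟩ := Submodule.mem_sup.1 hc
  obtain ⟨d1, hd1, d2, hd2, rfl⟩ := Submodule.mem_sup.1 hd
  have q11 : ∀ x, c1 x * d1 x = 0 := by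
    intro x
    by_cases hx : x ∈ p.1 ∪ A
    · rw [hc1.2 x hx, zero_mul]
    · rw [hd1.2 x hx, mul_zero]
  have q22 : ∀ x, c2 x * d2 x = 0 := by
    intro x
    by_cases hx : x ∈ p.2 \ A
    · rw [hc2.2 x hx, zero_mul]
    · rw [hd2.2 x hx, mul_zero]
  have v1 : c1 ∈ van S.U p.1 := van_anti Finset.subset_union_left hc1
  have v2 : c2 ∈ van S.U p.1 := van_anti hCA hc2
  have w1 : d1 ∈ spt S.W p.2 := spt_mono hAG hd1
  have w2 : d2 ∈ spt S.W p.2 := spt_mono Finset.sdiff_subset hd2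
  have t11 : T c1 d1 = dg m c1 d1 := by
    rw [hT c1 v1 d1 w1 q11, dg_inV p m c1 v1 d1 w1 q11]
  have t22 : T c2 d2 = dg m c2 d2 := by
    rw [hT c2 v2 d2 w2 q22, dg_inV p m c2 v2 d2 w2 q22]
  have t21 : T c2 d1 = dg m c2 d1 := by
    rw [h1 c2 v2 d1 hd1, dg_apply, dg_apply]
    refine Finset.sum_congr rfl fun x _ => ?_
    by_cases hx : x ∈ A
    · rw [hm x hx]
    · by_cases hx1 : x ∈ p.1
      · rw [v2.2 x hx1, zero_mul, mul_zero, mul_zero]
      · rw [hd1.2 x fun h => (Finset.mem_union.1 h).elim hx1 hx, mul_zero, mul_zero, mul_zero]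
  have t12 : T c1 d2 = dg m c1 d2 := by
    rw [h2 c1 v1 d2 hd2, dg_apply, dg_apply]
    refine Finset.sum_congr rfl fun x _ => ?_
    by_cases hx1 : x ∈ p.1
    · rw [v1.2 x hx1, zero_mul, mul_zero, mul_zero]
    · by_cases hx : x ∈ p.2 \ A
      · obtain ⟨hx2, hx3⟩ := Finset.mem_sdiff.1 hx
        rw [hm' x (Finset.mem_sdiff.2 ⟨Finset.mem_sdiff.2 ⟨hx2, hx1⟩, hx3⟩)]
      · rw [hd2.2 x hx, mul_zero, mul_zero, mul_zero]
  have ex : ∀ R : Fm K E, R (c1 + c2) (d1 + d2) = R c1 d1 + R c1 d2 + (R c2 d1 + R c2 d2) := by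
    intro R
    rw [map_add R c1 c2, LinearMap.add_apply, map_add, map_add]
  rw [ex T, ex (dg m), t11, t12, t21, t22]

/-- the conclusion for one box -/
private def LBin_P (S : TP K E) (p : Itv E) : Prop :=
  (∃ w : E → K, (∀ x ∈ gs p, w x ≠ 0) ∧ EqOn S.U S.W p (dg w) 0) ∧
    ∀ T : Fm K E, InV S.U S.W p T → EqD S.U S.W p T 0

omit [Fintype E] in
private theorem lbin_ln {r : Finset E → ℤ} {p q : Itv E} (hq : Sub q p)
    (h : ∀ N, ¬ QUB.Ln r p N) (N : Finset E) : ¬ QUB.Ln r q N := by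
  rintro ⟨h1, Y, h2, h3, h4, h5, h6⟩
  exact h N ⟨h1, Y, hq.1.trans h2, h3.trans hq.2, h4, h5, h6⟩

private theorem lbin_disj (S : TP K E) {p : Itv E}
    (h : ∀ c ∈ van S.U p.1, ∀ d ∈ spt S.W p.2, ∀ x, c x * d x = 0) : LBin_P S p := by
  refine ⟨⟨1, fun x _ => one_ne_zero, ?_⟩, ?_⟩
  · intro c hc d hd
    rw [dg_inV p 1 c hc d hd (h c hc d hd), LinearMap.zero_apply, LinearMap.zero_apply]
  · intro T hT
    refine EqOn.eqD ?_
    intro c hc d hd
    rw [hT c hc d hd (h c hc d hd), LinearMap.zero_apply, LinearMap.zero_apply]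

private theorem lbin_zero (S : TP K E) {p : Itv E} (h : gs p = ∅) : LBin_P S p := by
  refine lbin_disj S fun c hc d hd x => ?_
  by_cases h1 : x ∈ p.1
  · rw [hc.2 x h1, zero_mul]
  · by_cases h2 : x ∈ p.2
    · have h3 : x ∈ gs p := Finset.mem_sdiff.2 ⟨h2, h1⟩
      rw [h] at h3
      exact absurd h3 (Finset.notMem_empty x)
    · rw [hd.2 x h2, mul_zero]

omit [Fintype E] in
/-- pairs of a box with one free element `u` at which `c` or `d` vanishes -/
private theorem lbin_one_aux {U W : Submodule K (E → K)} {p : Itv E} {u : E}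
    (h : ∀ x ∈ gs p, x = u) {c d : E → K} (hc : c ∈ van U p.1) (hd : d ∈ spt W p.2)
    (h0 : c u * d u = 0) (x : E) : c x * d x = 0 := by
  by_cases h1 : x ∈ p.1
  · rw [hc.2 x h1, zero_mul]
  · by_cases h2 : x ∈ p.2
    · rw [h x (Finset.mem_sdiff.2 ⟨h2, h1⟩)]
      exact h0
    · rw [hd.2 x h2, mul_zero]

private theorem lbin_one (S : TP K E) {p : Itv E} (hp : p.1 ⊆ p.2) (h : (gs p).card = 1) :
    LBin_P S p := by
  obtain ⟨u, hu⟩ := Finset.card_eq_one.1 h
  have hu' : u ∈ gs p := by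
    rw [hu]
    exact Finset.mem_singleton_self u
  obtain ⟨hu1, hu2⟩ := Finset.mem_sdiff.1 hu'
  have h1 : ∀ x ∈ gs p, x = u := by
    intro x hx
    rw [hu] at hx
    exact Finset.mem_singleton.1 hx
  have hG : insert u p.1 = p.2 := by
    ext x
    rw [Finset.mem_insert]
    constructor
    · rintro (rfl | hx)
      · exact hu1
      · exact hp hx
    · intro hx
      by_cases h2 : x ∈ p.1
      · exact Or.inr h2
      · exact Or.inl (h1 x (Finset.mem_sdiff.2 ⟨hx, h2⟩))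
  have hG' : p.2.erase u = p.1 := by
    rw [← hG, Finset.erase_insert hu2]
  have h3 := S.r_insert_le u p.1
  have h4 := S.r_mono (Finset.subset_insert u p.1)
  refine lbin_disj S fun c hc d hd x => lbin_one_aux h1 hc hd ?_ x
  by_cases h5 : S.r (insert u p.1) = S.r p.1
  · rw [S.van_eq_zero h5 c hc, zero_mul]
  · have h6 : S.r (p.2.erase u) = S.r p.2 - 1 := by
      rw [hG', ← hG]
      omega
    rw [S.spt_eq_zero hu1 h6 d hd, mul_zero]

private theorem lbin_two (S : TP K E) {p : Itv E} (hp : p.1 ⊆ p.2) (hc : QUB.Cn S.r p)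
    (h : (gs p).card = 2) : LBin_P S p := by
  obtain ⟨u, v, huv, hg⟩ := Finset.card_eq_two.1 h
  have hu : u ∈ gs p := by
    rw [hg]
    exact Finset.mem_insert_self _ _
  have hv : v ∈ gs p := by
    rw [hg]
    exact Finset.mem_insert_of_mem (Finset.mem_singleton_self _)
  obtain ⟨hu1, hu2⟩ := Finset.mem_sdiff.1 hu
  obtain ⟨hv1, hv2⟩ := Finset.mem_sdiff.1 hv
  have hx : ∀ x ∈ p.2, x ∉ p.1 → x = u ∨ x = v := by
    intro x h1 h2
    have h3 : x ∈ gs p := Finset.mem_sdiff.2 ⟨h1, h2⟩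
    rw [hg, Finset.mem_insert, Finset.mem_singleton] at h3
    exact h3
  have e1 : p.2.erase u = insert v p.1 := by
    ext x
    rw [Finset.mem_erase, Finset.mem_insert]
    constructor
    · rintro ⟨h1, h2⟩
      by_cases h3 : x ∈ p.1
      · exact Or.inr h3
      · exact Or.inl ((hx x h2 h3).resolve_left h1)
    · rintro (rfl | h1)
      · exact ⟨huv.symm, hv1⟩
      · exact ⟨fun h2 => hu2 (h2 ▸ h1), hp h1⟩
  have e2 : p.2.erase v = insert u p.1 := by
    ext x
    rw [Finset.mem_erase, Finset.mem_insert]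
    constructor
    · rintro ⟨h1, h2⟩
      by_cases h3 : x ∈ p.1
      · exact Or.inr h3
      · exact Or.inl ((hx x h2 h3).resolve_right h1)
    · rintro (rfl | h1)
      · exact ⟨huv, hu1⟩
      · exact ⟨fun h2 => hv2 (h2 ▸ h1), hp h1⟩
  have e3 : insert v (insert u p.1) = p.2 := by
    rw [← e2, Finset.insert_erase hv1]
  have h1 := hc {u} (Finset.singleton_subset_iff.2 hu) (Finset.singleton_nonempty u)
    ⟨v, Finset.mem_sdiff.2 ⟨hv, fun h2 => huv (Finset.mem_singleton.1 h2).symm⟩⟩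
  have h2 : 1 ≤ S.r (p.1 ∪ {u}) + S.r (p.2 \ {u}) - S.r p.2 - S.r p.1 := h1
  rw [Finset.union_comm, ← Finset.insert_eq, Finset.sdiff_singleton_eq_erase, e1] at h2
  have h3 := S.r_insert_le u p.1
  have h4 := S.r_insert_le v p.1
  have h5 := S.r_mono (show insert u p.1 ⊆ p.2 from e2 ▸ Finset.erase_subset _ _)
  have h6 := S.r_mono (show insert v p.1 ⊆ p.2 from e1 ▸ Finset.erase_subset _ _)
  have h7 := S.r_mono (Finset.subset_insert u p.1)
  have h8 := S.r_mono (Finset.subset_insert v p.1)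
  -- both removals of `u` kill all forms
  have hd1 : ∀ T : Fm K E, InV S.U S.W p T → EqOn S.U S.W (rm true u p) T 0 := by
    intro T hT c hc1 d hd1
    have hc2 : c ∈ van S.U p.1 := hc1
    have hd2 : d ∈ spt S.W (p.2.erase u) := hd1
    have hdv : d v = 0 := by
      refine S.spt_eq_zero (G := p.2.erase u) (Finset.mem_erase.2 ⟨huv.symm, hv1⟩) ?_ d hd2
      have e4 : (p.2.erase u).erase v = p.1 := by
        rw [e1, Finset.erase_insert hv2]
      rw [e4, e1]
      omega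
    rw [LinearMap.zero_apply, LinearMap.zero_apply]
    refine hT c hc2 d (spt_mono (Finset.erase_subset _ _) hd2) fun x => ?_
    refine lbin_one_aux (p := rm true u p) (u := v) ?_ hc1 hd1 (by rw [hdv, mul_zero]) x
    intro y hy
    rw [gs_rm, hg] at hy
    obtain ⟨h9, h10⟩ := Finset.mem_erase.1 hy
    exact Finset.mem_singleton.1 ((Finset.mem_insert.1 h10).resolve_left h9)
  have hd0 : ∀ T : Fm K E, InV S.U S.W p T → EqOn S.U S.W (rm false u p) T 0 := by
    intro T hT c hc1 d hd1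
    have hc2 : c ∈ van S.U (insert u p.1) := hc1
    have hd2 : d ∈ spt S.W p.2 := hd1
    have hcv : c v = 0 := by
      refine S.van_eq_zero (C := insert u p.1) ?_ c hc2
      rw [e3]
      omega
    rw [LinearMap.zero_apply, LinearMap.zero_apply]
    refine hT c (van_anti (Finset.subset_insert _ _) hc2) d hd2 fun x => ?_
    refine lbin_one_aux (p := rm false u p) (u := v) ?_ hc1 hd1 (by rw [hcv, zero_mul]) x
    intro y hy
    rw [gs_rm, hg] at hy
    obtain ⟨h9, h10⟩ := Finset.mem_erase.1 hy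
    exact Finset.mem_singleton.1 ((Finset.mem_insert.1 h10).resolve_left h9)
  have key : ∀ T : Fm K E, InV S.U S.W p T → ∃ k : K, EqOn S.U S.W p T (0 + dg (Pi.single u k)) :=
    fun T hT => eqOn_of_rm (hd1 T hT) (hd0 T hT)
  refine ⟨?_, fun T hT => ?_⟩
  · obtain ⟨k, hk⟩ := key (dg (Pi.single v 1)) (dg_inV p _)
    rw [zero_add] at hk
    obtain ⟨c, hc1, hcv⟩ := S.van_one (C := p.1) (x := v) (by omega)
    obtain ⟨d, hd1', hdv⟩ := S.spt_one (G := p.2) (x := v) hv1 (by rw [e2]; omega)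
    have hk0 : k ≠ 0 := by
      intro h9
      have h10 := hk c hc1 d hd1'
      rw [dg_single, dg_single, hcv, hdv, h9, zero_mul, mul_one, mul_one] at h10
      exact one_ne_zero h10
    refine ⟨Pi.single v 1 - Pi.single u k, fun x hx1 => ?_, ?_⟩
    · rw [hg, Finset.mem_insert, Finset.mem_singleton] at hx1
      rcases hx1 with rfl | rfl
      · rw [Pi.sub_apply, Pi.single_eq_same, Pi.single_eq_of_ne huv, zero_sub]
        exact neg_ne_zero.2 hk0
      · rw [Pi.sub_apply, Pi.single_eq_same, Pi.single_eq_of_ne huv.symm, sub_zero]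
        exact one_ne_zero
    · intro c hc d hd
      rw [dg_sub, LinearMap.sub_apply, LinearMap.sub_apply, hk c hc d hd, sub_self,
        LinearMap.zero_apply, LinearMap.zero_apply]
  · obtain ⟨k, hk⟩ := key T hT
    exact ⟨_, hk⟩

/-- a separation of order one -/
private theorem lbin_dis (S : TP K E) {p : Itv E} (hp : p.1 ⊆ p.2) {A : Finset E} (hA : A ⊆ gs p)
    (hl : lam S.r p A ≤ 0) (h1 : LBin_P S (p.1, p.1 ∪ A)) (h2 : LBin_P S (p.1, p.2 \ A)) :
    LBin_P S p := by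
  have hA2 : ∀ y ∈ A, y ∈ p.2 ∧ y ∉ p.1 := fun y hy => Finset.mem_sdiff.1 (hA hy)
  have g1 : ∀ x ∈ A, x ∈ gs ((p.1, p.1 ∪ A) : Itv E) := fun x hx =>
    Finset.mem_sdiff.2 ⟨Finset.mem_union_right _ hx, (hA2 x hx).2⟩
  have g2 : ∀ x ∈ gs p, x ∉ A → x ∈ gs ((p.1, p.2 \ A) : Itv E) := fun x hx hx' =>
    Finset.mem_sdiff.2 ⟨Finset.mem_sdiff.2 ⟨(Finset.mem_sdiff.1 hx).1, hx'⟩, (Finset.mem_sdiff.1 hx).2⟩
  obtain ⟨⟨w1, hw1, hw1'⟩, hT1⟩ := h1
  obtain ⟨⟨w2, hw2, hw2'⟩, hT2⟩ := h2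
  refine ⟨⟨fun x => if x ∈ A then w1 x else w2 x, fun x hx => ?_, ?_⟩, fun T hT => ?_⟩
  · show (if x ∈ A then w1 x else w2 x) ≠ 0
    by_cases hxA : x ∈ A
    · rw [if_pos hxA]
      exact hw1 x (g1 x hxA)
    · rw [if_neg hxA]
      exact hw2 x (g2 x hx hxA)
  · exact (sum_decomp S hp hA hl InV.zero hw1'.symm hw2'.symm (fun x hx => if_pos hx)
      (fun x hx => if_neg (Finset.mem_sdiff.1 hx).2)).symm
  · have hCA : p.1 ⊆ p.2 \ A :=
      fun y hy => Finset.mem_sdiff.2 ⟨hp hy, fun h => (hA2 y h).2 hy⟩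
    have hAG : p.1 ∪ A ⊆ p.2 := Finset.union_subset hp fun y hy => (hA2 y hy).1
    obtain ⟨l, hl1⟩ := hT1 T (hT.mono ⟨Finset.Subset.refl _, hAG⟩)
    obtain ⟨l', hl2⟩ := hT2 T (hT.mono ⟨Finset.Subset.refl _, Finset.sdiff_subset⟩)
    rw [zero_add] at hl1 hl2
    refine ⟨fun x => if x ∈ A then l x else l' x, ?_⟩
    rw [zero_add]
    exact sum_decomp S hp hA hl hT hl1 hl2 (fun x hx => if_pos hx)
      (fun x hx => if_neg (Finset.mem_sdiff.1 hx).2)

/-- a separation of order two -/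
private theorem lbin_sep (S : TP K E) {p : Itv E} (hp : p.1 ⊆ p.2) {A : Finset E} (hA : A ⊆ gs p)
    (hl : lam S.r p A = 1) {X X' : Finset E} {b a : E} (hX : Half S.r p A X b)
    (hX' : Half S.r p (gs p \ A) X' a) (h1 : LBin_P S (hb p A X b))
    (h2 : LBin_P S (hb p (gs p \ A) X' a)) : LBin_P S p := by
  have hB : gs p \ A ⊆ gs p := Finset.sdiff_subset
  have hlB : lam S.r p (gs p \ A) = 1 := by rw [QUB.lam_compl S.r hp hA, hl]
  obtain ⟨s1, s2, -, s4⟩ := half_sub hp hA hX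
  obtain ⟨s1', s2', -, s4'⟩ := half_sub hp hB hX'
  obtain ⟨f, g, hk⟩ := kink_exists S hp hA hl
  have hk' := hk.symm hp hA
  obtain ⟨⟨w1, hw1, hw1'⟩, hT1⟩ := h1
  obtain ⟨⟨w2, hw2, hw2'⟩, hT2⟩ := h2
  rw [s4] at hw1
  rw [s4'] at hw2
  have eAA : gs p \ (gs p \ A) = A := Finset.sdiff_sdiff_eq_self hA
  obtain ⟨k2, hk2, hkd2⟩ := kink_diag S hp hA hl hk hX' hw2' (hw2 a (Finset.mem_insert_self _ _))
  have hX2 : Half S.r p (gs p \ (gs p \ A)) X b := by
    rw [eAA]
    exact hX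
  have hw12 : EqOn S.U S.W (hb p (gs p \ (gs p \ A)) X b) (dg w1) 0 := by
    rw [eAA]
    exact hw1'
  obtain ⟨k1, hk1, hkd1⟩ := kink_diag S hp hB hlB hk' hX2 hw12 (hw1 b (Finset.mem_insert_self _ _))
  rw [eAA] at hkd1
  refine ⟨⟨(fun x => if x ∈ gs p \ A then k2 * w2 x else 0) -
    (fun x => if x ∈ A then k1 * w1 x else 0), fun x hx => ?_, ?_⟩, fun T hT => ?_⟩
  · rw [Pi.sub_apply]
    by_cases hxA : x ∈ A
    · have hxB : x ∉ gs p \ A := fun h => (Finset.mem_sdiff.1 h).2 hxA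
      rw [if_neg hxB, if_pos hxA, zero_sub]
      exact neg_ne_zero.2 (mul_ne_zero hk1 (hw1 x (Finset.mem_insert_of_mem hxA)))
    · have hxB : x ∈ gs p \ A := Finset.mem_sdiff.2 ⟨hx, hxA⟩
      rw [if_pos hxB, if_neg hxA, sub_zero]
      exact mul_ne_zero hk2 (hw2 x (Finset.mem_insert_of_mem hxB))
  · intro c hc d hd
    rw [dg_sub, LinearMap.sub_apply, LinearMap.sub_apply, ← hkd2 c hc d hd, ← hkd1 c hc d hd,
      sub_self, LinearMap.zero_apply, LinearMap.zero_apply]
  · obtain ⟨l, hl1⟩ := hT1 T (hT.mono ⟨s1, s2⟩)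
    obtain ⟨l', hl2⟩ := hT2 T (hT.mono ⟨s1', s2'⟩)
    rw [zero_add] at hl1 hl2
    obtain ⟨k, hkT⟩ := sep_decomp S hp hA hl hk hX hX' hT hl1 hl2
      (m := fun x => if x ∈ A then l x else l' x) (fun x hx => if_pos hx)
      (fun x hx => if_neg (Finset.mem_sdiff.1 hx).2)
    refine ⟨k • (fun x => if x ∈ gs p \ A then k2 * w2 x else 0) +
      (fun x => if x ∈ A then l x else l' x), fun c hc d hd => ?_⟩
    rw [zero_add, hkT c hc d hd, dg_add, dg_smul, LinearMap.add_apply, LinearMap.add_apply,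
      LinearMap.add_apply, LinearMap.add_apply, LinearMap.smul_apply, LinearMap.smul_apply,
      LinearMap.smul_apply, LinearMap.smul_apply, hkd2 c hc d hd]

/-- a pair of removals -/
private theorem lbin_pair (S : TP K E) {p : Itv E} (hp : p.1 ⊆ p.2) (hn : 3 ≤ (gs p).card) {u v : E}
    {t s : Bool} (huv : u ≠ v) (hu : u ∈ gs p) (hv : v ∈ gs p)
    (hcR : QUB.Cn S.r (rm t u (rm s v p))) (hnd : ND S.r p u v t s)
    (h1 : LBin_P S (rm t u p)) (h2 : LBin_P S (rm s v p)) : LBin_P S p := by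
  obtain ⟨⟨wu, hwu, hwu'⟩, hT1⟩ := h1
  obtain ⟨⟨wv, hwv, hwv'⟩, hT2⟩ := h2
  rw [gs_rm] at hwu hwv
  have su : Sub (rm t u (rm s v p)) (rm t u p) := by
    rw [rm_comm]
    exact rm_sub s v (rm t u p)
  have sv : Sub (rm t u (rm s v p)) (rm s v p) := rm_sub t u (rm s v p)
  have hR : (rm t u (rm s v p)).1 ⊆ (rm t u (rm s v p)).2 := by
    refine QUB.wf_rm (QUB.wf_rm hp hv) ?_
    rw [gs_rm]
    exact Finset.mem_erase.2 ⟨huv, hu⟩
  have hgR : gs (rm t u (rm s v p)) = ((gs p).erase v).erase u := by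
    rw [gs_rm, gs_rm]
  have hne : (((gs p).erase v).erase u).Nonempty := by
    rw [← Finset.card_pos, Finset.card_erase_of_mem (Finset.mem_erase.2 ⟨huv, hu⟩),
      Finset.card_erase_of_mem hv]
    omega
  have hwR : ∀ x ∈ gs (rm t u (rm s v p)), wu x ≠ 0 := by
    intro x hx
    rw [hgR] at hx
    obtain ⟨hx1, hx2⟩ := Finset.mem_erase.1 hx
    exact hwu x (Finset.mem_erase.2 ⟨hx1, (Finset.mem_erase.1 hx2).2⟩)
  have hom : ∀ l : E → K, EqOn S.U S.W (rm t u (rm s v p)) (dg l) 0 →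
      ∃ k : K, ∀ x ∈ gs (rm t u (rm s v p)), l x = k * wu x := fun l hl =>
    hom_line S hR hcR hl (hwu'.mono su) hwR
  obtain ⟨k, hk⟩ := hom wv (hwv'.mono sv)
  have hk0 : k ≠ 0 := by
    obtain ⟨x, hx⟩ := hne
    intro h3
    have h4 := hk x (by rw [hgR]; exact hx)
    rw [h3, zero_mul] at h4
    exact hwv x (Finset.mem_erase.1 hx).2 h4
  refine ⟨?_, fun T hT => ?_⟩
  · obtain ⟨m, hm1, hm2, hm3⟩ := hom_glue S huv hu hv hwu' (b := k⁻¹ • wv) (by
      rw [dg_smul]
      intro c hc d hd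
      rw [LinearMap.smul_apply, LinearMap.smul_apply, hwv' c hc d hd, LinearMap.zero_apply,
        LinearMap.zero_apply, smul_zero]) (by
      intro x hx
      rw [Pi.smul_apply, smul_eq_mul, hk x hx, inv_mul_cancel_left₀ hk0]) hnd
    refine ⟨m, fun x hx => ?_, hm3⟩
    by_cases hxu : x = u
    · rw [hxu, hm2, Pi.smul_apply, smul_eq_mul]
      exact mul_ne_zero (inv_ne_zero hk0) (hwv u (Finset.mem_erase.2 ⟨huv, hu⟩))
    · rw [hm1 x hxu]
      exact hwu x (Finset.mem_erase.2 ⟨hxu, hx⟩)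
  · exact uniq_bin S huv hu hv hT (hT1 T (hT.mono (rm_sub t u p))) (hT2 T (hT.mono (rm_sub s v p)))
      hwu' hom hnd

private theorem lbin_all (S : TP K E) (n : ℕ) : ∀ p : Itv E, (gs p).card ≤ n → p.1 ⊆ p.2 →
    (∀ N, ¬ QUB.Ln S.r p N) → LBin_P S p := by
  induction n with
  | zero =>
    intro p hn _ _
    exact lbin_zero S (Finset.card_eq_zero.1 (Nat.le_zero.1 hn))
  | succ n ih =>
    intro p hn hp hN
    by_cases h0 : gs p = ∅
    · exact lbin_zero S h0
    by_cases hc : QUB.Cn S.r p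
    · by_cases h1 : (gs p).card = 1
      · exact lbin_one S hp h1
      by_cases h2 : (gs p).card = 2
      · exact lbin_two S hp hc h2
      have h3 : 3 ≤ (gs p).card := by
        have h4 := Finset.card_pos.2 (Finset.nonempty_iff_ne_empty.2 h0)
        omega
      by_cases ht : Th3 S.r p
      · obtain ⟨u, hu, v, hv, huv, t, s, -, -, hcR, hnd⟩ := bin_pair S.rk hp hc ht h3 hN
        refine lbin_pair S hp h3 huv hu hv hcR hnd ?_ ?_
        · refine ih _ ?_ (QUB.wf_rm hp hu) (lbin_ln (rm_sub t u p) hN)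
          rw [gs_rm, Finset.card_erase_of_mem hu]
          omega
        · refine ih _ ?_ (QUB.wf_rm hp hv) (lbin_ln (rm_sub s v p) hN)
          rw [gs_rm, Finset.card_erase_of_mem hv]
          omega
      · unfold Th3 at ht
        push Not at ht
        obtain ⟨A, hA, hA2, hB2, hl⟩ := ht
        have hl1 : lam S.r p A = 1 := by
          have h5 := hc A hA (Finset.card_pos.1 (by omega)) (Finset.card_pos.1 (by omega))
          have h6 : 1 ≤ lam S.r p A := h5
          omega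
        have hB : gs p \ A ⊆ gs p := Finset.sdiff_subset
        have hlB : lam S.r p (gs p \ A) = 1 := by rw [QUB.lam_compl S.r hp hA, hl1]
        obtain ⟨X, b, hX⟩ := half_exists S.rk hp hA hl1
        obtain ⟨X', a, hX'⟩ := half_exists S.rk hp hB hlB
        obtain ⟨s1, s2, s3, s4⟩ := half_sub hp hA hX
        obtain ⟨s1', s2', s3', s4'⟩ := half_sub hp hB hX'
        have hcard := Finset.card_sdiff_add_card_eq_card hA
        refine lbin_sep S hp hA hl1 hX hX' ?_ ?_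
        · refine ih _ ?_ s3 (lbin_ln ⟨s1, s2⟩ hN)
          rw [s4]
          have h5 := Finset.card_insert_le b A
          omega
        · refine ih _ ?_ s3' (lbin_ln ⟨s1', s2'⟩ hN)
          rw [s4']
          have h5 := Finset.card_insert_le a (gs p \ A)
          omega
    · unfold QUB.Cn at hc
      push Not at hc
      obtain ⟨A, hA, hA1, hB1, hl⟩ := hc
      have hl0 : lam S.r p A ≤ 0 := by
        have h6 : lam S.r p A < 1 := hl
        omega
      have hA2 : ∀ y ∈ A, y ∈ p.2 ∧ y ∉ p.1 := fun y hy => Finset.mem_sdiff.1 (hA hy)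
      have hCA : p.1 ⊆ p.2 \ A :=
        fun y hy => Finset.mem_sdiff.2 ⟨hp hy, fun h => (hA2 y h).2 hy⟩
      have hAG : p.1 ∪ A ⊆ p.2 := Finset.union_subset hp fun y hy => (hA2 y hy).1
      have hcard := Finset.card_sdiff_add_card_eq_card hA
      have hc1 := Finset.card_pos.2 hA1
      have hc2 : 0 < (gs p \ A).card := Finset.card_pos.2 hB1
      have g1 : gs ((p.1, p.1 ∪ A) : Itv E) = A := by
        ext y
        have h3 := hA2 y
        simp only [gs, Finset.mem_union, Finset.mem_sdiff]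
        tauto
      have g2 : gs ((p.1, p.2 \ A) : Itv E) = gs p \ A := by
        ext y
        simp only [gs, Finset.mem_sdiff]
        tauto
      refine lbin_dis S hp hA hl0 ?_ ?_
      · refine ih _ ?_ Finset.subset_union_left (lbin_ln (p := p) ⟨Finset.Subset.refl _, hAG⟩ hN)
        rw [g1]
        omega
      · refine ih _ ?_ hCA (lbin_ln (p := p) ⟨Finset.Subset.refl _, Finset.sdiff_subset⟩ hN)
        rw [g2]
        omega

theorem bin_main (S : TP K E) (n : ℕ) : ∀ p : Itv E, (gs p).card ≤ n → p.1 ⊆ p.2 →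
    (∀ N, ¬ QUB.Ln S.r p N) →
    (∃ w : E → K, (∀ x ∈ gs p, w x ≠ 0) ∧ EqOn S.U S.W p (dg w) 0) ∧
      ∀ T : Fm K E, InV S.U S.W p T → EqD S.U S.W p T 0 := by
  exact lbin_all S n

/-- a box without four point line: the two representations are projectively equivalent -/
theorem bin_hom (S : TP K E) {p : Itv E} (hp : p.1 ⊆ p.2) (h : ∀ N, ¬ QUB.Ln S.r p N) :
    ∃ w : E → K, (∀ x ∈ gs p, w x ≠ 0) ∧ EqOn S.U S.W p (dg w) 0 :=
  (bin_main S _ p le_rfl hp h).1

/-- a box without four point line: all forms are diagonal -/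
theorem bin_diag (S : TP K E) {p : Itv E} (hp : p.1 ⊆ p.2) (h : ∀ N, ¬ QUB.Ln S.r p N)
    {T : Fm K E} (hT : InV S.U S.W p T) : EqD S.U S.W p T 0 :=
  (bin_main S _ p le_rfl hp h).2 T hT

end Pool.Agent.QU
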