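import Pool.Agent.QUL.LHalfV
import Pool.Agent.QUL.LGlue

set_option autoImplicit false

/-!
# Project QU, layer A, module LDec: forms on a box with a separation of order two

`C = p.1`, `G = p.2`, `B = gs p \ A`, `C ∪ B = G \ A`, `C ∪ A = G \ B`; `(X, b)` describes the half of `A`, `(X', a)` the half of `B`.
Pairs `c ∈ van U (C ∪ B)`, `d ∈ spt W (C ∪ B)` are disjoint, and so are `c ∈ van U (C ∪ A)`, `d ∈ spt W (C ∪ A)`.

PLAN. `sep_decomp`: let `R = T - dg m`, it is in `InV`. (1) `R = 0` on `van U (C ∪ B) × spt W (C ∪ A)`: such a pair is in the half of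
`A` (`X ⊆ C ∪ B`, `C ∪ A ⊆ insert b (C ∪ A ∪ X)`), so `T c d = dg l c d`; `dg l c d = dg m c d` because `c x * d x = 0` for
`x ∉ A`. In the same way `R = 0` on `van U (C ∪ A) × spt W (C ∪ B)`; on the two disjoint products `R = 0` by `InV`.
So `R = 0` on `ker f × ker g`. (2) by `half_val` there is `c₀ ∈ van U X` with `f c₀ = 1`; for `d ∈ spt W (C ∪ A)` the pair
`(c₀, d)` is in the half of `A`, so `R c₀ d = 0` as before (`d x = 0` for `x ∈ X \ C`, `d b = 0`). In the same way there is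
`c₀' ∈ van U X'` with `f c₀' = 1` and `R c₀' d = 0` for `d ∈ spt W (C ∪ B)`; `c₀ - c₀' ∈ ker f`, so `R c₀ d = 0` for
`d ∈ ker g`. (3) In the same way `R c d₀ = 0` for `c ∈ ker f` and some `d₀ ∈ spt W G` with `g d₀ = 1`.
Then `R c d = f c * g d * R c₀ d₀`: `k = R c₀ d₀`.
`kink_diag`: `R = dg ω'`, `ω' x = ω x` for `x ∈ B` and `0` otherwise. It vanishes if `c` or `d` vanishes on `B`. For
`c ∈ van U (C ∪ A)` (contained in `van U X'`) and `d` in `spt W (insert a (C ∪ B ∪ X'))` we have `R c d = dg ω c d = 0` (`c a = 0`). So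
`R c d = 0` for `c ∈ ker f` and all `d ∈ spt W G` (`ker g` and one `d₀` of the half of `B` with `g d₀ = 1`), in the same way for
`d ∈ ker g`; so `R = k • kf f g` with `k = R c₀ d₀`, `c₀`, `d₀` of the half of `B` with `f c₀ = g d₀ = 1`; `k = - ω a * c₀ a * d₀ a ≠ 0`.
`s2_step`: there is a half `(X, b)` of `A` for `rm s z p` (`half_exists`), by `half_rm_out` it is a half of `A` for `p` contained in
`rm s z p`, so `T = 0` on it. `sep_decomp` with `l = 0`, `l' = Pi.single z k`: `T = κ • kf f g + dg (Pi.single z k)` on `p`. On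
`rm s z p` this gives `κ • kf f g = 0`; by `half_val` for `(X, b)` there is a pair in the half with `f c * g d ≠ 0`, so `κ = 0`.
`dec_uniq`: `sep_decomp` for `T - T'`.
-/

namespace Pool.Agent.QU

variable {K E : Type} [Field K] [Fintype E] [DecidableEq E]

private theorem LDec_rank1 {K : Type} [Field K] {V V' : Type} [AddCommGroup V] [Module K V]
    [AddCommGroup V'] [Module K V'] (R : V →ₗ[K] V' →ₗ[K] K) (P : Submodule K V) (Q : Submodule K V')
    (f : V →ₗ[K] K) (g : V' →ₗ[K] K) {c₀ : V} {d₀ : V'} (hc₀ : c₀ ∈ P) (hd₀ : d₀ ∈ Q)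
    (hf : f c₀ ≠ 0) (hg : g d₀ ≠ 0)
    (h00 : ∀ c ∈ P, f c = 0 → ∀ d ∈ Q, g d = 0 → R c d = 0)
    (h0 : ∀ d ∈ Q, g d = 0 → R c₀ d = 0) (h0' : ∀ c ∈ P, f c = 0 → R c d₀ = 0) :
    ∀ c ∈ P, ∀ d ∈ Q, R c d = (f c₀)⁻¹ * (g d₀)⁻¹ * R c₀ d₀ * (f c * g d) := by
  intro c hc d hd
  have hc1 : c - (f c * (f c₀)⁻¹) • c₀ ∈ P := Submodule.sub_mem _ hc (Submodule.smul_mem _ _ hc₀)
  have hd1 : d - (g d * (g d₀)⁻¹) • d₀ ∈ Q := Submodule.sub_mem _ hd (Submodule.smul_mem _ _ hd₀)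
  have hfc : f (c - (f c * (f c₀)⁻¹) • c₀) = 0 := by
    rw [map_sub, map_smul, smul_eq_mul, mul_assoc, inv_mul_cancel₀ hf, mul_one, sub_self]
  have hgd : g (d - (g d * (g d₀)⁻¹) • d₀) = 0 := by
    rw [map_sub, map_smul, smul_eq_mul, mul_assoc, inv_mul_cancel₀ hg, mul_one, sub_self]
  have e1 := h00 _ hc1 hfc _ hd1 hgd
  have e2 := h0 _ hd1 hgd
  have e3 := h0' _ hc1 hfc
  rw [map_sub, map_smul, map_sub, map_smul, LinearMap.sub_apply, LinearMap.smul_apply,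
    LinearMap.sub_apply, LinearMap.smul_apply, smul_eq_mul, smul_eq_mul, smul_eq_mul] at e1
  rw [map_sub, map_smul, smul_eq_mul] at e2
  rw [map_sub, map_smul, LinearMap.sub_apply, LinearMap.smul_apply, smul_eq_mul] at e3
  linear_combination e1 + f c * (f c₀)⁻¹ * e2 + g d * (g d₀)⁻¹ * e3

private theorem LDec_half {U W : Submodule K (E → K)} {C A X : Finset E} {b : E} (hCX : C ⊆ X)
    {l m : E → K} (hm : ∀ x ∈ A, m x = l x) {c d : E → K}
    (hc : c ∈ van U X) (hd : d ∈ spt W (insert b (C ∪ A ∪ X))) (h0 : c b * d b = 0) :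
    dg l c d = dg m c d := by
  rw [dg_apply, dg_apply]
  refine Finset.sum_congr rfl fun x _ => ?_
  by_cases h1 : x ∈ A
  · rw [hm x h1]
  by_cases h2 : x ∈ X
  · rw [hc.2 x h2, zero_mul, mul_zero, mul_zero]
  by_cases h3 : x = b
  · rw [h3, h0, mul_zero, mul_zero]
  · have h4 : x ∉ insert b (C ∪ A ∪ X) := by
      intro h
      rcases Finset.mem_insert.1 h with h | h
      · exact h3 h
      rcases Finset.mem_union.1 h with h | h
      · rcases Finset.mem_union.1 h with h | h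
        · exact h2 (hCX h)
        · exact h1 h
      · exact h2 h
    rw [hd.2 x h4, mul_zero, mul_zero, mul_zero]

omit [Fintype E] in
private theorem LDec_e1 {p : Itv E} (hp : p.1 ⊆ p.2) {A : Finset E} (hA : A ⊆ gs p) :
    p.1 ∪ (gs p \ A) = p.2 \ A := by
  ext y
  have h1 : y ∈ p.1 → y ∈ p.2 := fun h => hp h
  have h2 : y ∈ A → y ∈ p.2 ∧ y ∉ p.1 := fun h => Finset.mem_sdiff.1 (hA h)
  simp only [Finset.mem_union, Finset.mem_sdiff, gs]
  tauto

omit [Fintype E] in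
private theorem LDec_e2 {p : Itv E} (hp : p.1 ⊆ p.2) {A : Finset E} (hA : A ⊆ gs p) :
    p.2 \ (gs p \ A) = p.1 ∪ A := by
  ext y
  have h1 : y ∈ p.1 → y ∈ p.2 := fun h => hp h
  have h2 : y ∈ A → y ∈ p.2 ∧ y ∉ p.1 := fun h => Finset.mem_sdiff.1 (hA h)
  simp only [Finset.mem_union, Finset.mem_sdiff, gs]
  tauto

/-- the facts on a half which are used below -/
private theorem LDec_facts (S : TP K E) {p : Itv E} (hp : p.1 ⊆ p.2) {A : Finset E} (hA : A ⊆ gs p)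
    (hl : lam S.r p A = 1) {f g : (E → K) →ₗ[K] K} (hk : IsKink S p A f g)
    {X : Finset E} {b : E} (hX : Half S.r p A X b) :
    van S.U (p.2 \ A) ≤ van S.U X ∧ spt S.W (p.1 ∪ A) ≤ spt S.W (insert b (p.1 ∪ A ∪ X)) ∧
      (∀ c ∈ van S.U (p.2 \ A), c b = 0) ∧ (∀ d ∈ spt S.W (p.1 ∪ A), d b = 0) ∧
      (∃ c ∈ van S.U X, c b = 1 ∧ f c ≠ 0) ∧
      (∃ d ∈ spt S.W (insert b (p.1 ∪ A ∪ X)), d b = 1 ∧ g d ≠ 0) ∧
      van S.U X ≤ van S.U p.1 ∧ spt S.W (insert b (p.1 ∪ A ∪ X)) ≤ spt S.W p.2 := by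
  obtain ⟨α, β, hα, hβ, hf, hg, ⟨c, hc, hcb⟩, ⟨d, hd, hdb⟩⟩ := half_val S hp hA hl hk hX
  obtain ⟨h1, h2, h3, h4, -, -⟩ := hX
  have h5 : b ∈ p.2 ∧ b ∉ A := Finset.mem_sdiff.1 h3
  refine ⟨van_anti h2, spt_mono ?_, fun c hc => hc.2 b h3, fun d hd => hd.2 b ?_,
    ⟨c, hc, hcb, ?_⟩, ⟨d, hd, hdb, ?_⟩, van_anti h1, spt_mono ?_⟩
  · intro x hx
    exact Finset.mem_insert_of_mem (Finset.mem_union_left _ hx)
  · intro h
    rcases Finset.mem_union.1 h with h | h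
    · exact h4 (h1 h)
    · exact h5.2 h
  · rw [hf c hc, hcb, mul_one]
    exact hα
  · rw [hg d hd, hdb, mul_one]
    exact hβ
  · intro x hx
    rcases Finset.mem_insert.1 hx with h | h
    · rw [h]
      exact h5.1
    rcases Finset.mem_union.1 h with h | h
    · rcases Finset.mem_union.1 h with h | h
      · exact hp h
      · exact (Finset.mem_sdiff.1 (hA h)).1
    · exact (Finset.mem_sdiff.1 (h2 h)).1

/-- scaling -/
private theorem LDec_scale {V : Type} [AddCommGroup V] [Module K V] (f : V →ₗ[K] K) {c c' : V}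
    (h' : f c' ≠ 0) : f (c - (f c * (f c')⁻¹) • c') = 0 := by
  rw [map_sub, map_smul, smul_eq_mul, mul_assoc, inv_mul_cancel₀ h', mul_one, sub_self]

theorem sep_decomp (S : TP K E) {p : Itv E} (hp : p.1 ⊆ p.2) {A : Finset E} (hA : A ⊆ gs p)
    (hl : lam S.r p A = 1) {f g : (E → K) →ₗ[K] K} (hk : IsKink S p A f g)
    {X X' : Finset E} {b a : E} (hX : Half S.r p A X b) (hX' : Half S.r p (gs p \ A) X' a)
    {T : Fm K E} (hT : InV S.U S.W p T) {l l' m : E → K}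
    (h1 : EqOn S.U S.W (hb p A X b) T (dg l)) (h2 : EqOn S.U S.W (hb p (gs p \ A) X' a) T (dg l'))
    (hm : ∀ x ∈ A, m x = l x) (hm' : ∀ x ∈ gs p \ A, m x = l' x) :
    ∃ k : K, EqOn S.U S.W p T (k • kf f g + dg m) := by
  have hB : gs p \ A ⊆ gs p := Finset.sdiff_subset
  have hlB : lam S.r p (gs p \ A) = 1 := by rw [QUB.lam_compl S.r hp hA, hl]
  have hk' := hk.symm hp hA
  obtain ⟨a1, a2, a3, a4, ⟨c₀, a5, a6, a7⟩, ⟨d₀, a8, a9, a10⟩, a11, a12⟩ := LDec_facts S hp hA hl hk hX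
  obtain ⟨b1, b2, b3, b4, ⟨c₁, b5, b6, b7⟩, ⟨d₁, b8, b9, b10⟩, b11, b12⟩ := LDec_facts S hp hB hlB hk' hX'
  rw [LDec_e2 hp hA] at b1 b3
  rw [LDec_e1 hp hA] at b2 b4 b8 b12
  have hvA : van S.U (p.1 ∪ A) ≤ van S.U p.1 := van_anti Finset.subset_union_left
  have hvB : van S.U (p.2 \ A) ≤ van S.U p.1 := fun c hc => a11 (a1 hc)
  have hsA : spt S.W (p.1 ∪ A) ≤ spt S.W p.2 := fun d hd => a12 (a2 hd)
  have hsB : spt S.W (p.2 \ A) ≤ spt S.W p.2 := spt_mono Finset.sdiff_subset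
  obtain ⟨R, hR⟩ : ∃ R : Fm K E, R = T - dg m := ⟨_, rfl⟩
  have hRv : ∀ c d, R c d = T c d - dg m c d := by
    intro c d
    rw [hR, LinearMap.sub_apply, LinearMap.sub_apply]
  -- the two halves
  have r1 : ∀ c ∈ van S.U X, ∀ d ∈ spt S.W (insert b (p.1 ∪ A ∪ X)), c b * d b = 0 → R c d = 0 := by
    intro c hc d hd h0
    rw [hRv, h1 c hc d hd, LDec_half hX.1 hm hc hd h0, sub_self]
  have r2 : ∀ c ∈ van S.U X', ∀ d ∈ spt S.W (insert a (p.2 \ A ∪ X')), c a * d a = 0 → R c d = 0 := by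
    intro c hc d hd h0
    have hd' : d ∈ spt S.W (insert a (p.1 ∪ (gs p \ A) ∪ X')) := by
      rw [LDec_e1 hp hA]
      exact hd
    rw [hRv, h2 c hc d hd', LDec_half hX'.1 hm' hc hd' h0, sub_self]
  have rdis : ∀ c ∈ van S.U p.1, ∀ d ∈ spt S.W p.2, (∀ x, c x * d x = 0) → R c d = 0 := by
    intro c hc d hd h0
    rw [hRv, hT c hc d hd h0, dg_inV p m c hc d hd h0, sub_self]
  have q11 : ∀ c ∈ van S.U (p.1 ∪ A), ∀ d ∈ spt S.W (p.1 ∪ A), R c d = 0 := by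
    intro c hc d hd
    refine rdis c (hvA hc) d (hsA hd) fun x => ?_
    by_cases hx : x ∈ p.1 ∪ A
    · rw [hc.2 x hx, zero_mul]
    · rw [hd.2 x hx, mul_zero]
  have q22 : ∀ c ∈ van S.U (p.2 \ A), ∀ d ∈ spt S.W (p.2 \ A), R c d = 0 := by
    intro c hc d hd
    refine rdis c (hvB hc) d (hsB hd) fun x => ?_
    by_cases hx : x ∈ p.2 \ A
    · rw [hc.2 x hx, zero_mul]
    · rw [hd.2 x hx, mul_zero]
  have q21 : ∀ c ∈ van S.U (p.2 \ A), ∀ d ∈ spt S.W (p.1 ∪ A), R c d = 0 := by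
    intro c hc d hd
    exact r1 c (a1 hc) d (a2 hd) (by rw [a3 c hc, zero_mul])
  have q12 : ∀ c ∈ van S.U (p.1 ∪ A), ∀ d ∈ spt S.W (p.2 \ A), R c d = 0 := by
    intro c hc d hd
    exact r2 c (b1 hc) d (b2 hd) (by rw [b3 c hc, zero_mul])
  have h00 : ∀ c ∈ van S.U p.1, f c = 0 → ∀ d ∈ spt S.W p.2, g d = 0 → R c d = 0 := by
    intro c hc hfc d hd hgd
    obtain ⟨c1, hc1, c2, hc2, rfl⟩ := Submodule.mem_sup.1 ((hk.hf c hc).1 hfc)
    obtain ⟨d1, hd1, d2, hd2, rfl⟩ := Submodule.mem_sup.1 ((hk.hg d hd).1 hgd)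
    have e1 : R (c1 + c2) (d1 + d2) = R c1 d1 + R c1 d2 + (R c2 d1 + R c2 d2) := by
      rw [map_add R c1 c2, LinearMap.add_apply, map_add, map_add]
    rw [e1, q11 c1 hc1 d1 hd1, q12 c1 hc1 d2 hd2, q21 c2 hc2 d1 hd1, q22 c2 hc2 d2 hd2, add_zero,
      add_zero]
  have h0 : ∀ d ∈ spt S.W p.2, g d = 0 → R c₀ d = 0 := by
    intro d hd hgd
    obtain ⟨d1, hd1, d2, hd2, rfl⟩ := Submodule.mem_sup.1 ((hk.hg d hd).1 hgd)
    have e1 : R c₀ d1 = 0 := r1 c₀ a5 d1 (a2 hd1) (by rw [a4 d1 hd1, mul_zero])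
    have hg2 : g d2 = 0 := (hk.hg d2 (hsB hd2)).2 (Submodule.mem_sup_right hd2)
    have e2 := h00 _ (Submodule.sub_mem _ (a11 a5) (Submodule.smul_mem _ (f c₀ * (f c₁)⁻¹) (b11 b5)))
      (LDec_scale f b7) d2 (hsB hd2) hg2
    have e3 : R c₁ d2 = 0 := r2 c₁ b5 d2 (b2 hd2) (by rw [b4 d2 hd2, mul_zero])
    rw [map_sub, map_smul, LinearMap.sub_apply, LinearMap.smul_apply, e3, smul_zero, sub_zero] at e2
    rw [map_add, e1, e2, add_zero]
  have h0' : ∀ c ∈ van S.U p.1, f c = 0 → R c d₀ = 0 := by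
    intro c hc hfc
    obtain ⟨c1, hc1, c2, hc2, rfl⟩ := Submodule.mem_sup.1 ((hk.hf c hc).1 hfc)
    have e1 : R c2 d₀ = 0 := r1 c2 (a1 hc2) d₀ a8 (by rw [a3 c2 hc2, zero_mul])
    have hf1 : f c1 = 0 := (hk.hf c1 (hvA hc1)).2 (Submodule.mem_sup_left hc1)
    have e2 := h00 c1 (hvA hc1) hf1 _
      (Submodule.sub_mem _ (a12 a8) (Submodule.smul_mem _ (g d₀ * (g d₁)⁻¹) (b12 b8)))
      (LDec_scale g b10)
    have e3 : R c1 d₁ = 0 := r2 c1 (b1 hc1) d₁ b8 (by rw [b3 c1 hc1, zero_mul])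
    rw [map_sub, map_smul, e3, smul_zero, sub_zero] at e2
    rw [map_add, LinearMap.add_apply, e1, e2, add_zero]
  have key := LDec_rank1 R (van S.U p.1) (spt S.W p.2) f g (a11 a5) (a12 a8) a7 a10 h00 h0 h0'
  refine ⟨(f c₀)⁻¹ * (g d₀)⁻¹ * R c₀ d₀, fun c hc d hd => ?_⟩
  have h5 := key c hc d hd
  rw [hRv c d] at h5
  rw [LinearMap.add_apply, LinearMap.add_apply, LinearMap.smul_apply, LinearMap.smul_apply,
    kf_apply, smul_eq_mul, ← h5, sub_add_cancel]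

theorem kink_diag (S : TP K E) {p : Itv E} (hp : p.1 ⊆ p.2) {A : Finset E} (hA : A ⊆ gs p)
    (hl : lam S.r p A = 1) {f g : (E → K) →ₗ[K] K} (hk : IsKink S p A f g)
    {X' : Finset E} {a : E} (hX' : Half S.r p (gs p \ A) X' a) {w : E → K}
    (hw : EqOn S.U S.W (hb p (gs p \ A) X' a) (dg w) 0) (ha : w a ≠ 0) :
    ∃ k : K, k ≠ 0 ∧ EqOn S.U S.W p (kf f g) (dg fun x => if x ∈ gs p \ A then k * w x else 0) := by
  have hB : gs p \ A ⊆ gs p := Finset.sdiff_subset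
  have hlB : lam S.r p (gs p \ A) = 1 := by rw [QUB.lam_compl S.r hp hA, hl]
  have hk' := hk.symm hp hA
  obtain ⟨b1, b2, b3, b4, ⟨c₁, b5, b6, b7⟩, ⟨d₁, b8, b9, b10⟩, b11, b12⟩ := LDec_facts S hp hB hlB hk' hX'
  rw [LDec_e2 hp hA] at b1 b3
  rw [LDec_e1 hp hA] at b4
  have b2' : spt S.W (p.2 \ A) ≤ spt S.W (insert a (p.1 ∪ (gs p \ A) ∪ X')) := by
    rw [← LDec_e1 hp hA]
    exact b2
  have haB : a ∉ gs p \ A := fun h => (Finset.mem_sdiff.1 hX'.2.2.1).2 h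
  obtain ⟨v, hv⟩ : ∃ v : E → K, v = fun x => if x ∈ gs p \ A then w x else 0 := ⟨_, rfl⟩
  have hv1 : ∀ x ∈ gs p \ A, v x = w x := fun x hx => by
    rw [hv]
    exact if_pos hx
  have hv0 : ∀ x, x ∉ gs p \ A → v x = 0 := fun x hx => by
    rw [hv]
    exact if_neg hx
  -- in the half
  have r2 : ∀ c ∈ van S.U X', ∀ d ∈ spt S.W (insert a (p.1 ∪ (gs p \ A) ∪ X')), c a * d a = 0 →
      dg v c d = 0 := by
    intro c hc d hd h0
    rw [← LDec_half hX'.1 hv1 hc hd h0]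
    exact hw c hc d hd
  have z1 : ∀ c d : E → K, (∀ x ∈ gs p \ A, c x * d x = 0) → dg v c d = 0 := by
    intro c d h
    rw [dg_apply]
    refine Finset.sum_eq_zero fun x _ => ?_
    by_cases hx : x ∈ gs p \ A
    · rw [h x hx, mul_zero]
    · rw [hv0 x hx, zero_mul]
  have hcB : ∀ c ∈ van S.U (p.2 \ A), ∀ x ∈ gs p \ A, c x = 0 := by
    intro c hc x hx
    refine hc.2 x ?_
    rw [← LDec_e1 hp hA]
    exact Finset.mem_union_right _ hx
  have hdA : ∀ d ∈ spt S.W (p.1 ∪ A), ∀ x ∈ gs p \ A, d x = 0 := by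
    intro d hd x hx
    refine hd.2 x fun h => ?_
    rw [← LDec_e2 hp hA] at h
    exact (Finset.mem_sdiff.1 h).2 hx
  have hvA : van S.U (p.1 ∪ A) ≤ van S.U p.1 := van_anti Finset.subset_union_left
  have hsB : spt S.W (p.2 \ A) ≤ spt S.W p.2 := spt_mono Finset.sdiff_subset
  -- `c` in the kernel, `d` in the half
  have q1 : ∀ c ∈ van S.U p.1, f c = 0 → ∀ d ∈ spt S.W (insert a (p.1 ∪ (gs p \ A) ∪ X')),
      dg v c d = 0 := by
    intro c hc hfc d hd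
    obtain ⟨c1, hc1, c2, hc2, rfl⟩ := Submodule.mem_sup.1 ((hk.hf c hc).1 hfc)
    have e1 : dg v c1 d = 0 := r2 c1 (b1 hc1) d hd (by rw [b3 c1 hc1, zero_mul])
    have e2 : dg v c2 d = 0 := z1 c2 d fun x hx => by rw [hcB c2 hc2 x hx, zero_mul]
    rw [map_add, LinearMap.add_apply, e1, e2, add_zero]
  have h00 : ∀ c ∈ van S.U p.1, f c = 0 → ∀ d ∈ spt S.W p.2, g d = 0 → dg v c d = 0 := by
    intro c hc hfc d hd hgd
    obtain ⟨d1, hd1, d2, hd2, rfl⟩ := Submodule.mem_sup.1 ((hk.hg d hd).1 hgd)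
    have e1 : dg v c d1 = 0 := z1 c d1 fun x hx => by rw [hdA d1 hd1 x hx, mul_zero]
    have e2 : dg v c d2 = 0 := q1 c hc hfc d2 (b2' hd2)
    rw [map_add, e1, e2, add_zero]
  have h0 : ∀ d ∈ spt S.W p.2, g d = 0 → dg v c₁ d = 0 := by
    intro d hd hgd
    obtain ⟨d1, hd1, d2, hd2, rfl⟩ := Submodule.mem_sup.1 ((hk.hg d hd).1 hgd)
    have e1 : dg v c₁ d1 = 0 := z1 c₁ d1 fun x hx => by rw [hdA d1 hd1 x hx, mul_zero]
    have e2 : dg v c₁ d2 = 0 := r2 c₁ b5 d2 (b2' hd2) (by rw [b4 d2 hd2, mul_zero])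
    rw [map_add, e1, e2, add_zero]
  have key := LDec_rank1 (dg v : Fm K E) (van S.U p.1) (spt S.W p.2) f g (b11 b5) (b12 b8) b7 b10 h00 h0
    (fun c hc hfc => q1 c hc hfc d₁ b8)
  have hval : dg v c₁ d₁ = -w a := by
    have e1 := hw c₁ b5 d₁ b8
    rw [LinearMap.zero_apply, LinearMap.zero_apply] at e1
    have e2 : dg w c₁ d₁ = dg v c₁ d₁ + dg (Pi.single a (w a)) c₁ d₁ := by
      rw [dg_apply, dg_apply, dg_apply, ← Finset.sum_add_distrib]
      refine Finset.sum_congr rfl fun x _ => ?_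
      by_cases h1 : x ∈ gs p \ A
      · have h2 : x ≠ a := fun h => haB (h ▸ h1)
        rw [hv1 x h1, Pi.single_eq_of_ne h2, zero_mul, add_zero]
      by_cases h3 : x = a
      · rw [hv0 x h1, h3, Pi.single_eq_same, zero_mul, zero_add]
      rw [hv0 x h1, Pi.single_eq_of_ne h3, zero_mul, add_zero]
      by_cases h2 : x ∈ X'
      · rw [b5.2 x h2, zero_mul, mul_zero]
      · have h4 : x ∉ insert a (p.1 ∪ (gs p \ A) ∪ X') := by
          intro h
          rcases Finset.mem_insert.1 h with h | h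
          · exact h3 h
          rcases Finset.mem_union.1 h with h | h
          · rcases Finset.mem_union.1 h with h | h
            · exact h2 (hX'.1 h)
            · exact h1 h
          · exact h2 h
        rw [b8.2 x h4, mul_zero, mul_zero]
    rw [e2, dg_single, b6, b9, mul_one, mul_one] at e1
    exact eq_neg_of_add_eq_zero_left e1
  have hk0 : (f c₁)⁻¹ * (g d₁)⁻¹ * dg v c₁ d₁ ≠ 0 := by
    rw [hval]
    exact mul_ne_zero (mul_ne_zero (inv_ne_zero b7) (inv_ne_zero b10)) (neg_ne_zero.2 ha)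
  refine ⟨((f c₁)⁻¹ * (g d₁)⁻¹ * dg v c₁ d₁)⁻¹, inv_ne_zero hk0, fun c hc d hd => ?_⟩
  have h5 := key c hc d hd
  have h6 : (fun x => if x ∈ gs p \ A then ((f c₁)⁻¹ * (g d₁)⁻¹ * dg v c₁ d₁)⁻¹ * w x else 0) =
      ((f c₁)⁻¹ * (g d₁)⁻¹ * dg v c₁ d₁)⁻¹ • v := by
    funext x
    rw [Pi.smul_apply, smul_eq_mul]
    by_cases h1 : x ∈ gs p \ A
    · rw [if_pos h1, hv1 x h1]
    · rw [if_neg h1, hv0 x h1, mul_zero]
  rw [h6, dg_smul, LinearMap.smul_apply, LinearMap.smul_apply, smul_eq_mul, h5, kf_apply,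
    inv_mul_cancel_left₀ hk0]

theorem s2_step (S : TP K E) {p : Itv E} (hp : p.1 ⊆ p.2) {A : Finset E} (hA : A ⊆ gs p)
    (hl : lam S.r p A = 1) {z : E} (hz : z ∈ gs p \ A) {s : Bool}
    (hl' : lam S.r (rm s z p) A = 1) {X' : Finset E} {a : E}
    (hX' : Half S.r p (gs p \ A) X' a) {T : Fm K E} (hT : InV S.U S.W p T)
    (h0 : EqOn S.U S.W (rm s z p) T 0) {k : K}
    (h1 : EqOn S.U S.W (hb p (gs p \ A) X' a) T (dg (Pi.single z k))) :
    EqOn S.U S.W p T (dg (Pi.single z k)) := by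
  have hzG : z ∈ p.2 ∧ z ∉ p.1 := Finset.mem_sdiff.1 (Finset.mem_sdiff.1 hz).1
  have hzA : z ∉ A := (Finset.mem_sdiff.1 hz).2
  have hp' : (rm s z p).1 ⊆ (rm s z p).2 := by
    cases s
    · rw [rm_false]
      exact Finset.insert_subset hzG.1 hp
    · rw [rm_true]
      intro x hx
      exact Finset.mem_erase.2 ⟨fun h => hzG.2 (h ▸ hx), hp hx⟩
  have hA' : A ⊆ gs (rm s z p) := by
    rw [gs_rm]
    intro x hx
    exact Finset.mem_erase.2 ⟨fun h => hzA (h ▸ hx), hA hx⟩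
  obtain ⟨X, b, hXb⟩ := half_exists S.rk hp' hA' hl'
  obtain ⟨hX, -, hs1, hs2⟩ := half_rm_out S.rk hp hA hz hl hl' hXb
  obtain ⟨f, g, hk⟩ := kink_exists S hp hA hl
  have hsub : Sub (hb p A X b) (rm s z p) := ⟨hs1, hs2⟩
  have e0 : EqOn S.U S.W (hb p A X b) T (dg 0) := by
    rw [dg_zero]
    exact h0.mono hsub
  obtain ⟨κ, hκ⟩ := sep_decomp S hp hA hl hk hX hX' hT e0 h1 (m := Pi.single z k)
    (fun x hx => by
      have hxz : x ≠ z := fun h => hzA (h ▸ hx)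
      rw [Pi.single_eq_of_ne hxz, Pi.zero_apply]) (fun x _ => rfl)
  obtain ⟨-, -, -, -, ⟨c, hc, -, hfc⟩, ⟨d, hd, -, hgd⟩, a11, a12⟩ := LDec_facts S hp hA hl hk hX
  have hc2 : c ∈ van S.U (rm s z p).1 := van_anti hs1 hc
  have hd2 : d ∈ spt S.W (rm s z p).2 := spt_mono hs2 hd
  have hz0 : c z * d z = 0 := by
    cases s
    · rw [rm_false] at hc2
      rw [hc2.2 z (Finset.mem_insert_self _ _), zero_mul]
    · rw [rm_true] at hd2
      rw [hd2.2 z (Finset.notMem_erase _ _), mul_zero]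
  have e1 := hκ c (a11 hc) d (a12 hd)
  rw [h0 c hc2 d hd2, LinearMap.add_apply, LinearMap.add_apply, LinearMap.smul_apply,
    LinearMap.smul_apply, kf_apply, dg_single, hz0, mul_zero, add_zero, LinearMap.zero_apply,
    LinearMap.zero_apply, smul_eq_mul] at e1
  have e2 : κ = 0 := (mul_eq_zero.1 e1.symm).resolve_right (mul_ne_zero hfc hgd)
  rw [e2, zero_smul, zero_add] at hκ
  exact hκ

/-- forms which agree on the halves up to diagonal forms -/
theorem dec_uniq (S : TP K E) {p : Itv E} (hp : p.1 ⊆ p.2) {A : Finset E} (hA : A ⊆ gs p)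
    (hl : lam S.r p A = 1) {f g : (E → K) →ₗ[K] K} (hk : IsKink S p A f g)
    {X X' : Finset E} {b a : E} (hX : Half S.r p A X b) (hX' : Half S.r p (gs p \ A) X' a)
    {T T' : Fm K E} (hT : InV S.U S.W p T) (hT' : InV S.U S.W p T')
    (h1 : EqD S.U S.W (hb p A X b) T T') (h2 : EqD S.U S.W (hb p (gs p \ A) X' a) T T') :
    ∃ k : K, EqD S.U S.W p T (T' + k • kf f g) := by
  obtain ⟨l, hl1⟩ := h1
  obtain ⟨l', hl2⟩ := h2
  have e1 : EqOn S.U S.W (hb p A X b) (T - T') (dg l) := by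
    intro c hc d hd
    rw [LinearMap.sub_apply, LinearMap.sub_apply, hl1 c hc d hd, LinearMap.add_apply,
      LinearMap.add_apply, add_sub_cancel_left]
  have e2 : EqOn S.U S.W (hb p (gs p \ A) X' a) (T - T') (dg l') := by
    intro c hc d hd
    rw [LinearMap.sub_apply, LinearMap.sub_apply, hl2 c hc d hd, LinearMap.add_apply,
      LinearMap.add_apply, add_sub_cancel_left]
  obtain ⟨k, hk1⟩ := sep_decomp S hp hA hl hk hX hX' (hT.sub hT') e1 e2
    (m := fun x => if x ∈ A then l x else l' x) (fun x hx => if_pos hx)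
    (fun x hx => if_neg (Finset.mem_sdiff.1 hx).2)
  refine ⟨k, fun x => if x ∈ A then l x else l' x, fun c hc d hd => ?_⟩
  have h3 := hk1 c hc d hd
  rw [LinearMap.sub_apply, LinearMap.sub_apply, LinearMap.add_apply, LinearMap.add_apply] at h3
  rw [LinearMap.add_apply, LinearMap.add_apply, LinearMap.add_apply, LinearMap.add_apply]
  linear_combination h3

end Pool.Agent.QU
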