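import Pool.Agent.QUL.LBase

set_option autoImplicit false

/-!
# Project QU, layer A, module LF4: the twisted pair of a quaternary code

`K` is a field of characteristic two with `x ^ 4 = x` (so `K = F_4` or `K = F_2`). `osq L` is the orthogonal space of the
Frobenius twist of `L`, `rkL L` is the rank function of the columns of `L`.

PLAN. `frob`: the Frobenius twist `{x ↦ (a x) ^ 2 | a ∈ L}` is a submodule (`(a + b) ^ 2 = a ^ 2 + b ^ 2`,
`k * a ^ 2 = (k ^ 2 * a) ^ 2`), and `a ↦ a ^ 2` is a semilinear bijection `L → frob L` which preserves zero coordinates; so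
`frob L` has the dimension of `L`, and `van (frob L) C` has the dimension of `van L C` (for instance: the image of a basis of `van L C` is
linearly independent and spans; or two inequalities, each from applying the map to a basis: `frob (frob L) = L`).
`rkL_hU`: `van L univ = ⊥`. `rkL_hW`: `spt (osq L) G` is the set of the `d` supported on `G` with `∑ x, c x * d x = 0` for `c ∈ frob L`. The
pairing between `frob L` and `V_G = {d supported on G}` (dimension `G.card`) has left kernel `van (frob L) G` and right kernel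
`spt (osq L) G`, so `finrank (frob L) - finrank (van (frob L) G) = G.card - finrank (spt (osq L) G)` (rank of a linear map and of its
transpose, for example `LinearMap.finrank_range_dualMap_eq_finrank_range`).
`rkL_tw`: let `Y`, `N`, `l` be as in `tw`, `U = L`, `W = osq L`. (1) For `a ∈ van L Y` there is `b ∈ L` with `l x * a x = (b x) ^ 2` for
`x ∈ N` and `b x = 0` for `x ∈ Y`: the vector `e` with `e x = l x * a x` on `N` and `0` elsewhere is orthogonal to
`spt (osq L) (Y ∪ N) = (frob L)^⊥ ⊓ V_{Y ∪ N}`, so it is in `frob L + {vectors that vanish on Y ∪ N}` (double orthogonal complement).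
(2) for `i ∈ N` choose `a ∈ van L (Y ∪ {i})` with `a x ≠ 0` for `x ∈ N \ {i}` (rank `r Y + 1` of `Y ∪ {i}`, every `Y ∪ {i, j}` has the rank of
`Y ∪ N`, so a vector of `van L (Y ∪ {i})` that vanishes at `j ∈ N \ {i}` vanishes on `N`). `b` from (1) vanishes on `Y` and at `i`, so
`b - μ • a` vanishes on `N` for some `μ` (choose `μ` such that it vanishes at one `j`); so `l x * a x = μ ^ 2 * (a x) ^ 2`, that is
`l x = μ ^ 2 * a x` for `x ∈ N \ {i}`. So for every `i ∈ N` either `l = 0` on `N \ {i}` or `l x ≠ 0` for all `x ∈ N \ {i}`; if some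
`l x` is zero then (take `i ≠ x`; `N` has four elements) `l = 0` on `N \ {i}` for two different `i`, so `l = 0` on `N`. Otherwise let
`i`, `j` be different elements of `N`, `a`, `μ` and `a'`, `μ'` as above: `μ ^ 2 • a - μ' ^ 2 • a'` vanishes on `Y` and at the two other elements
of `N`, so on `N`; but at `i` it is `- l i ≠ 0`. Contradiction.
-/

open Module (finrank)

namespace Pool.Agent.QU

variable {K E : Type} [Field K] [Fintype E] [DecidableEq E]

/-- the orthogonal space of the Frobenius twist of `L` -/
def osq (L : Submodule K (E → K)) : Submodule K (E → K) where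
  carrier := {d | ∀ a ∈ L, ∑ x, (a x) ^ 2 * d x = 0}
  add_mem' := by
    intro d d' h h' a ha
    have h1 := h a ha
    have h2 := h' a ha
    simp only [Pi.add_apply, mul_add, Finset.sum_add_distrib, h1, h2, add_zero]
  zero_mem' := by
    intro a _
    simp
  smul_mem' := by
    intro k d h a ha
    have h1 := h a ha
    have h2 : ∑ x, (a x) ^ 2 * (k • d) x = k * ∑ x, (a x) ^ 2 * d x := by
      rw [Finset.mul_sum]
      exact Finset.sum_congr rfl fun x _ => by rw [Pi.smul_apply, smul_eq_mul]; ring
    rw [h2, h1, mul_zero]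

/-- the rank function of the columns of `L` -/
noncomputable def rkL (L : Submodule K (E → K)) (A : Finset E) : ℤ :=
  (finrank K L : ℤ) - finrank K (van L A)

theorem rkL_hU (L : Submodule K (E → K)) (C : Finset E) :
    (finrank K (van L C) : ℤ) = rkL L Finset.univ - rkL L C := by
  have h : van L Finset.univ = ⊥ := by
    rw [eq_bot_iff]
    intro c hc
    rw [Submodule.mem_bot]
    funext x
    exact hc.2 x (Finset.mem_univ x)
  have h0 : finrank K (van L Finset.univ) = 0 := by rw [h, finrank_bot]
  unfold rkL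
  rw [h0]
  push_cast
  ring

/-- the Frobenius twist -/
private def LF4_frob (h2 : (2 : K) = 0) (L : Submodule K (E → K)) : Submodule K (E → K) where
  carrier := {c | (fun x => (c x) ^ 2) ∈ L}
  add_mem' := by
    intro a b ha hb
    have h := L.add_mem ha hb
    have e : (fun x => (a x) ^ 2) + (fun x => (b x) ^ 2) = fun x => ((a + b) x) ^ 2 := by
      funext x
      simp only [Pi.add_apply]
      linear_combination (-(a x * b x)) * h2
    rw [e] at h
    exact h
  zero_mem' := by
    have e : (fun x : E => ((0 : E → K) x) ^ 2) = 0 := by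
      funext x
      simp
    show (fun x : E => ((0 : E → K) x) ^ 2) ∈ L
    rw [e]
    exact L.zero_mem
  smul_mem' := by
    intro k a ha
    have h := L.smul_mem (k ^ 2) ha
    have e : (k ^ 2) • (fun x => (a x) ^ 2) = fun x => ((k • a) x) ^ 2 := by
      funext x
      simp only [Pi.smul_apply, smul_eq_mul]
      ring
    rw [e] at h
    exact h

private theorem LF4_mem (h2 : (2 : K) = 0) (L : Submodule K (E → K)) (c : E → K) :
    c ∈ LF4_frob h2 L ↔ (fun x => (c x) ^ 2) ∈ L := Iff.rfl

private theorem LF4_sq (h2 : (2 : K) = 0) (h4 : ∀ x : K, x ^ 4 = x) (L : Submodule K (E → K))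
    (a : E → K) (ha : a ∈ L) : (fun x => (a x) ^ 2) ∈ LF4_frob h2 L := by
  rw [LF4_mem]
  have e : (fun x => ((a x) ^ 2) ^ 2) = a := by
    funext x
    rw [← pow_mul]
    exact h4 _
  rw [e]
  exact ha

/-- the Frobenius twist preserves the dimensions -/
private theorem LF4_fin (h2 : (2 : K) = 0) (h4 : ∀ x : K, x ^ 4 = x) (L : Submodule K (E → K))
    (C : Finset E) : finrank K (van L C) = finrank K (van (LF4_frob h2 L) C) := by
  have hsq : ∀ a b : K, (a + b) ^ 2 = a ^ 2 + b ^ 2 := fun a b => by
    linear_combination (a * b) * h2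
  let j : van L C ≃+ van (LF4_frob h2 L) C :=
    { toFun := fun a => ⟨fun x => (a.1 x) ^ 2, LF4_sq h2 h4 L a.1 a.2.1, fun x hx => by
        show (a.1 x) ^ 2 = 0
        rw [a.2.2 x hx]
        ring⟩
      invFun := fun c => ⟨fun x => (c.1 x) ^ 2, c.2.1, fun x hx => by
        show (c.1 x) ^ 2 = 0
        rw [c.2.2 x hx]
        ring⟩
      left_inv := fun a => by
        apply Subtype.ext
        funext x
        show ((a.1 x) ^ 2) ^ 2 = a.1 x
        rw [← pow_mul]
        exact h4 _
      right_inv := fun a => by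
        apply Subtype.ext
        funext x
        show ((a.1 x) ^ 2) ^ 2 = a.1 x
        rw [← pow_mul]
        exact h4 _
      map_add' := fun a b => by
        apply Subtype.ext
        funext x
        exact hsq _ _ }
  have hi : Function.Bijective (fun k : K => k ^ 2) := by
    have hinv : Function.Involutive (fun k : K => k ^ 2) := by
      intro k
      show (k ^ 2) ^ 2 = k
      rw [← pow_mul]
      exact h4 k
    exact hinv.bijective
  have h := rank_eq_of_equiv_equiv (fun k : K => k ^ 2) j hi (by
    intro k a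
    apply Subtype.ext
    funext x
    show (k * a.1 x) ^ 2 = k ^ 2 * (a.1 x) ^ 2
    ring)
  unfold Module.finrank
  rw [h]

/-- the restriction to a set of coordinates -/
private def LF4_res (K : Type) [Field K] {E : Type} (G : Finset E) : (E → K) →ₗ[K] (G → K) :=
  LinearMap.funLeft K K Subtype.val

private theorem LF4_res_apply (G : Finset E) (c : E → K) (x : G) : LF4_res K G c x = c x.1 := rfl

private theorem LF4_finR (M : Submodule K (E → K)) (G : Finset E) :
    finrank K (M.map (LF4_res K G)) + finrank K (van M G) = finrank K M := by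
  have h := LinearMap.finrank_range_add_finrank_ker ((LF4_res K G).comp M.subtype)
  have h1 : LinearMap.range ((LF4_res K G).comp M.subtype) = M.map (LF4_res K G) := by
    rw [LinearMap.range_comp, Submodule.range_subtype]
  have h3 : van M G ≤ M := fun c hc => hc.1
  have h2 : LinearMap.ker ((LF4_res K G).comp M.subtype) = (van M G).comap M.subtype := by
    ext c
    rw [LinearMap.mem_ker, Submodule.mem_comap, mem_van]
    constructor
    · intro hc
      exact ⟨c.2, fun x hx => congrFun hc ⟨x, hx⟩⟩
    · intro hc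
      funext x
      exact hc.2 x.1 x.2
  rw [h1, h2, (Submodule.comapSubtypeEquivOfLe h3).finrank_eq] at h
  exact h

/-- extension by zero -/
private def LF4_ext {G : Finset E} (d : G → K) : E → K :=
  fun x => if h : x ∈ G then d ⟨x, h⟩ else 0

private theorem LF4_ext_mem {G : Finset E} (d : G → K) (x : G) : LF4_ext d x.1 = d x := by
  unfold LF4_ext
  rw [dif_pos x.2]

private theorem LF4_sum {G : Finset E} (c : E → K) (d : E → K) (hd : ∀ x, x ∉ G → d x = 0) :
    ∑ x, c x * d x = ∑ x : G, c x.1 * d x.1 := by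
  rw [Finset.sum_coe_sort G (fun x => c x * d x)]
  exact (Finset.sum_subset (Finset.subset_univ G) fun x _ hx => by rw [hd x hx, mul_zero]).symm

private theorem LF4_osq (h2 : (2 : K) = 0) (h4 : ∀ x : K, x ^ 4 = x) (L : Submodule K (E → K))
    (d : E → K) : d ∈ osq L ↔ ∀ c ∈ LF4_frob h2 L, ∑ x, c x * d x = 0 := by
  constructor
  · intro h c hc
    have h1 := h _ hc
    have e : ∑ x, ((fun x => (c x) ^ 2) x) ^ 2 * d x = ∑ x, c x * d x := by
      refine Finset.sum_congr rfl fun x _ => ?_
      show ((c x) ^ 2) ^ 2 * d x = c x * d x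
      rw [← pow_mul]
      show (c x) ^ 4 * d x = c x * d x
      rw [h4]
    rw [e] at h1
    exact h1
  · intro h a ha
    exact h _ (LF4_sq h2 h4 L a ha)

/-- an element of the orthogonal space of the restriction gives an element of `spt` -/
private theorem LF4_extmem (h2 : (2 : K) = 0) (h4 : ∀ x : K, x ^ 4 = x)
    (L : Submodule K (E → K)) {G : Finset E} (d : G → K)
    (hd : ∀ c ∈ (LF4_frob h2 L).map (LF4_res K G), ∑ x, c x * d x = 0) :
    LF4_ext d ∈ spt (osq L) G := by
  have h0 : ∀ x, x ∉ G → LF4_ext d x = 0 := fun x hx => by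
    unfold LF4_ext
    rw [dif_neg hx]
  refine ⟨?_, h0⟩
  rw [LF4_osq h2 h4]
  intro c hc
  rw [LF4_sum c _ h0]
  have h := hd _ (Submodule.mem_map_of_mem hc)
  refine Eq.trans (Finset.sum_congr rfl fun x _ => ?_) h
  rw [LF4_ext_mem, LF4_res_apply]

theorem rkL_hW (h2 : (2 : K) = 0) (h4 : ∀ x : K, x ^ 4 = x) (L : Submodule K (E → K))
    (G : Finset E) : (finrank K (spt (osq L) G) : ℤ) = G.card - rkL L G := by
  set R := (LF4_frob h2 L).map (LF4_res K G) with hR
  -- the linear map to the annihilator of the restriction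
  let φ : spt (osq L) G →ₗ[K] Module.Dual K (G → K) :=
    ((dotProductEquiv K G).toLinearMap.comp (LF4_res K G)).comp (spt (osq L) G).subtype
  have hφ : ∀ (d : spt (osq L) G) (w : G → K), φ d w = ∑ x : G, d.1 x.1 * w x := fun d w => rfl
  have hmem : ∀ d, φ d ∈ R.dualAnnihilator := by
    intro d
    rw [Submodule.mem_dualAnnihilator]
    rintro w hw
    obtain ⟨c, hc, rfl⟩ := Submodule.mem_map.1 hw
    rw [hφ]
    have h1 := (LF4_osq h2 h4 L d.1).1 d.2.1 c hc
    rw [LF4_sum c d.1 d.2.2] at h1
    refine Eq.trans (Finset.sum_congr rfl fun x _ => ?_) h1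
    rw [LF4_res_apply, mul_comm]
  let ψ : spt (osq L) G →ₗ[K] R.dualAnnihilator := LinearMap.codRestrict _ φ hmem
  have hinj : Function.Injective ψ := by
    rw [injective_iff_map_eq_zero]
    intro d hd
    have h1 : φ d = 0 := congrArg Subtype.val hd
    have h3 : LF4_res K G d.1 = 0 := by
      apply (dotProductEquiv K G).injective
      rw [map_zero]
      exact h1
    apply Subtype.ext
    funext x
    by_cases hx : x ∈ G
    · exact congrFun h3 ⟨x, hx⟩
    · exact d.2.2 x hx
  have hsurj : Function.Surjective ψ := by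
    rintro ⟨f, hf⟩
    obtain ⟨d, rfl⟩ := (dotProductEquiv K G).surjective f
    rw [Submodule.mem_dualAnnihilator] at hf
    have h1 : LF4_ext d ∈ spt (osq L) G := by
      apply LF4_extmem h2 h4 L d
      intro c hc
      have h3 : ∑ x, d x * c x = 0 := hf c hc
      refine Eq.trans (Finset.sum_congr rfl fun x _ => ?_) h3
      rw [mul_comm]
    refine ⟨⟨LF4_ext d, h1⟩, Subtype.ext ?_⟩
    show (dotProductEquiv K G) (LF4_res K G (LF4_ext d)) = (dotProductEquiv K G) d
    congr 1
    funext x
    exact LF4_ext_mem d x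
  have h5 : finrank K (spt (osq L) G) = finrank K R.dualAnnihilator :=
    (LinearEquiv.ofBijective ψ ⟨hinj, hsurj⟩).finrank_eq
  have h6 := Subspace.finrank_add_finrank_dualAnnihilator_eq R
  rw [Module.finrank_fintype_fun_eq_card, Fintype.card_coe] at h6
  have h7 := LF4_finR (LF4_frob h2 L) G
  have h8 : finrank K (LF4_frob h2 L) = finrank K L := by
    have e1 : van L ∅ = L := by
      ext c
      simp [mem_van]
    have e2 : van (LF4_frob h2 L) ∅ = LF4_frob h2 L := by
      ext c
      simp [mem_van]
    have := LF4_fin h2 h4 L ∅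
    rw [e1, e2] at this
    exact this.symm
  have h9 := LF4_fin h2 h4 L G
  unfold rkL
  rw [h5]
  rw [← hR] at h7
  omega

/-- part (1) of the plan -/
private theorem LF4_one (h2 : (2 : K) = 0) (h4 : ∀ x : K, x ^ 4 = x) (L : Submodule K (E → K))
    (Y G : Finset E) (l : E → K) (hl : EqOn L (osq L) (Y, G) (dg l) 0) (a : E → K)
    (ha : a ∈ van L Y) : ∃ b ∈ L, ∀ x ∈ G, l x * a x = (b x) ^ 2 := by
  set R := (LF4_frob h2 L).map (LF4_res K G) with hR
  have key : LF4_res K G (fun x => l x * a x) ∈ R := by
    by_contra hcon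
    obtain ⟨f, hf, hRf⟩ := Submodule.exists_le_ker_of_notMem hcon
    obtain ⟨d, rfl⟩ := (dotProductEquiv K G).surjective f
    apply hf
    have h1 : LF4_ext d ∈ spt (osq L) G := by
      apply LF4_extmem h2 h4 L d
      intro c hc
      have h3 : ∑ x, d x * c x = 0 := hRf hc
      refine Eq.trans (Finset.sum_congr rfl fun x _ => ?_) h3
      rw [mul_comm]
    have h5 := hl a ha _ h1
    rw [dg_apply, LinearMap.zero_apply, LinearMap.zero_apply] at h5
    have h6 : ∑ x, (fun x => l x * a x) x * LF4_ext d x = 0 := by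
      refine Eq.trans (Finset.sum_congr rfl fun x _ => ?_) h5
      show l x * a x * _ = _
      ring
    rw [LF4_sum _ _ h1.2] at h6
    show ∑ x, d x * (LF4_res K G (fun x => l x * a x)) x = 0
    refine Eq.trans (Finset.sum_congr rfl fun x _ => ?_) h6
    rw [LF4_res_apply, LF4_ext_mem, mul_comm]
  obtain ⟨c, hc, hce⟩ := Submodule.mem_map.1 key
  refine ⟨_, (LF4_mem h2 L c).1 hc, fun x hx => ?_⟩
  have h7 := congrFun hce ⟨x, hx⟩
  rw [LF4_res_apply, LF4_res_apply] at h7
  show l x * a x = ((c x) ^ 2) ^ 2
  rw [← pow_mul]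
  show l x * a x = (c x) ^ 4
  rw [h4]
  exact h7.symm

/-- one more zero coordinate lowers the dimension by at most one -/
private theorem LF4_drop (L : Submodule K (E → K)) (Y : Finset E) (i : E) :
    finrank K (van L Y) ≤ finrank K (van L (Y ∪ {i})) + 1 := by
  let f : van L Y →ₗ[K] K := (LinearMap.proj i).comp (van L Y).subtype
  have h := LinearMap.finrank_range_add_finrank_ker f
  have h1 : finrank K (LinearMap.range f) ≤ 1 := by
    refine (Submodule.finrank_le _).trans ?_
    rw [Module.finrank_self]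
  have h3 : van L (Y ∪ {i}) ≤ van L Y := van_anti Finset.subset_union_left
  have h5 : LinearMap.ker f = (van L (Y ∪ {i})).comap (van L Y).subtype := by
    ext c
    rw [LinearMap.mem_ker, Submodule.mem_comap, mem_van]
    constructor
    · intro hc
      refine ⟨c.2.1, fun x hx => ?_⟩
      rcases Finset.mem_union.1 hx with hx | hx
      · exact c.2.2 x hx
      · rw [Finset.mem_singleton.1 hx]
        exact hc
    · intro hc
      exact hc.2 i (Finset.mem_union_right _ (Finset.mem_singleton_self i))
  rw [h5, (Submodule.comapSubtypeEquivOfLe h3).finrank_eq] at h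
  omega

theorem rkL_tw (h2 : (2 : K) = 0) (h4 : ∀ x : K, x ^ 4 = x) (L : Submodule K (E → K))
    (Y N : Finset E) (hYN : Disjoint Y N) (hN : N.card = 4)
    (hr : rkL L (Y ∪ N) = rkL L Y + 2)
    (hp : ∀ i ∈ N, ∀ j ∈ N, i ≠ j → rkL L (Y ∪ {i, j}) = rkL L Y + 2)
    (l : E → K) (hl : EqOn L (osq L) (Y, Y ∪ N) (dg l) 0) : ∀ x ∈ N, l x = 0 := by
  unfold rkL at hr hp
  -- two zeros in `N` force all of them
  have hF : ∀ i ∈ N, ∀ j ∈ N, i ≠ j → ∀ c ∈ van L (Y ∪ {i, j}), ∀ x ∈ N, c x = 0 := by
    intro i hi j hj hij c hc x hx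
    have hsub : Y ∪ {i, j} ⊆ Y ∪ N := by
      apply Finset.union_subset_union_right
      intro y hy
      rcases Finset.mem_insert.1 hy with rfl | hy
      · exact hi
      · rw [Finset.mem_singleton.1 hy]
        exact hj
    have hle : van L (Y ∪ N) ≤ van L (Y ∪ {i, j}) := van_anti hsub
    have hfin : finrank K (van L (Y ∪ N)) = finrank K (van L (Y ∪ {i, j})) := by
      have := hp i hi j hj hij
      omega
    have heq := Submodule.eq_of_le_of_finrank_eq hle hfin
    rw [← heq] at hc
    exact hc.2 x (Finset.mem_union_right _ hx)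
  -- the vectors
  have hG : ∀ i ∈ N, ∃ c ∈ van L (Y ∪ {i}), ∀ x ∈ N, x ≠ i → l x = c x := by
    intro i hi
    have h1 := LF4_drop L Y i
    have hle : van L (Y ∪ N) ≤ van L (Y ∪ {i}) :=
      van_anti (Finset.union_subset_union_right (Finset.singleton_subset_iff.2 hi))
    have hlt : van L (Y ∪ N) < van L (Y ∪ {i}) := by
      refine lt_of_le_of_ne hle fun h => ?_
      rw [← h] at h1
      omega
    obtain ⟨a, ha, ha'⟩ := SetLike.exists_of_lt hlt
    have hane : ∀ j ∈ N, j ≠ i → a j ≠ 0 := by
      intro j hj hji h0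
      apply ha'
      refine ⟨ha.1, fun x hx => ?_⟩
      rcases Finset.mem_union.1 hx with hx | hx
      · exact ha.2 x (Finset.mem_union_left _ hx)
      · apply hF i hi j hj hji.symm a _ x hx
        refine ⟨ha.1, fun y hy => ?_⟩
        rcases Finset.mem_union.1 hy with hy | hy
        · exact ha.2 y (Finset.mem_union_left _ hy)
        · rcases Finset.mem_insert.1 hy with rfl | hy
          · exact ha.2 _ (Finset.mem_union_right _ (Finset.mem_singleton_self _))
          · rw [Finset.mem_singleton.1 hy]
            exact h0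
    have haY : a ∈ van L Y := ⟨ha.1, fun x hx => ha.2 x (Finset.mem_union_left _ hx)⟩
    have hai : a i = 0 := ha.2 i (Finset.mem_union_right _ (Finset.mem_singleton_self _))
    obtain ⟨b, hb, hbe⟩ := LF4_one h2 h4 L Y (Y ∪ N) l hl a haY
    have hb0 : ∀ x ∈ Y ∪ N, a x = 0 → b x = 0 := by
      intro x hx h0
      have h3 := hbe x hx
      rw [h0, mul_zero] at h3
      exact pow_eq_zero_iff (two_ne_zero) |>.1 h3.symm
    obtain ⟨j, hj, hji⟩ : ∃ j ∈ N, j ≠ i := Finset.exists_mem_ne (by omega) i
    have haj := hane j hj hji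
    have hv : b - (b j / a j) • a ∈ van L (Y ∪ {i, j}) := by
      refine ⟨L.sub_mem hb (L.smul_mem _ ha.1), fun x hx => ?_⟩
      rw [Pi.sub_apply, Pi.smul_apply, smul_eq_mul]
      rcases Finset.mem_union.1 hx with hx | hx
      · have h0 := haY.2 x hx
        rw [h0, hb0 x (Finset.mem_union_left _ hx) h0]
        ring
      · rcases Finset.mem_insert.1 hx with rfl | hx
        · rw [hai, hb0 _ (Finset.mem_union_right _ hi) hai]
          ring
        · rw [Finset.mem_singleton.1 hx]
          field_simp
          ring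
    have hv' := hF i hi j hj hji.symm _ hv
    refine ⟨((b j / a j) ^ 2) • a, ⟨L.smul_mem _ ha.1, fun x hx => ?_⟩, fun x hx hxi => ?_⟩
    · rw [Pi.smul_apply, ha.2 x hx, smul_zero]
    · have h3 := hv' x hx
      rw [Pi.sub_apply, Pi.smul_apply, smul_eq_mul, sub_eq_zero] at h3
      have h5 := hbe x (Finset.mem_union_right _ hx)
      rw [h3] at h5
      have h6 := hane x hx hxi
      rw [Pi.smul_apply, smul_eq_mul]
      apply mul_right_cancel₀ h6
      rw [h5]
      ring
  intro i hi
  obtain ⟨j, hj, hji⟩ : ∃ j ∈ N, j ≠ i := Finset.exists_mem_ne (by omega) i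
  have hcard : ((N.erase i).erase j).card = 2 := by
    rw [Finset.card_erase_of_mem (Finset.mem_erase.2 ⟨hji, hj⟩), Finset.card_erase_of_mem hi, hN]
  obtain ⟨k, m, hkm, hkme⟩ := Finset.card_eq_two.1 hcard
  have hk : k ∈ (N.erase i).erase j := by
    rw [hkme]
    exact Finset.mem_insert_self _ _
  have hm : m ∈ (N.erase i).erase j := by
    rw [hkme]
    exact Finset.mem_insert_of_mem (Finset.mem_singleton_self _)
  rw [Finset.mem_erase, Finset.mem_erase] at hk hm
  obtain ⟨ci, hci, hcil⟩ := hG i hi
  obtain ⟨cj, hcj, hcjl⟩ := hG j hj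
  have hv : ci - cj ∈ van L (Y ∪ {k, m}) := by
    refine ⟨L.sub_mem hci.1 hcj.1, fun x hx => ?_⟩
    rw [Pi.sub_apply]
    rcases Finset.mem_union.1 hx with hx | hx
    · rw [hci.2 x (Finset.mem_union_left _ hx), hcj.2 x (Finset.mem_union_left _ hx), sub_zero]
    · rcases Finset.mem_insert.1 hx with rfl | hx
      · rw [← hcil _ hk.2.2 hk.2.1, ← hcjl _ hk.2.2 hk.1, sub_self]
      · rw [Finset.mem_singleton.1 hx, ← hcil _ hm.2.2 hm.2.1, ← hcjl _ hm.2.2 hm.1, sub_self]
  have h5 := hF k hk.2.2 m hm.2.2 hkm _ hv i hi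
  rw [Pi.sub_apply, hci.2 i (Finset.mem_union_right _ (Finset.mem_singleton_self _)),
    ← hcjl i hi hji.symm, zero_sub, neg_eq_zero] at h5
  exact h5

/-- the twisted pair of a quaternary code -/
noncomputable def tp (h2 : (2 : K) = 0) (h4 : ∀ x : K, x ^ 4 = x) (L : Submodule K (E → K)) :
    TP K E where
  U := L
  W := osq L
  r := rkL L
  hU := rkL_hU L
  hW := rkL_hW h2 h4 L
  tw := fun Y N h1 h3 h5 h6 l hl => rkL_tw h2 h4 L Y N h1 h3 h5 h6 l hl

end Pool.Agent.QU
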