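import Pool.Agent.QUL.LKink
import Pool.Agent.QUL.LHalf

set_option autoImplicit false

/-!
# Project QU, layer A, module LHalfV: the functionals of a separation on a half

PLAN (`C = p.1`, `G = p.2`, `B = gs p \ A`, `C ∪ B = G \ A`). By `kink_res_f` for `X`: with
`r (C ∪ A ∪ X) = r (C ∪ A) + r X - r C`, `C ∪ B ∪ X = C ∪ B` and `lam r p A = 1` the functional `f` is not zero on `van U X`; for
`insert b X` the equation of `kink_res_f` holds, so `f` is zero on `van U (insert b X)`. So for `c₀ ∈ van U X` with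
`f c₀ ≠ 0` we have `c₀ b ≠ 0` (otherwise `c₀ ∈ van U (insert b X)`), scale to `c₀ b = 1`; for `c ∈ van U X` the vector
`c - c b • c₀` is in `van U (insert b X)`, so `f c = c b * f c₀`, `α = f c₀`.
For `Y = insert b (C ∪ A ∪ X)`: `Y ∩ (C ∪ A) = C ∪ A`, `Y ∩ (C ∪ B) = insert b X`, so `g` is not zero on `spt W Y` (`kink_res_g`), and it
is zero on `spt W (Y.erase b)`, `Y.erase b = C ∪ A ∪ X`. The same argument gives `β`.
`half_proj_f`: take `c₀ ∈ van U X` with `f c₀ = 1`; `c - f c • c₀` is in the kernel, so it is `a + b'` with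
`a ∈ van U (C ∪ A)` and `b' ∈ van U (C ∪ B)`; `c' = f c • c₀ + b'`. `half_proj_g`: `d - g d • d₀ = a + b'` with `a ∈ spt W (C ∪ A)`,
`b' ∈ spt W (C ∪ B)`; `d' = g d • d₀ + a`.
-/

open Module (finrank)

namespace Pool.Agent.QU

variable {K E : Type} [Field K] [Fintype E] [DecidableEq E]

theorem half_val (S : TP K E) {p : Itv E} (hp : p.1 ⊆ p.2) {A : Finset E} (hA : A ⊆ gs p)
    (hl : lam S.r p A = 1) {f g : (E → K) →ₗ[K] K} (hk : IsKink S p A f g) {X : Finset E} {b : E}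
    (hh : Half S.r p A X b) :
    ∃ α β : K, α ≠ 0 ∧ β ≠ 0 ∧ (∀ c ∈ van S.U X, f c = α * c b) ∧
      (∀ d ∈ spt S.W (insert b (p.1 ∪ A ∪ X)), g d = β * d b) ∧
      (∃ c ∈ van S.U X, c b = 1) ∧ ∃ d ∈ spt S.W (insert b (p.1 ∪ A ∪ X)), d b = 1 := by
  obtain ⟨h1, h2, h3, h4, h5, h6⟩ := hh
  have hA2 : ∀ y ∈ A, y ∈ p.2 ∧ y ∉ p.1 := fun y hy => Finset.mem_sdiff.1 (hA hy)
  have hb2 : b ∈ p.2 ∧ b ∉ A := Finset.mem_sdiff.1 h3
  have hbC : b ∉ p.1 := fun h => h4 (h1 h)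
  have hX2 : ∀ y ∈ X, y ∈ p.2 ∧ y ∉ A := fun y hy => Finset.mem_sdiff.1 (h2 hy)
  have hl' : S.r (p.1 ∪ A) + S.r (p.2 \ A) - S.r p.2 - S.r p.1 = 1 := hl
  have hXG : X ⊆ p.2 := fun y hy => (hX2 y hy).1
  have hX'G : insert b X ⊆ p.2 := by
    intro y hy
    rcases Finset.mem_insert.1 hy with rfl | hy
    · exact hb2.1
    · exact hXG hy
  have e1 : p.2 \ A ∪ X = p.2 \ A := Finset.union_eq_left.2 h2
  have e2 : p.2 \ A ∪ insert b X = p.2 \ A :=
    Finset.union_eq_left.2 (Finset.insert_subset h3 h2)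
  have e3 : p.1 ∪ A ∪ insert b X = insert b (p.1 ∪ A ∪ X) := Finset.union_insert _ _ _
  -- the functional f
  have hf0 : ¬ ∀ c ∈ van S.U X, f c = 0 := by
    intro h
    have h7 := (kink_res_f S hp hA hk h1 hXG).1 h
    rw [e1] at h7
    linarith
  have hf1 : ∀ c ∈ van S.U (insert b X), f c = 0 := by
    refine (kink_res_f S hp hA hk (h1.trans (Finset.subset_insert _ _)) hX'G).2 ?_
    rw [e2, e3]
    linarith
  -- the functional g
  set Y : Finset E := insert b (p.1 ∪ A ∪ X) with hY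
  have hCY : p.1 ⊆ Y := by
    intro y hy
    exact Finset.mem_insert_of_mem (Finset.mem_union_left _ (Finset.mem_union_left _ hy))
  have hYG : Y ⊆ p.2 := by
    intro y hy
    rcases Finset.mem_insert.1 hy with rfl | hy
    · exact hb2.1
    · rcases Finset.mem_union.1 hy with hy | hy
      · rcases Finset.mem_union.1 hy with hy | hy
        · exact hp hy
        · exact (hA2 y hy).1
      · exact hXG hy
  have hCZ : p.1 ⊆ p.1 ∪ A ∪ X := fun y hy =>
    Finset.mem_union_left _ (Finset.mem_union_left _ hy)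
  have hZG : p.1 ∪ A ∪ X ⊆ p.2 := (Finset.subset_insert _ _).trans hYG
  have e4 : (p.1 ∪ A) ∩ Y = p.1 ∪ A := by
    refine Finset.inter_eq_left.2 ?_
    intro y hy
    exact Finset.mem_insert_of_mem (Finset.mem_union_left _ hy)
  have e5 : (p.2 \ A) ∩ Y = insert b X := by
    ext y
    have q1 : y ∈ p.1 → y ∈ X := fun h => h1 h
    have q2 := hX2 y
    simp only [hY, Finset.mem_inter, Finset.mem_sdiff, Finset.mem_insert, Finset.mem_union]
    constructor
    · rintro ⟨⟨-, h8⟩, h9 | ⟨h9 | h9⟩ | h9⟩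
      · exact Or.inl h9
      · exact Or.inr (q1 h9)
      · exact absurd h9 h8
      · exact Or.inr h9
    · rintro (h8 | h8)
      · rw [h8]
        exact ⟨hb2, Or.inl rfl⟩
      · exact ⟨q2 h8, Or.inr (Or.inr h8)⟩
  have e6 : (p.1 ∪ A) ∩ (p.1 ∪ A ∪ X) = p.1 ∪ A :=
    Finset.inter_eq_left.2 Finset.subset_union_left
  have e7 : (p.2 \ A) ∩ (p.1 ∪ A ∪ X) = X := by
    ext y
    have q1 : y ∈ p.1 → y ∈ X := fun h => h1 h
    have q2 := hX2 y
    simp only [Finset.mem_inter, Finset.mem_sdiff, Finset.mem_union]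
    constructor
    · rintro ⟨⟨-, h8⟩, ⟨h9 | h9⟩ | h9⟩
      · exact q1 h9
      · exact absurd h9 h8
      · exact h9
    · intro h8
      exact ⟨q2 h8, Or.inr h8⟩
  have hg0 : ¬ ∀ d ∈ spt S.W Y, g d = 0 := by
    intro h
    have h7 := (kink_res_g S hp hA hk hCY hYG).1 h
    rw [e4, e5] at h7
    linarith
  have hg1 : ∀ d ∈ spt S.W (p.1 ∪ A ∪ X), g d = 0 := by
    refine (kink_res_g S hp hA hk hCZ hZG).2 ?_
    rw [e6, e7]
    linarith
  push Not at hf0 hg0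
  obtain ⟨c0, hc0, hfc⟩ := hf0
  obtain ⟨d0, hd0, hgd⟩ := hg0
  have hcb : c0 b ≠ 0 := by
    intro h
    refine hfc (hf1 c0 ⟨hc0.1, fun x hx => ?_⟩)
    rcases Finset.mem_insert.1 hx with rfl | hx
    · exact h
    · exact hc0.2 x hx
  have hdb : d0 b ≠ 0 := by
    intro h
    refine hgd (hg1 d0 ⟨hd0.1, fun x hx => ?_⟩)
    by_cases hxb : x = b
    · rw [hxb]; exact h
    · exact hd0.2 x fun hx' => hx (Finset.mem_of_mem_insert_of_ne hx' hxb)
  have hc1 : (c0 b)⁻¹ • c0 ∈ van S.U X := (van S.U X).smul_mem _ hc0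
  have hd1 : (d0 b)⁻¹ • d0 ∈ spt S.W Y := (spt S.W Y).smul_mem _ hd0
  refine ⟨(c0 b)⁻¹ * f c0, (d0 b)⁻¹ * g d0, mul_ne_zero (inv_ne_zero hcb) hfc,
    mul_ne_zero (inv_ne_zero hdb) hgd, fun c hc => ?_, fun d hd => ?_,
    ⟨_, hc1, ?_⟩, _, hd1, ?_⟩
  · have h7 : c - c b • ((c0 b)⁻¹ • c0) ∈ van S.U (insert b X) := by
      have h8 : c - c b • ((c0 b)⁻¹ • c0) ∈ van S.U X :=
        (van S.U X).sub_mem hc ((van S.U X).smul_mem _ hc1)
      refine ⟨h8.1, fun x hx => ?_⟩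
      rcases Finset.mem_insert.1 hx with rfl | hx
      · rw [Pi.sub_apply, Pi.smul_apply, Pi.smul_apply, smul_eq_mul, smul_eq_mul,
          inv_mul_cancel₀ hcb, mul_one, sub_self]
      · exact h8.2 x hx
    have h9 := hf1 _ h7
    rw [map_sub, map_smul, map_smul, smul_eq_mul, smul_eq_mul, sub_eq_zero] at h9
    rw [h9, mul_comm]
  · have h7 : d - d b • ((d0 b)⁻¹ • d0) ∈ spt S.W (p.1 ∪ A ∪ X) := by
      have h8 : d - d b • ((d0 b)⁻¹ • d0) ∈ spt S.W Y :=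
        (spt S.W Y).sub_mem hd ((spt S.W Y).smul_mem _ hd1)
      refine ⟨h8.1, fun x hx => ?_⟩
      by_cases hxb : x = b
      · rw [hxb, Pi.sub_apply, Pi.smul_apply, Pi.smul_apply, smul_eq_mul, smul_eq_mul,
          inv_mul_cancel₀ hdb, mul_one, sub_self]
      · exact h8.2 x fun hx' => hx (Finset.mem_of_mem_insert_of_ne hx' hxb)
    have h9 := hg1 _ h7
    rw [map_sub, map_smul, map_smul, smul_eq_mul, smul_eq_mul, sub_eq_zero] at h9
    rw [h9, mul_comm]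
  · rw [Pi.smul_apply, smul_eq_mul, inv_mul_cancel₀ hcb]
  · rw [Pi.smul_apply, smul_eq_mul, inv_mul_cancel₀ hdb]

/-- every vector of the box is on `A` equal to a vector of the half -/
theorem half_proj_f (S : TP K E) {p : Itv E} (hp : p.1 ⊆ p.2) {A : Finset E} (hA : A ⊆ gs p)
    (hl : lam S.r p A = 1) {f g : (E → K) →ₗ[K] K} (hk : IsKink S p A f g) {X : Finset E} {b : E}
    (hh : Half S.r p A X b) {c : E → K} (hc : c ∈ van S.U p.1) :
    ∃ c' ∈ van S.U X, (∀ x ∈ A, c' x = c x) ∧ f c' = f c := by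
  obtain ⟨α, β, hα, -, hf, -, ⟨c0, hc0, hc0b⟩, -⟩ := half_val S hp hA hl hk hh
  obtain ⟨h1, h2, -⟩ := hh
  have hfc0 : f c0 = α := by rw [hf c0 hc0, hc0b, mul_one]
  have hc0' : c0 ∈ van S.U p.1 := van_anti h1 hc0
  have h3 : c - (f c / α) • c0 ∈ van S.U p.1 :=
    (van S.U p.1).sub_mem hc ((van S.U p.1).smul_mem _ hc0')
  have h4 : f (c - (f c / α) • c0) = 0 := by
    rw [map_sub, map_smul, hfc0, smul_eq_mul, div_mul_cancel₀ _ hα, sub_self]
  obtain ⟨a, ha, b', hb', hab⟩ := Submodule.mem_sup.1 ((hk.hf _ h3).1 h4)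
  have ha' : a ∈ van S.U p.1 := van_anti Finset.subset_union_left ha
  have hfa : f a = 0 := (hk.hf a ha').2 (Submodule.mem_sup_left ha)
  have h5 : (f c / α) • c0 + b' = c - a := by
    rw [eq_sub_iff_add_eq, add_assoc, add_comm b' a, hab]
    abel
  refine ⟨(f c / α) • c0 + b', ?_, fun x hx => ?_, ?_⟩
  · exact (van S.U X).add_mem ((van S.U X).smul_mem _ hc0) (van_anti h2 hb')
  · rw [h5, Pi.sub_apply, ha.2 x (Finset.mem_union_right _ hx), sub_zero]
  · rw [h5, map_sub, hfa, sub_zero]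

theorem half_proj_g (S : TP K E) {p : Itv E} (hp : p.1 ⊆ p.2) {A : Finset E} (hA : A ⊆ gs p)
    (hl : lam S.r p A = 1) {f g : (E → K) →ₗ[K] K} (hk : IsKink S p A f g) {X : Finset E} {b : E}
    (hh : Half S.r p A X b) {d : E → K} (hd : d ∈ spt S.W p.2) :
    ∃ d' ∈ spt S.W (insert b (p.1 ∪ A ∪ X)), (∀ x ∈ A, d' x = d x) ∧ g d' = g d := by
  obtain ⟨α, β, -, hβ, -, hg, -, ⟨d0, hd0, hd0b⟩⟩ := half_val S hp hA hl hk hh
  obtain ⟨h1, h2, h3', -⟩ := hh
  have hgd0 : g d0 = β := by rw [hg d0 hd0, hd0b, mul_one]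
  have hYG : insert b (p.1 ∪ A ∪ X) ⊆ p.2 := by
    intro y hy
    rcases Finset.mem_insert.1 hy with rfl | hy
    · exact (Finset.mem_sdiff.1 h3').1
    · rcases Finset.mem_union.1 hy with hy | hy
      · rcases Finset.mem_union.1 hy with hy | hy
        · exact hp hy
        · exact (Finset.mem_sdiff.1 (hA hy)).1
      · exact (Finset.mem_sdiff.1 (h2 hy)).1
  have hd0' : d0 ∈ spt S.W p.2 := spt_mono hYG hd0
  have h3 : d - (g d / β) • d0 ∈ spt S.W p.2 :=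
    (spt S.W p.2).sub_mem hd ((spt S.W p.2).smul_mem _ hd0')
  have h4 : g (d - (g d / β) • d0) = 0 := by
    rw [map_sub, map_smul, hgd0, smul_eq_mul, div_mul_cancel₀ _ hβ, sub_self]
  obtain ⟨a, ha, b', hb', hab⟩ := Submodule.mem_sup.1 ((hk.hg _ h3).1 h4)
  have hb2 : b' ∈ spt S.W p.2 := spt_mono Finset.sdiff_subset hb'
  have hgb : g b' = 0 := (hk.hg b' hb2).2 (Submodule.mem_sup_right hb')
  have h5 : (g d / β) • d0 + a = d - b' := by
    rw [eq_sub_iff_add_eq, add_assoc, hab]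
    abel
  refine ⟨(g d / β) • d0 + a, ?_, fun x hx => ?_, ?_⟩
  · refine (spt S.W _).add_mem ((spt S.W _).smul_mem _ hd0) (spt_mono ?_ ha)
    exact Finset.subset_union_left.trans (Finset.subset_insert _ _)
  · rw [h5, Pi.sub_apply, hb'.2 x (fun h => (Finset.mem_sdiff.1 h).2 hx), sub_zero]
  · rw [h5, map_sub, hgb, sub_zero]

end Pool.Agent.QU
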