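import Pool.Agent.QUL.LRk
import Pool.Agent.QUL.LTwo

set_option autoImplicit false

/-!
# Project QU, layer A, module LKink: the form of a separation of order two

`p = (C, G)`, `A ⊆ gs p`, `B = gs p \ A`, so `p.1 ∪ A = C ∪ A` and `p.2 \ A = C ∪ B`. If `lam S.r p A = 1` then
`van U (C ∪ A) ⊔ van U (C ∪ B)` is the kernel of a functional `f` on `van U C`, and
`spt W (C ∪ A) ⊔ spt W (C ∪ B)` is the kernel of a functional `g` on `spt W G`.

`van U (C ∪ A) ⊓ van U (C ∪ B) = van U G` and `spt W (C ∪ A) ⊓ spt W (C ∪ B) = spt W C` give the dimensions of the sums;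
the restrictions of `f` to `van U X` and of `g` to `spt W X` are described by the rank function; `kink_inV` follows from these
descriptions and submodularity.
-/

open Module (finrank)

namespace Pool.Agent.QU

variable {K E : Type} [Field K] [Fintype E] [DecidableEq E]

/-- the product of two functionals as a form -/
def kf (f g : (E → K) →ₗ[K] K) : Fm K E := f.smulRight g

omit [Fintype E] [DecidableEq E] in
theorem kf_apply (f g : (E → K) →ₗ[K] K) (c d : E → K) : kf f g c d = f c * g d := rfl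

/-- `f`, `g` are the functionals of the separation `A` of `p` -/
structure IsKink (S : TP K E) (p : Itv E) (A : Finset E) (f g : (E → K) →ₗ[K] K) : Prop where
  hf : ∀ c ∈ van S.U p.1, f c = 0 ↔ c ∈ van S.U (p.1 ∪ A) ⊔ van S.U (p.2 \ A)
  hg : ∀ d ∈ spt S.W p.2, g d = 0 ↔ d ∈ spt S.W (p.1 ∪ A) ⊔ spt S.W (p.2 \ A)
  nf : ∃ c ∈ van S.U p.1, f c ≠ 0
  ng : ∃ d ∈ spt S.W p.2, g d ≠ 0

theorem IsKink.symm {S : TP K E} {p : Itv E} (hp : p.1 ⊆ p.2) {A : Finset E} (hA : A ⊆ gs p)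
    {f g : (E → K) →ₗ[K] K} (hk : IsKink S p A f g) : IsKink S p (gs p \ A) f g := by
  have e1 : p.1 ∪ (gs p \ A) = p.2 \ A := by
    ext y
    have h1 : y ∈ p.1 → y ∈ p.2 := fun h => hp h
    have h2 : y ∈ A → y ∈ p.2 ∧ y ∉ p.1 := fun h => Finset.mem_sdiff.1 (hA h)
    simp only [Finset.mem_union, Finset.mem_sdiff, gs]
    tauto
  have e2 : p.2 \ (gs p \ A) = p.1 ∪ A := by
    ext y
    have h1 : y ∈ p.1 → y ∈ p.2 := fun h => hp h
    have h2 : y ∈ A → y ∈ p.2 ∧ y ∉ p.1 := fun h => Finset.mem_sdiff.1 (hA h)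
    simp only [Finset.mem_union, Finset.mem_sdiff, gs]
    tauto
  refine ⟨?_, ?_, hk.nf, hk.ng⟩
  · rw [e1, e2, sup_comm]
    exact hk.hf
  · rw [e1, e2, sup_comm]
    exact hk.hg

omit [Fintype E] [DecidableEq E] in
private theorem lkink_codim [Finite E] {N V : Submodule K (E → K)} (h : N ≤ V)
    (hd : finrank K N + 1 = finrank K V) :
    ∃ f : (E → K) →ₗ[K] K, (∀ c ∈ V, f c = 0 ↔ c ∈ N) ∧ ∃ c ∈ V, f c ≠ 0 := by
  have hlt : N < V := lt_of_le_of_ne h (by
    rintro rfl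
    omega)
  obtain ⟨v0, hv0, hn⟩ := SetLike.exists_of_lt hlt
  obtain ⟨f, hf0, hf⟩ := Submodule.exists_dual_map_eq_bot_of_notMem hn inferInstance
  have hfN : ∀ c ∈ N, f c = 0 := by
    intro c hc
    have h1 : f c ∈ N.map f := Submodule.mem_map_of_mem hc
    rw [hf] at h1
    exact (Submodule.mem_bot K).1 h1
  have hle : N ≤ LinearMap.ker f ⊓ V := fun c hc => ⟨LinearMap.mem_ker.2 (hfN c hc), h hc⟩
  have hlt2 : LinearMap.ker f ⊓ V < V := lt_of_le_of_ne inf_le_right (by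
    intro he
    rw [← he] at hv0
    exact hf0 (LinearMap.mem_ker.1 hv0.1))
  have h2 := Submodule.finrank_lt_finrank_of_lt hlt2
  have h3 := Submodule.eq_of_le_of_finrank_le hle (by omega)
  refine ⟨f, fun c hc => ⟨fun h4 => ?_, hfN c⟩, v0, hv0, hf0⟩
  rw [h3]
  exact ⟨LinearMap.mem_ker.2 h4, hc⟩

omit [Fintype E] in
private theorem lkink_set {p : Itv E} (hp : p.1 ⊆ p.2) {A : Finset E} (hA : A ⊆ gs p) :
    (p.1 ∪ A) ∪ (p.2 \ A) = p.2 ∧ (p.1 ∪ A) ∩ (p.2 \ A) = p.1 := by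
  constructor
  · ext y
    have h1 : y ∈ p.1 → y ∈ p.2 := fun h => hp h
    have h2 : y ∈ A → y ∈ p.2 ∧ y ∉ p.1 := fun h => Finset.mem_sdiff.1 (hA h)
    simp only [Finset.mem_union, Finset.mem_sdiff]
    tauto
  · ext y
    have h1 : y ∈ p.1 → y ∈ p.2 := fun h => hp h
    have h2 : y ∈ A → y ∈ p.2 ∧ y ∉ p.1 := fun h => Finset.mem_sdiff.1 (hA h)
    simp only [Finset.mem_union, Finset.mem_sdiff, Finset.mem_inter]
    tauto

private theorem lkink_van (S : TP K E) (P Q : Finset E) :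
    (finrank K ↥(van S.U P ⊔ van S.U Q) : ℤ) = S.r Finset.univ - (S.r P + S.r Q - S.r (P ∪ Q)) := by
  have h5 := Submodule.finrank_sup_add_finrank_inf_eq (van S.U P) (van S.U Q)
  rw [← van_union] at h5
  have h1 := S.hU P
  have h2 := S.hU Q
  have h3 := S.hU (P ∪ Q)
  have h6 : (finrank K ↥(van S.U P ⊔ van S.U Q) : ℤ) + finrank K (van S.U (P ∪ Q)) =
      finrank K (van S.U P) + finrank K (van S.U Q) := by exact_mod_cast h5
  linarith

private theorem lkink_spt (S : TP K E) (P Q : Finset E) :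
    (finrank K ↥(spt S.W P ⊔ spt S.W Q) : ℤ) =
      (P ∪ Q).card - (S.r P + S.r Q - S.r (P ∩ Q)) := by
  have h5 := Submodule.finrank_sup_add_finrank_inf_eq (spt S.W P) (spt S.W Q)
  rw [← spt_inter] at h5
  have h1 := S.hW P
  have h2 := S.hW Q
  have h3 := S.hW (P ∩ Q)
  have h6 : (finrank K ↥(spt S.W P ⊔ spt S.W Q) : ℤ) + finrank K (spt S.W (P ∩ Q)) =
      finrank K (spt S.W P) + finrank K (spt S.W Q) := by exact_mod_cast h5
  have h7 : ((P ∪ Q).card : ℤ) + (P ∩ Q).card = P.card + Q.card := by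
    exact_mod_cast Finset.card_union_add_card_inter P Q
  linarith

theorem kink_exists (S : TP K E) {p : Itv E} (hp : p.1 ⊆ p.2) {A : Finset E} (hA : A ⊆ gs p)
    (hl : lam S.r p A = 1) : ∃ f g, IsKink S p A f g := by
  obtain ⟨e1, e2⟩ := lkink_set hp hA
  have hl' : S.r (p.1 ∪ A) + S.r (p.2 \ A) - S.r p.2 - S.r p.1 = 1 := hl
  have d1 := lkink_van S (p.1 ∪ A) (p.2 \ A)
  have d2 := lkink_spt S (p.1 ∪ A) (p.2 \ A)
  rw [e1] at d1
  rw [e1, e2] at d2
  have hs1 : p.1 ⊆ p.1 ∪ A := Finset.subset_union_left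
  have hs2 : p.1 ⊆ p.2 \ A := fun x hx =>
    Finset.mem_sdiff.2 ⟨hp hx, fun hxA => (Finset.mem_sdiff.1 (hA hxA)).2 hx⟩
  have hs3 : p.1 ∪ A ⊆ p.2 := Finset.union_subset hp (hA.trans Finset.sdiff_subset)
  have hs4 : p.2 \ A ⊆ p.2 := Finset.sdiff_subset
  obtain ⟨f, hf, hf'⟩ := lkink_codim (N := van S.U (p.1 ∪ A) ⊔ van S.U (p.2 \ A))
    (V := van S.U p.1) (sup_le (van_anti hs1) (van_anti hs2)) (by
      have h1 := S.hU p.1
      have h2 : (finrank K ↥(van S.U (p.1 ∪ A) ⊔ van S.U (p.2 \ A)) : ℤ) + 1 =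
          finrank K (van S.U p.1) := by linarith
      exact_mod_cast h2)
  obtain ⟨g, hg, hg'⟩ := lkink_codim (N := spt S.W (p.1 ∪ A) ⊔ spt S.W (p.2 \ A))
    (V := spt S.W p.2) (sup_le (spt_mono hs3) (spt_mono hs4)) (by
      have h1 := S.hW p.2
      have h2 : (finrank K ↥(spt S.W (p.1 ∪ A) ⊔ spt S.W (p.2 \ A)) : ℤ) + 1 =
          finrank K (spt S.W p.2) := by linarith
      exact_mod_cast h2)
  exact ⟨f, g, hf, hg, hf', hg'⟩

theorem kink_res_f (S : TP K E) {p : Itv E} (hp : p.1 ⊆ p.2) {A : Finset E} (hA : A ⊆ gs p)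
    {f g : (E → K) →ₗ[K] K} (hk : IsKink S p A f g) {X : Finset E} (h1 : p.1 ⊆ X) (h2 : X ⊆ p.2) :
    (∀ c ∈ van S.U X, f c = 0) ↔
      S.r (p.1 ∪ A ∪ X) + S.r (p.2 \ A ∪ X) = S.r p.2 + S.r X := by
  obtain ⟨e1, e2⟩ := lkink_set hp hA
  have e3 : (p.1 ∪ A ∪ X) ∪ (p.2 \ A ∪ X) = p.2 := by
    ext y
    have h3 : y ∈ p.1 → y ∈ p.2 := fun h => hp h
    have h4 : y ∈ A → y ∈ p.2 ∧ y ∉ p.1 := fun h => Finset.mem_sdiff.1 (hA h)
    have h5 : y ∈ X → y ∈ p.2 := fun h => h2 h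
    simp only [Finset.mem_union, Finset.mem_sdiff]
    tauto
  have d1 := lkink_van S (p.1 ∪ A ∪ X) (p.2 \ A ∪ X)
  rw [e3] at d1
  have d2 := S.hU X
  have hle : van S.U (p.1 ∪ A ∪ X) ⊔ van S.U (p.2 \ A ∪ X) ≤ van S.U X :=
    sup_le (van_anti Finset.subset_union_right) (van_anti Finset.subset_union_right)
  constructor
  · intro h
    have hge : van S.U X ≤ van S.U (p.1 ∪ A ∪ X) ⊔ van S.U (p.2 \ A ∪ X) := by
      intro c hc
      have h3 := (hk.hf c (van_anti h1 hc)).1 (h c hc)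
      obtain ⟨a, ha, b, hb, hab⟩ := Submodule.mem_sup.1 h3
      refine Submodule.mem_sup.2 ⟨a, ⟨ha.1, fun x hx => ?_⟩, b, ⟨hb.1, fun x hx => ?_⟩, hab⟩
      · rcases Finset.mem_union.1 hx with hx | hx
        · exact ha.2 x hx
        · by_cases hxA : x ∈ p.1 ∪ A
          · exact ha.2 x hxA
          · have hxB : x ∈ p.2 \ A :=
              Finset.mem_sdiff.2 ⟨h2 hx, fun h' => hxA (Finset.mem_union_right _ h')⟩
            have h4 : (a + b) x = 0 := by
              rw [hab]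
              exact hc.2 x hx
            rw [Pi.add_apply, hb.2 x hxB, add_zero] at h4
            exact h4
      · rcases Finset.mem_union.1 hx with hx | hx
        · exact hb.2 x hx
        · by_cases hxB : x ∈ p.2 \ A
          · exact hb.2 x hxB
          · have hxA : x ∈ A := by
              by_contra hxA
              exact hxB (Finset.mem_sdiff.2 ⟨h2 hx, hxA⟩)
            have h4 : (a + b) x = 0 := by
              rw [hab]
              exact hc.2 x hx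
            rw [Pi.add_apply, ha.2 x (Finset.mem_union_right _ hxA), zero_add] at h4
            exact h4
    have he := le_antisymm hle hge
    rw [he] at d1
    linarith
  · intro h c hc
    have he : van S.U (p.1 ∪ A ∪ X) ⊔ van S.U (p.2 \ A ∪ X) = van S.U X := by
      refine Submodule.eq_of_le_of_finrank_eq hle ?_
      have h3 : (finrank K ↥(van S.U (p.1 ∪ A ∪ X) ⊔ van S.U (p.2 \ A ∪ X)) : ℤ) =
          finrank K (van S.U X) := by linarith
      exact_mod_cast h3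
    rw [hk.hf c (van_anti h1 hc)]
    have hc' := hc
    rw [← he] at hc'
    have hle2 : van S.U (p.1 ∪ A ∪ X) ⊔ van S.U (p.2 \ A ∪ X) ≤
        van S.U (p.1 ∪ A) ⊔ van S.U (p.2 \ A) :=
      sup_le_sup (van_anti Finset.subset_union_left) (van_anti Finset.subset_union_left)
    exact hle2 hc'

theorem kink_res_g (S : TP K E) {p : Itv E} (hp : p.1 ⊆ p.2) {A : Finset E} (hA : A ⊆ gs p)
    {f g : (E → K) →ₗ[K] K} (hk : IsKink S p A f g) {X : Finset E} (h1 : p.1 ⊆ X) (h2 : X ⊆ p.2) :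
    (∀ d ∈ spt S.W X, g d = 0) ↔
      S.r ((p.1 ∪ A) ∩ X) + S.r ((p.2 \ A) ∩ X) = S.r X + S.r p.1 := by
  obtain ⟨e1, e2⟩ := lkink_set hp hA
  have e3 : ((p.1 ∪ A) ∩ X) ∪ ((p.2 \ A) ∩ X) = X := by
    rw [← Finset.union_inter_distrib_right, e1]
    exact Finset.inter_eq_right.2 h2
  have e4 : ((p.1 ∪ A) ∩ X) ∩ ((p.2 \ A) ∩ X) = p.1 := by
    rw [← Finset.inter_inter_distrib_right, e2]
    exact Finset.inter_eq_left.2 h1
  have d1 := lkink_spt S ((p.1 ∪ A) ∩ X) ((p.2 \ A) ∩ X)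
  rw [e3, e4] at d1
  have d2 := S.hW X
  have hle : spt S.W ((p.1 ∪ A) ∩ X) ⊔ spt S.W ((p.2 \ A) ∩ X) ≤ spt S.W X :=
    sup_le (spt_mono Finset.inter_subset_right) (spt_mono Finset.inter_subset_right)
  constructor
  · intro h
    have hge : spt S.W X ≤ spt S.W ((p.1 ∪ A) ∩ X) ⊔ spt S.W ((p.2 \ A) ∩ X) := by
      intro d hd
      have h3 := (hk.hg d (spt_mono h2 hd)).1 (h d hd)
      obtain ⟨a, ha, b, hb, hab⟩ := Submodule.mem_sup.1 h3
      refine Submodule.mem_sup.2 ⟨a, ⟨ha.1, fun x hx => ?_⟩, b, ⟨hb.1, fun x hx => ?_⟩, hab⟩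
      · by_cases hxA : x ∈ p.1 ∪ A
        · have hxX : x ∉ X := fun h' => hx (Finset.mem_inter.2 ⟨hxA, h'⟩)
          have hxB : x ∉ p.2 \ A := by
            intro h'
            have h5 : x ∈ (p.1 ∪ A) ∩ (p.2 \ A) := Finset.mem_inter.2 ⟨hxA, h'⟩
            rw [e2] at h5
            exact hxX (h1 h5)
          have h4 : (a + b) x = 0 := by
            rw [hab]
            exact hd.2 x hxX
          rw [Pi.add_apply, hb.2 x hxB, add_zero] at h4
          exact h4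
        · exact ha.2 x hxA
      · by_cases hxB : x ∈ p.2 \ A
        · have hxX : x ∉ X := fun h' => hx (Finset.mem_inter.2 ⟨hxB, h'⟩)
          have hxA : x ∉ p.1 ∪ A := by
            intro h'
            have h5 : x ∈ (p.1 ∪ A) ∩ (p.2 \ A) := Finset.mem_inter.2 ⟨h', hxB⟩
            rw [e2] at h5
            exact hxX (h1 h5)
          have h4 : (a + b) x = 0 := by
            rw [hab]
            exact hd.2 x hxX
          rw [Pi.add_apply, ha.2 x hxA, zero_add] at h4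
          exact h4
        · exact hb.2 x hxB
    have he := le_antisymm hle hge
    rw [he] at d1
    linarith
  · intro h d hd
    have he : spt S.W ((p.1 ∪ A) ∩ X) ⊔ spt S.W ((p.2 \ A) ∩ X) = spt S.W X := by
      refine Submodule.eq_of_le_of_finrank_eq hle ?_
      have h3 : (finrank K ↥(spt S.W ((p.1 ∪ A) ∩ X) ⊔ spt S.W ((p.2 \ A) ∩ X)) : ℤ) =
          finrank K (spt S.W X) := by linarith
      exact_mod_cast h3
    rw [hk.hg d (spt_mono h2 hd)]
    have hd' := hd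
    rw [← he] at hd'
    have hle2 : spt S.W ((p.1 ∪ A) ∩ X) ⊔ spt S.W ((p.2 \ A) ∩ X) ≤
        spt S.W (p.1 ∪ A) ⊔ spt S.W (p.2 \ A) :=
      sup_le_sup (spt_mono Finset.inter_subset_left) (spt_mono Finset.inter_subset_left)
    exact hle2 hd'

theorem kink_inV (S : TP K E) {p : Itv E} (hp : p.1 ⊆ p.2) {A : Finset E} (hA : A ⊆ gs p)
    (hl : lam S.r p A = 1) {f g : (E → K) →ₗ[K] K} (hk : IsKink S p A f g) :
    InV S.U S.W p (kf f g) := by
  classical
  intro c hc d hd hcd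
  rw [kf_apply]
  by_contra hne
  have hfc : f c ≠ 0 := left_ne_zero_of_mul hne
  have hgd : g d ≠ 0 := right_ne_zero_of_mul hne
  have hl' : S.r (p.1 ∪ A) + S.r (p.2 \ A) - S.r p.2 - S.r p.1 = 1 := hl
  obtain ⟨e1, e2⟩ := lkink_set hp hA
  set X : Finset E := p.2.filter fun x => c x = 0 with hX
  have h1 : p.1 ⊆ X := fun x hx => Finset.mem_filter.2 ⟨hp hx, hc.2 x hx⟩
  have h2 : X ⊆ p.2 := Finset.filter_subset _ _
  have hcX : c ∈ van S.U X := ⟨hc.1, fun x hx => (Finset.mem_filter.1 hx).2⟩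
  have hdX : d ∈ spt S.W X := by
    refine ⟨hd.1, fun x hx => ?_⟩
    by_cases hxG : x ∈ p.2
    · have hcx : c x ≠ 0 := fun h => hx (Finset.mem_filter.2 ⟨hxG, h⟩)
      exact (mul_eq_zero.1 (hcd x)).resolve_left hcx
    · exact hd.2 x hxG
  have n1 : ¬ (S.r (p.1 ∪ A ∪ X) + S.r (p.2 \ A ∪ X) = S.r p.2 + S.r X) := fun h =>
    hfc ((kink_res_f S hp hA hk h1 h2).2 h c hcX)
  have n2 : ¬ (S.r ((p.1 ∪ A) ∩ X) + S.r ((p.2 \ A) ∩ X) = S.r X + S.r p.1) := fun h =>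
    hgd ((kink_res_g S hp hA hk h1 h2).2 h d hdX)
  have s1 := S.r_submod (p.1 ∪ A ∪ X) (p.2 \ A ∪ X)
  have f1 : (p.1 ∪ A ∪ X) ∪ (p.2 \ A ∪ X) = p.2 := by
    ext y
    have h3 : y ∈ p.1 → y ∈ p.2 := fun h => hp h
    have h4 : y ∈ A → y ∈ p.2 ∧ y ∉ p.1 := fun h => Finset.mem_sdiff.1 (hA h)
    have h5 : y ∈ X → y ∈ p.2 := fun h => h2 h
    simp only [Finset.mem_union, Finset.mem_sdiff]
    tauto
  have f2 : (p.1 ∪ A ∪ X) ∩ (p.2 \ A ∪ X) = X := by
    rw [← Finset.inter_union_distrib_right, e2]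
    exact Finset.union_eq_right.2 h1
  rw [f1, f2] at s1
  have s2 := S.r_submod ((p.1 ∪ A) ∩ X) ((p.2 \ A) ∩ X)
  have f3 : ((p.1 ∪ A) ∩ X) ∪ ((p.2 \ A) ∩ X) = X := by
    rw [← Finset.union_inter_distrib_right, e1]
    exact Finset.inter_eq_right.2 h2
  have f4 : ((p.1 ∪ A) ∩ X) ∩ ((p.2 \ A) ∩ X) = p.1 := by
    rw [← Finset.inter_inter_distrib_right, e2]
    exact Finset.inter_eq_left.2 h1
  rw [f3, f4] at s2
  have s3 := S.r_submod (p.1 ∪ A) X
  have s4 := S.r_submod (p.2 \ A) X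
  omega

/-- disjoint vectors: one of the two functionals vanishes -/
theorem kink_disj (S : TP K E) {p : Itv E} (hp : p.1 ⊆ p.2) {A : Finset E} (hA : A ⊆ gs p)
    (hl : lam S.r p A = 1) {f g : (E → K) →ₗ[K] K} (hk : IsKink S p A f g) {c d : E → K}
    (hc : c ∈ van S.U p.1) (hd : d ∈ spt S.W p.2) (h : ∀ x, c x * d x = 0) : f c = 0 ∨ g d = 0 := by
  have h1 := kink_inV S hp hA hl hk c hc d hd h
  rw [kf_apply] at h1
  exact mul_eq_zero.1 h1

end Pool.Agent.QU
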