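import Pool.Agent.QUL.LGlue
import Pool.Agent.QUL.LRk

set_option autoImplicit false

/-!
# Project QU, layer A, module LOne: the one-removal lemma (helper71, helper21)

`Xs r p f a F`: `F` is a set of the box with `f` in the closure of `F - f` and `a` not in the closure of `F`.
`XConn r p f a`: these sets are connected (or there are none). `Ex S t f p`: every form in `V` of the removal of `f` extends to a
form in `V(p)`.

PLAN. `one_glue`: `glue_rm` (for `rm true f p` and `rm false a p`) gives `T₀` with `T₀ = Tf` on `rm true f p` and `T₀ = Ta` on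
`rm false a p`. For `F` with `Xs` choose `c ∈ van U F` with `c a = 1` (`S.van_one`) and `d ∈ spt W F` with `d f = 1` (`S.spt_one`) and put
`θ F = - T₀ c d`. It does not depend on the choices: if `c' ∈ van U F`, `c' a = 1` then `c - c'` is in `van U` of `rm false a p`
and disjoint from `d` (`d` vanishes outside of `F`), so `T₀ (c - c') d = Ta (c - c') d = 0`; in the same way `T₀ c' (d - d') = 0` because
`d - d'` vanishes at `f`. If `Xs` holds for `F`, `F'` and `F ∪ F'` then `θ F = θ (F ∪ F') = θ F'` (take `c ∈ van U (F ∪ F')`;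
`spt W F ≤ spt W (F ∪ F')`). So by `XConn` (induction on `Relation.ReflTransGen`) `θ` is constant; let `θ₀` be its value (`0` if there
is no `F`), and `T' = T₀ + θ₀ • (c a * d f)`; the second form vanishes on both removals. `InV`: let `c`, `d` be disjoint. If `d f = 0`
or `c a = 0` use `Tf`, `Ta`. Otherwise scale to `d f = 1`, `c a = 1`; let `F` be the set of the `x ∈ p.2` with `c x = 0`; it contains
`p.1` and `f`, `d ∈ spt W F`, `c ∈ van U F`, so `Xs` holds for `F` (`S.spt_eq_zero`, `S.van_eq_zero`, monotonicity and unit increase of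
`r`), and `T' c d = T₀ c d + θ₀ = 0`.
`ex_del`, `ex_con`: `one_glue` with `Tf = T` and `Ta` = the extension of `T` (restricted), resp. the other way round.
`ex_par`: choose `d₀ ∈ spt W (insert f (insert b q.1))` with `d₀ f = 1` (`S.spt_one`); `T' c d = T c (d - d f • d₀)`. If `c`, `d` are disjoint
and `c b = 0` then `c f = 0` (`S.van_eq_zero`), so `c` and `d - d f • d₀` are disjoint; if `c b ≠ 0` then `c f ≠ 0` (otherwise
`c` vanishes on `insert f q.1` which has the same closure), so `d f = 0`.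
-/

namespace Pool.Agent.QU

section

variable {E : Type} [DecidableEq E]

/-- sets through `f` (not a coloop) whose closure avoids `a` -/
def Xs (r : Finset E → ℤ) (p : Itv E) (f a : E) (F : Finset E) : Prop :=
  p.1 ⊆ F ∧ F ⊆ p.2 ∧ f ∈ F ∧ r (F.erase f) = r F ∧ r (insert a F) = r F + 1

/-- the poset of these sets is connected or empty -/
def XConn (r : Finset E → ℤ) (p : Itv E) (f a : E) : Prop :=
  ∀ F F' : Finset E, Xs r p f a F → Xs r p f a F' →
    Relation.ReflTransGen (fun A B => Xs r p f a A ∧ Xs r p f a B ∧ Xs r p f a (A ∪ B)) F F'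

end

variable {K E : Type} [Field K] [Fintype E] [DecidableEq E]

/-- every form on the removal of `f` extends -/
def Ex (S : TP K E) (t : Bool) (f : E) (p : Itv E) : Prop :=
  ∀ T : Fm K E, InV S.U S.W (rm t f p) T →
    ∃ T' : Fm K E, InV S.U S.W p T' ∧ EqOn S.U S.W (rm t f p) T' T

private theorem lOne_indep (S : TP K E) {p : Itv E} {f a : E} {T₀ Tf Ta : Fm K E}
    (hTf : InV S.U S.W (rm true f p) Tf) (hTa : InV S.U S.W (rm false a p) Ta)
    (h1 : EqOn S.U S.W (rm true f p) T₀ Tf) (h2 : EqOn S.U S.W (rm false a p) T₀ Ta)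
    {F : Finset E} (hF1 : p.1 ⊆ F) (hF2 : F ⊆ p.2) {c c' d d' : E → K}
    (hc : c ∈ van S.U F) (hc' : c' ∈ van S.U F) (hcc : c a = c' a)
    (hd : d ∈ spt S.W F) (hd' : d' ∈ spt S.W F) (hdd : d f = d' f) : T₀ c d = T₀ c' d' := by
  have e1 : T₀ (c - c') d = 0 := by
    have hm : c - c' ∈ van S.U (rm false a p).1 := by
      refine ⟨(van S.U F).sub_mem hc hc' |>.1, fun x hx => ?_⟩
      rw [rm_false] at hx
      rcases Finset.mem_insert.1 hx with h | h
      · rw [h, Pi.sub_apply, hcc, sub_self]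
      · exact ((van S.U F).sub_mem hc hc').2 x (hF1 h)
    have hd2 : d ∈ spt S.W (rm false a p).2 := spt_mono hF2 hd
    rw [h2 _ hm _ hd2]
    refine hTa _ hm _ hd2 fun x => ?_
    by_cases hx : x ∈ F
    · rw [((van S.U F).sub_mem hc hc').2 x hx, zero_mul]
    · rw [hd.2 x hx, mul_zero]
  have e2 : T₀ c' (d - d') = 0 := by
    have hm : d - d' ∈ spt S.W (rm true f p).2 := by
      refine ⟨(spt S.W F).sub_mem hd hd' |>.1, fun x hx => ?_⟩
      rw [rm_true] at hx
      by_cases hxf : x = f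
      · rw [hxf, Pi.sub_apply, hdd, sub_self]
      · exact ((spt S.W F).sub_mem hd hd').2 x fun h =>
          hx (Finset.mem_erase.2 ⟨hxf, hF2 h⟩)
    have hc2 : c' ∈ van S.U (rm true f p).1 := van_anti hF1 hc'
    rw [h1 _ hc2 _ hm]
    refine hTf _ hc2 _ hm fun x => ?_
    by_cases hx : x ∈ F
    · rw [hc'.2 x hx, zero_mul]
    · rw [((spt S.W F).sub_mem hd hd').2 x hx, mul_zero]
  rw [map_sub, LinearMap.sub_apply] at e1
  rw [map_sub] at e2
  rw [sub_eq_zero.1 e1, sub_eq_zero.1 e2]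

private theorem lOne_one_van (S : TP K E) {p : Itv E} {f a : E} {F : Finset E}
    (hF : Xs S.r p f a F) : ∃ c ∈ van S.U F, c a = 1 := S.van_one hF.2.2.2.2

private theorem lOne_one_spt (S : TP K E) {p : Itv E} {f a : E} {F : Finset E}
    (hF : Xs S.r p f a F) : ∃ d ∈ spt S.W F, d f = 1 := S.spt_one hF.2.2.1 hF.2.2.2.1

private theorem lOne_step (S : TP K E) {p : Itv E} {f a : E} {T₀ Tf Ta : Fm K E}
    (hTf : InV S.U S.W (rm true f p) Tf) (hTa : InV S.U S.W (rm false a p) Ta)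
    (h1 : EqOn S.U S.W (rm true f p) T₀ Tf) (h2 : EqOn S.U S.W (rm false a p) T₀ Ta)
    {A B : Finset E} (hA : Xs S.r p f a A) (hB : Xs S.r p f a B) (hAB : Xs S.r p f a (A ∪ B))
    {θ : K} (hθ : ∀ c ∈ van S.U A, c a = 1 → ∀ d ∈ spt S.W A, d f = 1 → T₀ c d = -θ) :
    ∀ c ∈ van S.U B, c a = 1 → ∀ d ∈ spt S.W B, d f = 1 → T₀ c d = -θ := by
  intro c hc hca d hd hdf
  obtain ⟨c0, hc0, hc0a⟩ := lOne_one_van S hAB
  obtain ⟨d0, hd0, hd0f⟩ := lOne_one_spt S hA
  have e1 : T₀ c0 d0 = -θ :=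
    hθ c0 (van_anti Finset.subset_union_left hc0) hc0a d0 hd0 hd0f
  have e2 : T₀ c0 d0 = T₀ c0 d :=
    lOne_indep S hTf hTa h1 h2 hAB.1 hAB.2.1 hc0 hc0 rfl
      (spt_mono Finset.subset_union_left hd0) (spt_mono Finset.subset_union_right hd)
      (hd0f.trans hdf.symm)
  have e3 : T₀ c0 d = T₀ c d :=
    lOne_indep S hTf hTa h1 h2 hB.1 hB.2.1 (van_anti Finset.subset_union_right hc0) hc
      (hc0a.trans hca.symm) hd hd rfl
  rw [← e3, ← e2, e1]

private theorem lOne_const (S : TP K E) {p : Itv E} {f a : E} (hX : XConn S.r p f a)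
    {T₀ Tf Ta : Fm K E}
    (hTf : InV S.U S.W (rm true f p) Tf) (hTa : InV S.U S.W (rm false a p) Ta)
    (h1 : EqOn S.U S.W (rm true f p) T₀ Tf) (h2 : EqOn S.U S.W (rm false a p) T₀ Ta) :
    ∃ θ : K, ∀ F, Xs S.r p f a F →
      ∀ c ∈ van S.U F, c a = 1 → ∀ d ∈ spt S.W F, d f = 1 → T₀ c d = -θ := by
  by_cases hex : ∃ F, Xs S.r p f a F
  · obtain ⟨F, hF⟩ := hex
    obtain ⟨c0, hc0, hc0a⟩ := lOne_one_van S hF
    obtain ⟨d0, hd0, hd0f⟩ := lOne_one_spt S hF
    refine ⟨-(T₀ c0 d0), fun F' hF' => ?_⟩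
    have hgen := hX F F' hF hF'
    have hbase : ∀ c ∈ van S.U F, c a = 1 → ∀ d ∈ spt S.W F, d f = 1 →
        T₀ c d = -(-(T₀ c0 d0)) := by
      intro c hc hca d hd hdf
      rw [neg_neg]
      exact lOne_indep S hTf hTa h1 h2 hF.1 hF.2.1 hc hc0 (hca.trans hc0a.symm) hd hd0
        (hdf.trans hd0f.symm)
    clear hF'
    induction hgen with
    | refl => exact hbase
    | tail _ hst ih => exact lOne_step S hTf hTa h1 h2 hst.1 hst.2.1 hst.2.2 ih
  · exact ⟨0, fun F hF => absurd ⟨F, hF⟩ hex⟩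

private theorem lOne_xs (S : TP K E) {p : Itv E} (hp : p.1 ⊆ p.2) {f a : E}
    (hf : f ∈ gs p) {c d : E → K} (hc : c ∈ van S.U p.1) (hd : d ∈ spt S.W p.2)
    (hcd : ∀ x, c x * d x = 0) (hca : c a ≠ 0) (hdf : d f ≠ 0) :
    ∃ F, Xs S.r p f a F ∧ c ∈ van S.U F ∧ d ∈ spt S.W F := by
  classical
  have hf2 : f ∈ p.2 := (Finset.mem_sdiff.1 hf).1
  have hcf : c f = 0 := (mul_eq_zero.1 (hcd f)).resolve_right hdf
  have hcF : c ∈ van S.U (p.2.filter fun x => c x = 0) :=
    ⟨hc.1, fun x hx => (Finset.mem_filter.1 hx).2⟩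
  have hdF : d ∈ spt S.W (p.2.filter fun x => c x = 0) := by
    refine ⟨hd.1, fun x hx => ?_⟩
    by_cases hx2 : x ∈ p.2
    · have hcx : c x ≠ 0 := fun h => hx (Finset.mem_filter.2 ⟨hx2, h⟩)
      exact (mul_eq_zero.1 (hcd x)).resolve_left hcx
    · exact hd.2 x hx2
  have hfF : f ∈ p.2.filter fun x => c x = 0 := Finset.mem_filter.2 ⟨hf2, hcf⟩
  refine ⟨p.2.filter fun x => c x = 0, ⟨fun x hx => Finset.mem_filter.2 ⟨hp hx, hc.2 x hx⟩,
    Finset.filter_subset _ _, hfF, ?_, ?_⟩, hcF, hdF⟩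
  · by_contra hne
    have h1 := S.r_mono (Finset.erase_subset f (p.2.filter fun x => c x = 0))
    have h2 := S.r_insert_le f ((p.2.filter fun x => c x = 0).erase f)
    rw [Finset.insert_erase hfF] at h2
    exact hdf (S.spt_eq_zero hfF (by omega) d hdF)
  · by_contra hne
    have h1 := S.r_mono (Finset.subset_insert a (p.2.filter fun x => c x = 0))
    have h2 := S.r_insert_le a (p.2.filter fun x => c x = 0)
    exact hca (S.van_eq_zero (by omega) c hcF)

theorem one_glue (S : TP K E) {p : Itv E} (hp : p.1 ⊆ p.2) {f a : E} (hfa : f ≠ a)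
    (hf : f ∈ gs p) (ha : a ∈ gs p) (hX : XConn S.r p f a) {Tf Ta : Fm K E}
    (hTf : InV S.U S.W (rm true f p) Tf) (hTa : InV S.U S.W (rm false a p) Ta)
    (h : EqOn S.U S.W (rm true f (rm false a p)) Tf Ta) :
    ∃ T : Fm K E, InV S.U S.W p T ∧ EqOn S.U S.W (rm true f p) T Tf ∧
      EqOn S.U S.W (rm false a p) T Ta := by
  have _ := hfa
  have _ := ha
  obtain ⟨T₀, h1, h2⟩ := glue_rm true false f a p Tf Ta h
  obtain ⟨θ, hθ⟩ := lOne_const S hX hTf hTa h1 h2
  have hval : ∀ c d : E → K,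
      (T₀ + θ • LinearMap.smulRight (LinearMap.proj a : (E → K) →ₗ[K] K)
        (LinearMap.proj f : (E → K) →ₗ[K] K)) c d = T₀ c d + θ * (c a * d f) := by
    intro c d
    simp only [LinearMap.add_apply, LinearMap.smul_apply, LinearMap.smulRight_apply,
      LinearMap.proj_apply, smul_eq_mul]
  have hsf : ∀ d ∈ spt S.W p.2, d f = 0 → d ∈ spt S.W (rm true f p).2 := by
    intro d hd hdf
    refine ⟨hd.1, fun x hx => ?_⟩
    rw [rm_true] at hx
    by_cases hxf : x = f
    · rw [hxf, hdf]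
    · exact hd.2 x fun h => hx (Finset.mem_erase.2 ⟨hxf, h⟩)
  have hva : ∀ c ∈ van S.U p.1, c a = 0 → c ∈ van S.U (rm false a p).1 := by
    intro c hc hca
    refine ⟨hc.1, fun x hx => ?_⟩
    rw [rm_false] at hx
    rcases Finset.mem_insert.1 hx with h | h
    · rw [h, hca]
    · exact hc.2 x h
  refine ⟨T₀ + θ • LinearMap.smulRight (LinearMap.proj a : (E → K) →ₗ[K] K)
        (LinearMap.proj f : (E → K) →ₗ[K] K), ?_, ?_, ?_⟩
  · intro c hc d hd hcd
    rw [hval]
    by_cases hdf : d f = 0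
    · rw [hdf, mul_zero, mul_zero, add_zero, h1 c hc d (hsf d hd hdf)]
      exact hTf c hc d (hsf d hd hdf) hcd
    by_cases hca : c a = 0
    · rw [hca, zero_mul, mul_zero, add_zero, h2 c (hva c hc hca) d hd]
      exact hTa c (hva c hc hca) d hd hcd
    obtain ⟨F, hF, hcF, hdF⟩ := lOne_xs S hp hf hc hd hcd hca hdf
    have h3 := hθ F hF ((c a)⁻¹ • c) ((van S.U F).smul_mem _ hcF)
      (by rw [Pi.smul_apply, smul_eq_mul, inv_mul_cancel₀ hca]) ((d f)⁻¹ • d)
      ((spt S.W F).smul_mem _ hdF) (by rw [Pi.smul_apply, smul_eq_mul, inv_mul_cancel₀ hdf])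
    rw [map_smul, map_smul, LinearMap.smul_apply, smul_eq_mul, smul_eq_mul] at h3
    have h4 : T₀ c d = (c a * d f) * ((d f)⁻¹ * ((c a)⁻¹ * T₀ c d)) := by
      field_simp
    rw [h4, h3]
    ring
  · intro c hc d hd
    have hdf : d f = 0 := hd.2 f (by rw [rm_true]; exact Finset.notMem_erase f _)
    rw [hval, hdf, mul_zero, mul_zero, add_zero]
    exact h1 c hc d hd
  · intro c hc d hd
    have hca : c a = 0 := hc.2 a (by rw [rm_false]; exact Finset.mem_insert_self a _)
    rw [hval, hca, zero_mul, mul_zero, add_zero]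
    exact h2 c hc d hd

theorem ex_del (S : TP K E) {p : Itv E} (hp : p.1 ⊆ p.2) {f a : E} (hfa : f ≠ a)
    (hf : f ∈ gs p) (ha : a ∈ gs p) (hX : XConn S.r p f a) (h : Ex S true f (rm false a p)) :
    Ex S true f p := by
  intro T hT
  obtain ⟨Ta, hTa, hE⟩ := h T (hT.mono ((rm_sub false a p).rm true f))
  obtain ⟨T', h1, h2, -⟩ := one_glue S hp hfa hf ha hX hT hTa hE.symm
  exact ⟨T', h1, h2⟩

theorem ex_con (S : TP K E) {p : Itv E} (hp : p.1 ⊆ p.2) {f a : E} (hfa : f ≠ a)
    (hf : f ∈ gs p) (ha : a ∈ gs p) (hX : XConn S.r p a f) (h : Ex S false f (rm true a p)) :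
    Ex S false f p := by
  intro T hT
  obtain ⟨Tf, hTf, hE⟩ := h T (hT.mono ((rm_sub true a p).rm false f))
  rw [rm_comm] at hE
  obtain ⟨T', h1, -, h2⟩ := one_glue S hp hfa.symm ha hf hX hTf hT hE
  exact ⟨T', h1, h2⟩

/-- parallel elements -/
theorem ex_par (S : TP K E) {q : Itv E} (hq : q.1 ⊆ q.2) {f b : E} (hfb : f ≠ b) (hf : f ∈ gs q)
    (hb : b ∈ gs q) (h1 : S.r (insert f q.1) = S.r q.1 + 1) (h2 : S.r (insert b q.1) = S.r q.1 + 1)
    (h3 : S.r (insert f (insert b q.1)) = S.r q.1 + 1) : Ex S true f q := by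
  intro T hT
  have hf' := Finset.mem_sdiff.1 hf
  have hb' := Finset.mem_sdiff.1 hb
  have hfn : f ∉ insert b q.1 := by
    rw [Finset.mem_insert, not_or]
    exact ⟨hfb, hf'.2⟩
  obtain ⟨d₀, hd₀, hd₀f⟩ := S.spt_one (G := insert f (insert b q.1)) (x := f)
    (Finset.mem_insert_self _ _) (by rw [Finset.erase_insert hfn, h2, h3])
  have hsub : insert f (insert b q.1) ⊆ q.2 :=
    Finset.insert_subset hf'.1 (Finset.insert_subset hb'.1 hq)
  have hval : ∀ c d : E → K, (T.compl₂ (LinearMap.id -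
      LinearMap.smulRight (LinearMap.proj f : (E → K) →ₗ[K] K) d₀)) c d =
      T c (d - d f • d₀) := by
    intro c d
    rfl
  refine ⟨T.compl₂ (LinearMap.id -
      LinearMap.smulRight (LinearMap.proj f : (E → K) →ₗ[K] K) d₀), ?_, ?_⟩
  · intro c hc d hd hcd
    rw [hval]
    have hm : d - d f • d₀ ∈ spt S.W (rm true f q).2 := by
      have hm1 : d - d f • d₀ ∈ spt S.W q.2 :=
        (spt S.W q.2).sub_mem hd ((spt S.W q.2).smul_mem _ (spt_mono hsub hd₀))
      refine ⟨hm1.1, fun x hx => ?_⟩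
      rw [rm_true] at hx
      by_cases hxf : x = f
      · rw [hxf, Pi.sub_apply, Pi.smul_apply, hd₀f, smul_eq_mul, mul_one, sub_self]
      · exact hm1.2 x fun h => hx (Finset.mem_erase.2 ⟨hxf, h⟩)
    refine hT c hc _ hm fun x => ?_
    by_cases hcb : c b = 0
    · have hcC : c ∈ van S.U (insert b q.1) := by
        refine ⟨hc.1, fun y hy => ?_⟩
        rcases Finset.mem_insert.1 hy with h | h
        · rw [h, hcb]
        · exact hc.2 y h
      have hcf : c f = 0 := S.van_eq_zero (by rw [h3, h2]) c hcC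
      by_cases hx : x ∈ insert f (insert b q.1)
      · rcases Finset.mem_insert.1 hx with h | h
        · rw [h, hcf, zero_mul]
        · rw [hcC.2 x h, zero_mul]
      · rw [Pi.sub_apply, Pi.smul_apply, hd₀.2 x hx, smul_zero, sub_zero, hcd x]
    · have hcf : c f ≠ 0 := by
        intro hcf
        have hcC : c ∈ van S.U (insert f q.1) := by
          refine ⟨hc.1, fun y hy => ?_⟩
          rcases Finset.mem_insert.1 hy with h | h
          · rw [h, hcf]
          · exact hc.2 y h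
        exact hcb (S.van_eq_zero (by rw [Finset.insert_comm, h3, h1]) c hcC)
      have hdf : d f = 0 := (mul_eq_zero.1 (hcd f)).resolve_left hcf
      rw [hdf, zero_smul, sub_zero, hcd x]
  · intro c hc d hd
    have hdf : d f = 0 := hd.2 f (by rw [rm_true]; exact Finset.notMem_erase f _)
    rw [hval, hdf, zero_smul, sub_zero]

/-- series elements -/
theorem ex_ser (S : TP K E) {q : Itv E} (hq : q.1 ⊆ q.2) {f b : E} (hfb : f ≠ b) (hf : f ∈ gs q)
    (hb : b ∈ gs q) (h1 : S.r (q.2.erase f) = S.r q.2) (h2 : S.r (q.2.erase b) = S.r q.2)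
    (h3 : S.r ((q.2.erase f).erase b) = S.r q.2 - 1) : Ex S false f q := by
  intro T hT
  have hf' := Finset.mem_sdiff.1 hf
  have hb' := Finset.mem_sdiff.1 hb
  have hins : insert f ((q.2.erase f).erase b) = q.2.erase b := by
    rw [Finset.erase_right_comm, Finset.insert_erase (Finset.mem_erase.2 ⟨hfb, hf'.1⟩)]
  obtain ⟨c₀, hc₀, hc₀f⟩ := S.van_one (C := (q.2.erase f).erase b) (x := f)
    (by rw [hins, h2, h3]; ring)
  have hval : ∀ c d : E → K, (T ∘ₗ (LinearMap.id -
      LinearMap.smulRight (LinearMap.proj f : (E → K) →ₗ[K] K) c₀)) c d =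
      T (c - c f • c₀) d := by
    intro c d
    rfl
  refine ⟨T ∘ₗ (LinearMap.id -
      LinearMap.smulRight (LinearMap.proj f : (E → K) →ₗ[K] K) c₀), ?_, ?_⟩
  · intro c hc d hd hcd
    rw [hval]
    have hm : c - c f • c₀ ∈ van S.U (rm false f q).1 := by
      refine ⟨S.U.sub_mem hc.1 (S.U.smul_mem _ hc₀.1), fun x hx => ?_⟩
      rw [rm_false] at hx
      rcases Finset.mem_insert.1 hx with h | h
      · rw [h, Pi.sub_apply, Pi.smul_apply, hc₀f, smul_eq_mul, mul_one, sub_self]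
      · have hxf : x ≠ f := fun h' => hf'.2 (h' ▸ h)
        have hxb : x ≠ b := fun h' => hb'.2 (h' ▸ h)
        rw [Pi.sub_apply, Pi.smul_apply, hc.2 x h,
          hc₀.2 x (Finset.mem_erase.2 ⟨hxb, Finset.mem_erase.2 ⟨hxf, hq h⟩⟩), smul_zero, sub_zero]
    refine hT _ hm d hd fun x => ?_
    by_cases hdb : d b = 0
    · have hdG : d ∈ spt S.W (q.2.erase b) := by
        refine ⟨hd.1, fun y hy => ?_⟩
        by_cases hyb : y = b
        · rw [hyb, hdb]
        · exact hd.2 y fun h => hy (Finset.mem_erase.2 ⟨hyb, h⟩)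
      have hdf : d f = 0 := S.spt_eq_zero (Finset.mem_erase.2 ⟨hfb, hf'.1⟩)
        (by rw [Finset.erase_right_comm, h3, h2]) d hdG
      by_cases hx : x ∈ (q.2.erase f).erase b
      · rw [Pi.sub_apply, Pi.smul_apply, hc₀.2 x hx, smul_zero, sub_zero, hcd x]
      · have hdx : d x = 0 := by
          by_cases hxf : x = f
          · rw [hxf, hdf]
          · by_cases hxb : x = b
            · rw [hxb, hdb]
            · exact hd.2 x fun h =>
                hx (Finset.mem_erase.2 ⟨hxb, Finset.mem_erase.2 ⟨hxf, h⟩⟩)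
        rw [hdx, mul_zero]
    · have hdf : d f ≠ 0 := by
        intro hdf
        have hdG : d ∈ spt S.W (q.2.erase f) := by
          refine ⟨hd.1, fun y hy => ?_⟩
          by_cases hyf : y = f
          · rw [hyf, hdf]
          · exact hd.2 y fun h => hy (Finset.mem_erase.2 ⟨hyf, h⟩)
        exact hdb (S.spt_eq_zero (Finset.mem_erase.2 ⟨hfb.symm, hb'.1⟩)
          (by rw [h3, h1]) d hdG)
      have hcf : c f = 0 := (mul_eq_zero.1 (hcd f)).resolve_right hdf
      rw [hcf, zero_smul, sub_zero, hcd x]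
  · intro c hc d hd
    have hcf : c f = 0 := hc.2 f (by rw [rm_false]; exact Finset.mem_insert_self f _)
    rw [hval, hcf, zero_smul, sub_zero]

/-- if the removal has only diagonal forms then everything extends -/
theorem ex_diag (S : TP K E) {t : Bool} {f : E} {p : Itv E}
    (h : ∀ T : Fm K E, InV S.U S.W (rm t f p) T → EqD S.U S.W (rm t f p) T 0) : Ex S t f p := by
  intro T hT
  obtain ⟨l, hl⟩ := h T hT
  rw [zero_add] at hl
  exact ⟨dg l, dg_inV p l, hl.symm⟩

/-- nontrivial forms extend to nontrivial forms -/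
theorem ex_nontriv (S : TP K E) {t : Bool} {f : E} {p : Itv E} (h : Ex S t f p) {T : Fm K E}
    (hT : InV S.U S.W (rm t f p) T) (h0 : ¬ EqD S.U S.W (rm t f p) T 0) :
    ∃ T' : Fm K E, InV S.U S.W p T' ∧ ¬ EqD S.U S.W p T' 0 := by
  obtain ⟨T', h1, h2⟩ := h T hT
  exact ⟨T', h1, fun h3 => h0 (h2.symm.eqD.trans (h3.mono (rm_sub t f p)))⟩

end Pool.Agent.QU
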