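import Pool.Agent.QUL.LGlue
import Pool.Agent.QUL.LTwo
import Pool.Agent.QUL.LDual

set_option autoImplicit false

/-!
# Project QU, layer A, module LPair: the pair lemma

`pair_w`: the diagonal forms which describe `T - Tw` on the two removals of `u` and `v` are glued to
one diagonal form, and `nd_zero` applies. `pair_del`: `T` vanishes on `van U A × spt W A` for all
`A` between `p.1` and `p.2`, by induction on the corank of `A` (`lpair_main`). `pair_con`: the dual
statement.
-/

open Module (finrank)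

namespace Pool.Agent.QU

variable {K E : Type} [Field K] [Fintype E] [DecidableEq E]

theorem pair_w (S : TP K E) {p : Itv E} {u v w : E} {t s : Bool} (huv : u ≠ v) (hwu : w ≠ u)
    (hwv : w ≠ v) (hu : u ∈ gs p) (hv : v ∈ gs p) {T Tw : Fm K E}
    (hTw : InV S.U S.W (rm s w p) Tw)
    (h1 : EqD S.U S.W (rm t u (rm s w p)) T Tw) (h2 : EqD S.U S.W (rm t v (rm s w p)) T Tw)
    (hom : ∀ l : E → K, EqOn S.U S.W (rm t u (rm t v (rm s w p))) (dg l) 0 →
      ∀ x ∈ gs (rm t u (rm t v (rm s w p))), l x = 0)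
    (hnd : ND S.r (rm s w p) u v t t) :
    InV S.U S.W (rm s w p) T ∧ EqD S.U S.W (rm s w p) T Tw := by
  have hu' : u ∈ gs (rm s w p) := by
    rw [gs_rm]
    exact Finset.mem_erase.2 ⟨hwu.symm, hu⟩
  have hv' : v ∈ gs (rm s w p) := by
    rw [gs_rm]
    exact Finset.mem_erase.2 ⟨hwv.symm, hv⟩
  obtain ⟨a, ha⟩ := h1
  obtain ⟨b, hb⟩ := h2
  have ha' : EqOn S.U S.W (rm t u (rm t v (rm s w p))) T (Tw + dg a) :=
    ha.mono ((rm_sub t v (rm s w p)).rm t u)
  have hb' : EqOn S.U S.W (rm t u (rm t v (rm s w p))) T (Tw + dg b) := hb.mono (rm_sub t u _)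
  have hab : ∀ x ∈ gs (rm t u (rm t v (rm s w p))), a x = b x := by
    intro x hx
    have h3 : EqOn S.U S.W (rm t u (rm t v (rm s w p))) (dg (a - b)) 0 := by
      intro c hc d hd
      have e1 := ha' c hc d hd
      have e2 := hb' c hc d hd
      rw [e1, LinearMap.add_apply, LinearMap.add_apply, LinearMap.add_apply,
        LinearMap.add_apply] at e2
      rw [dg_sub, LinearMap.sub_apply, LinearMap.sub_apply, LinearMap.zero_apply,
        LinearMap.zero_apply]
      linear_combination e2
    have h4 := hom (a - b) h3 x hx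
    rw [Pi.sub_apply] at h4
    exact sub_eq_zero.1 h4
  have e1 : EqOn S.U S.W (rm t u (rm s w p)) (dg (Function.update a u (b u))) (dg a) := by
    refine dg_congr fun x hx => ?_
    rw [gs_rm] at hx
    rw [Function.update_of_ne (Finset.mem_erase.1 hx).1]
  have e2 : EqOn S.U S.W (rm t v (rm s w p)) (dg (Function.update a u (b u))) (dg b) := by
    refine dg_congr fun x hx => ?_
    by_cases hxu : x = u
    · rw [hxu, Function.update_self]
    · rw [Function.update_of_ne hxu]
      refine hab x ?_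
      rw [gs_rm]
      exact Finset.mem_erase.2 ⟨hxu, hx⟩
  have hfin : EqOn S.U S.W (rm s w p) T (Tw + dg (Function.update a u (b u))) := by
    refine EqOn.of_sub (nd_zero S huv hu' hv' hnd (fun h => absurd rfl h) ?_ ?_)
    · intro c hc d hd
      have e3 := ha c hc d hd
      have e4 := e1 c hc d hd
      rw [LinearMap.add_apply, LinearMap.add_apply] at e3
      rw [LinearMap.sub_apply, LinearMap.sub_apply, LinearMap.add_apply, LinearMap.add_apply,
        LinearMap.zero_apply, LinearMap.zero_apply]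
      linear_combination e3 - e4
    · intro c hc d hd
      have e3 := hb c hc d hd
      have e4 := e2 c hc d hd
      rw [LinearMap.add_apply, LinearMap.add_apply] at e3
      rw [LinearMap.sub_apply, LinearMap.sub_apply, LinearMap.add_apply, LinearMap.add_apply,
        LinearMap.zero_apply, LinearMap.zero_apply]
      linear_combination e3 - e4
  have hD : EqD S.U S.W (rm s w p) T Tw := ⟨_, hfin⟩
  exact ⟨hTw.congrD hD, hD⟩

/-- two deletions that are nondegenerate span the vectors supported in `G` -/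
private theorem lpair_spt (S : TP K E) {G : Finset E} {u v : E} (huv : u ≠ v) (hu : u ∈ G)
    (hv : v ∈ G)
    (hnd : S.r (G.erase u) + S.r (G.erase v) = S.r G + S.r ((G.erase u).erase v)) :
    spt S.W (G.erase u) ⊔ spt S.W (G.erase v) = spt S.W G := by
  refine Submodule.eq_of_le_of_finrank_eq
    (sup_le (spt_mono (Finset.erase_subset _ _)) (spt_mono (Finset.erase_subset _ _))) ?_
  have h5 := Submodule.finrank_sup_add_finrank_inf_eq (spt S.W (G.erase u))
    (spt S.W (G.erase v))
  rw [← spt_inter] at h5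
  have h6 : G.erase u ∩ G.erase v = (G.erase u).erase v := by
    ext x
    simp only [Finset.mem_inter, Finset.mem_erase]
    tauto
  rw [h6] at h5
  have a1 := S.hW G
  have a2 := S.hW (G.erase u)
  have a3 := S.hW (G.erase v)
  have a4 := S.hW ((G.erase u).erase v)
  have b2 := Finset.card_erase_add_one hu
  have b3 := Finset.card_erase_add_one hv
  have b4 := Finset.card_erase_add_one (Finset.mem_erase.2 ⟨huv.symm, hv⟩)
  have c2 : ((G.erase u).card : ℤ) + 1 = G.card := by exact_mod_cast b2
  have c3 : ((G.erase v).card : ℤ) + 1 = G.card := by exact_mod_cast b3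
  have c4 : (((G.erase u).erase v).card : ℤ) + 1 = (G.erase u).card := by exact_mod_cast b4
  have c5 : (finrank K ↥(spt S.W (G.erase u) ⊔ spt S.W (G.erase v)) : ℤ) +
      finrank K (spt S.W ((G.erase u).erase v)) =
      finrank K (spt S.W (G.erase u)) + finrank K (spt S.W (G.erase v)) := by
    exact_mod_cast h5
  have c6 : (finrank K ↥(spt S.W (G.erase u) ⊔ spt S.W (G.erase v)) : ℤ) =
      finrank K (spt S.W G) := by linarith
  exact_mod_cast c6

/-- two contractions that are nondegenerate span the vectors vanishing on `C` -/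
private theorem lpair_van (S : TP K E) {C : Finset E} {u v : E}
    (hnd : S.r (insert u C) + S.r (insert v C) = S.r C + S.r (insert u (insert v C))) :
    van S.U (insert u C) ⊔ van S.U (insert v C) = van S.U C := by
  refine Submodule.eq_of_le_of_finrank_eq
    (sup_le (van_anti (Finset.subset_insert _ _)) (van_anti (Finset.subset_insert _ _))) ?_
  have h5 := Submodule.finrank_sup_add_finrank_inf_eq (van S.U (insert u C))
    (van S.U (insert v C))
  rw [← van_union] at h5
  have h6 : insert u C ∪ insert v C = insert u (insert v C) := by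
    ext x
    simp only [Finset.mem_union, Finset.mem_insert]
    tauto
  rw [h6] at h5
  have a1 := S.hU C
  have a2 := S.hU (insert u C)
  have a3 := S.hU (insert v C)
  have a4 := S.hU (insert u (insert v C))
  have c5 : (finrank K ↥(van S.U (insert u C) ⊔ van S.U (insert v C)) : ℤ) +
      finrank K (van S.U (insert u (insert v C))) =
      finrank K (van S.U (insert u C)) + finrank K (van S.U (insert v C)) := by
    exact_mod_cast h5
  have c6 : (finrank K ↥(van S.U (insert u C) ⊔ van S.U (insert v C)) : ℤ) =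
      finrank K (van S.U C) := by linarith
  exact_mod_cast c6

/-- a set of smaller rank can be extended -/
private theorem lpair_ext (S : TP K E) {A G : Finset E} (h : S.r A < S.r G) :
    ∃ x ∈ G, S.r (insert x A) = S.r A + 1 := by
  by_contra hcon
  have h0 : ∀ x ∈ G, S.r (insert x A) = S.r A := by
    intro x hx
    have h2 : S.r (insert x A) ≤ S.r A + 1 := S.r_insert_le x A
    have h3 : S.r A ≤ S.r (insert x A) := S.r_mono (Finset.subset_insert _ _)
    have h4 : S.r (insert x A) ≠ S.r A + 1 := fun h4 => hcon ⟨x, hx, h4⟩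
    omega
  have h1 : van S.U A ≤ van S.U G := fun c hc =>
    ⟨hc.1, fun x hx => S.van_eq_zero (h0 x hx) c hc⟩
  have h2 := Submodule.finrank_mono h1
  have h3 := S.hU A
  have h4 := S.hU G
  have h5 : (finrank K (van S.U A) : ℤ) ≤ finrank K (van S.U G) := by exact_mod_cast h2
  linarith

/-- the flat case of the induction -/
private theorem lpair_flat (S : TP K E) {p : Itv E} {u v : E} (huv : u ≠ v)
    {T : Fm K E} (h1 : InV S.U S.W (rm true u p) T)
    (h2 : InV S.U S.W (rm true v p) T) (hnd : ND S.r p u v true true)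
    (hw : ∀ H : Finset E, p.1 ⊆ H → H ⊆ p.2 → u ∈ H → v ∈ H → S.r H = S.r p.2 - 1 →
      (∀ x ∈ p.2, x ∉ H → S.r (insert x H) = S.r H + 1) → S.r (H.erase u) = S.r H →
      S.r (H.erase v) = S.r H → S.r ((H.erase u).erase v) = S.r H - 1 →
      ∃ w ∈ gs p, w ≠ u ∧ w ≠ v ∧ ∃ s : Bool, (s = false → w ∈ H) ∧ (s = true → w ∉ H) ∧
        InV S.U S.W (rm s w p) T)
    {H : Finset E} (hH1 : p.1 ⊆ H) (hH2 : H ⊆ p.2) (hr : S.r p.2 - 1 ≤ S.r H)
    (hcl : ∀ x ∈ p.2, x ∉ H → S.r (insert x H) = S.r H + 1) {c d : E → K}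
    (hc : c ∈ van S.U H) (hd : d ∈ spt S.W H) : T c d = 0 := by
  have hcp : c ∈ van S.U p.1 := van_anti hH1 hc
  -- a pair of vectors whose second member is supported in `H` without `x`
  have key : ∀ x, InV S.U S.W (rm true x p) T → ∀ d' ∈ spt S.W (H.erase x), T c d' = 0 := by
    intro x hx d' hd'
    refine hx c hcp d' (spt_mono (Finset.erase_subset_erase x hH2) hd') fun y => ?_
    by_cases hy : y ∈ H
    · rw [hc.2 y hy, zero_mul]
    · rw [hd'.2 y fun h3 => hy (Finset.mem_of_mem_erase h3), mul_zero]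
  by_cases huH : u ∈ H
  swap
  · exact key u h1 d (by rw [Finset.erase_eq_of_notMem huH]; exact hd)
  by_cases hvH : v ∈ H
  swap
  · exact key v h2 d (by rw [Finset.erase_eq_of_notMem hvH]; exact hd)
  by_cases hmod : S.r (H.erase u) + S.r (H.erase v) = S.r H + S.r ((H.erase u).erase v)
  · rw [← lpair_spt S huv huH hvH hmod] at hd
    obtain ⟨d1, hd1, d2, hd2, rfl⟩ := Submodule.mem_sup.1 hd
    rw [map_add, key u h1 d1 hd1, key v h2 d2 hd2, add_zero]
  · have hne : S.r H ≠ S.r p.2 := by
      intro he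
      have h3 : H = p.2 := by
        refine Finset.Subset.antisymm hH2 fun x hx => ?_
        by_contra hxH
        have h4 := hcl x hx hxH
        have h5 : S.r (insert x H) ≤ S.r p.2 := S.r_mono (Finset.insert_subset hx hH2)
        linarith
      rw [h3] at hmod
      exact hmod hnd
    have hle : S.r H ≤ S.r p.2 := S.r_mono hH2
    have e0 : S.r H = S.r p.2 - 1 := by omega
    have hvu : v ∈ H.erase u := Finset.mem_erase.2 ⟨huv.symm, hvH⟩
    have huv' : u ∈ H.erase v := Finset.mem_erase.2 ⟨huv, huH⟩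
    have a1 : S.r (H.erase u) ≤ S.r H := S.r_mono (Finset.erase_subset _ _)
    have a2 : S.r (H.erase v) ≤ S.r H := S.r_mono (Finset.erase_subset _ _)
    have a3 : S.r (H.erase u) ≤ S.r ((H.erase u).erase v) + 1 := by
      have h3 := S.r_insert_le v ((H.erase u).erase v)
      rwa [Finset.insert_erase hvu] at h3
    have a4 : S.r (H.erase v) ≤ S.r ((H.erase u).erase v) + 1 := by
      have h3 := S.r_insert_le u ((H.erase u).erase v)
      rw [Finset.erase_right_comm] at h3
      rw [Finset.insert_erase huv', Finset.erase_right_comm] at h3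
      exact h3
    have a5 : S.r H + S.r ((H.erase u).erase v) ≤ S.r (H.erase u) + S.r (H.erase v) := by
      have h3 := S.r_submod (H.erase u) (H.erase v)
      have h4 : H.erase u ∪ H.erase v = H := by
        ext x
        simp only [Finset.mem_union, Finset.mem_erase]
        constructor
        · tauto
        · intro hx
          by_cases hxu : x = u
          · right
            exact ⟨fun h5 => huv (hxu.symm.trans h5), hx⟩
          · left
            exact ⟨hxu, hx⟩
      have h6 : H.erase u ∩ H.erase v = (H.erase u).erase v := by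
        ext x
        simp only [Finset.mem_inter, Finset.mem_erase]
        tauto
      rwa [h4, h6] at h3
    have b1 : S.r (H.erase u) = S.r H := by omega
    have b2 : S.r (H.erase v) = S.r H := by omega
    have b3 : S.r ((H.erase u).erase v) = S.r H - 1 := by omega
    obtain ⟨w, hwp, -, -, s, hs1, hs2, hs3⟩ := hw H hH1 hH2 huH hvH e0 hcl b1 b2 b3
    have hdisj : ∀ y, c y * d y = 0 := by
      intro y
      by_cases hy : y ∈ H
      · rw [hc.2 y hy, zero_mul]
      · rw [hd.2 y hy, mul_zero]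
    cases s
    · refine hs3 c ?_ d (spt_mono hH2 hd) hdisj
      exact van_anti (Finset.insert_subset (hs1 rfl) hH1) hc
    · refine hs3 c hcp d ?_ hdisj
      refine spt_mono ?_ hd
      intro y hy
      exact Finset.mem_erase.2 ⟨fun h5 => hs2 rfl (h5 ▸ hy), hH2 hy⟩

/-- the sets of corank at most one -/
private theorem lpair_close (S : TP K E) {p : Itv E} {u v : E} (huv : u ≠ v)
    {T : Fm K E} (h1 : InV S.U S.W (rm true u p) T)
    (h2 : InV S.U S.W (rm true v p) T) (hnd : ND S.r p u v true true)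
    (hw : ∀ H : Finset E, p.1 ⊆ H → H ⊆ p.2 → u ∈ H → v ∈ H → S.r H = S.r p.2 - 1 →
      (∀ x ∈ p.2, x ∉ H → S.r (insert x H) = S.r H + 1) → S.r (H.erase u) = S.r H →
      S.r (H.erase v) = S.r H → S.r ((H.erase u).erase v) = S.r H - 1 →
      ∃ w ∈ gs p, w ≠ u ∧ w ≠ v ∧ ∃ s : Bool, (s = false → w ∈ H) ∧ (s = true → w ∉ H) ∧
        InV S.U S.W (rm s w p) T)
    {A : Finset E} (hA1 : p.1 ⊆ A) (hA2 : A ⊆ p.2) (hr : S.r p.2 - 1 ≤ S.r A) :
    ∀ c ∈ van S.U A, ∀ d ∈ spt S.W A, T c d = 0 := by
  intro c hc d hd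
  have hAH : A ⊆ p.2.filter fun y => S.r (insert y A) = S.r A := fun y hy =>
    Finset.mem_filter.2 ⟨hA2 hy, by rw [Finset.insert_eq_of_mem hy]⟩
  have hH2 : (p.2.filter fun y => S.r (insert y A) = S.r A) ⊆ p.2 := Finset.filter_subset _ _
  have hle : van S.U A ≤ van S.U (p.2.filter fun y => S.r (insert y A) = S.r A) :=
    fun c hc => ⟨hc.1, fun x hx => S.van_eq_zero (Finset.mem_filter.1 hx).2 c hc⟩
  have hrH : S.r (p.2.filter fun y => S.r (insert y A) = S.r A) = S.r A := by
    refine le_antisymm ?_ (S.r_mono hAH)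
    have h3 := Submodule.finrank_mono hle
    have h4 := S.hU A
    have h5 := S.hU (p.2.filter fun y => S.r (insert y A) = S.r A)
    have h6 : (finrank K (van S.U A) : ℤ) ≤
        finrank K (van S.U (p.2.filter fun y => S.r (insert y A) = S.r A)) := by
      exact_mod_cast h3
    linarith
  refine lpair_flat S huv h1 h2 hnd hw (hA1.trans hAH) hH2 (by rw [hrH]; exact hr) ?_ (hle hc)
    (spt_mono hAH hd)
  intro x hx hxH
  have h3 : S.r (insert x A) ≠ S.r A := fun h => hxH (Finset.mem_filter.2 ⟨hx, h⟩)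
  have h4 : S.r A ≤ S.r (insert x A) := S.r_mono (Finset.subset_insert _ _)
  have h5 : S.r (insert x A) ≤
      S.r (insert x (p.2.filter fun y => S.r (insert y A) = S.r A)) :=
    S.r_mono (Finset.insert_subset_insert _ hAH)
  have h6 := S.r_insert_le x (p.2.filter fun y => S.r (insert y A) = S.r A)
  omega

/-- the induction on the corank of `A` -/
private theorem lpair_main (S : TP K E) {p : Itv E} {u v : E} (huv : u ≠ v)
    {T : Fm K E} (h1 : InV S.U S.W (rm true u p) T)
    (h2 : InV S.U S.W (rm true v p) T) (hnd : ND S.r p u v true true)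
    (hw : ∀ H : Finset E, p.1 ⊆ H → H ⊆ p.2 → u ∈ H → v ∈ H → S.r H = S.r p.2 - 1 →
      (∀ x ∈ p.2, x ∉ H → S.r (insert x H) = S.r H + 1) → S.r (H.erase u) = S.r H →
      S.r (H.erase v) = S.r H → S.r ((H.erase u).erase v) = S.r H - 1 →
      ∃ w ∈ gs p, w ≠ u ∧ w ≠ v ∧ ∃ s : Bool, (s = false → w ∈ H) ∧ (s = true → w ∉ H) ∧
        InV S.U S.W (rm s w p) T) :
    ∀ n : ℕ, ∀ A : Finset E, p.1 ⊆ A → A ⊆ p.2 → S.r p.2 - S.r A ≤ n →
      ∀ c ∈ van S.U A, ∀ d ∈ spt S.W A, T c d = 0 := by
  intro n
  induction n with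
  | zero =>
    intro A hA1 hA2 hn
    have hle : S.r A ≤ S.r p.2 := S.r_mono hA2
    exact lpair_close S huv h1 h2 hnd hw hA1 hA2 (by push_cast at hn; linarith)
  | succ n ih =>
    intro A hA1 hA2 hn
    by_cases hr : S.r p.2 - 1 ≤ S.r A
    · exact lpair_close S huv h1 h2 hnd hw hA1 hA2 hr
    · obtain ⟨x, hx, hx1⟩ := lpair_ext S (A := A) (G := p.2) (by linarith)
      obtain ⟨y, hy, hy1⟩ := lpair_ext S (A := insert x A) (G := p.2) (by rw [hx1]; linarith)
      have hy2 : S.r (insert y A) = S.r A + 1 := by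
        have a1 := S.r_insert_le y A
        have a2 := S.r_insert_le x (insert y A)
        rw [Finset.insert_comm] at a2
        linarith
      have hspan := lpair_van S (C := A) (u := y) (v := x) (by rw [hy1, hx1, hy2]; ring)
      intro c hc d hd
      rw [← hspan] at hc
      obtain ⟨c1, hc1, c2, hc2, rfl⟩ := Submodule.mem_sup.1 hc
      have e1 : T c1 d = 0 := by
        refine ih (insert y A) (hA1.trans (Finset.subset_insert _ _))
          (Finset.insert_subset hy hA2) ?_ c1 hc1 d (spt_mono (Finset.subset_insert _ _) hd)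
        push_cast at hn
        linarith
      have e2 : T c2 d = 0 := by
        refine ih (insert x A) (hA1.trans (Finset.subset_insert _ _))
          (Finset.insert_subset hx hA2) ?_ c2 hc2 d (spt_mono (Finset.subset_insert _ _) hd)
        push_cast at hn
        linarith
      rw [map_add, LinearMap.add_apply, e1, e2, add_zero]

theorem pair_del (S : TP K E) {p : Itv E} (hp : p.1 ⊆ p.2) {u v : E} (huv : u ≠ v)
    (hu : u ∈ gs p) (hv : v ∈ gs p) {T : Fm K E} (h1 : InV S.U S.W (rm true u p) T)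
    (h2 : InV S.U S.W (rm true v p) T) (hnd : ND S.r p u v true true)
    (hw : ∀ H : Finset E, p.1 ⊆ H → H ⊆ p.2 → u ∈ H → v ∈ H → S.r H = S.r p.2 - 1 →
      (∀ x ∈ p.2, x ∉ H → S.r (insert x H) = S.r H + 1) → S.r (H.erase u) = S.r H →
      S.r (H.erase v) = S.r H → S.r ((H.erase u).erase v) = S.r H - 1 →
      ∃ w ∈ gs p, w ≠ u ∧ w ≠ v ∧ ∃ s : Bool, (s = false → w ∈ H) ∧ (s = true → w ∉ H) ∧
        InV S.U S.W (rm s w p) T) :
    InV S.U S.W p T := by
  classical
  have _hu := hu
  have _hv := hv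
  intro c hc d hd hcd
  refine lpair_main S huv h1 h2 hnd hw (S.r p.2 - S.r (p.2.filter fun x => c x = 0)).toNat
    (p.2.filter fun x => c x = 0) ?_ (Finset.filter_subset _ _) (Int.self_le_toNat _) c ?_ d ?_
  · exact fun x hx => Finset.mem_filter.2 ⟨hp hx, hc.2 x hx⟩
  · exact ⟨hc.1, fun x hx => (Finset.mem_filter.1 hx).2⟩
  · refine ⟨hd.1, fun x hx => ?_⟩
    by_cases hx2 : x ∈ p.2
    · have h3 : c x ≠ 0 := fun h => hx (Finset.mem_filter.2 ⟨hx2, h⟩)
      exact (mul_eq_zero.1 (hcd x)).resolve_left h3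
    · exact hd.2 x hx2

theorem pair_con (S : TP K E) {p : Itv E} (hp : p.1 ⊆ p.2) {u v : E} (huv : u ≠ v)
    (hu : u ∈ gs p) (hv : v ∈ gs p) {T : Fm K E} (h1 : InV S.U S.W (rm false u p) T)
    (h2 : InV S.U S.W (rm false v p) T) (hnd : ND S.r p u v false false)
    (hw : ∀ L : Finset E, p.1 ⊆ L → L ⊆ p.2 → u ∉ L → v ∉ L →
      (∀ x ∈ L, x ∉ p.1 → S.r (L.erase x) = S.r L) → (L.card : ℤ) - S.r L = p.1.card - S.r p.1 + 1 →
      S.r (insert u L) = S.r L + 1 → S.r (insert v L) = S.r L + 1 →
      S.r (insert u (insert v L)) = S.r L + 1 →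
      ∃ w ∈ gs p, w ≠ u ∧ w ≠ v ∧ ∃ s : Bool, (s = false → w ∈ L) ∧ (s = true → w ∉ L) ∧
        InV S.U S.W (rm s w p) T) :
    InV S.U S.W p T := by
  rw [← inV_dual]
  have hgs : gs (QUB.dp p) = gs p := QUB.gs_dp p
  refine pair_del S.dual (p := QUB.dp p) (QUB.wf_dp hp) huv (by rw [hgs]; exact hu)
    (by rw [hgs]; exact hv) ?_ ?_ (nd_dual S hu hv huv hnd) ?_
  · have h3 : rm true u (QUB.dp p) = QUB.dp (rm false u p) := QUB.rm_dp true u p
    rw [h3]
    exact inV_dual.2 h1
  · have h3 : rm true v (QUB.dp p) = QUB.dp (rm false v p) := QUB.rm_dp true v p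
    rw [h3]
    exact inV_dual.2 h2
  · intro H hH1 hH2 huH hvH e0 hcl b1 b2 b3
    have hc0 : ∀ A : Finset E, (A.card : ℤ) + Aᶜ.card = (Finset.univ : Finset E).card := by
      intro A
      rw [Finset.card_univ]
      exact_mod_cast Finset.card_add_card_compl A
    have hrd : ∀ A : Finset E, S.dual.r A = (A.card : ℤ) + S.r Aᶜ - S.r Finset.univ := fun A => rfl
    have hcu : ((H.erase u).card : ℤ) + 1 = H.card := by
      exact_mod_cast Finset.card_erase_add_one huH
    have hcv : ((H.erase v).card : ℤ) + 1 = H.card := by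
      exact_mod_cast Finset.card_erase_add_one hvH
    have hcuv : (((H.erase u).erase v).card : ℤ) + 1 = (H.erase u).card := by
      exact_mod_cast Finset.card_erase_add_one (Finset.mem_erase.2 ⟨huv.symm, hvH⟩)
    have e1 : (H.erase u)ᶜ = insert u Hᶜ := Finset.compl_erase
    have e2 : (H.erase v)ᶜ = insert v Hᶜ := Finset.compl_erase
    have e3 : ((H.erase u).erase v)ᶜ = insert u (insert v Hᶜ) := by
      rw [Finset.compl_erase, Finset.compl_erase, Finset.insert_comm]
    rw [hrd, hrd, e1] at b1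
    rw [hrd, hrd, e2] at b2
    rw [hrd, hrd, e3] at b3
    rw [hrd, hrd] at e0
    have hdp : ((QUB.dp p).2)ᶜ = p.1 := compl_compl p.1
    have hdp2 : (QUB.dp p).2 = p.1ᶜ := rfl
    rw [hdp, hdp2] at e0
    have g1 : p.1 ⊆ Hᶜ := by
      intro x hx
      refine Finset.mem_compl.2 fun h3 => ?_
      exact (Finset.mem_compl.1 (hH2 h3)) hx
    have g2 : Hᶜ ⊆ p.2 := by
      intro x hx
      by_contra h3
      exact (Finset.mem_compl.1 hx) (hH1 (Finset.mem_compl.2 h3))
    have g3 : u ∉ Hᶜ := fun h3 => (Finset.mem_compl.1 h3) huH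
    have g4 : v ∉ Hᶜ := fun h3 => (Finset.mem_compl.1 h3) hvH
    have g5 : ∀ x ∈ Hᶜ, x ∉ p.1 → S.r (Hᶜ.erase x) = S.r Hᶜ := by
      intro x hx hxp
      have h3 := hcl x (Finset.mem_compl.2 hxp) (Finset.mem_compl.1 hx)
      rw [hrd, hrd, Finset.compl_insert, Finset.card_insert_of_notMem (Finset.mem_compl.1 hx)] at h3
      push_cast at h3
      linarith
    have g6 : (Hᶜ.card : ℤ) - S.r Hᶜ = p.1.card - S.r p.1 + 1 := by
      have h3 := hc0 H
      have h4 := hc0 p.1
      linarith
    obtain ⟨w, hwp, hwu, hwv, s, hs1, hs2, hs3⟩ := hw Hᶜ g1 g2 g3 g4 g5 g6 (by linarith)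
      (by linarith) (by linarith)
    refine ⟨w, by rw [hgs]; exact hwp, hwu, hwv, !s, ?_, ?_, ?_⟩
    · intro h3
      have h4 : s = true := by simpa using h3
      have h5 := hs2 h4
      rw [Finset.mem_compl, not_not] at h5
      exact h5
    · intro h3
      have h4 : s = false := by simpa using h3
      exact Finset.mem_compl.1 (hs1 h4)
    · have h3 : rm (!s) w (QUB.dp p) = QUB.dp (rm s w p) := by
        have h4 := QUB.rm_dp (!s) w p
        rw [Bool.not_not] at h4
        exact h4
      rw [h3]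
      exact inV_dual.2 hs3

end Pool.Agent.QU
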