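import Pool.Agent.QUL.LOne
import Pool.Agent.QUL.LTwo
import Pool.Agent.QUL.LStrong

set_option autoImplicit false

/-!
# Project QU, layer A, module LSf2: rigid elements and helper22's criterion SF2

`Rg S t f q`: a form in `V(q)` which vanishes on the removal of `f` is `k * (c f * d f)`. The criterion `sf2` glues three extensions of
a form; the diagonal forms supported on `f` vanish on all removals of `f`.
-/

namespace Pool.Agent.QU

variable {K E : Type} [Field K] [Fintype E] [DecidableEq E]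

/-- `f` is rigid for the removal of type `t` -/
def Rg (S : TP K E) (t : Bool) (f : E) (q : Itv E) : Prop :=
  ∀ T : Fm K E, InV S.U S.W q T → EqOn S.U S.W (rm t f q) T 0 →
    ∃ k : K, EqOn S.U S.W q T (dg (Pi.single f k))

/-- diagonal forms supported on `f` vanish on the removals of `f` -/
private theorem LSf2_ef {U W : Submodule K (E → K)} (t : Bool) (f : E) (q : Itv E) (k : K) :
    EqOn U W (rm t f q) (dg (Pi.single f k)) 0 := by
  have h : EqOn U W (rm t f q) (dg (Pi.single f k)) (dg (0 : E → K)) := by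
    refine dg_congr fun x hx => ?_
    rw [gs_rm] at hx
    rw [Pi.single_eq_of_ne (Finset.mem_erase.1 hx).1, Pi.zero_apply]
  rw [dg_zero] at h
  exact h

private theorem LSf2_sub {U W : Submodule K (E → K)} {t : Bool} {f : E} {q : Itv E} {T R : Fm K E} (k : K)
    (h : EqOn U W (rm t f q) T R) : EqOn U W (rm t f q) (T - dg (Pi.single f k)) R := by
  intro c hc d hd
  rw [LinearMap.sub_apply, LinearMap.sub_apply, h c hc d hd, LSf2_ef t f q k c hc d hd,
    LinearMap.zero_apply, LinearMap.zero_apply, sub_zero]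

omit [Fintype E] [DecidableEq E] in
private theorem LSf2_move {U W : Submodule K (E → K)} {q : Itv E} {T R D : Fm K E}
    (h : EqOn U W q (T - R) D) : EqOn U W q (T - D) R := by
  intro c hc d hd
  have h1 := h c hc d hd
  rw [LinearMap.sub_apply, LinearMap.sub_apply] at h1 ⊢
  rw [← h1]
  ring

omit [Fintype E] [DecidableEq E] in
private theorem LSf2_zero {U W : Submodule K (E → K)} {q : Itv E} {T R : Fm K E}
    (h : EqOn U W q T R) : EqOn U W q (T - R) 0 := by
  intro c hc d hd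
  rw [LinearMap.sub_apply, LinearMap.sub_apply, h c hc d hd, sub_self, LinearMap.zero_apply,
    LinearMap.zero_apply]

theorem rg_up (S : TP K E) {q : Itv E} {f w : E} {t s : Bool} (hfw : f ≠ w) (hf : f ∈ gs q)
    (hw : w ∈ gs q) (hnd : ND S.r q f w t s) (h : Rg S t f (rm s w q)) : Rg S t f q := by
  intro T hT h0
  obtain ⟨k, hk⟩ := h T (hT.mono (rm_sub s w q)) (h0.mono ((rm_sub s w q).rm t f))
  refine ⟨k, EqOn.of_sub ?_⟩
  exact nd_zero S hfw hf hw hnd (fun _ => hT.sub (dg_inV q _)) (LSf2_sub k h0) (LSf2_zero hk)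

theorem rg_uniq (S : TP K E) (hexp : ExpAll S.r) {q : Itv E} (hq : q.1 ⊆ q.2) {f : E} {t : Bool}
    (hf : f ∈ gs q) (hc : QUB.Cn S.r q) (ho : QUB.Ok S.r q) (hc' : QUB.Cn S.r (rm t f q))
    (hN : ∃ N, QUB.Ln S.r (rm t f q) N)
    (hR : (HasRich S.r (rm t f q) ∧ ∃ Ts : Fm K E, InVs S q Ts) ∨ ¬ HasRich S.r q) :
    Rg S t f q := by
  intro T hT h0
  have hd : EqD S.U S.W q T 0 := by
    rcases hR with ⟨⟨q', hq', hrich⟩, Ts, hTs⟩ | hR
    · obtain ⟨k, hk⟩ := uniq S hexp hq hc ho hT hTs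
      have h1 : EqD S.U S.W (rm t f q) (k • Ts) 0 := (hk.mono (rm_sub t f q)).symm.trans h0.eqD
      have hk0 : k = 0 := by
        by_contra hne
        refine hTs.2 q' ((rm_sub t f q).trans hq') hrich ?_
        have h2 := (h1.mono hq').smul k⁻¹
        rw [smul_smul, inv_mul_cancel₀ hne, one_smul, smul_zero] at h2
        exact h2
      rw [hk0, zero_smul] at hk
      exact hk
    · exact uniq_zero S hexp hq hc ho ⟨hT, fun q' hq' hrich => absurd ⟨q', hq', hrich⟩ hR⟩
  obtain ⟨l, hl⟩ := hd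
  rw [zero_add] at hl
  have h1 : EqOn S.U S.W (rm t f q) (dg l) 0 := (hl.mono (rm_sub t f q)).symm.trans h0
  have h2 := hom_cn S (QUB.wf_rm hq hf) hc' hN h1
  refine ⟨l f, hl.trans (dg_congr fun x hx => ?_)⟩
  by_cases hxf : x = f
  · rw [hxf, Pi.single_eq_same]
  · rw [Pi.single_eq_of_ne hxf]
    refine h2 x ?_
    rw [gs_rm]
    exact Finset.mem_erase.2 ⟨hxf, hx⟩

theorem sf2 (S : TP K E) {p : Itv E} {f e e' : E} {t s : Bool} (hfe : f ≠ e) (hfe' : f ≠ e')
    (hee' : e ≠ e') (hf : f ∈ gs p) (he : e ∈ gs p) (he' : e' ∈ gs p) {T T1 T2 T3 : Fm K E}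
    (hT : InV S.U S.W (rm t f p) T)
    (hT1 : InV S.U S.W (rm true e p) T1) (h1 : EqOn S.U S.W (rm t f (rm true e p)) T1 T)
    (hT2 : InV S.U S.W (rm false e p) T2) (h2 : EqOn S.U S.W (rm t f (rm false e p)) T2 T)
    (hT3 : InV S.U S.W (rm s e' p) T3) (h3 : EqOn S.U S.W (rm t f (rm s e' p)) T3 T)
    (hg1 : Rg S t f (rm s e' (rm true e p))) (hg2 : Rg S t f (rm s e' (rm false e p)))
    (hnd : ND S.r (rm true e (rm false e p)) f e' t s) :
    ∃ T' : Fm K E, InV S.U S.W p T' ∧ EqOn S.U S.W (rm t f p) T' T := by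
  have hsub : ∀ b : Bool, Sub (rm s e' (rm b e p)) (rm s e' p) := fun b => (rm_sub b e p).rm s e'
  -- correction of `T1` and `T2`
  obtain ⟨k1, hk1⟩ := hg1 (T1 - T3)
    ((hT1.mono (rm_sub s e' (rm true e p))).sub (hT3.mono (hsub true)))
    (LSf2_zero ((h1.mono ((rm_sub s e' (rm true e p)).rm t f)).trans
      (h3.mono ((hsub true).rm t f)).symm))
  obtain ⟨k2, hk2⟩ := hg2 (T2 - T3)
    ((hT2.mono (rm_sub s e' (rm false e p))).sub (hT3.mono (hsub false)))
    (LSf2_zero ((h2.mono ((rm_sub s e' (rm false e p)).rm t f)).trans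
      (h3.mono ((hsub false).rm t f)).symm))
  have g1 := LSf2_move hk1
  have g2 := LSf2_move hk2
  have h1' := LSf2_sub k1 h1
  have h2' := LSf2_sub k2 h2
  have hT1' : InV S.U S.W (rm true e p) (T1 - dg (Pi.single f k1)) := hT1.sub (dg_inV _ _)
  have hT2' : InV S.U S.W (rm false e p) (T2 - dg (Pi.single f k2)) := hT2.sub (dg_inV _ _)
  generalize T1 - dg (Pi.single f k1) = R1 at g1 h1' hT1'
  generalize T2 - dg (Pi.single f k2) = R2 at g2 h2' hT2'
  -- `R1` and `R2` agree on the common box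
  have s1 : Sub (rm true e (rm false e p)) (rm true e p) := (rm_sub false e p).rm true e
  have s2 : Sub (rm true e (rm false e p)) (rm false e p) := rm_sub true e _
  have hcomm : EqOn S.U S.W (rm true e (rm false e p)) R1 R2 := by
    refine EqOn.of_sub (nd_zero S hfe' ?_ ?_ hnd (fun _ => (hT1'.mono s1).sub (hT2'.mono s2))
      (LSf2_zero ?_) (LSf2_zero ?_))
    · rw [gs_rm, gs_rm]
      exact Finset.mem_erase.2 ⟨hfe, Finset.mem_erase.2 ⟨hfe, hf⟩⟩
    · rw [gs_rm, gs_rm]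
      exact Finset.mem_erase.2 ⟨hee'.symm, Finset.mem_erase.2 ⟨hee'.symm, he'⟩⟩
    · exact (h1'.mono (s1.rm t f)).trans (h2'.mono (s2.rm t f)).symm
    · exact (g1.mono (s1.rm s e')).trans (g2.mono (s2.rm s e')).symm
  obtain ⟨T0, f1, f2⟩ := glue_rm true false e e p R1 R2 hcomm
  have hT0 : InV S.U S.W p T0 := inV_of_rm (hT1'.congr f1) (hT2'.congr f2)
  obtain ⟨k, hk⟩ := eqOn_of_rm (U := S.U) (W := S.W) (x := e) (p := rm t f p) (T := T0) (T' := T)
    (by
      rw [rm_comm]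
      exact (f1.mono (rm_sub t f _)).trans h1')
    (by
      rw [rm_comm]
      exact (f2.mono (rm_sub t f _)).trans h2')
  refine ⟨T0 - dg (Pi.single e k), hT0.sub (dg_inV _ _), ?_⟩
  intro c hc d hd
  have h4 := hk c hc d hd
  rw [LinearMap.add_apply, LinearMap.add_apply] at h4
  rw [LinearMap.sub_apply, LinearMap.sub_apply, h4, add_sub_cancel_right]

/-- the same with `Ex` -/
theorem sf2_ex (S : TP K E) {p : Itv E} {f e e' : E} {t s : Bool} (hfe : f ≠ e) (hfe' : f ≠ e')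
    (hee' : e ≠ e') (hf : f ∈ gs p) (he : e ∈ gs p) (he' : e' ∈ gs p)
    (h1 : Ex S t f (rm true e p)) (h2 : Ex S t f (rm false e p)) (h3 : Ex S t f (rm s e' p))
    (hg1 : Rg S t f (rm s e' (rm true e p))) (hg2 : Rg S t f (rm s e' (rm false e p)))
    (hnd : ND S.r (rm true e (rm false e p)) f e' t s) : Ex S t f p := by
  intro T hT
  obtain ⟨T1, hT1, e1⟩ := h1 T (hT.mono ((rm_sub true e p).rm t f))
  obtain ⟨T2, hT2, e2⟩ := h2 T (hT.mono ((rm_sub false e p).rm t f))
  obtain ⟨T3, hT3, e3⟩ := h3 T (hT.mono ((rm_sub s e' p).rm t f))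
  exact sf2 S hfe hfe' hee' hf he he' hT hT1 e1 hT2 e2 hT3 e3 hg1 hg2 hnd

end Pool.Agent.QU
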