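import Pool.Agent.QUL.LGlue
import Pool.Agent.QUL.LTwo

set_option autoImplicit false

/-!
# Project QU, layer A, module LStar: the star (triangle) lemma

Three forms on the boxes obtained by the removal of `z`, `u`, `v`, which agree pairwise up to diagonal
forms, can be changed by diagonal forms so that those for `u`, `v` agree (hypothesis `h3`) and can be
glued; the glued form agrees with the third one by `nd_zero`. The hypothesis `hcov` says that the three
boxes contain all orthogonal pairs; it holds for triangles and for triads.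
-/

namespace Pool.Agent.QU

variable {K E : Type} [Field K] [Fintype E] [DecidableEq E]

omit [Fintype E] in
private theorem lstar_van {U : Submodule K (E → K)} {C : Finset E} {x : E} {c : E → K}
    (hc : c ∈ van U C) (h : c x = 0) : c ∈ van U (insert x C) := by
  refine ⟨hc.1, fun y hy => ?_⟩
  rcases Finset.mem_insert.1 hy with h1 | h1
  · rw [h1, h]
  · exact hc.2 y h1

omit [Fintype E] in
private theorem lstar_spt {W : Submodule K (E → K)} {G : Finset E} {x : E} {d : E → K}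
    (hd : d ∈ spt W G) (h : d x = 0) : d ∈ spt W (G.erase x) := by
  refine ⟨hd.1, fun y hy => ?_⟩
  by_cases hyx : y = x
  · rw [hyx, h]
  · exact hd.2 y fun h1 => hy (Finset.mem_erase.2 ⟨hyx, h1⟩)

theorem star2 (S : TP K E) {p : Itv E} {z u v : E} {z0 t : Bool} (huv : u ≠ v) (hzu : z ≠ u)
    (hzv : z ≠ v) (hu : u ∈ gs p) (hv : v ∈ gs p) {Tz Tu Tv : Fm K E}
    (hTz : InV S.U S.W (rm z0 z p) Tz) (hTu : InV S.U S.W (rm t u p) Tu)
    (hTv : InV S.U S.W (rm t v p) Tv)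
    (h1 : EqD S.U S.W (rm t u (rm z0 z p)) Tu Tz)
    (h2 : EqD S.U S.W (rm t v (rm z0 z p)) Tv Tz)
    (h3 : ∀ T : Fm K E, InV S.U S.W (rm t u (rm t v p)) T →
      EqD S.U S.W (rm t u (rm t v p)) T (Tu - Tv) →
      EqOn S.U S.W (rm z0 z (rm t u (rm t v p))) T 0 →
      ∃ k : K, EqOn S.U S.W (rm t u (rm t v p)) T (dg (Pi.single z k)))
    (hcov : ∀ c ∈ van S.U p.1, ∀ d ∈ spt S.W p.2, (∀ x, c x * d x = 0) →
      (c ∈ van S.U (rm z0 z p).1 ∧ d ∈ spt S.W (rm z0 z p).2) ∨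
      (c ∈ van S.U (rm t u p).1 ∧ d ∈ spt S.W (rm t u p).2) ∨
      (c ∈ van S.U (rm t v p).1 ∧ d ∈ spt S.W (rm t v p).2))
    (hnd : ND S.r (rm z0 z p) u v t t) :
    ∃ T : Fm K E, InV S.U S.W p T ∧ EqD S.U S.W (rm t u p) T Tu ∧ EqD S.U S.W (rm t v p) T Tv ∧
      EqD S.U S.W (rm z0 z p) T Tz := by
  obtain ⟨a, ha⟩ := h1
  obtain ⟨b, hb⟩ := h2
  have hz0 : Tz - Tz = (0 : Fm K E) := by abel
  -- the changed forms
  have hTu' : EqOn S.U S.W (rm t u (rm z0 z p)) (Tu - dg a) Tz := fun c hc d hd => by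
    have h := ha c hc d hd
    rw [LinearMap.add_apply, LinearMap.add_apply] at h
    rw [LinearMap.sub_apply, LinearMap.sub_apply, h, add_sub_cancel_right]
  have hTv' : EqOn S.U S.W (rm t v (rm z0 z p)) (Tv - dg b) Tz := fun c hc d hd => by
    have h := hb c hc d hd
    rw [LinearMap.add_apply, LinearMap.add_apply] at h
    rw [LinearMap.sub_apply, LinearMap.sub_apply, h, add_sub_cancel_right]
  have sub1 : Sub (rm t u (rm t v p)) (rm t u p) := (rm_sub t v p).rm t u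
  have sub2 : Sub (rm t u (rm t v p)) (rm t v p) := rm_sub t u _
  have hcomm : rm z0 z (rm t u (rm t v p)) = rm t u (rm t v (rm z0 z p)) := by
    rw [rm_comm z0 t z u, rm_comm z0 t z v]
  have sub3 : Sub (rm z0 z (rm t u (rm t v p))) (rm t u (rm z0 z p)) := by
    rw [hcomm]
    exact (rm_sub t v _).rm t u
  have sub4 : Sub (rm z0 z (rm t u (rm t v p))) (rm t v (rm z0 z p)) := by
    rw [hcomm]
    exact rm_sub t u _
  have iu : InV S.U S.W (rm t u p) (Tu - dg a) := hTu.sub (dg_inV _ a)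
  have iv : InV S.U S.W (rm t v p) (Tv - dg b) := hTv.sub (dg_inV _ b)
  obtain ⟨k, hk⟩ := h3 (Tu - dg a - (Tv - dg b)) ((iu.mono sub1).sub (iv.mono sub2))
    ⟨b - a, by
      have h : Tu - dg a - (Tv - dg b) = Tu - Tv + (dg (b - a) : Fm K E) := by
        rw [dg_sub]
        abel
      rw [h]
      exact EqOn.rfl⟩
    (by
      have h := (hTu'.mono sub3).sub (hTv'.mono sub4)
      rw [hz0] at h
      exact h)
  obtain ⟨s, hs⟩ : ∃ s : Fm K E, s = dg (Pi.single z k) := ⟨_, rfl⟩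
  rw [← hs] at hk
  have hs0 : EqOn S.U S.W (rm z0 z p) s 0 := by
    rw [hs, ← dg_zero]
    refine dg_congr fun x hx => ?_
    rw [gs_rm] at hx
    rw [Pi.single_eq_of_ne (Finset.ne_of_mem_erase hx), Pi.zero_apply]
  have hTv'' : EqOn S.U S.W (rm t v (rm z0 z p)) (Tv - dg b + s) Tz := by
    have h := hTv'.add (hs0.mono (rm_sub t v _))
    rw [add_zero] at h
    exact h
  have hg : EqOn S.U S.W (rm t u (rm t v p)) (Tu - dg a) (Tv - dg b + s) := fun c hc d hd => by
    have h := hk c hc d hd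
    rw [LinearMap.sub_apply, LinearMap.sub_apply] at h
    rw [LinearMap.add_apply, LinearMap.add_apply, ← h]
    ring
  obtain ⟨T, hT1, hT2⟩ := glue_rm t t u v p (Tu - dg a) (Tv - dg b + s) hg
  have e1 : EqOn S.U S.W (rm t u (rm z0 z p)) (T - Tz) 0 := by
    have h := ((hT1.mono ((rm_sub z0 z p).rm t u)).trans hTu').sub
      (EqOn.rfl (U := S.U) (W := S.W) (T := Tz))
    rw [hz0] at h
    exact h
  have e2 : EqOn S.U S.W (rm t v (rm z0 z p)) (T - Tz) 0 := by
    have h := ((hT2.mono ((rm_sub z0 z p).rm t v)).trans hTv'').sub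
      (EqOn.rfl (U := S.U) (W := S.W) (T := Tz))
    rw [hz0] at h
    exact h
  have hu' : u ∈ gs (rm z0 z p) := by
    rw [gs_rm]
    exact Finset.mem_erase.2 ⟨hzu.symm, hu⟩
  have hv' : v ∈ gs (rm z0 z p) := by
    rw [gs_rm]
    exact Finset.mem_erase.2 ⟨hzv.symm, hv⟩
  have e3 : EqOn S.U S.W (rm z0 z p) T Tz :=
    (nd_zero S huv hu' hv' hnd (fun h => absurd rfl h) e1 e2).of_sub
  refine ⟨T, fun c hc d hd hcd => ?_, ?_, ?_, e3.eqD⟩
  · rcases hcov c hc d hd hcd with ⟨hc1, hd1⟩ | ⟨hc1, hd1⟩ | ⟨hc1, hd1⟩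
    · rw [e3 c hc1 d hd1]
      exact hTz c hc1 d hd1 hcd
    · rw [hT1 c hc1 d hd1]
      exact iu c hc1 d hd1 hcd
    · rw [hT2 c hc1 d hd1]
      refine (iv.add ?_) c hc1 d hd1 hcd
      rw [hs]
      exact dg_inV _ _
  · refine ⟨-a, ?_⟩
    have h : Tu + (dg (-a) : Fm K E) = Tu - dg a := by
      rw [dg_neg]
      abel
    rw [h]
    exact hT1
  · refine ⟨Pi.single z k - b, ?_⟩
    have h : Tv + (dg (Pi.single z k - b) : Fm K E) = Tv - dg b + s := by
      rw [dg_sub, hs]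
      abel
    rw [h]
    exact hT2

theorem star_tri (S : TP K E) {p : Itv E} {z u v : E} (huv : u ≠ v) (hzu : z ≠ u)
    (hzv : z ≠ v) (hu : u ∈ gs p) (hv : v ∈ gs p) {Tz Tu Tv : Fm K E}
    (hTz : InV S.U S.W (rm false z p) Tz) (hTu : InV S.U S.W (rm true u p) Tu)
    (hTv : InV S.U S.W (rm true v p) Tv)
    (h1 : EqD S.U S.W (rm true u (rm false z p)) Tu Tz)
    (h2 : EqD S.U S.W (rm true v (rm false z p)) Tv Tz)
    (h3 : ∀ T : Fm K E, InV S.U S.W (rm true u (rm true v p)) T →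
      EqD S.U S.W (rm true u (rm true v p)) T (Tu - Tv) →
      EqOn S.U S.W (rm false z (rm true u (rm true v p))) T 0 →
      ∃ k : K, EqOn S.U S.W (rm true u (rm true v p)) T (dg (Pi.single z k)))
    (htri : S.r (insert z (insert u (insert v p.1))) = S.r (insert u (insert v p.1)))
    (hnd : ND S.r (rm false z p) u v true true) :
    ∃ T : Fm K E, InV S.U S.W p T ∧ EqD S.U S.W (rm true u p) T Tu ∧
      EqD S.U S.W (rm true v p) T Tv ∧ EqD S.U S.W (rm false z p) T Tz := by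
  refine star2 S huv hzu hzv hu hv hTz hTu hTv h1 h2 h3 (fun c hc d hd hcd => ?_) hnd
  by_cases hdu : d u = 0
  · exact Or.inr (Or.inl ⟨hc, lstar_spt hd hdu⟩)
  by_cases hdv : d v = 0
  · exact Or.inr (Or.inr ⟨hc, lstar_spt hd hdv⟩)
  have hcu : c u = 0 := (mul_eq_zero.1 (hcd u)).resolve_right hdu
  have hcv : c v = 0 := (mul_eq_zero.1 (hcd v)).resolve_right hdv
  have hcz : c z = 0 := S.van_eq_zero htri c (lstar_van (lstar_van hc hcv) hcu)
  exact Or.inl ⟨lstar_van hc hcz, hd⟩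

theorem star_triad (S : TP K E) {p : Itv E} {z u v : E} (huv : u ≠ v) (hzu : z ≠ u)
    (hzv : z ≠ v) (hz : z ∈ gs p) (hu : u ∈ gs p) (hv : v ∈ gs p) {Tz Tu Tv : Fm K E}
    (hTz : InV S.U S.W (rm true z p) Tz) (hTu : InV S.U S.W (rm false u p) Tu)
    (hTv : InV S.U S.W (rm false v p) Tv)
    (h1 : EqD S.U S.W (rm false u (rm true z p)) Tu Tz)
    (h2 : EqD S.U S.W (rm false v (rm true z p)) Tv Tz)
    (h3 : ∀ T : Fm K E, InV S.U S.W (rm false u (rm false v p)) T →
      EqD S.U S.W (rm false u (rm false v p)) T (Tu - Tv) →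
      EqOn S.U S.W (rm true z (rm false u (rm false v p))) T 0 →
      ∃ k : K, EqOn S.U S.W (rm false u (rm false v p)) T (dg (Pi.single z k)))
    (htri : S.r (((p.2.erase u).erase v).erase z) = S.r ((p.2.erase u).erase v) - 1)
    (hnd : ND S.r (rm true z p) u v false false) :
    ∃ T : Fm K E, InV S.U S.W p T ∧ EqD S.U S.W (rm false u p) T Tu ∧
      EqD S.U S.W (rm false v p) T Tv ∧ EqD S.U S.W (rm true z p) T Tz := by
  refine star2 S huv hzu hzv hu hv hTz hTu hTv h1 h2 h3 (fun c hc d hd hcd => ?_) hnd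
  by_cases hcu : c u = 0
  · exact Or.inr (Or.inl ⟨lstar_van hc hcu, hd⟩)
  by_cases hcv : c v = 0
  · exact Or.inr (Or.inr ⟨lstar_van hc hcv, hd⟩)
  have hdu : d u = 0 := (mul_eq_zero.1 (hcd u)).resolve_left hcu
  have hdv : d v = 0 := (mul_eq_zero.1 (hcd v)).resolve_left hcv
  have hz2 : z ∈ (p.2.erase u).erase v :=
    Finset.mem_erase.2 ⟨hzv, Finset.mem_erase.2 ⟨hzu, (Finset.mem_sdiff.1 hz).1⟩⟩
  have hdz : d z = 0 := S.spt_eq_zero hz2 htri d (lstar_spt (lstar_spt hd hdu) hdv)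
  exact Or.inl ⟨hc, lstar_spt hd hdz⟩

end Pool.Agent.QU
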