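import Pool.Agent.QUL.LStrong

set_option autoImplicit false

/-!
# Project QU, layer A, module LVs: from a nontrivial form in `V(p)` to a form in `V_*(p)`

If a form is diagonal on a rich minor of `p`, it is diagonal on two removals of `p` (uniqueness) and so on `p`.
-/

namespace Pool.Agent.QU

variable {K E : Type} [Field K] [Fintype E] [DecidableEq E]

/-- a multiple of a form in `V_*` which is diagonal on a rich minor is zero -/
private theorem lvs_zero {S : TP K E} {p q : Itv E} {T Ts : Fm K E} (hTs : InVs S p Ts)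
    (hq : Sub q p) (hR : Rich S.r q) {k : K} (hk : EqD S.U S.W p T (k • Ts))
    (hd : EqD S.U S.W q T 0) : k = 0 := by
  by_contra hk0
  have h1 : EqD S.U S.W q (k • Ts) 0 := (hk.mono hq).symm.trans hd
  have h2 := h1.smul k⁻¹
  rw [smul_smul, inv_mul_cancel₀ hk0, one_smul, smul_zero] at h2
  exact hTs.2 q hq hR h2

theorem vs_of_pairs (S : TP K E) (hexp : ExpAll S.r) {p : Itv E} (hp : p.1 ⊆ p.2) {T : Fm K E}
    (hT : InV S.U S.W p T) (h0 : ¬ EqD S.U S.W p T 0)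
    (H : ∀ q, Sub q p → Rich S.r q → ∃ u ∈ gs p, ∃ t : Bool, Sub q (rm t u p) ∧
      QUB.Cn S.r (rm t u p) ∧ QUB.Ok S.r (rm t u p) ∧ (∃ Tu : Fm K E, InVs S (rm t u p) Tu) ∧
      ∃ v ∈ gs p, u ≠ v ∧ ∃ s : Bool, QUB.Cn S.r (rm s v p) ∧ QUB.Ok S.r (rm s v p) ∧
        (∃ Tv : Fm K E, InVs S (rm s v p) Tv) ∧ QUB.Cn S.r (rm t u (rm s v p)) ∧
        (∃ N, QUB.Ln S.r (rm t u (rm s v p)) N) ∧ ND S.r p u v t s ∧
        (¬ HasRich S.r (rm s v p) ∨ HasRich S.r (rm t u (rm s v p)))) : InVs S p T := by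
  refine ⟨hT, fun q hq hR hqd => h0 ?_⟩
  obtain ⟨u, hu, t, hqu, cu, ou, ⟨Tu, hTu⟩, v, hv, huv, s, cv, ov, ⟨Tv, hTv⟩, cR, lR, nd, hr⟩ :=
    H q hq hR
  have wu : (rm t u p).1 ⊆ (rm t u p).2 := QUB.wf_rm hp hu
  have wv : (rm s v p).1 ⊆ (rm s v p).2 := QUB.wf_rm hp hv
  have wR : (rm t u (rm s v p)).1 ⊆ (rm t u (rm s v p)).2 := QUB.wf_rm wv (by
    have h6 : u ∈ gs (rm s v p) := by
      rw [gs_rm]
      exact Finset.mem_erase.2 ⟨huv, hu⟩
    exact h6)
  have hom : ∀ l : E → K, EqOn S.U S.W (rm t u (rm s v p)) (dg l) 0 →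
      ∀ x ∈ gs (rm t u (rm s v p)), l x = 0 := fun l hl => hom_cn S wR cR lR hl
  -- `T` is diagonal on `rm t u p`
  have h1 : EqD S.U S.W (rm t u p) T 0 := by
    obtain ⟨k, hk⟩ := uniq S hexp wu cu ou (hT.mono (rm_sub t u p)) hTu
    have hk0 := lvs_zero hTu hqu hR hk hqd
    rw [hk0, zero_smul] at hk
    exact hk
  -- `T` is diagonal on `rm s v p`
  have h2 : EqD S.U S.W (rm s v p) T 0 := by
    rcases hr with hr | hr
    · exact uniq_zero S hexp wv cv ov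
        ⟨hT.mono (rm_sub s v p), fun q' hq' hR' => absurd ⟨q', hq', hR'⟩ hr⟩
    · obtain ⟨q', hq', hR'⟩ := hr
      obtain ⟨k, hk⟩ := uniq S hexp wv cv ov (hT.mono (rm_sub s v p)) hTv
      have hs1 : Sub q' (rm s v p) := (rm_sub t u (rm s v p)).trans hq'
      have hs2 : Sub q' (rm t u p) := by
        rw [rm_comm] at hq'
        exact (rm_sub s v (rm t u p)).trans hq'
      have hk0 := lvs_zero hTv hs1 hR' hk (h1.mono hs2)
      rw [hk0, zero_smul] at hk
      exact hk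
  have e : (0 : K) • (0 : Fm K E) = 0 := smul_zero 0
  have h6 := uniq_step S huv hu hv hT (Ts := 0) InV.zero (k := 0) (k' := 0)
    (by rw [e]; exact h1) (by rw [e]; exact h2) (Or.inl rfl) hom nd
  rw [e] at h6
  exact h6

end Pool.Agent.QU
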